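import Pool.Agent.Lib.MP_7beb49_co.Growth

/-!
# Spectral gap of every constituent in terms of the size of its balls and `D_min`

For every primitive coherent configuration on at least three vertices, every edge colour `i`,
every vertex `v` and every radius `s ≥ 1`, the spectral gap of the symmetrised constituent is at
least `d_i * min (1 / (4 s ^ 2)) ((|B_s(v)| / (24 s D_min)) ^ 2)`, where `B_s(v)` is the ball of
radius `s` around `v` in the constituent.
-/

set_option autoImplicit false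

namespace Pool.Agent.Lib.MP_7beb49_co.Balls

open Pool.Agent.Lib.MP_7beb49_co

/-- Along walks the angle is subadditive. -/
theorem ball_parallel {V κ : Type} [Fintype V] [DecidableEq V] {c : V → V → κ}
    {Q : Matrix V V ℝ} (hc : IsPCC c) (hQ : Proj c Q) {x y : V} {μ : ℝ} (hμ : 0 ≤ μ)
    (hpar : (1 - 2 * μ) * Q x x ^ 2 ≤ Q x y ^ 2) (hconn : (constituent c (c x y)).Connected)
    (v : V) (s : ℕ) (w : V) (hw : (constituent c (c x y)).dist v w ≤ s) :
    (1 - 2 * ((s : ℝ) ^ 2 * μ)) * Q v v ^ 2 ≤ Q v w ^ 2 := by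
  have hpos := hQ.pos hc v
  set ρ : ℝ := Real.sqrt (4 * μ) with hρ
  have hρ2 : ρ ^ 2 = 4 * μ := Real.sq_sqrt (by linarith)
  have hρ0 : 0 ≤ ρ := Real.sqrt_nonneg _
  have hadj : ∀ a b, (constituent c (c x y)).Adj a b →
      ‖Proj.vec Q a - Proj.vec Q b‖ ≤ ρ := by
    intro a b hab
    have h0 : (1 - 2 * μ) * Q v v ^ 2 ≤ Q a b ^ 2 := by
      rw [hQ.diag hc v x]
      rw [constituent, SimpleGraph.fromRel_adj] at hab
      rcases hab.2 with h | h
      · rw [hQ.mem a b x y h]; exact hpar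
      · rw [hQ.symm a b, hQ.mem b a x y h]; exact hpar
    have h1 := hQ.norm_sub_sq hc a b
    rw [hQ.diag hc a v] at h1
    have h3 : 0 < Q v v ^ 2 := by positivity
    have h4 : ‖Proj.vec Q a - Proj.vec Q b‖ ^ 2 ≤ ρ ^ 2 := by
      rw [hρ2]
      have : ‖Proj.vec Q a - Proj.vec Q b‖ ^ 2 * Q v v ^ 2 ≤ (4 * μ) * Q v v ^ 2 := by
        rw [h1]; nlinarith
      exact le_of_mul_le_mul_right this h3
    exact (sq_le_sq₀ (norm_nonneg _) hρ0).1 h4
  have hdist : ‖Proj.vec Q v - Proj.vec Q w‖ ≤ ((constituent c (c x y)).dist v w : ℝ) * ρ := by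
    obtain ⟨p, hp⟩ := hconn.exists_walk_length_eq_dist v w
    rw [← hp]
    clear hp hw
    induction p with
    | nil => simp
    | @cons a b d hab p ih =>
      rw [SimpleGraph.Walk.length_cons]
      have h1 : ‖Proj.vec Q a - Proj.vec Q d‖ ≤
          ‖Proj.vec Q a - Proj.vec Q b‖ + ‖Proj.vec Q b - Proj.vec Q d‖ :=
        norm_sub_le_norm_sub_add_norm_sub _ _ _
      have h2 := hadj a b hab
      have h3 := ih (hQ.pos hc b)
      push_cast
      linarith
  have hs : ‖Proj.vec Q v - Proj.vec Q w‖ ≤ (s : ℝ) * ρ :=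
    hdist.trans (mul_le_mul_of_nonneg_right (by exact_mod_cast hw) hρ0)
  have h1 := hQ.norm_sub_sq hc v w
  have h2 : ‖Proj.vec Q v - Proj.vec Q w‖ ^ 2 ≤ ((s : ℝ) * ρ) ^ 2 :=
    pow_le_pow_left₀ (norm_nonneg _) hs 2
  rw [mul_pow, hρ2] at h2
  have h3 : 0 < Q v v ^ 2 := by positivity
  have h4 : ‖Proj.vec Q v - Proj.vec Q w‖ ^ 2 * Q v v ^ 2 ≤ ((s : ℝ) ^ 2 * (4 * μ)) * Q v v ^ 2 :=
    mul_le_mul_of_nonneg_right h2 h3.le
  rw [h1] at h4
  nlinarith

/-- **Theorem** (helper6, helper37, helper75). -/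
theorem gap_balls : ∀ (V κ : Type) [Fintype V] (c : V → V → κ), IsPCC c → 3 ≤ Fintype.card V →
    ∀ x y : V, x ≠ y → ∀ v : V, ∀ s : ℕ, 1 ≤ s →
      (deg (constituent c (c x y)) v : ℝ) *
          min (1 / (4 * (s : ℝ) ^ 2))
            ((({w | (constituent c (c x y)).dist v w ≤ s}.ncard : ℝ) /
              (24 * s * (Dmin c : ℝ))) ^ 2)
        ≤ (deg (constituent c (c x y)) v : ℝ) - xi (constituent c (c x y)) := by
  classical
  intro V κ _ c hc hn x y hxy v s hs1
  set H := constituent c (c x y) with hH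
  set d : ℝ := (deg H v : ℝ) with hd
  set B : ℝ := ({w | H.dist v w ≤ s}.ncard : ℝ) with hB
  have hs0 : (1 : ℝ) ≤ s := by exact_mod_cast hs1
  -- `D_min` is attained
  have hne : {d | ∃ a b, a ≠ b ∧ d = distinguishing c a b}.Nonempty := ⟨_, x, y, hxy, rfl⟩
  obtain ⟨a, b, hab, hD⟩ := Nat.sInf_mem hne
  have hDmin : Dmin c = distinguishing c a b := hD
  -- the degree does not depend on the vertex
  have hdegc : ∀ u w, deg H u = deg H w := by
    intro u w
    refine ncard_eq hc (P := fun a b => H.Adj a b) ?_ u w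
    intro u v u' v' h
    have h' := hc.conv _ _ _ _ h
    rw [hH, constituent, SimpleGraph.fromRel_adj, SimpleGraph.fromRel_adj, h, h']
    have : u ≠ v ↔ u' ≠ v' := by
      constructor
      · rintro h1 rfl
        exact hc.diag_ne _ _ _ h1 h.symm
      · rintro h1 rfl
        exact hc.diag_ne _ _ _ h1 h
    rw [this]
  have hdpos : 0 < d := by
    have h1 : 0 < deg H x := by
      rw [deg, Set.ncard_pos (Set.toFinite _)]
      refine ⟨y, ?_⟩
      rw [SimpleGraph.mem_neighborSet, hH, constituent, SimpleGraph.fromRel_adj]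
      exact ⟨hxy, Or.inl rfl⟩
    rw [hd, hdegc v x]
    exact_mod_cast h1
  have hBpos : 0 < B := by
    have h1 : 0 < {w | H.dist v w ≤ s}.ncard := by
      rw [Set.ncard_pos (Set.toFinite _)]
      exact ⟨v, by simp⟩
    rw [hB]
    exact_mod_cast h1
  have hconn : H.Connected := hc.primitive x y hxy
  set μ : ℝ := min (1 / (4 * (s : ℝ) ^ 2)) ((B / (24 * s * (Dmin c : ℝ))) ^ 2) with hμ
  have hμ0 : 0 ≤ μ := le_min (by positivity) (sq_nonneg _)
  have hμs : (s : ℝ) ^ 2 * μ ≤ 1 / 4 := by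
    have h1 : μ ≤ 1 / (4 * (s : ℝ) ^ 2) := min_le_left _ _
    have h2 : (s : ℝ) ^ 2 * μ ≤ (s : ℝ) ^ 2 * (1 / (4 * (s : ℝ) ^ 2)) :=
      mul_le_mul_of_nonneg_left h1 (by positivity)
    have h3 : (s : ℝ) ^ 2 * (1 / (4 * (s : ℝ) ^ 2)) = 1 / 4 := by field_simp
    linarith
  have hs2 : (1 : ℝ) ≤ (s : ℝ) ^ 2 := by nlinarith
  have hμ1 : μ ≤ 1 / 4 := by
    have := mul_le_mul_of_nonneg_right hs2 hμ0
    linarith
  have hxi : xi H ≤ d - d * μ := by
    apply Real.sSup_le _ (by nlinarith)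
    rintro t ⟨θ, f, hf, hf0, hev, rfl⟩
    by_contra hcon
    push Not at hcon
    obtain ⟨Q, hQ, hAQ⟩ := exists_proj_of_eigen hc (c x y) hf hf0 (by convert hev)
    have hpos := hQ.pos hc v
    have hfr := hQ.one_le_distinguishing hc hab v
    rw [← hDmin] at hfr
    have hDpos : (0 : ℝ) < (Dmin c : ℝ) := by
      by_contra h
      push Not at h
      nlinarith
    have hμpos : 0 < μ := lt_min (by positivity) (by positivity)
    have hentry : d * Q x y = θ * Q v v := by
      have h1 := hQ.entry (x := x) (y := y) hAQ v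
      rw [← hH] at h1
      exact h1
    -- almost parallel, strictly
    have hpar : (1 - 2 * μ) * Q x x ^ 2 < Q x y ^ 2 := by
      have h1 : d ^ 2 * Q x y ^ 2 = θ ^ 2 * Q v v ^ 2 := by
        rw [← mul_pow, hentry, mul_pow]
      have h2 : (d - d * μ) ^ 2 < θ ^ 2 := by
        rw [← sq_abs θ]
        have : 0 ≤ d - d * μ := by nlinarith
        exact pow_lt_pow_left₀ hcon this two_ne_zero
      have h3 : (1 - 2 * μ) * d ^ 2 ≤ (d - d * μ) ^ 2 := by nlinarith [sq_nonneg (d * μ)]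
      have h4 : 0 < Q v v ^ 2 := by positivity
      have h5 : d ^ 2 * ((1 - 2 * μ) * Q v v ^ 2) < d ^ 2 * Q x y ^ 2 := by
        rw [h1]
        nlinarith
      rw [hQ.diag hc x v]
      exact lt_of_mul_lt_mul_left h5 (by positivity)
    -- a slightly smaller parameter
    obtain ⟨ν, hν0, hνμ, hνpar⟩ : ∃ ν : ℝ, 0 < ν ∧ ν < μ ∧
        (1 - 2 * ν) * Q x x ^ 2 ≤ Q x y ^ 2 := by
      have hxx : 0 < Q x x ^ 2 := by
        have := hQ.pos hc x
        positivity
      refine ⟨max (μ / 2) ((1 - Q x y ^ 2 / Q x x ^ 2) / 2), ?_, ?_, ?_⟩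
      · exact lt_of_lt_of_le (by linarith) (le_max_left _ _)
      · refine max_lt (by linarith) ?_
        have h1 : (1 - 2 * μ) < Q x y ^ 2 / Q x x ^ 2 := by
          rw [lt_div_iff₀ hxx]; exact hpar
        linarith
      · have h1 := le_max_right (μ / 2) ((1 - Q x y ^ 2 / Q x x ^ 2) / 2)
        have h2 : 1 - 2 * max (μ / 2) ((1 - Q x y ^ 2 / Q x x ^ 2) / 2) ≤
            Q x y ^ 2 / Q x x ^ 2 := by linarith
        calc _ ≤ Q x y ^ 2 / Q x x ^ 2 * Q x x ^ 2 := mul_le_mul_of_nonneg_right h2 hxx.le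
          _ = Q x y ^ 2 := div_mul_cancel₀ _ hxx.ne'
    set δ : ℝ := (s : ℝ) ^ 2 * ν with hδ
    have hδ0 : 0 < δ := by positivity
    have hδ1 : δ ≤ 1 / 4 := by
      have : δ ≤ (s : ℝ) ^ 2 * μ := mul_le_mul_of_nonneg_left hνμ.le (by positivity)
      linarith
    have hparδ : (1 - 2 * δ) * Q x x ^ 2 ≤ Q x y ^ 2 := by
      have h1 : ν ≤ δ := by
        rw [hδ]
        have := mul_le_mul_of_nonneg_right hs2 hν0.le
        linarith
      have h2 : 0 ≤ Q x x ^ 2 := sq_nonneg _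
      nlinarith
    have hgr := hQ.growth hc hn hδ0 hδ1 hxy hparδ
    -- the almost parallel set contains the ball
    have hsub : {w | H.dist v w ≤ s} ⊆ {w | (1 - 2 * δ) * Q v v ^ 2 ≤ Q v w ^ 2} := by
      intro w hw
      exact ball_parallel hc hQ hν0.le hνpar hconn v s w hw
    have hcard : ({w | H.dist v w ≤ s}.ncard : ℝ) ≤
        ({w | (1 - 2 * δ) * Q x x ^ 2 ≤ Q x w ^ 2}.ncard : ℝ) := by
      have h1 : {w | (1 - 2 * δ) * Q v v ^ 2 ≤ Q v w ^ 2}.ncard =
          {w | (1 - 2 * δ) * Q x x ^ 2 ≤ Q x w ^ 2}.ncard := by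
        have h2 := ncard_eq hc (P := fun a b => (1 - 2 * δ) * Q v v ^ 2 ≤ Q a b ^ 2)
          (fun a b a' b' h => by rw [hQ.mem a b a' b' h]) v x
        rw [hQ.diag hc x v]
        exact h2
      rw [← h1]
      exact_mod_cast Set.ncard_le_ncard hsub (Set.toFinite _)
    rw [← hB] at hcard
    rw [hQ.diag hc x v] at hgr hcard
    have hsqν : Real.sqrt δ < B / (24 * (Dmin c : ℝ)) := by
      have h1 : Real.sqrt δ < Real.sqrt ((s : ℝ) ^ 2 * μ) :=
        Real.sqrt_lt_sqrt hδ0.le (mul_lt_mul_of_pos_left hνμ (by positivity))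
      have h2 : Real.sqrt ((s : ℝ) ^ 2 * μ) ≤ B / (24 * (Dmin c : ℝ)) := by
        rw [Real.sqrt_le_left (by positivity)]
        have h3 : μ ≤ (B / (24 * s * (Dmin c : ℝ))) ^ 2 := min_le_right _ _
        have h4 : (s : ℝ) ^ 2 * (B / (24 * s * (Dmin c : ℝ))) ^ 2 =
            (B / (24 * (Dmin c : ℝ))) ^ 2 := by
          field_simp
        rw [← h4]
        exact mul_le_mul_of_nonneg_left h3 (by positivity)
      linarith
    have h1 : B * Q v v < B / (Dmin c : ℝ) := by
      have h2 : 24 * Real.sqrt δ < B / (Dmin c : ℝ) := by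
        have h3 : B / (Dmin c : ℝ) = 24 * (B / (24 * (Dmin c : ℝ))) := by
          field_simp
        rw [h3]
        linarith
      have h4 := mul_le_mul_of_nonneg_right hcard hpos.le
      linarith
    rw [lt_div_iff₀ hDpos] at h1
    have h2 : B * 1 ≤ B * ((Dmin c : ℝ) * Q v v) := by
      refine mul_le_mul_of_nonneg_left ?_ hBpos.le
      linarith
    nlinarith
  linarith

end Pool.Agent.Lib.MP_7beb49_co.Balls
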