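import Pool.Agent.Lib.MP_7beb49_co.LogRank

/-!
# The slow part of the spectrum of a constituent

For a constituent `X` with degree `d` and a level `t ≥ 0`, the matrix `H = ∑ sign θ Q_θ`, where the
sum is over the eigenvalues `θ ≠ d` with `t < |θ|` and `Q_θ` is the spectral projection. It is in
the coherent algebra, `H * H` is the projection on the sum of the eigenspaces.
-/

set_option autoImplicit false
set_option linter.unusedSectionVars false

namespace Pool.Agent.Lib.MP_7beb49_co

open Finset Matrix Walk LogRank Polynomial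

open Classical in
/-- The number of eigenvalues of absolute value larger than `t` of the adjacency matrix, counted
with multiplicity, among those with eigenvectors orthogonal to the constants. -/
noncomputable def eigCount {V : Type} [Fintype V] (X : SimpleGraph V) (t : ℝ) : ℕ :=
  Module.finrank ℝ (Submodule.span ℝ {f : V → ℝ | ∑ v, f v = 0 ∧
    ∃ θ : ℝ, t < |θ| ∧ (X.adjMatrix ℝ).mulVec f = θ • f})

namespace Band

variable {V κ : Type} [Fintype V] [DecidableEq V] {c : V → V → κ}

/-- A function of a symmetric matrix, as a polynomial. -/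
theorem exists_poly {A : Matrix V V ℝ} (hA : A.transpose = A) (f : ℝ → ℝ) (d : ℝ) :
    ∃ (p : ℝ[X]) (lam : V → ℝ) (e : V → V → ℝ),
      (∀ i, A *ᵥ e i = lam i • e i) ∧ (∀ i, ∑ v, e i v * e i v = 1) ∧
      (∀ M : Matrix V V ℝ, M.trace = ∑ i, e i ⬝ᵥ (M *ᵥ e i)) ∧
      (∀ g : V → ℝ, g = ∑ i, (e i ⬝ᵥ g) • e i) ∧
      (∀ i, p.eval (lam i) = f (lam i)) ∧ p.eval d = f d := by
  classical
  have hH : A.IsHermitian := by
    rw [IsHermitian, conjTranspose_eq_transpose_of_trivial, hA]
  set e : V → V → ℝ := fun i => ⇑(hH.eigenvectorBasis i) with he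
  set lam : V → ℝ := hH.eigenvalues with hlam
  have hAe : ∀ i, A *ᵥ e i = lam i • e i := fun i => hH.mulVec_eigenvectorBasis i
  have hunit : ∀ i, ∑ v, e i v * e i v = 1 := by
    intro i
    have h1 := hH.eigenvectorBasis.orthonormal.1 i
    have h2 : ‖hH.eigenvectorBasis i‖ ^ 2 = 1 := by rw [h1]; norm_num
    rw [EuclideanSpace.real_norm_sq_eq] at h2
    rw [← h2]
    exact Finset.sum_congr rfl fun x _ => by simp only [he]; ring
  set U : Matrix V V ℝ := (hH.eigenvectorUnitary : Matrix V V ℝ) with hU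
  have hUU : U * U.transpose = 1 := by
    have := (Unitary.mem_iff.1 hH.eigenvectorUnitary.2).2
    simpa [hU, star_eq_conjTranspose, conjTranspose_eq_transpose_of_trivial] using this
  have hUe : ∀ x i, U x i = e i x := fun x i => rfl
  have htr : ∀ M : Matrix V V ℝ, M.trace = ∑ i, e i ⬝ᵥ (M *ᵥ e i) := by
    intro M
    have h1 : M.trace = (U.transpose * M * U).trace := by
      rw [Matrix.trace_mul_comm (U.transpose * M) U, ← Matrix.mul_assoc, hUU, Matrix.one_mul]
    rw [h1, Matrix.trace]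
    refine Finset.sum_congr rfl fun i _ => ?_
    rw [Matrix.diag_apply, Matrix.mul_assoc, Matrix.mul_apply]
    refine Finset.sum_congr rfl fun x _ => ?_
    rw [transpose_apply, hUe, Matrix.mul_apply]
    rfl
  have hexp : ∀ g : V → ℝ, g = ∑ i, (e i ⬝ᵥ g) • e i := by
    intro g
    have h1 : (U * U.transpose) *ᵥ g = g := by rw [hUU, one_mulVec]
    ext v
    rw [← congrFun h1 v, ← mulVec_mulVec, Finset.sum_apply]
    change ∑ i, U v i * (U.transpose *ᵥ g) i = _
    refine Finset.sum_congr rfl fun i _ => ?_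
    rw [Pi.smul_apply, smul_eq_mul, hUe, mul_comm]
    congr 1
  set N : Finset ℝ := insert d (univ.image lam) with hN
  refine ⟨Lagrange.interpolate N id f, lam, e, hAe, hunit, htr, hexp, ?_, ?_⟩
  · intro i
    have h1 := Lagrange.eval_interpolate_at_node f (s := N) (v := id) (i := lam i)
      (fun _ _ _ _ h => h) (by rw [hN]; exact mem_insert_of_mem (mem_image_of_mem _ (mem_univ i)))
    exact h1
  · exact Lagrange.eval_interpolate_at_node f (s := N) (v := id) (i := d)
      (fun _ _ _ _ h => h) (by rw [hN]; exact mem_insert_self _ _)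

/-- Polynomials act on eigenvectors. -/
theorem aeval_mulVec {A : Matrix V V ℝ} {g : V → ℝ} {t : ℝ} (h : A *ᵥ g = t • g) (p : ℝ[X]) :
    (aeval A p : Matrix V V ℝ) *ᵥ g = p.eval t • g := by
  have hpow : ∀ k : ℕ, A ^ k *ᵥ g = t ^ k • g := by
    intro k
    induction k with
    | zero => simp
    | succ k ih =>
      rw [pow_succ, ← mulVec_mulVec, h, mulVec_smul, ih, smul_smul, pow_succ, mul_comm]
  induction p using Polynomial.induction_on' with
  | add p q hp hq => rw [map_add, add_mulVec, hp, hq, eval_add, add_smul]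
  | monomial k a =>
    rw [aeval_monomial, Algebra.algebraMap_eq_smul_one, smul_mul_assoc, one_mul, smul_mulVec,
      hpow, eval_monomial, smul_smul]

theorem mat_ext {M N : Matrix V V ℝ} {e : V → V → ℝ}
    (hexp : ∀ g : V → ℝ, g = ∑ i, (e i ⬝ᵥ g) • e i) (h : ∀ i, M *ᵥ e i = N *ᵥ e i) : M = N := by
  have h1 : ∀ g : V → ℝ, M *ᵥ g = N *ᵥ g := by
    intro g
    rw [hexp g, mulVec_sum, mulVec_sum]
    refine Finset.sum_congr rfl fun i _ => ?_
    rw [mulVec_smul, mulVec_smul, h]
  ext x y
  have h2 := congrFun (h1 (Pi.single y 1)) x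
  simpa using h2

/-- The rank of an idempotent matrix is its trace. -/
theorem rank_eq_trace {Q : Matrix V V ℝ} (hQQ : Q * Q = Q) :
    ((Module.finrank ℝ (LinearMap.range (Matrix.toLin' Q)) : ℕ) : ℝ) = Q.trace := by
  have hproj : LinearMap.IsProj (LinearMap.range (Matrix.toLin' Q)) (Matrix.toLin' Q) := by
    constructor
    · intro x
      exact LinearMap.mem_range_self _ x
    · rintro x ⟨y, rfl⟩
      rw [Matrix.toLin'_apply, Matrix.toLin'_apply, Matrix.mulVec_mulVec, hQQ]
  have h1 := hproj.trace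
  rw [← h1, LinearMap.trace_eq_matrix_trace ℝ (Pi.basisFun ℝ V),
    ← Matrix.toLin_eq_toLin', LinearMap.toMatrix_toLin]

theorem adjR_eq (i : κ) [DecidableRel (constituent c i).Adj] :
    (constituent c i).adjMatrix ℝ = adjR c i := by
  ext x y
  rw [SimpleGraph.adjMatrix_apply, adjR]
  by_cases h : (constituent c i).Adj x y
  · rw [if_pos h, if_pos h]
  · rw [if_neg h, if_neg h]

/-- An eigenvector of the degree orthogonal to the constants vanishes. -/
theorem eigen_deg (hc : IsPCC c) {x y : V} (hxy : x ≠ y) {f : V → ℝ} (hf0 : ∑ v, f v = 0)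
    (hev : adjR c (c x y) *ᵥ f = (deg (constituent c (c x y)) x : ℝ) • f) : f = 0 := by
  set A := adjR c (c x y) with hA
  set d : ℝ := (deg (constituent c (c x y)) x : ℝ) with hd
  have hdpos : 0 < d := by
    have := deg_pos hc hxy x
    rw [hd]; exact_mod_cast this
  have hWA : ∀ u v, W c (c x y) u v = d⁻¹ * A u v := by
    intro u v
    rw [W_apply, deg_eq hc _ u x]
  have hW := W_isWalk hc hxy
  have hWf : W c (c x y) *ᵥ f = f := by
    ext u
    have h1 := congrFun hev u
    have h2 : (W c (c x y) *ᵥ f) u = d⁻¹ * (A *ᵥ f) u := by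
      change ∑ v, W c (c x y) u v * f v = d⁻¹ * ∑ v, A u v * f v
      rw [Finset.mul_sum]
      exact Finset.sum_congr rfl fun v _ => by rw [hWA]; ring
    rw [h2, h1, Pi.smul_apply, smul_eq_mul, ← mul_assoc, inv_mul_cancel₀ hdpos.ne', one_mul]
  have h1 := dirichlet hW f (-1) (by norm_num)
  rw [hWf] at h1
  have h0 : ∀ y' ∈ univ, 0 ≤ ∑ b, W c (c x y) y' b * (f y' + -1 * f b) ^ 2 := fun y' _ =>
    Finset.sum_nonneg fun b _ => mul_nonneg (hW.nonneg y' b) (sq_nonneg _)
  have h2 : ∑ y', ∑ b, W c (c x y) y' b * (f y' + -1 * f b) ^ 2 = 0 := by rw [h1]; ring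
  have h3 : ∀ u v, (constituent c (c x y)).Adj u v → f u = f v := by
    intro u v huv
    have h4 := (Finset.sum_eq_zero_iff_of_nonneg h0).1 h2 u (mem_univ _)
    have h5 := (Finset.sum_eq_zero_iff_of_nonneg (fun b _ =>
      mul_nonneg (hW.nonneg u b) (sq_nonneg _))).1 h4 v (mem_univ _)
    have h6 : W c (c x y) u v ≠ 0 := by
      rw [W_eq hc huv x]
      exact inv_ne_zero hdpos.ne'
    have h7 := (mul_eq_zero.1 h5).resolve_left h6
    have h8 := pow_eq_zero_iff (two_ne_zero) |>.1 h7
    linarith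
  have h4 := const_of_adj (hc.primitive x y hxy) h3
  ext u
  have h5 : ∑ v, f v = Fintype.card V * f u := by
    rw [Finset.sum_congr rfl fun v _ => h4 v u, Finset.sum_const, nsmul_eq_mul,
      Finset.card_univ]
  rw [hf0] at h5
  have hn : (Fintype.card V : ℝ) ≠ 0 := by
    have : 0 < Fintype.card V := Fintype.card_pos_iff.2 ⟨x⟩
    positivity
  exact (mul_eq_zero.1 h5.symm).resolve_left hn

/-- **The slow band.** -/
theorem exists_band (hc : IsPCC c) {x y : V} (hxy : x ≠ y) {t : ℝ} (ht : 0 ≤ t) {θ : ℝ}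
    {f : V → ℝ} (hf : f ≠ 0) (hf0 : ∑ v, f v = 0) (hev : adjR c (c x y) *ᵥ f = θ • f)
    (hθ : t < |θ|) :
    ∃ H : Matrix V V ℝ, H ∈ alg hc ∧ H.transpose = H ∧ Proj c (H * H) ∧ H * H * H = H ∧
      (∀ g : V → ℝ, t * (g ⬝ᵥ ((H * H) *ᵥ g)) ≤ g ⬝ᵥ ((adjR c (c x y) * H) *ᵥ g)) ∧
      t * (H * H).trace ≤ (adjR c (c x y) * H).trace ∧
      H *ᵥ (fun _ => (1 : ℝ)) = 0 ∧
      (eigCount (constituent c (c x y)) t : ℝ) ≤ (H * H).trace := by
  classical
  set A := adjR c (c x y) with hA
  set d : ℝ := (deg (constituent c (c x y)) x : ℝ) with hd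
  have hAs : A.transpose = A := by
    ext u v
    exact adjR_sym _ _ _
  set F : ℝ → ℝ := fun s => if t < |s| ∧ s ≠ d then SignType.sign s else 0 with hF
  obtain ⟨p, lam, e, hAe, hunit, htr, hexp, hpl, hpd⟩ := exists_poly hAs F d
  set H : Matrix V V ℝ := aeval A p with hH
  have hFF : ∀ s, F s * F s * F s = F s := by
    intro s
    simp only [hF]
    split_ifs with h
    · rcases lt_trichotomy s 0 with h1 | h1 | h1
      · rw [sign_neg h1]; simp
      · rw [h1, sign_zero]; simp
      · rw [sign_pos h1]; simp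
    · simp
  have hFt : ∀ s, t * (F s * F s) ≤ s * F s := by
    intro s
    simp only [hF]
    split_ifs with h
    · rcases lt_trichotomy s 0 with h1 | h1 | h1
      · have h2 := h.1
        rw [abs_of_neg h1] at h2
        rw [sign_neg h1]
        simp only [SignType.coe_neg, SignType.coe_one]
        linarith
      · rw [h1, sign_zero]; simp
      · have h2 := h.1
        rw [abs_of_pos h1] at h2
        rw [sign_pos h1]
        simp only [SignType.coe_one]
        linarith
    · simp
  have hHe : ∀ i, H *ᵥ e i = F (lam i) • e i := by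
    intro i
    rw [hH, aeval_mulVec (hAe i), hpl]
  have hAm : A ∈ alg hc := by
    have := adj_mem hc (c x y)
    rwa [adjR_eq] at this
  have hHm : H ∈ alg hc :=
    Algebra.adjoin_le (Set.singleton_subset_iff.2 hAm) (aeval_mem_adjoin_singleton ℝ A)
  have hHs : H.transpose = H := aeval_transpose hAs p
  have hHHe : ∀ i, (H * H) *ᵥ e i = (F (lam i) * F (lam i)) • e i := by
    intro i
    rw [← mulVec_mulVec, hHe, mulVec_smul, hHe, smul_smul]
  have hAHe : ∀ i, (A * H) *ᵥ e i = (lam i * F (lam i)) • e i := by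
    intro i
    rw [← mulVec_mulVec, hHe, mulVec_smul, hAe, smul_smul, mul_comm]
  have hHHH : H * H * H = H := by
    refine mat_ext hexp fun i => ?_
    rw [← mulVec_mulVec, hHe, mulVec_smul, hHHe, smul_smul, ← mul_assoc, hFF]
  have hQQ : (H * H) * (H * H) = H * H := by
    rw [← Matrix.mul_assoc, hHHH]
  have hQs : (H * H).transpose = H * H := by rw [transpose_mul, hHs]
  -- the action on slow eigenvectors
  have hslow : ∀ g : V → ℝ, ∑ v, g v = 0 → ∀ s : ℝ, t < |s| → A *ᵥ g = s • g →
      (H * H) *ᵥ g = g := by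
    intro g hg0 s hs hg
    by_cases hgz : g = 0
    · rw [hgz, mulVec_zero]
    have hsd : s ≠ d := by
      intro h
      apply hgz
      rw [h] at hg
      exact eigen_deg hc hxy hg0 hg
    -- `s` is one of the `lam i`
    obtain ⟨i, hi⟩ : ∃ i, lam i = s := by
      by_contra hno
      push Not at hno
      apply hgz
      rw [hexp g]
      refine Finset.sum_eq_zero fun i _ => ?_
      have h1 : e i ⬝ᵥ (A *ᵥ g) = lam i * (e i ⬝ᵥ g) := by
        rw [dotProduct_mulVec, ← mulVec_transpose, hAs, hAe, smul_dotProduct, smul_eq_mul]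
      rw [hg, dotProduct_smul, smul_eq_mul] at h1
      have h2 : (s - lam i) * (e i ⬝ᵥ g) = 0 := by linarith
      have h3 := (mul_eq_zero.1 h2).resolve_left (sub_ne_zero.2 (Ne.symm (hno i)))
      rw [h3, zero_smul]
    have h1 : H *ᵥ g = F s • g := by
      rw [hH, aeval_mulVec hg, ← hi, hpl]
    rw [← mulVec_mulVec, h1, mulVec_smul, h1, smul_smul]
    have h2 : F s * F s = 1 := by
      simp only [hF]
      rw [if_pos ⟨hs, hsd⟩]
      rcases lt_trichotomy s 0 with h3 | h3 | h3
      · rw [sign_neg h3]; simp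
      · rw [h3, abs_zero] at hs
        exact absurd hs (not_lt.2 ht)
      · rw [sign_pos h3]; simp
    rw [h2, one_smul]
  have hmem : ∀ u v u' v', c u v = c u' v' → (H * H) u v = (H * H) u' v' :=
    fun u v u' v' h => (alg hc).mul_mem hHm hHm u v u' v' h
  have hproj : Proj c (H * H) := ⟨hmem, hQs, hQQ, ⟨f, hf, hf0, hslow f hf0 θ hθ hev⟩⟩
  refine ⟨H, hHm, hHs, hproj, hHHH, ?_, ?_, ?_, ?_⟩
  · intro g
    have h1 : ∀ M : Matrix V V ℝ, ∀ m : V → ℝ, (∀ i, M *ᵥ e i = m i • e i) →
        g ⬝ᵥ (M *ᵥ g) = ∑ i, m i * (e i ⬝ᵥ g) ^ 2 := by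
      intro M m hM
      have h2 : M *ᵥ g = ∑ i, ((e i ⬝ᵥ g) * m i) • e i := by
        conv_lhs => rw [hexp g]
        rw [mulVec_sum]
        refine Finset.sum_congr rfl fun i _ => ?_
        rw [mulVec_smul, hM, smul_smul]
      rw [h2, dotProduct_sum]
      refine Finset.sum_congr rfl fun i _ => ?_
      rw [dotProduct_smul, smul_eq_mul, dotProduct_comm g (e i)]
      ring
    rw [h1 _ _ hHHe, h1 _ _ hAHe, Finset.mul_sum]
    refine Finset.sum_le_sum fun i _ => ?_
    rw [← mul_assoc]
    exact mul_le_mul_of_nonneg_right (hFt (lam i)) (sq_nonneg _)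
  · rw [htr, htr (A * H), Finset.mul_sum]
    refine Finset.sum_le_sum fun i _ => ?_
    rw [hHHe, hAHe, dotProduct_smul, dotProduct_smul]
    have : e i ⬝ᵥ e i = 1 := hunit i
    rw [this, smul_eq_mul, smul_eq_mul, mul_one, mul_one]
    exact hFt (lam i)
  · have hA1 : A *ᵥ (fun _ => (1 : ℝ)) = d • fun _ => (1 : ℝ) := by
      ext u
      change ∑ v, A u v * 1 = d * 1
      simp only [mul_one]
      rw [hA, adjR_sum, deg_eq hc _ u x]
    rw [hH, aeval_mulVec hA1, hpd]
    have : F d = 0 := by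
      simp only [hF]
      rw [if_neg]
      simp
    rw [this, zero_smul]
  · rw [← rank_eq_trace hQQ]
    have : eigCount (constituent c (c x y)) t ≤
        Module.finrank ℝ (LinearMap.range (Matrix.toLin' (H * H))) := by
      rw [eigCount]
      refine Submodule.finrank_mono (Submodule.span_le.2 ?_)
      rintro g ⟨hg0, s, hs, hg⟩
      rw [adjR_eq] at hg
      refine ⟨g, ?_⟩
      rw [Matrix.toLin'_apply]
      exact hslow g hg0 s hs hg
    exact_mod_cast this

end Band

end Pool.Agent.Lib.MP_7beb49_co
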