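import Pool.Agent.Lib.MP_7beb49_co.PowCard
import Pool.Agent.Lib.MP_7beb49_co.Band

/-!
# The number of vertices of one slow colour

`H = ∑ sign θ Q_θ` over the slow band of a constituent, `Q = H * H`, `π = Q v v`. The functions
`M s w = (H P^s) v w / π` satisfy the hypotheses of `Walk.card_pow`.
-/

set_option autoImplicit false
set_option linter.unusedSectionVars false

namespace Pool.Agent.Lib.MP_7beb49_co

open Finset Matrix Walk LogRank Filter Topology

variable {V κ : Type} [Fintype V] [DecidableEq V] {c : V → V → κ}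

namespace CardPow

/-- Difference of two columns of `Q P ^ s` along an edge. -/
theorem cols (hc : IsPCC c) {Q : Matrix V V ℝ} (hQ : Proj c Q) {a b : V} (hab : a ≠ b) (s : ℕ)
    {y z : V} (h : (constituent c (c a b)).Adj y z) :
    ∑ u, ((Q * lazy (W c (c a b)) ^ s) u z - (Q * lazy (W c (c a b)) ^ s) u y) ^ 2 =
      4 / Fintype.card V * ((Q * lazy (W c (c a b)) ^ (2 * s)).trace -
        (Q * lazy (W c (c a b)) ^ (2 * s + 1)).trace) ∧
    (∀ w, ∑ u, ((Q * lazy (W c (c a b)) ^ s) u w) ^ 2 =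
      1 / Fintype.card V * (Q * lazy (W c (c a b)) ^ (2 * s)).trace) := by
  set P := lazy (W c (c a b)) with hP
  have hPs : P.transpose = P := lazy_sym hc hab
  set H := Q * P ^ s with hH
  set G := H.transpose * H with hG
  have hPm : P ∈ alg hc := lazy_mem hc _
  have hQm : Q ∈ alg hc := fun u v u' v' h => hQ.mem u v u' v' h
  have hG' : G = P ^ s * Q * P ^ s := by
    rw [hG, hH, transpose_mul, pow_sym hPs, hQ.sym, ← Matrix.mul_assoc, Matrix.mul_assoc (P ^ s) Q Q,
      hQ.idem]
  have hGm : G ∈ alg hc := by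
    rw [hG']
    exact (alg hc).mul_mem ((alg hc).mul_mem ((alg hc).pow_mem hPm s) hQm) ((alg hc).pow_mem hPm s)
  have hGs : G.transpose = G := by rw [hG, transpose_mul, transpose_transpose]
  have e : ∀ y z, G y z = ∑ w, H w y * H w z := by
    intro y z
    rw [hG, Matrix.mul_apply]
    rfl
  have h2 : ∑ w, (H w z - H w y) ^ 2 = 2 * (G a a - G a b) := by
    have e1 : ∑ w, (H w z - H w y) ^ 2 = G z z - 2 * G y z + G y y := by
      rw [e, e, e, Finset.mul_sum, ← Finset.sum_sub_distrib, ← Finset.sum_add_distrib]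
      exact Finset.sum_congr rfl fun w _ => by ring
    rw [e1, edge_eq hc hGm hGs h, hGm z z a a (hc.homogeneous z a),
      hGm y y a a (hc.homogeneous y a)]
    ring
  have h4 := trace_rel hc hGm hGs hab
  have h5 : G.trace = (Q * P ^ (2 * s)).trace := by
    rw [hG', Matrix.mul_assoc, Matrix.trace_mul_comm, Matrix.mul_assoc, ← pow_add, two_mul]
  have h6 : (G * P).trace = (Q * P ^ (2 * s + 1)).trace := by
    rw [hG', Matrix.mul_assoc, Matrix.mul_assoc, Matrix.trace_mul_comm, Matrix.mul_assoc,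
      ← pow_succ, ← pow_add]
    congr 3
    ring
  rw [← hP] at h4
  have hn : (Fintype.card V : ℝ) ≠ 0 := by
    have : 0 < Fintype.card V := Fintype.card_pos_iff.2 ⟨a⟩
    positivity
  constructor
  · rw [h2, ← h5, ← h6, h4]
    field_simp
    ring
  · intro w
    have h7 : ∑ u, (H u w) ^ 2 = G w w := by
      rw [e]
      exact Finset.sum_congr rfl fun u _ => by ring
    have h8 : G.trace = Fintype.card V * G w w := by
      rw [Matrix.trace]
      have : ∀ u, G.diag u = G w w := fun u => hGm _ _ _ _ (hc.homogeneous u w)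
      rw [Finset.sum_congr rfl fun u _ => this u, Finset.sum_const, nsmul_eq_mul, Finset.card_univ]
    rw [h7, ← h5, h8]
    field_simp

/-- The jumps of `M s`. -/
theorem jump_pow (hc : IsPCC c) {H : Matrix V V ℝ} (hHs : H.transpose = H)
    (hQ : Proj c (H * H)) (hHHH : H * H * H = H) {a b : V} (hab : a ≠ b) (s : ℕ) (v : V)
    {J : ℝ} (hJ : J = 4 / (Fintype.card V * (H * H) v v) *
      ((H * H * lazy (W c (c a b)) ^ (2 * s)).trace -
        (H * H * lazy (W c (c a b)) ^ (2 * s + 1)).trace)) {h : ℝ}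
    (hh : h = 1 / (Fintype.card V * (H * H) v v) * (H * H * lazy (W c (c a b)) ^ (2 * s)).trace)
    (hh1 : h ≤ 1) (w : V) :
    (H * lazy (W c (c a b)) ^ s) v w / (H * H) v v ≤ (1 + h) / 2 ∧
    ((H * lazy (W c (c a b)) ^ s) v w / (H * H) v v) ^ 2 ≤ h ∧
    ∀ z, (constituent c (c a b)).Adj w z → ∀ δ : ℝ, J ≤ δ →
      ((H * lazy (W c (c a b)) ^ s) v z / (H * H) v v -
        (H * lazy (W c (c a b)) ^ s) v w / (H * H) v v) ^ 2 ≤
      4 * J * (1 - (H * lazy (W c (c a b)) ^ s) v w / (H * H) v v + δ) := by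
  set P := lazy (W c (c a b)) with hP
  set Q := H * H with hQdef
  set π₀ := Q v v with hπ
  have hπpos : 0 < π₀ := hQ.pos hc v
  have hn : (0 : ℝ) < Fintype.card V := by
    have : 0 < Fintype.card V := Fintype.card_pos_iff.2 ⟨a⟩
    exact_mod_cast this
  have hHQ : H * Q = H := by rw [hQdef, ← Matrix.mul_assoc, hHHH]
  have hHv : ∑ u, H v u ^ 2 = π₀ := by
    rw [hπ, hQdef, Matrix.mul_apply]
    refine Finset.sum_congr rfl fun u _ => ?_
    have : H u v = H v u := by
      conv_lhs => rw [← hHs]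
      rfl
    rw [this]; ring
  have hM : ∀ w, (H * P ^ s) v w = ∑ u, H v u * (Q * P ^ s) u w := by
    intro w
    have h1 : H * P ^ s = H * (Q * P ^ s) := by rw [← Matrix.mul_assoc, hHQ]
    rw [h1, Matrix.mul_apply]
  set g : V → ℝ := fun u => (Q * P ^ s) u w with hg
  have hgg : ∀ w', ∑ u, ((Q * P ^ s) u w') ^ 2 = π₀ * h := by
    intro w'
    by_cases hex : ∃ z, (constituent c (c a b)).Adj a z
    · obtain ⟨z, hz⟩ := hex
      have h1 := (cols hc hQ hab s hz).2 w'
      rw [h1, hh, ← hP]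
      field_simp
    · exact absurd ⟨b, adj_self hab⟩ hex
  -- norm of `H v - g`
  have hdist : ∑ u, (H v u - g u) ^ 2 = π₀ + π₀ * h - 2 * (H * P ^ s) v w := by
    rw [hM w, ← hHv]
    have h1 := hgg w
    rw [hHv, ← h1, Finset.mul_sum, ← hHv, ← Finset.sum_add_distrib, ← Finset.sum_sub_distrib]
    exact Finset.sum_congr rfl fun u _ => by simp only [hg]; ring
  have hdist0 : 0 ≤ ∑ u, (H v u - g u) ^ 2 := Finset.sum_nonneg fun u _ => sq_nonneg _
  set m := (H * P ^ s) v w / π₀ with hm
  have hmw : (H * P ^ s) v w = π₀ * m := by rw [hm]; field_simp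
  have h1m : m ≤ (1 + h) / 2 := by
    rw [hdist, hmw] at hdist0
    have h1 : 0 ≤ π₀ * (1 + h - 2 * m) := by linarith
    have h2 := nonneg_of_mul_nonneg_right h1 hπpos
    linarith
  refine ⟨h1m, ?_, ?_⟩
  · have h1 : (H * P ^ s) v w ^ 2 ≤ π₀ * (π₀ * h) := by
      rw [hM w, ← hHv]
      have h2 := Finset.sum_mul_sq_le_sq_mul_sq univ (fun u => H v u) (fun u => (Q * P ^ s) u w)
      rw [hgg w, hHv] at h2
      rw [hHv]
      exact h2
    rw [hm, div_pow, div_le_iff₀ (by positivity)]
    refine h1.trans (le_of_eq ?_)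
    ring
  intro z hz δ hJδ
  set r : V → ℝ := fun u => (Q * P ^ s) u z - (Q * P ^ s) u w with hr
  have hrr : ∑ u, r u ^ 2 = π₀ * J := by
    have h1 := (cols hc hQ hab s hz).1
    simp only [hr]
    rw [h1, hJ, ← hP]
    field_simp
  have hJ0 : 0 ≤ J := by
    have h1 : 0 ≤ π₀ * J := by
      rw [← hrr]
      exact Finset.sum_nonneg fun u _ => sq_nonneg _
    exact nonneg_of_mul_nonneg_right h1 hπpos
  have hgr : ∑ u, g u * r u = -(π₀ * J / 2) := by
    have h1 := hgg z
    have h2 : ∑ u, ((Q * P ^ s) u z) ^ 2 = ∑ u, g u ^ 2 + 2 * ∑ u, g u * r u + ∑ u, r u ^ 2 := by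
      rw [Finset.mul_sum, ← Finset.sum_add_distrib, ← Finset.sum_add_distrib]
      exact Finset.sum_congr rfl fun u _ => by simp only [hg, hr]; ring
    have h3 : ∑ u, g u ^ 2 = π₀ * h := hgg w
    rw [h1, h3, hrr] at h2
    linarith
  have hdiff : (H * P ^ s) v z - (H * P ^ s) v w = -(π₀ * J / 2) + ∑ u, (H v u - g u) * r u := by
    rw [hM z, hM w, ← hgr, ← Finset.sum_sub_distrib, ← Finset.sum_add_distrib]
    exact Finset.sum_congr rfl fun u _ => by simp only [hr]; ring
  set E := ∑ u, (H v u - g u) * r u with hE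
  have hE2 : E ^ 2 ≤ (2 * π₀ * (1 - m)) * (π₀ * J) := by
    have h1 := Finset.sum_mul_sq_le_sq_mul_sq univ (fun u => H v u - g u) r
    rw [hrr, hdist, hmw] at h1
    refine h1.trans (mul_le_mul_of_nonneg_right ?_ (by positivity))
    have : π₀ * h ≤ π₀ * 1 := mul_le_mul_of_nonneg_left hh1 hπpos.le
    linarith
  have hm1 : 0 ≤ 1 - m := by linarith
  have hfin : ((H * P ^ s) v z - (H * P ^ s) v w) ^ 2 ≤ π₀ ^ 2 * (4 * J * (1 - m + δ)) := by
    rw [hdiff]
    have h1 : (-(π₀ * J / 2) + E) ^ 2 ≤ 2 * (π₀ * J / 2) ^ 2 + 2 * E ^ 2 := by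
      nlinarith [sq_nonneg (π₀ * J / 2 + E)]
    have h2 : 2 * (π₀ * J / 2) ^ 2 ≤ π₀ ^ 2 * (4 * J * δ) := by
      have h3 : J * J ≤ J * δ := mul_le_mul_of_nonneg_left hJδ hJ0
      have h4 : 0 ≤ J * δ := (mul_nonneg hJ0 hJ0).trans h3
      have h5 : 0 < π₀ ^ 2 := by positivity
      nlinarith
    have h3 : 2 * ((2 * π₀ * (1 - m)) * (π₀ * J)) = π₀ ^ 2 * (4 * J * (1 - m)) := by ring
    nlinarith
  rw [← sub_div, div_pow, div_le_iff₀ (by positivity)]
  refine hfin.trans (le_of_eq ?_)
  ring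

/-- The value of `H` on the colour itself. -/
theorem value (hc : IsPCC c) {H : Matrix V V ℝ} (hHm : H ∈ alg hc) (hHs : H.transpose = H)
    (hQ : Proj c (H * H)) {x y : V} (hxy : x ≠ y) {α : ℝ}
    (htr : α * deg (constituent c (c x y)) x * (H * H).trace ≤ (adjR c (c x y) * H).trace)
    (v : V) : α * (H * H) v v ≤ H x y := by
  set d : ℝ := (deg (constituent c (c x y)) x : ℝ) with hd
  have hdpos : 0 < d := by
    have := deg_pos hc hxy x
    rw [hd]; exact_mod_cast this
  have hn : (0 : ℝ) < Fintype.card V := by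
    have : 0 < Fintype.card V := Fintype.card_pos_iff.2 ⟨x⟩
    exact_mod_cast this
  have h1 : (H * H).trace = Fintype.card V * (H * H) v v := by
    rw [Matrix.trace]
    have : ∀ u, (H * H).diag u = (H * H) v v := fun u => hQ.diag hc u v
    rw [Finset.sum_congr rfl fun u _ => this u, Finset.sum_const, nsmul_eq_mul, Finset.card_univ]
  have h2 : (adjR c (c x y) * H).trace = Fintype.card V * (d * H x y) := by
    rw [Matrix.trace]
    have h3 : ∀ u, (adjR c (c x y) * H).diag u = d * H x y := by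
      intro u
      rw [Matrix.diag_apply, Matrix.mul_apply]
      have h4 : ∀ z, adjR c (c x y) u z * H z u = adjR c (c x y) u z * H x y := by
        intro z
        by_cases h5 : (constituent c (c x y)).Adj u z
        · rw [edge_eq hc hHm hHs h5.symm]
        · rw [adjR, if_neg h5]; simp
      rw [Finset.sum_congr rfl fun z _ => h4 z, ← Finset.sum_mul, adjR_sum, deg_eq hc _ u x]
    rw [Finset.sum_congr rfl fun u _ => h3 u, Finset.sum_const, nsmul_eq_mul, Finset.card_univ]
  rw [h1, h2] at htr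
  have h3 : (Fintype.card V * d) * (α * (H * H) v v) ≤ (Fintype.card V * d) * H x y := by
    linarith
  exact le_of_mul_le_mul_left h3 (by positivity)

/-- The first jump is small. -/
theorem zero_jump (hc : IsPCC c) {H : Matrix V V ℝ} (hHm : H ∈ alg hc) (hHs : H.transpose = H)
    (hQ : Proj c (H * H)) (hHHH : H * H * H = H) {x y : V} (hxy : x ≠ y) {α K : ℝ} (hα : 0 < α)
    (hα1 : α < 1)
    (hform : ∀ g : V → ℝ, α * deg (constituent c (c x y)) x * (g ⬝ᵥ ((H * H) *ᵥ g)) ≤
      g ⬝ᵥ ((adjR c (c x y) * H) *ᵥ g))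
    (htr : α * deg (constituent c (c x y)) x * (H * H).trace ≤ (adjR c (c x y) * H).trace)
    (hK : 0 < K) (hKα : 8 * K ≤ α) {a b : V}
    (hdiff : diffN c (c x y) a b ≤ 8 * K * deg (constituent c (c x y)) x) :
    2 * ((H * H) a a - (H * H) a b) ≤ (H * H) a a * (600 * K ^ 2 * (1 - α) / α ^ 2) := by
  classical
  set A := adjR c (c x y) with hA
  set d : ℝ := (deg (constituent c (c x y)) x : ℝ) with hd
  have hdpos : 0 < d := by
    have := deg_pos hc hxy x
    rw [hd]; exact_mod_cast this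
  set Q := H * H with hQdef
  set π₀ := Q a a with hπ
  have hπpos : 0 < π₀ := hQ.pos hc a
  have hHQ : H * Q = H := by rw [hQdef, ← Matrix.mul_assoc, hHHH]
  have hHsym : ∀ u w, H u w = H w u := by
    intro u w
    conv_lhs => rw [← hHs]
    rfl
  have hval : α * π₀ ≤ H x y := value hc hHm hHs hQ hxy htr a
  -- the vector `q`
  set q : V → ℝ := fun u => Q u a - Q u b with hq
  set N : ℝ := ∑ u, q u ^ 2 with hN
  have hQbb : Q b b = π₀ := hQ.diag hc b a
  have hNval : N = 2 * (π₀ - Q a b) := by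
    have h1 : N = ∑ u, (Q u a * Q u a - 2 * (Q u a * Q u b) + Q u b * Q u b) :=
      Finset.sum_congr rfl fun u _ => by simp only [hq]; ring
    rw [h1, Finset.sum_add_distrib, Finset.sum_sub_distrib, ← Finset.mul_sum, hQ.norm, hQ.norm,
      hQ.norm, hQbb]
    ring
  have hN0 : 0 ≤ N := Finset.sum_nonneg fun u _ => sq_nonneg _
  rw [← hNval]
  -- the form
  have hform' : α * d * N ≤ ∑ z, (A a z - A b z) * (∑ u, H z u * q u) := by
    have h1 := hform (Pi.single a 1 - Pi.single b 1)
    have e1 : ∀ M : Matrix V V ℝ, ((Pi.single a 1 - Pi.single b 1 : V → ℝ)) ⬝ᵥ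
        (M *ᵥ (Pi.single a 1 - Pi.single b 1)) = M a a - M a b - (M b a - M b b) := by
      intro M
      rw [mulVec_sub, sub_dotProduct, dotProduct_sub, dotProduct_sub]
      simp
    rw [e1, e1] at h1
    have h2 : Q a a - Q a b - (Q b a - Q b b) = N := by
      rw [hNval, hQbb, hQ.symm b a]; ring
    rw [h2] at h1
    refine h1.trans (le_of_eq ?_)
    have h3 : ∀ z, ∑ u, H z u * q u = H z a - H z b := by
      intro z
      have h4 : ∀ w, H z w = ∑ u, H z u * Q u w := by
        intro w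
        conv_lhs => rw [← hHQ]
        rw [Matrix.mul_apply]
      rw [h4 a, h4 b, ← Finset.sum_sub_distrib]
      exact Finset.sum_congr rfl fun u _ => by simp only [hq]; ring
    simp only [h3, Matrix.mul_apply]
    rw [← Finset.sum_sub_distrib, ← Finset.sum_sub_distrib, ← Finset.sum_sub_distrib]
    exact Finset.sum_congr rfl fun z _ => by ring
  -- rows close to `Q a` or `Q b`
  have hrow : ∀ z w, (constituent c (c x y)).Adj w z → ∀ e : ℝ, (∑ u, Q w u * q u) = e →
      |∑ u, H z u * q u| ≤ |e| + Real.sqrt (2 * π₀ * (1 - α) * N) := by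
    intro z w hzw e he
    have h1 : ∑ u, H z u * q u = e + ∑ u, (H z u - Q w u) * q u := by
      rw [← he, ← Finset.sum_add_distrib]
      exact Finset.sum_congr rfl fun u _ => by ring
    have h2 : (∑ u, (H z u - Q w u) * q u) ^ 2 ≤ 2 * π₀ * (1 - α) * N := by
      have h3 := Finset.sum_mul_sq_le_sq_mul_sq univ (fun u => H z u - Q w u) q
      refine h3.trans (mul_le_mul_of_nonneg_right ?_ hN0)
      have h4 : ∑ u, (H z u - Q w u) ^ 2 = Q z z - 2 * H z w + Q w w := by
        have h5 : ∑ u, H z u * H z u = Q z z := by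
          rw [hQdef, Matrix.mul_apply]
          exact Finset.sum_congr rfl fun u _ => by rw [hHsym u z]
        have h6 : ∑ u, H z u * Q w u = H z w := by
          have : H z w = (H * Q) z w := by rw [hHQ]
          rw [this, Matrix.mul_apply]
          exact Finset.sum_congr rfl fun u _ => by rw [hQ.symm w u]
        rw [← h5, ← h6, ← hQ.norm' w w, Finset.mul_sum, ← Finset.sum_sub_distrib,
          ← Finset.sum_add_distrib]
        exact Finset.sum_congr rfl fun u _ => by ring
      have h7 : H z w = H x y := edge_eq hc hHm hHs hzw.symm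
      rw [h4, h7, hQ.diag hc z a, hQ.diag hc w a]
      linarith
    rw [h1]
    refine (abs_add_le _ _).trans (add_le_add le_rfl ?_)
    exact Real.abs_le_sqrt h2
  have hea : ∑ u, Q a u * q u = N / 2 := by
    have h1 : ∀ w, ∑ u, Q a u * Q u w = Q a w := by
      intro w
      have : (Q * Q) a w = Q a w := by rw [hQ.idem]
      rw [← this, Matrix.mul_apply]
    have h2 : ∑ u, Q a u * q u = Q a a - Q a b := by
      rw [← h1 a, ← h1 b, ← Finset.sum_sub_distrib]
      exact Finset.sum_congr rfl fun u _ => by simp only [hq]; ring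
    rw [h2, hNval]
    ring
  have heb : ∑ u, Q b u * q u = -(N / 2) := by
    have h1 : ∀ w, ∑ u, Q b u * Q u w = Q b w := by
      intro w
      have : (Q * Q) b w = Q b w := by rw [hQ.idem]
      rw [← this, Matrix.mul_apply]
    have h2 : ∑ u, Q b u * q u = Q b a - Q b b := by
      rw [← h1 a, ← h1 b, ← Finset.sum_sub_distrib]
      exact Finset.sum_congr rfl fun u _ => by simp only [hq]; ring
    rw [h2, hNval, hQbb, hQ.symm b a]
    ring
  set R : ℝ := N / 2 + Real.sqrt (2 * π₀ * (1 - α) * N) with hR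
  have hR0 : 0 ≤ R := add_nonneg (by linarith) (Real.sqrt_nonneg _)
  have hterm : ∀ z, (A a z - A b z) * (∑ u, H z u * q u) ≤ |A a z - A b z| * R := by
    intro z
    by_cases h1 : A a z - A b z = 0
    · rw [h1]; simp
    have h2 : |∑ u, H z u * q u| ≤ R := by
      by_cases h3 : (constituent c (c x y)).Adj a z
      · have := hrow z a h3 _ hea
        rwa [abs_of_nonneg (by linarith : (0 : ℝ) ≤ N / 2)] at this
      · by_cases h4 : (constituent c (c x y)).Adj b z
        · have := hrow z b h4 _ heb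
          rwa [abs_neg, abs_of_nonneg (by linarith : (0 : ℝ) ≤ N / 2)] at this
        · exfalso
          apply h1
          rw [hA, adjR, adjR, if_neg h3, if_neg h4, sub_self]
    calc _ ≤ |(A a z - A b z) * (∑ u, H z u * q u)| := le_abs_self _
      _ = |A a z - A b z| * |∑ u, H z u * q u| := abs_mul _ _
      _ ≤ _ := mul_le_mul_of_nonneg_left h2 (abs_nonneg _)
  have h1 : α * d * N ≤ 8 * K * d * R := by
    refine hform'.trans ((Finset.sum_le_sum fun z _ => hterm z).trans ?_)
    rw [← Finset.sum_mul]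
    exact mul_le_mul_of_nonneg_right hdiff hR0
  have h2 : α * N ≤ 8 * K * R := by
    have : d * (α * N) ≤ d * (8 * K * R) := by linarith
    exact le_of_mul_le_mul_left this hdpos
  -- solve the quadratic inequality
  rcases hN0.lt_or_eq with hNpos | hNz
  swap
  · rw [← hNz]
    have : 0 < 1 - α := by linarith
    positivity
  set S0 := Real.sqrt (2 * π₀ * (1 - α) * N) with hS0
  have hS2 : S0 ^ 2 = 2 * π₀ * (1 - α) * N := by
    rw [hS0]
    refine Real.sq_sqrt ?_
    have : 0 < 1 - α := by linarith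
    positivity
  have h3 : α / 2 * N ≤ 8 * K * S0 := by
    have h4 : 8 * K * (N / 2) ≤ α / 2 * N := by
      have := mul_le_mul_of_nonneg_right hKα (by linarith : (0 : ℝ) ≤ N / 2)
      linarith
    rw [hR, mul_add] at h2
    linarith
  have h5 : (α / 2 * N) ^ 2 ≤ (8 * K * S0) ^ 2 := pow_le_pow_left₀ (by positivity) h3 2
  rw [mul_pow (8 * K), hS2] at h5
  have h6 : N * (α ^ 2 * N) ≤ N * (512 * K ^ 2 * π₀ * (1 - α)) := by
    calc N * (α ^ 2 * N) = 4 * (α / 2 * N) ^ 2 := by ring
      _ ≤ 4 * ((8 * K) ^ 2 * (2 * π₀ * (1 - α) * N)) := by linarith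
      _ = _ := by ring
  have h7 := le_of_mul_le_mul_left h6 hNpos
  have h8 : N ≤ 512 * K ^ 2 * π₀ * (1 - α) / α ^ 2 := by
    rw [le_div_iff₀ (by positivity)]
    linarith
  refine h8.trans ?_
  rw [← mul_div_assoc]
  refine div_le_div_of_nonneg_right ?_ (by positivity)
  have : 0 ≤ π₀ * (K ^ 2 * (1 - α)) := by
    have : 0 < 1 - α := by linarith
    positivity
  nlinarith

/-- **The number of vertices of one slow colour satisfying the maximal inequality.** -/
theorem card_le_pow (hc : IsPCC c) {x y : V} (hxy : x ≠ y) {θ : ℝ} {f : V → ℝ} (hf : f ≠ 0)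
    (hf0 : ∑ v, f v = 0) (hev : adjR c (c x y) *ᵥ f = θ • f) {a b : V} (hab : a ≠ b) {α K : ℝ}
    (hα : 0 < α) (hα1 : α < 1) (hK : 0 < K) (hK1 : K ≤ 1 / 65536)
    (hθ : α * deg (constituent c (c x y)) x < |θ|)
    (hdiff : diffN c (c x y) a b ≤ 8 * K * deg (constituent c (c x y)) x) (v : V) (Y : Finset V)
    (hYc : ∀ w ∈ Y, c v w = c x y)
    (hY : ∀ w ∈ Y, ∀ k : ℕ,
      S (lazy (W c (c a b))) (lazy (W c (c a b)) *ᵥ rate (lazy (W c (c a b))) (c v)) k w ≤ k * K) :
    (Y.card : ℝ) * eigCount (constituent c (c x y)) (α * deg (constituent c (c x y)) x) ≤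
      Fintype.card V * (100000 / α ^ 3 * Real.exp (-(Real.log ((1 + (1 - α)) / (2 * (1 - α))) ^ 2 /
        (73728 * K * Real.log ((1 + (1 - α)) / (1 - α)))))) := by
  classical
  obtain ⟨H, hHm, hHs, hQ, hHHH, hform, htr, hH1, heig⟩ := Band.exists_band hc hxy
    (t := α * deg (constituent c (c x y)) x) (by positivity) hf hf0 hev hθ
  set P := lazy (W c (c a b)) with hP
  have hW := W_isWalk hc hab
  have hPw : IsWalk P := lazy_isWalk hW
  set n : ℝ := (Fintype.card V : ℝ) with hn
  have hn0 : 0 < n := by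
    have : 0 < Fintype.card V := Fintype.card_pos_iff.2 ⟨x⟩
    rw [hn]; exact_mod_cast this
  set Q := H * H with hQdef
  set π₀ := Q v v with hπ
  have hπpos : 0 < π₀ := hQ.pos hc v
  have hQm : Q ∈ alg hc := (alg hc).mul_mem hHm hHm
  obtain ⟨lam, q, hl0, hl1, hq0, hq1, htr2⟩ := exists_spec hW hQ.sym hQ.idem (by
    intro g hg
    have h1 : ∀ u v, g u = g v := by
      refine const_of_adj (hc.primitive a b hab) fun u v huv => hg u v ?_
      rw [W_eq hc huv a]
      have := deg_pos hc hab a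
      positivity
    have h2 : g = g a • fun _ => (1 : ℝ) := by
      ext u
      simp [h1 u a]
    rw [h2, mulVec_smul, hQdef, ← mulVec_mulVec, hH1, mulVec_zero, smul_zero])
  obtain ⟨hs0, hs1, hs2, hs3⟩ := seq_props hl0 hl1 hq0 hq1
  simp only [← htr2] at hs0 hs1 hs2 hs3
  have htrQ : Q.trace = n * π₀ := by
    rw [Matrix.trace]
    have : ∀ w, Q.diag w = π₀ := fun w => hQ.diag hc w v
    rw [Finset.sum_congr rfl fun w _ => this w, Finset.sum_const, nsmul_eq_mul, Finset.card_univ]
  have hsum : ∑ i, q i = n * π₀ := by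
    have h1 := htr2 0
    simp only [pow_zero, mul_one] at h1
    rw [← h1, htrQ]
  set t : ℕ → ℝ := fun s => (Q * P ^ (2 * s)).trace - (Q * P ^ (2 * s + 1)).trace with ht
  set as : ℕ → ℝ := fun s => 4 / (n * π₀) * t s with has
  set hh : ℕ → ℝ := fun s => 1 / (n * π₀) * (Q * P ^ (2 * s)).trace with hhh
  set M : ℕ → V → ℝ := fun s w => (H * P ^ s) v w / π₀ with hM
  have hc0 : 0 < 4 / (n * π₀) := by positivity
  have hc1 : 0 < 1 / (n * π₀) := by positivity
  have hpow : ∀ s, P ^ s ∈ alg hc := fun s => (alg hc).pow_mem (lazy_mem hc _) s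
  have hh1 : ∀ s, hh s ≤ 1 := by
    intro s
    have h1 : (Q * P ^ (2 * s)).trace ≤ n * π₀ := by
      rw [htr2, ← hsum]
      refine Finset.sum_le_sum fun i _ => ?_
      exact mul_le_of_le_one_right (hq0 i) (pow_le_one₀ (hl0 i) (hl1 i))
    simp only [hhh]
    calc 1 / (n * π₀) * (Q * P ^ (2 * s)).trace ≤ 1 / (n * π₀) * (n * π₀) :=
          mul_le_mul_of_nonneg_left h1 hc1.le
      _ = 1 := by field_simp
  have hh0 : ∀ s, 0 ≤ hh s := by
    intro s
    simp only [hhh]
    refine mul_nonneg hc1.le ?_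
    rw [htr2]
    exact Finset.sum_nonneg fun i _ => mul_nonneg (hq0 i) (pow_nonneg (hl0 i) _)
  have hhz : hh 0 = 1 := by
    simp only [hhh, mul_zero, pow_zero, mul_one]
    rw [htrQ]
    field_simp
  have hdif : ∀ s, hh s - hh (s + 1) =
      1 / (n * π₀) * ∑ i, q i * (lam i ^ (2 * s) * (1 - lam i ^ 2)) := by
    intro s
    simp only [hhh]
    rw [← mul_sub, htr2, htr2, ← Finset.sum_sub_distrib]
    congr 1
    refine Finset.sum_congr rfl fun i _ => ?_
    have : lam i ^ (2 * (s + 1)) = lam i ^ (2 * s) * lam i ^ 2 := by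
      rw [← pow_add]; congr 1
    rw [this]
    ring
  have hts : ∀ s, t s = ∑ i, q i * (lam i ^ (2 * s) * (1 - lam i)) := by
    intro s
    simp only [ht]
    rw [htr2, htr2, ← Finset.sum_sub_distrib]
    exact Finset.sum_congr rfl fun i _ => by rw [pow_succ]; ring
  have hjump := fun (s : ℕ) (w : V) => jump_pow hc hHs hQ hHHH hab s v (J := as s)
    (by simp only [has, ht]; rfl) (h := hh s) (by simp only [hhh]; rfl) (hh1 s) w
  -- the hypotheses of the abstract inequality
  have e1 : ∀ s, P *ᵥ M s = M (s + 1) := by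
    intro s
    ext w
    change ∑ z, P w z * ((H * P ^ s) v z / π₀) = (H * P ^ (s + 1)) v w / π₀
    rw [pow_succ, ← Matrix.mul_assoc, Matrix.mul_apply, Finset.sum_div]
    refine Finset.sum_congr rfl fun z _ => ?_
    rw [hPw.symm w z]
    ring
  have e2 : ∀ s w z, c v z = c v w → M s z = M s w := by
    intro s w z h
    simp only [hM]
    rw [(alg hc).mul_mem hHm (hpow s) v z v w h]
  have e4 : ∀ s, 0 ≤ as s := fun s => mul_nonneg hc0.le (hs0 s)
  have e5 : ∀ s, as (s + 1) ≤ as s := fun s => mul_le_mul_of_nonneg_left (hs1 s) hc0.le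
  have e3 : as 0 ≤ 1 - α → ∀ s w z, P w z ≠ 0 →
      (M s z - M s w) ^ 2 ≤ 4 * as s * (1 - M s w + (1 - α)) := by
    intro h0 s w z h
    have hs : as s ≤ 1 - α := by
      have : as s ≤ as 0 := by
        clear h
        induction s with
        | zero => exact le_rfl
        | succ s ih => exact (e5 s).trans ih
      exact this.trans h0
    by_cases hwz : w = z
    · rw [hwz, sub_self]
      have h1 := (hjump s z).1
      have h2 := hh1 s
      have h3 : M s z ≤ 1 := by
        simp only [hM]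
        linarith
      have : 0 ≤ 4 * as s * (1 - M s z + (1 - α)) :=
        mul_nonneg (by linarith [e4 s]) (by linarith)
      simpa using this
    · have hadj : (constituent c (c a b)).Adj w z := by
        by_contra hno
        apply h
        rw [hP, lazy_apply, if_neg hwz, W_of_not hno]
        norm_num
      exact (hjump s w).2.2 z hadj (1 - α) hs
  have e6 : as 0 ≤ 600 * K ^ 2 * (1 - α) / α ^ 2 ∨ ¬ 8 * K ≤ α := by
    by_cases hKα : 8 * K ≤ α
    · left
      have h1 := zero_jump hc hHm hHs hQ hHHH hxy hα hα1 hform htr hK hKα hdiff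
      have h2 := trace_rel hc hQm hQ.sym hab
      have h3 : as 0 = 2 * (Q a a - Q a b) / π₀ := by
        simp only [has, ht, mul_zero, pow_zero, mul_one, zero_add, pow_one]
        rw [h2, ← hn]
        field_simp
        ring
      have h4 : Q a a = π₀ := hQ.diag hc a v
      rw [h3, div_le_iff₀ hπpos]
      rw [← hQdef, h4] at h1
      rw [h4]
      linarith
    · exact Or.inr hKα
  have e7 : ∀ ε > 0, ∃ T, ∀ w, |M T w| ≤ ε := by
    intro ε hε
    have h1 : Tendsto (fun T : ℕ => 1 / (n * π₀) * (Q * P ^ (2 * T)).trace) atTop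
        (𝓝 (1 / (n * π₀) * 0)) := hs3.const_mul _
    rw [mul_zero] at h1
    obtain ⟨T, hT⟩ := ((tendsto_order.1 h1).2 (ε ^ 2) (by positivity)).exists
    refine ⟨T, fun w => ?_⟩
    refine abs_le_of_sq_le_sq ?_ hε.le
    exact ((hjump T w).2.1).trans hT.le
  have e8 : ∀ w ∈ Y, α ≤ M 0 w := by
    intro w hw
    have h1 := value hc hHm hHs hQ hxy htr v
    have h2 : H v w = H x y := hHm _ _ _ _ (hYc w hw)
    simp only [hM, pow_zero, mul_one]
    rw [le_div_iff₀ hπpos, h2]
    exact h1
  have e9 : ∑ w, M 0 w * M 0 w = 1 / π₀ := by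
    simp only [hM, pow_zero, mul_one]
    have h1 : ∑ w, H v w * H v w = π₀ := by
      rw [hπ, hQdef, Matrix.mul_apply]
      refine Finset.sum_congr rfl fun u _ => ?_
      have : H u v = H v u := by
        conv_lhs => rw [← hHs]
        rfl
      rw [this]
    have h2 : ∀ w, H v w / π₀ * (H v w / π₀) = (H v w * H v w) / π₀ ^ 2 := fun w => by
      rw [div_mul_div_comm, sq]
    rw [Finset.sum_congr rfl fun w _ => h2 w, ← Finset.sum_div, h1]
    field_simp
  have e10 : ∀ s, ∑ w, M (s + 1) w * M (s + 1) w ≤ ∑ w, M s w * M (s + 1) w := by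
    intro s
    have h1 := dirichlet hW (P *ᵥ M s) (-1) (by norm_num)
    have h2 : ∀ w, (P *ᵥ M s) w = M (s + 1) w := fun w => by rw [e1]
    -- `⟨g, P g⟩ ≥ ⟨P g, P g⟩` for the lazy walk
    have h3 : ∑ w, M s w * (P *ᵥ M s) w - ∑ w, (P *ᵥ M s) w * (P *ᵥ M s) w =
        1 / 4 * (∑ w, M s w * M s w - ∑ w, (W c (c a b) *ᵥ M s) w * (W c (c a b) *ᵥ M s) w) := by
      have h4 : ∀ w, (P *ᵥ M s) w = 1 / 2 * (M s w + (W c (c a b) *ᵥ M s) w) := fun w =>
        lazy_mulVec _ _ _
      rw [mul_sub, Finset.mul_sum, Finset.mul_sum, ← Finset.sum_sub_distrib,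
        ← Finset.sum_sub_distrib]
      refine Finset.sum_congr rfl fun w _ => ?_
      rw [h4]
      ring
    have h5 : ∑ w, (W c (c a b) *ᵥ M s) w * (W c (c a b) *ᵥ M s) w ≤ ∑ w, M s w * M s w :=
      walk_contr hW (M s)
    have h6 : ∑ w, M (s + 1) w * M (s + 1) w = ∑ w, (P *ᵥ M s) w * (P *ᵥ M s) w :=
      Finset.sum_congr rfl fun w _ => by rw [h2]
    have h7 : ∑ w, M s w * M (s + 1) w = ∑ w, M s w * (P *ᵥ M s) w :=
      Finset.sum_congr rfl fun w _ => by rw [h2]
    rw [h6, h7]
    linarith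
  have key := card_pow (P := P) (col := c v) (M := M) (a := as) (x := fun s => 1 - hh s) hPw hα hα1
    hK hK1 e1 e2 e3 e4 e5 (by rw [hhz]; norm_num) (fun s => by linarith [hh0 s])
    (fun s => by
      have h1 := hdif s
      have h2 : 0 ≤ 1 / (n * π₀) * ∑ i, q i * (lam i ^ (2 * s) * (1 - lam i ^ 2)) :=
        mul_nonneg hc1.le (Finset.sum_nonneg fun i _ => mul_nonneg (hq0 i)
          (mul_nonneg (pow_nonneg (hl0 i) _) (by nlinarith [hl0 i, hl1 i])))
      linarith)
    (fun s => by
      have h1 := hdif s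
      have h2 : 4 * (1 - hh (s + 1) - (1 - hh s)) =
          4 / (n * π₀) * ∑ i, q i * (lam i ^ (2 * s) * (1 - lam i ^ 2)) := by
        have : 1 - hh (s + 1) - (1 - hh s) = hh s - hh (s + 1) := by ring
        rw [this, h1]
        ring
      rw [h2]
      simp only [has]
      rw [hts]
      refine mul_le_mul_of_nonneg_left (Finset.sum_le_sum fun i _ => ?_) hc0.le
      refine mul_le_mul_of_nonneg_left (mul_le_mul_of_nonneg_left ?_ (pow_nonneg (hl0 i) _)) (hq0 i)
      nlinarith [hl0 i, hl1 i])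
    (fun s => by
      have h1 := hdif s
      have h2 : as s / 2 = 1 / (n * π₀) * ∑ i, q i * (lam i ^ (2 * s) * (2 * (1 - lam i))) := by
        simp only [has]
        rw [hts, Finset.mul_sum, Finset.mul_sum, Finset.sum_div]
        exact Finset.sum_congr rfl fun i _ => by ring
      have h3 : 1 - hh (s + 1) - (1 - hh s) = hh s - hh (s + 1) := by ring
      rw [h3, h1, h2]
      refine mul_le_mul_of_nonneg_left (Finset.sum_le_sum fun i _ => ?_) hc1.le
      refine mul_le_mul_of_nonneg_left (mul_le_mul_of_nonneg_left ?_ (pow_nonneg (hl0 i) _)) (hq0 i)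
      nlinarith [hl0 i, hl1 i])
    (fun s w => by
      have h1 := (hjump s w).1
      simp only [hM]
      linarith)
    (fun h => e6.resolve_right (not_not.2 h)) e10 e7 Y e8 hY
  rw [e9] at key
  have h1 : (eigCount (constituent c (c x y)) (α * deg (constituent c (c x y)) x) : ℝ) ≤ n * π₀ := by
    rw [← htrQ]; exact heig
  set B := 100000 / α ^ 3 * Real.exp (-(Real.log ((1 + (1 - α)) / (2 * (1 - α))) ^ 2 /
        (73728 * K * Real.log ((1 + (1 - α)) / (1 - α))))) with hB
  have hB0 : 0 ≤ B := by positivity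
  calc (Y.card : ℝ) * eigCount (constituent c (c x y)) (α * deg (constituent c (c x y)) x)
      ≤ (B * (1 / π₀)) * (n * π₀) := mul_le_mul key h1 (Nat.cast_nonneg _) (by positivity)
    _ = n * B := by field_simp

end CardPow

end Pool.Agent.Lib.MP_7beb49_co
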