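import Pool.Agent.Lib.MP_7beb49_co.Multiplier

/-!
# Differences of the neighbourhoods in a constituent

Copied from the hand-in `TranslationSchemes` (helper26).
-/

set_option autoImplicit false

namespace Pool.Agent.Lib.MP_7beb49_co.Diff

open Finset Pool.Agent.Lib.MP_7beb49_co

variable {V κ : Type} [Fintype V] {c : V → V → κ}

/-- Adjacency in a constituent depends only on the colour. -/
theorem adj_iff (hc : IsPCC c) (i : κ) {u v u' v' : V} (h : c u v = c u' v') :
    (constituent c i).Adj u v ↔ (constituent c i).Adj u' v' := by
  have h' := hc.conv _ _ _ _ h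
  rw [constituent, SimpleGraph.fromRel_adj, SimpleGraph.fromRel_adj, h, h']
  have : u ≠ v ↔ u' ≠ v' := by
    constructor
    · rintro h1 rfl
      exact hc.diag_ne _ _ _ h1 h.symm
    · rintro h1 rfl
      exact hc.diag_ne _ _ _ h1 h
  rw [this]

open Classical in
/-- The number of vertices at which the neighbourhoods of two vertices differ. -/
noncomputable def diff (c : V → V → κ) (i : κ) (x y : V) : ℕ :=
  (univ.filter (fun z => ¬ ((constituent c i).Adj x z ↔ (constituent c i).Adj y z))).card

theorem diff_colour (hc : IsPCC c) (i : κ) {x y x' y' : V} (h : c x y = c x' y') :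
    diff c i x y = diff c i x' y' := by
  classical
  obtain ⟨σ, hσ⟩ := exists_equiv hc h
  rw [diff, diff]
  refine Finset.card_bij (fun z _ => σ z) ?_ ?_ ?_
  · intro z hz
    rw [Finset.mem_filter] at hz ⊢
    refine ⟨Finset.mem_univ _, ?_⟩
    rw [adj_iff hc i (hσ z).1]
    have h2 : (constituent c i).Adj y' (σ z) ↔ (constituent c i).Adj y z := by
      rw [SimpleGraph.adj_comm, adj_iff hc i (hσ z).2, SimpleGraph.adj_comm]
    rw [h2]
    exact hz.2
  · intro z _ z' _ h1
    exact σ.injective h1
  · intro z hz
    refine ⟨σ.symm z, ?_, by simp⟩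
    rw [Finset.mem_filter] at hz ⊢
    refine ⟨Finset.mem_univ _, ?_⟩
    have h3 := hσ (σ.symm z)
    rw [Equiv.apply_symm_apply] at h3
    rw [← adj_iff hc i h3.1]
    have h2 : (constituent c i).Adj y' z ↔ (constituent c i).Adj y (σ.symm z) := by
      rw [SimpleGraph.adj_comm, adj_iff hc i h3.2, SimpleGraph.adj_comm]
    rw [← h2]
    exact hz.2

open Classical in
theorem deg_eq (H : SimpleGraph V) (v : V) : deg H v = (univ.filter (fun z => H.Adj v z)).card := by
  rw [deg, Set.ncard_eq_toFinset_card']
  congr 1
  ext w; simp [SimpleGraph.mem_neighborSet]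

/-- Degrees of a constituent do not depend on the vertex. -/
theorem deg_const (hc : IsPCC c) (i : κ) (u v : V) :
    deg (constituent c i) u = deg (constituent c i) v :=
  ncard_eq hc (P := fun a b => (constituent c i).Adj a b)
    (fun _ _ _ _ h => adj_iff hc i h) u v

open Classical in
theorem diff_le (hc : IsPCC c) (i : κ) (o u : V) :
    diff c i o u = 2 * (univ.filter (fun z => (constituent c i).Adj o z ∧
      ¬ (constituent c i).Adj u z)).card := by
  classical
  set H := constituent c i with hH
  have h1 := deg_const hc i o u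
  rw [deg_eq, deg_eq, ← hH] at h1
  have h2 := Finset.card_sdiff_comm h1
  have h3 : univ.filter (fun z => ¬ (H.Adj o z ↔ H.Adj u z)) =
      (univ.filter (fun z => H.Adj o z) \ univ.filter (fun z => H.Adj u z)) ∪
        (univ.filter (fun z => H.Adj u z) \ univ.filter (fun z => H.Adj o z)) := by
    ext z
    simp only [Finset.mem_filter, Finset.mem_univ, true_and, Finset.mem_union, Finset.mem_sdiff]
    tauto
  have h4 : univ.filter (fun z => H.Adj o z ∧ ¬ H.Adj u z) =
      univ.filter (fun z => H.Adj o z) \ univ.filter (fun z => H.Adj u z) := by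
    ext z
    simp only [Finset.mem_filter, Finset.mem_univ, true_and, Finset.mem_sdiff]
  rw [diff, ← hH, h3, Finset.card_union_of_disjoint, h4, ← h2]
  · ring
  · rw [Finset.disjoint_left]
    intro z hz hz'
    rw [Finset.mem_sdiff] at hz hz'
    exact hz.2 hz'.1

/-- Opposite colours have the same symmetrised constituent. -/
theorem constituent_eq (hc : IsPCC c) {o y z : V} (hyz : (constituent c (c o y)).Adj o z) :
    constituent c (c o y) = constituent c (c o z) := by
  rw [constituent, SimpleGraph.fromRel_adj] at hyz
  rcases hyz.2 with h | h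
  · rw [h]
  · ext a b
    rw [constituent, constituent, SimpleGraph.fromRel_adj, SimpleGraph.fromRel_adj, ← h]
    have h1 : ∀ a b, c a b = c z o ↔ c b a = c o z :=
      fun a b => ⟨fun h => hc.conv _ _ _ _ h, fun h => hc.conv _ _ _ _ h⟩
    rw [h1 a b, h1 b a]
    tauto

open Classical in
/-- The normalised differences, summed over all vertices. -/
theorem sum_diff_le (hc : IsPCC c) {o u : V} (hou : o ≠ u) :
    ∑ y ∈ univ.erase o, (diff c (c o y) o u : ℝ) / (deg (constituent c (c o y)) o : ℝ) ≤
      2 * (distinguishing c o u : ℝ) - 2 := by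
  classical
  have hrefl : ∀ y, y ≠ o → (constituent c (c o y)).Adj o y := by
    intro y hy
    rw [constituent, SimpleGraph.fromRel_adj]
    exact ⟨hy.symm, Or.inl rfl⟩
  have hdpos : ∀ y, y ≠ o → (0 : ℝ) < (deg (constituent c (c o y)) o : ℝ) := by
    intro y hy
    rw [deg_eq]
    exact_mod_cast Finset.card_pos.2 ⟨y, by simp [hrefl y hy]⟩
  have h1 : ∀ y ∈ univ.erase o, (diff c (c o y) o u : ℝ) / (deg (constituent c (c o y)) o : ℝ) =
      2 * ∑ z, (if (constituent c (c o y)).Adj o z ∧ ¬ (constituent c (c o y)).Adj u z then
        (1 : ℝ) / (deg (constituent c (c o y)) o : ℝ) else 0) := by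
    intro y _
    rw [diff_le hc, Finset.card_filter]
    push_cast
    rw [mul_div_assoc, Finset.sum_div]
    congr 1
    apply Finset.sum_congr rfl
    intro z _
    split_ifs <;> simp
  rw [Finset.sum_congr rfl h1, ← Finset.mul_sum, Finset.sum_comm,
    show 2 * (distinguishing c o u : ℝ) - 2 = 2 * ((distinguishing c o u : ℝ) - 1) by ring]
  refine mul_le_mul_of_nonneg_left ?_ (by norm_num)
  have h2 : ∀ z, ∑ y ∈ univ.erase o, (if (constituent c (c o y)).Adj o z ∧
      ¬ (constituent c (c o y)).Adj u z then
        (1 : ℝ) / (deg (constituent c (c o y)) o : ℝ) else 0) ≤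
      if z ≠ o ∧ c z o ≠ c z u then 1 else 0 := by
    intro z
    by_cases hzo : z = o
    · subst hzo
      have h3 : ∀ y ∈ univ.erase z, (if (constituent c (c z y)).Adj z z ∧
          ¬ (constituent c (c z y)).Adj u z then
          (1 : ℝ) / (deg (constituent c (c z y)) z : ℝ) else 0) = 0 := by
        intro y _
        rw [if_neg]
        rintro ⟨h4, _⟩
        exact (SimpleGraph.irrefl _ h4)
      rw [Finset.sum_congr rfl h3, Finset.sum_const_zero]
      split_ifs <;> norm_num
    · -- rewrite in terms of the constituent of `z`
      have h3 : ∀ y ∈ univ.erase o, (if (constituent c (c o y)).Adj o z ∧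
          ¬ (constituent c (c o y)).Adj u z then
          (1 : ℝ) / (deg (constituent c (c o y)) o : ℝ) else 0) =
          if (constituent c (c o z)).Adj o y then
            (if (constituent c (c o z)).Adj u z then 0 else
              (1 : ℝ) / (deg (constituent c (c o z)) o : ℝ)) else 0 := by
        intro y hy
        rw [Finset.mem_erase] at hy
        by_cases h4 : (constituent c (c o y)).Adj o z
        · have h5 := constituent_eq hc h4
          have h6 : (constituent c (c o z)).Adj o y := h5 ▸ hrefl y hy.1
          rw [if_pos h6, ← h5]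
          by_cases h7 : (constituent c (c o y)).Adj u z
          · rw [if_neg (fun hh => hh.2 h7), if_pos h7]
          · rw [if_pos ⟨h4, h7⟩, if_neg h7]
        · have h6 : ¬ (constituent c (c o z)).Adj o y := by
            intro h7
            have h5 := constituent_eq hc h7
            exact h4 (h5 ▸ hrefl z hzo)
          rw [if_neg h6, if_neg (fun hh => h4 hh.1)]
      rw [Finset.sum_congr rfl h3]
      by_cases h8 : (constituent c (c o z)).Adj u z
      · simp only [if_pos h8]
        have : ∑ y ∈ univ.erase o, (if (constituent c (c o z)).Adj o y then (0 : ℝ) else 0) = 0 := by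
          apply Finset.sum_eq_zero
          intro y _
          split_ifs <;> rfl
        rw [this]
        split_ifs <;> norm_num
      · simp only [if_neg h8]
        have h9 : c z o ≠ c z u := by
          intro h10
          apply h8
          have h11 := hc.conv _ _ _ _ h10
          rw [constituent, SimpleGraph.fromRel_adj]
          refine ⟨?_, Or.inl h11.symm⟩
          rintro rfl
          exact hc.diag_ne _ _ _ hzo h10.symm
        rw [if_pos ⟨hzo, h9⟩, ← Finset.sum_filter, Finset.sum_const, nsmul_eq_mul]
        have h12 : ((univ.erase o).filter (fun y => (constituent c (c o z)).Adj o y)).card ≤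
            deg (constituent c (c o z)) o := by
          rw [deg_eq]
          apply Finset.card_le_card
          intro y hy
          rw [Finset.mem_filter] at hy ⊢
          exact ⟨Finset.mem_univ _, hy.2⟩
        have h13 : (((univ.erase o).filter
            (fun y => (constituent c (c o z)).Adj o y)).card : ℝ) ≤
            (deg (constituent c (c o z)) o : ℝ) := by exact_mod_cast h12
        have h14 := hdpos z hzo
        rw [mul_one_div, div_le_one h14]
        exact h13
  refine le_trans (Finset.sum_le_sum (fun z _ => h2 z)) ?_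
  rw [Finset.sum_boole, distinguishing, Set.ncard_eq_toFinset_card']
  have h3 : univ.filter (fun z => z ≠ o ∧ c z o ≠ c z u) =
      (Set.toFinset {w | c w o ≠ c w u}).erase o := by
    ext z; simp
  have h4 : o ∈ Set.toFinset {w | c w o ≠ c w u} := by
    rw [Set.mem_toFinset]
    exact hc.diag_ne o o u hou
  rw [h3, Finset.card_erase_of_mem h4, Nat.cast_sub (Finset.card_pos.2 ⟨o, h4⟩)]
  simp

theorem distinguishing_colour (hc : IsPCC c) {x y x' y' : V} (h : c x y = c x' y') :
    distinguishing c x y = distinguishing c x' y' := by
  classical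
  obtain ⟨σ, hσ⟩ := exists_equiv hc h
  rw [distinguishing, distinguishing]
  refine Set.ncard_congr (fun w _ => σ w) ?_ ?_ ?_
  · intro w hw
    have h1 := hc.conv _ _ _ _ (hσ w).1
    change c (σ w) x' ≠ c (σ w) y'
    rw [h1, (hσ w).2]
    exact hw
  · intro w w' _ _ h1
    exact σ.injective h1
  · intro w hw
    refine ⟨σ.symm w, ?_, by simp⟩
    have h1 := hσ (σ.symm w)
    rw [Equiv.apply_symm_apply] at h1
    have h2 := hc.conv _ _ _ _ h1.1
    change c (σ.symm w) x ≠ c (σ.symm w) y
    rw [← h2, ← h1.2]
    exact hw

end Pool.Agent.Lib.MP_7beb49_co.Diff
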