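import Pool.Agent.Lib.MP_7beb49_co.Hopf

/-!
# An exponential inequality for reversed martingales of symmetric random walks

`M 0, M 1, …` are functions with `P (M s) = M (s + 1)`, the differences of `M s` along steps of the
walk have squares at most `a s`, and vanish along steps that do not change the colour. If `a` is
nonincreasing, `∑ a ≤ A`, and `M s → 0`, then for all points `y` where the averages of the rate
`η` of colour changes are at most `K`, the sum of `exp (τ M 0 y - τ² A K)` is at most the number of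
points.
-/

set_option autoImplicit false
set_option linter.unusedSectionVars false

namespace Pool.Agent.Lib.MP_7beb49_co.Walk

open Finset Matrix Filter Topology

variable {V κ : Type} [Fintype V] [DecidableEq V]

open Classical in
/-- The probability of a change of colour in one step. -/
noncomputable def rate (P : Matrix V V ℝ) (col : V → κ) (y : V) : ℝ :=
  ∑ b, P y b * (if col b = col y then 0 else 1)

theorem rate_nonneg {P : Matrix V V ℝ} (hP : IsWalk P) (col : V → κ) (y : V) :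
    0 ≤ rate P col y :=
  Finset.sum_nonneg fun b _ => mul_nonneg (hP.nonneg y b) (by split_ifs <;> norm_num)

/-- One step. -/
theorem step {P : Matrix V V ℝ} (hP : IsWalk P) {col : V → κ} {M : V → ℝ} {a τ : ℝ}
    (hcol : ∀ y b, col b = col y → M b = M y)
    (ha : ∀ y b, P y b ≠ 0 → (M b - M y) ^ 2 ≤ a) (hτ : τ ^ 2 * a ≤ 1) (y : V) :
    (P *ᵥ fun b => Real.exp (τ * M b)) y ≤
      Real.exp (τ * (P *ᵥ M) y + τ ^ 2 * a * rate P col y) := by
  classical
  have h1 : ∀ b, P y b * Real.exp (τ * M b) ≤ Real.exp (τ * M y) *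
      (P y b * (1 + τ * (M b - M y) + τ ^ 2 * a * (if col b = col y then 0 else 1))) := by
    intro b
    by_cases hb : P y b = 0
    · rw [hb]; simp
    have hpos := hP.nonneg y b
    have h2 : Real.exp (τ * M b) = Real.exp (τ * M y) * Real.exp (τ * (M b - M y)) := by
      rw [← Real.exp_add]; congr 1; ring
    have h3 : Real.exp (τ * (M b - M y)) ≤
        1 + τ * (M b - M y) + τ ^ 2 * a * (if col b = col y then 0 else 1) := by
      split_ifs with h
      · rw [hcol y b h, sub_self, mul_zero]; simp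
      · have h4 : (τ * (M b - M y)) ^ 2 ≤ τ ^ 2 * a := by
          rw [mul_pow]
          exact mul_le_mul_of_nonneg_left (ha y b hb) (sq_nonneg _)
        have h5 : |τ * (M b - M y)| ≤ 1 := by
          rw [← sq_le_one_iff_abs_le_one]
          linarith
        have h6 := (abs_le.1 (Real.abs_exp_sub_one_sub_id_le h5)).2
        linarith
    rw [h2]
    calc P y b * (Real.exp (τ * M y) * Real.exp (τ * (M b - M y)))
        = Real.exp (τ * M y) * (P y b * Real.exp (τ * (M b - M y))) := by ring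
      _ ≤ _ := mul_le_mul_of_nonneg_left (mul_le_mul_of_nonneg_left h3 hpos) (Real.exp_pos _).le
  have h7 : (P *ᵥ fun b => Real.exp (τ * M b)) y ≤ Real.exp (τ * M y) *
      ∑ b, P y b * (1 + τ * (M b - M y) + τ ^ 2 * a * (if col b = col y then 0 else 1)) := by
    rw [Finset.mul_sum]
    exact Finset.sum_le_sum fun b _ => h1 b
  have h8 : ∑ b, P y b * (1 + τ * (M b - M y) + τ ^ 2 * a * (if col b = col y then 0 else 1)) =
      1 + τ * ((P *ᵥ M) y - M y) + τ ^ 2 * a * rate P col y := by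
    have e1 : (P *ᵥ M) y = ∑ b, P y b * M b := rfl
    have e2 : ∑ b, P y b * M y = M y := by rw [← Finset.sum_mul, hP.sum, one_mul]
    have e3 : ∀ b, P y b * (1 + τ * (M b - M y) +
        τ ^ 2 * a * (if col b = col y then 0 else 1)) =
        P y b + τ * (P y b * M b) - τ * (P y b * M y) +
          τ ^ 2 * a * (P y b * (if col b = col y then 0 else 1)) := fun b => by ring
    rw [Finset.sum_congr rfl fun b _ => e3 b, Finset.sum_add_distrib, Finset.sum_sub_distrib,
      Finset.sum_add_distrib, ← Finset.mul_sum, ← Finset.mul_sum, ← Finset.mul_sum, e2, hP.sum,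
      ← e1, rate]
    ring
  rw [h8] at h7
  refine h7.trans ?_
  have h9 := Real.add_one_le_exp (τ * ((P *ᵥ M) y - M y) + τ ^ 2 * a * rate P col y)
  calc Real.exp (τ * M y) * (1 + τ * ((P *ᵥ M) y - M y) + τ ^ 2 * a * rate P col y)
      ≤ Real.exp (τ * M y) * Real.exp (τ * ((P *ᵥ M) y - M y) + τ ^ 2 * a * rate P col y) :=
        mul_le_mul_of_nonneg_left (by linarith) (Real.exp_pos _).le
    _ = _ := by rw [← Real.exp_add]; congr 1; ring

/-- The damped iterates. -/
noncomputable def Φ (P : Matrix V V ℝ) (β : ℕ → ℝ) (η : V → ℝ) (f : V → ℝ) : ℕ → V → ℝ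
  | 0 => f
  | s + 1 => fun y => Real.exp (-(β s * η y)) * (P *ᵥ Φ P β η f s) y

theorem Φ_nonneg {P : Matrix V V ℝ} (hP : IsWalk P) {β : ℕ → ℝ} {η f : V → ℝ}
    (hf : ∀ y, 0 ≤ f y) (s : ℕ) (y : V) : 0 ≤ Φ P β η f s y := by
  induction s generalizing y with
  | zero => exact hf y
  | succ s ih => exact mul_nonneg (Real.exp_pos _).le (hP.nonneg' ih y)

theorem Φ_le {P : Matrix V V ℝ} (hP : IsWalk P) {col : V → κ} {M : ℕ → V → ℝ} {a : ℕ → ℝ} {τ : ℝ}
    (hM : ∀ s, P *ᵥ M s = M (s + 1))
    (hcol : ∀ s y b, col b = col y → M s b = M s y)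
    (ha : ∀ s y b, P y b ≠ 0 → (M s b - M s y) ^ 2 ≤ a s) (hτ : ∀ s, τ ^ 2 * a s ≤ 1)
    (s : ℕ) (y : V) :
    Φ P (fun s => τ ^ 2 * a s) (rate P col) (fun y => Real.exp (τ * M 0 y)) s y ≤
      Real.exp (τ * M s y) := by
  induction s generalizing y with
  | zero => exact le_rfl
  | succ s ih =>
    have h1 := hP.mono ih y
    have h2 := step hP (hcol s) (ha s) (hτ s) y
    rw [hM s] at h2
    change Real.exp (-(τ ^ 2 * a s * rate P col y)) * (P *ᵥ _) y ≤ _
    calc _ ≤ Real.exp (-(τ ^ 2 * a s * rate P col y)) *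
          Real.exp (τ * M (s + 1) y + τ ^ 2 * a s * rate P col y) :=
          mul_le_mul_of_nonneg_left (h1.trans h2) (Real.exp_pos _).le
      _ = _ := by rw [← Real.exp_add]; congr 1; ring

/-- Jensen's inequality for the exponential. -/
theorem jensen {P : Matrix V V ℝ} (hP : IsWalk P) (g : V → ℝ) (y : V) :
    Real.exp ((P *ᵥ g) y) ≤ (P *ᵥ fun b => Real.exp (g b)) y := by
  have h := convexOn_exp.map_sum_le (t := univ) (w := fun b => P y b) (p := g)
    (fun b _ => hP.nonneg y b) (hP.sum y) (fun b _ => Set.mem_univ _)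
  simpa [Matrix.mulVec, dotProduct] using h

theorem sum_Φ_ge {P : Matrix V V ℝ} (hP : IsWalk P) {β : ℕ → ℝ} {η f : V → ℝ}
    (hf : ∀ y, 0 ≤ f y) (T : ℕ) (g : V → ℝ) :
    ∑ y, Real.exp (-((P ^ T *ᵥ g) y) - ∑ s ∈ range T, β s * (P ^ (s + 1) *ᵥ η) y) * f y ≤
      ∑ y, Real.exp (-(g y)) * Φ P β η f T y := by
  induction T generalizing g with
  | zero => simp [Φ]
  | succ T ih =>
    have h1 := ih (P *ᵥ (g + β T • η))
    have h2 : ∀ y, (P ^ T *ᵥ (P *ᵥ (g + β T • η))) y =
        (P ^ (T + 1) *ᵥ g) y + β T * (P ^ (T + 1) *ᵥ η) y := by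
      intro y
      rw [mulVec_mulVec, ← pow_succ, mulVec_add, mulVec_smul]
      simp
    have h3 : ∑ y, Real.exp (-(g y)) * Φ P β η f (T + 1) y =
        ∑ y, (P *ᵥ fun b => Real.exp (-(g b + β T * η b))) y * Φ P β η f T y := by
      rw [← hP.adj]
      refine Finset.sum_congr rfl fun y _ => ?_
      change Real.exp (-(g y)) * (Real.exp (-(β T * η y)) * (P *ᵥ Φ P β η f T) y) = _
      rw [← mul_assoc, ← Real.exp_add]
      congr 2
      ring
    rw [h3]
    refine le_trans (le_of_eq ?_) (h1.trans (Finset.sum_le_sum fun y _ => ?_))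
    · refine Finset.sum_congr rfl fun y _ => ?_
      rw [h2, Finset.sum_range_succ]
      congr 2
      ring
    · refine mul_le_mul_of_nonneg_right ?_ (Φ_nonneg hP hf T y)
      have h4 := jensen hP (fun b => -(g b + β T * η b)) y
      refine le_trans (le_of_eq ?_) h4
      congr 1
      have h5 : (fun b => -(g b + β T * η b)) = -(g + β T • η) := by
        ext b; simp
      rw [h5, mulVec_neg]
      rfl

/-- Summation by parts. -/
theorem abel {β r : ℕ → ℝ} {K : ℝ} (hβ : ∀ s, β (s + 1) ≤ β s) (hβ0 : ∀ s, 0 ≤ β s)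
    (hr : ∀ k : ℕ, ∑ s ∈ range k, r s ≤ k * K) (T : ℕ) :
    ∑ s ∈ range T, β s * r s ≤ K * ∑ s ∈ range T, β s := by
  have h1 : ∀ T : ℕ, ∑ s ∈ range T, β s * (r s - K) ≤ β T * (∑ s ∈ range T, r s - T * K) := by
    intro T
    induction T with
    | zero => simp
    | succ T ih =>
      rw [Finset.sum_range_succ]
      have h2 : ∑ s ∈ range (T + 1), r s - ((T + 1 : ℕ) : ℝ) * K ≤ 0 := by
        have := hr (T + 1); linarith
      have h3 : β T * (∑ s ∈ range (T + 1), r s - ((T + 1 : ℕ) : ℝ) * K) ≤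
          β (T + 1) * (∑ s ∈ range (T + 1), r s - ((T + 1 : ℕ) : ℝ) * K) :=
        mul_le_mul_of_nonpos_right (hβ T) h2
      refine le_trans ?_ h3
      rw [Finset.sum_range_succ]
      push_cast
      linarith
  have h4 := h1 T
  have h5 : β T * (∑ s ∈ range T, r s - T * K) ≤ 0 :=
    mul_nonpos_of_nonneg_of_nonpos (hβ0 T) (by have := hr T; linarith)
  have h6 : ∑ s ∈ range T, β s * (r s - K) =
      ∑ s ∈ range T, β s * r s - K * ∑ s ∈ range T, β s := by
    rw [Finset.mul_sum, ← Finset.sum_sub_distrib]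
    exact Finset.sum_congr rfl fun s _ => by ring
  linarith

theorem S_eq {P : Matrix V V ℝ} (f : V → ℝ) (k : ℕ) (y : V) :
    S P f k y = ∑ s ∈ range k, (P ^ s *ᵥ f) y := by
  have h : ∀ k : ℕ, S P f k = ∑ s ∈ range k, P ^ s *ᵥ f := by
    intro k
    induction k with
    | zero => ext y; simp [S]
    | succ k ih =>
      rw [Finset.sum_range_succ', pow_zero, one_mulVec]
      have h1 : ∑ s ∈ range k, P ^ (s + 1) *ᵥ f = P *ᵥ ∑ s ∈ range k, P ^ s *ᵥ f := by
        rw [mulVec_sum]
        refine Finset.sum_congr rfl fun s _ => ?_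
        rw [mulVec_mulVec, ← pow_succ']
      rw [h1, ← ih, add_comm (P *ᵥ S P f k) f]
      rfl
  rw [h k, Finset.sum_apply]

/-- **The exponential inequality.** -/
theorem expo {P : Matrix V V ℝ} (hP : IsWalk P) {col : V → κ} {M : ℕ → V → ℝ} {a : ℕ → ℝ}
    {τ A K : ℝ} (hK : 0 ≤ K) (hM : ∀ s, P *ᵥ M s = M (s + 1))
    (hcol : ∀ s y b, col b = col y → M s b = M s y)
    (ha : ∀ s y b, P y b ≠ 0 → (M s b - M s y) ^ 2 ≤ a s) (ha0 : ∀ s, 0 ≤ a s)
    (hanti : ∀ s, a (s + 1) ≤ a s) (hA : ∀ T, ∑ s ∈ range T, a s ≤ A) (hτ : τ ^ 2 * a 0 ≤ 1)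
    (hlim : ∀ ε > 0, ∃ T, ∀ y, |M T y| ≤ ε) (Y : Finset V)
    (hY : ∀ y ∈ Y, ∀ k : ℕ, S P (P *ᵥ rate P col) k y ≤ k * K) :
    ∑ y ∈ Y, Real.exp (τ * M 0 y - τ ^ 2 * A * K) ≤ Fintype.card V := by
  have hτs : ∀ s, τ ^ 2 * a s ≤ 1 := by
    intro s
    have : a s ≤ a 0 := by
      induction s with
      | zero => exact le_rfl
      | succ s ih => exact (hanti s).trans ih
    exact (mul_le_mul_of_nonneg_left this (sq_nonneg τ)).trans hτ
  -- the inequality with an error
  have h1 : ∀ ε > 0, ∑ y ∈ Y, Real.exp (τ * M 0 y - τ ^ 2 * A * K) ≤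
      Fintype.card V * Real.exp (|τ| * ε) := by
    intro ε hε
    obtain ⟨T, hT⟩ := hlim ε hε
    set β : ℕ → ℝ := fun s => τ ^ 2 * a s with hβ
    have h2 := sum_Φ_ge (β := β) (η := rate P col) (f := fun y => Real.exp (τ * M 0 y)) hP
      (fun y => (Real.exp_pos _).le) T 0
    have h3 : ∑ y, Real.exp (-((0 : V → ℝ) y)) *
        Φ P β (rate P col) (fun y => Real.exp (τ * M 0 y)) T y ≤
          Fintype.card V * Real.exp (|τ| * ε) := by
      have : ∀ y ∈ univ, Real.exp (-((0 : V → ℝ) y)) *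
          Φ P β (rate P col) (fun y => Real.exp (τ * M 0 y)) T y ≤ Real.exp (|τ| * ε) := by
        intro y _
        rw [Pi.zero_apply, neg_zero, Real.exp_zero, one_mul]
        refine (Φ_le hP hM hcol ha hτs T y).trans (Real.exp_le_exp.2 ?_)
        calc τ * M T y ≤ |τ * M T y| := le_abs_self _
          _ = |τ| * |M T y| := abs_mul _ _
          _ ≤ |τ| * ε := mul_le_mul_of_nonneg_left (hT y) (abs_nonneg _)
      refine (Finset.sum_le_sum this).trans (le_of_eq ?_)
      rw [Finset.sum_const, nsmul_eq_mul, Finset.card_univ]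
    refine le_trans ?_ (h2.trans h3)
    refine le_trans ?_ (Finset.sum_le_sum_of_subset_of_nonneg (subset_univ Y) fun y _ _ =>
      mul_nonneg (Real.exp_pos _).le (Real.exp_pos _).le)
    refine Finset.sum_le_sum fun y hy => ?_
    rw [← Real.exp_add]
    refine Real.exp_le_exp.2 ?_
    rw [mulVec_zero, Pi.zero_apply]
    have h4 : ∑ s ∈ range T, β s * (P ^ (s + 1) *ᵥ rate P col) y ≤
        K * ∑ s ∈ range T, β s := by
      refine abel (r := fun s => (P ^ (s + 1) *ᵥ rate P col) y) ?_ ?_ ?_ T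
      · intro s
        exact mul_le_mul_of_nonneg_left (hanti s) (sq_nonneg τ)
      · intro s
        exact mul_nonneg (sq_nonneg τ) (ha0 s)
      · intro k
        have := hY y hy k
        rw [S_eq] at this
        refine le_trans (le_of_eq ?_) this
        refine Finset.sum_congr rfl fun s _ => ?_
        rw [mulVec_mulVec, ← pow_succ]
    have h5 : ∑ s ∈ range T, β s ≤ τ ^ 2 * A := by
      rw [hβ, ← Finset.mul_sum]
      exact mul_le_mul_of_nonneg_left (hA T) (sq_nonneg τ)
    have h6 : K * ∑ s ∈ range T, β s ≤ K * (τ ^ 2 * A) := mul_le_mul_of_nonneg_left h5 hK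
    linarith
  -- the limit
  have h7 : Tendsto (fun ε : ℝ => (Fintype.card V : ℝ) * Real.exp (|τ| * ε)) (𝓝[>] 0)
      (𝓝 ((Fintype.card V : ℝ) * Real.exp (|τ| * 0))) := by
    refine Tendsto.mono_left ?_ nhdsWithin_le_nhds
    exact (continuous_const.mul (Real.continuous_exp.comp (continuous_const.mul
      continuous_id))).tendsto 0
  rw [mul_zero, Real.exp_zero, mul_one] at h7
  refine ge_of_tendsto h7 ?_
  filter_upwards [self_mem_nhdsWithin] with ε hε
  exact h1 ε hε

end Pool.Agent.Lib.MP_7beb49_co.Walk
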