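import Pool.Agent.Lib.MP_7beb49_co.Expo

/-!
# An exponential inequality with the second moment on the right

The same as `Walk.expo`, with `cosh (τ M) - 1` instead of `exp (τ M)`: the bound is then
`τ² ∑ (M 0)²` instead of the number of points.
-/

set_option autoImplicit false
set_option linter.unusedSectionVars false

namespace Pool.Agent.Lib.MP_7beb49_co.Walk

open Finset Matrix Filter Topology

variable {V κ : Type} [Fintype V] [DecidableEq V]

/-- The variance of `M` after one step. -/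
noncomputable def var (P : Matrix V V ℝ) (M : V → ℝ) (y : V) : ℝ :=
  ∑ b, P y b * (M b - (P *ᵥ M) y) ^ 2

theorem var_nonneg {P : Matrix V V ℝ} (hP : IsWalk P) (M : V → ℝ) (y : V) : 0 ≤ var P M y :=
  Finset.sum_nonneg fun b _ => mul_nonneg (hP.nonneg y b) (sq_nonneg _)

/-- The variance is at most the second moment around any point. -/
theorem var_eq {P : Matrix V V ℝ} (hP : IsWalk P) (M : V → ℝ) (y : V) (t : ℝ) :
    var P M y = ∑ b, P y b * (M b - t) ^ 2 - ((P *ᵥ M) y - t) ^ 2 := by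
  have e1 : (P *ᵥ M) y = ∑ b, P y b * M b := rfl
  have e2 : ∑ b, P y b * (M b - t) ^ 2 =
      ∑ b, P y b * M b ^ 2 - 2 * t * (P *ᵥ M) y + t ^ 2 := by
    have : ∀ b, P y b * (M b - t) ^ 2 = P y b * M b ^ 2 - 2 * t * (P y b * M b) +
        t ^ 2 * P y b := fun b => by ring
    rw [Finset.sum_congr rfl fun b _ => this b, Finset.sum_add_distrib, Finset.sum_sub_distrib,
      ← Finset.mul_sum, ← Finset.mul_sum, hP.sum, ← e1, mul_one]
  have e3 : var P M y = ∑ b, P y b * M b ^ 2 - ((P *ᵥ M) y) ^ 2 := by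
    have : ∀ b, P y b * (M b - (P *ᵥ M) y) ^ 2 = P y b * M b ^ 2 -
        2 * (P *ᵥ M) y * (P y b * M b) + ((P *ᵥ M) y) ^ 2 * P y b := fun b => by ring
    rw [var, Finset.sum_congr rfl fun b _ => this b, Finset.sum_add_distrib,
      Finset.sum_sub_distrib, ← Finset.mul_sum, ← Finset.mul_sum, hP.sum, ← e1]
    ring
  rw [e2, e3]
  ring

theorem sum_var {P : Matrix V V ℝ} (hP : IsWalk P) (M : V → ℝ) :
    ∑ y, var P M y = ∑ y, M y ^ 2 - ∑ y, ((P *ᵥ M) y) ^ 2 := by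
  have h1 : ∀ y, var P M y = (P *ᵥ fun b => M b ^ 2) y - ((P *ᵥ M) y) ^ 2 := by
    intro y
    rw [var_eq hP M y 0]
    simp only [sub_zero]
    rfl
  rw [Finset.sum_congr rfl fun y _ => h1 y, Finset.sum_sub_distrib, hP.sum_mulVec]

theorem var_le {P : Matrix V V ℝ} (hP : IsWalk P) {col : V → κ} {M : V → ℝ} {a : ℝ}
    (hcol : ∀ y b, col b = col y → M b = M y)
    (ha : ∀ y b, P y b ≠ 0 → (M b - M y) ^ 2 ≤ a) (y : V) :
    var P M y ≤ a * rate P col y := by
  classical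
  rw [var_eq hP M y (M y), rate, Finset.mul_sum]
  have h1 : ∑ b, P y b * (M b - M y) ^ 2 ≤
      ∑ b, a * (P y b * (if col b = col y then 0 else 1)) := by
    refine Finset.sum_le_sum fun b _ => ?_
    by_cases hb : P y b = 0
    · rw [hb]; simp
    split_ifs with h
    · rw [hcol y b h]; simp
    · have := mul_le_mul_of_nonneg_left (ha y b hb) (hP.nonneg y b)
      linarith
  have h2 := sq_nonneg ((P *ᵥ M) y - M y)
  linarith

/-- The mean is close. -/
theorem mean_close {P : Matrix V V ℝ} (hP : IsWalk P) {M : V → ℝ} {a : ℝ}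
    (ha : ∀ y b, P y b ≠ 0 → (M b - M y) ^ 2 ≤ a) (y : V) :
    ((P *ᵥ M) y - M y) ^ 2 ≤ a := by
  have h1 := var_nonneg hP M y
  rw [var_eq hP M y (M y)] at h1
  have h2 : ∑ b, P y b * (M b - M y) ^ 2 ≤ ∑ b, P y b * a := by
    refine Finset.sum_le_sum fun b _ => ?_
    by_cases hb : P y b = 0
    · rw [hb]; simp
    · exact mul_le_mul_of_nonneg_left (ha y b hb) (hP.nonneg y b)
  rw [← Finset.sum_mul, hP.sum, one_mul] at h2
  linarith

/-- One step, around the mean. -/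
theorem step_exp {P : Matrix V V ℝ} (hP : IsWalk P) {M : V → ℝ} {a τ : ℝ}
    (ha : ∀ y b, P y b ≠ 0 → (M b - M y) ^ 2 ≤ a) (hτ : 4 * τ ^ 2 * a ≤ 1) (y : V) :
    (P *ᵥ fun b => Real.exp (τ * M b)) y ≤
      Real.exp (τ * (P *ᵥ M) y) * (1 + τ ^ 2 * var P M y) := by
  have h1 : ∀ b, P y b * Real.exp (τ * M b) ≤ Real.exp (τ * (P *ᵥ M) y) *
      (P y b * (1 + τ * (M b - (P *ᵥ M) y) + τ ^ 2 * (M b - (P *ᵥ M) y) ^ 2)) := by
    intro b
    by_cases hb : P y b = 0
    · rw [hb]; simp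
    have h2 : Real.exp (τ * M b) = Real.exp (τ * (P *ᵥ M) y) *
        Real.exp (τ * (M b - (P *ᵥ M) y)) := by
      rw [← Real.exp_add]; congr 1; ring
    have h3 : (M b - (P *ᵥ M) y) ^ 2 ≤ 4 * a := by
      have e1 := ha y b hb
      have e2 := mean_close hP ha y
      nlinarith [sq_nonneg ((M b - M y) + ((P *ᵥ M) y - M y))]
    have h4 : |τ * (M b - (P *ᵥ M) y)| ≤ 1 := by
      rw [← sq_le_one_iff_abs_le_one, mul_pow]
      calc τ ^ 2 * (M b - (P *ᵥ M) y) ^ 2 ≤ τ ^ 2 * (4 * a) :=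
            mul_le_mul_of_nonneg_left h3 (sq_nonneg _)
        _ ≤ 1 := by linarith
    have h6 := (abs_le.1 (Real.abs_exp_sub_one_sub_id_le h4)).2
    have h7 : Real.exp (τ * (M b - (P *ᵥ M) y)) ≤
        1 + τ * (M b - (P *ᵥ M) y) + τ ^ 2 * (M b - (P *ᵥ M) y) ^ 2 := by
      rw [mul_pow] at h6
      linarith
    rw [h2]
    calc P y b * (Real.exp (τ * (P *ᵥ M) y) * Real.exp (τ * (M b - (P *ᵥ M) y)))
        = Real.exp (τ * (P *ᵥ M) y) * (P y b * Real.exp (τ * (M b - (P *ᵥ M) y))) := by ring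
      _ ≤ _ := mul_le_mul_of_nonneg_left
          (mul_le_mul_of_nonneg_left h7 (hP.nonneg y b)) (Real.exp_pos _).le
  have h8 : ∑ b, P y b * (1 + τ * (M b - (P *ᵥ M) y) + τ ^ 2 * (M b - (P *ᵥ M) y) ^ 2) =
      1 + τ ^ 2 * var P M y := by
    have e1 : (P *ᵥ M) y = ∑ b, P y b * M b := rfl
    have e3 : ∀ b, P y b * (1 + τ * (M b - (P *ᵥ M) y) + τ ^ 2 * (M b - (P *ᵥ M) y) ^ 2) =
        P y b + τ * (P y b * M b) - τ * (P *ᵥ M) y * P y b +
          τ ^ 2 * (P y b * (M b - (P *ᵥ M) y) ^ 2) := fun b => by ring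
    rw [Finset.sum_congr rfl fun b _ => e3 b, Finset.sum_add_distrib, Finset.sum_sub_distrib,
      Finset.sum_add_distrib, ← Finset.mul_sum, ← Finset.mul_sum, ← Finset.mul_sum, hP.sum,
      ← e1, var]
    ring
  calc (P *ᵥ fun b => Real.exp (τ * M b)) y = ∑ b, P y b * Real.exp (τ * M b) := rfl
    _ ≤ ∑ b, Real.exp (τ * (P *ᵥ M) y) *
        (P y b * (1 + τ * (M b - (P *ᵥ M) y) + τ ^ 2 * (M b - (P *ᵥ M) y) ^ 2)) :=
        Finset.sum_le_sum fun b _ => h1 b
    _ = _ := by rw [← Finset.mul_sum, h8]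

/-- One step for the hyperbolic cosine. -/
theorem step_cosh {P : Matrix V V ℝ} (hP : IsWalk P) {col : V → κ} {M : V → ℝ} {a τ : ℝ}
    (hcol : ∀ y b, col b = col y → M b = M y)
    (ha : ∀ y b, P y b ≠ 0 → (M b - M y) ^ 2 ≤ a) (hτ : 4 * τ ^ 2 * a ≤ 1) (y : V) :
    (P *ᵥ fun b => Real.cosh (τ * M b) - 1) y ≤
      Real.exp (τ ^ 2 * a * rate P col y) * (Real.cosh (τ * (P *ᵥ M) y) - 1) +
        τ ^ 2 * var P M y := by
  have h1 := step_exp hP ha hτ y
  have h2 := step_exp (τ := -τ) hP ha (by rw [neg_sq]; exact hτ) y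
  have h3 : (P *ᵥ fun b => Real.cosh (τ * M b) - 1) y =
      ((P *ᵥ fun b => Real.exp (τ * M b)) y + (P *ᵥ fun b => Real.exp (-τ * M b)) y) / 2 - 1 := by
    change ∑ b, P y b * (Real.cosh (τ * M b) - 1) =
      (∑ b, P y b * Real.exp (τ * M b) + ∑ b, P y b * Real.exp (-τ * M b)) / 2 - 1
    have e : ∀ b, P y b * (Real.cosh (τ * M b) - 1) =
        (P y b * Real.exp (τ * M b) + P y b * Real.exp (-τ * M b)) / 2 - P y b := by
      intro b
      rw [Real.cosh_eq, neg_mul]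
      ring
    rw [Finset.sum_congr rfl fun b _ => e b, Finset.sum_sub_distrib, hP.sum, ← Finset.sum_div,
      Finset.sum_add_distrib]
  have hv := var_nonneg hP M y
  have h4 : (P *ᵥ fun b => Real.cosh (τ * M b) - 1) y ≤
      Real.cosh (τ * (P *ᵥ M) y) * (1 + τ ^ 2 * var P M y) - 1 := by
    rw [h3, Real.cosh_eq]
    rw [neg_sq, neg_mul] at h2
    linarith
  have h5 : 1 + τ ^ 2 * var P M y ≤ Real.exp (τ ^ 2 * a * rate P col y) := by
    have h6 := Real.add_one_le_exp (τ ^ 2 * a * rate P col y)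
    have h7 := mul_le_mul_of_nonneg_left (var_le hP hcol ha y) (sq_nonneg τ)
    linarith
  have h6 : 0 ≤ Real.cosh (τ * (P *ᵥ M) y) - 1 := by
    have := Real.one_le_cosh (τ * (P *ᵥ M) y)
    linarith
  calc (P *ᵥ fun b => Real.cosh (τ * M b) - 1) y
      ≤ Real.cosh (τ * (P *ᵥ M) y) * (1 + τ ^ 2 * var P M y) - 1 := h4
    _ = (1 + τ ^ 2 * var P M y) * (Real.cosh (τ * (P *ᵥ M) y) - 1) + τ ^ 2 * var P M y := by ring
    _ ≤ _ := by
        have := mul_le_mul_of_nonneg_right h5 h6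
        linarith

/-- The accumulated variance. -/
noncomputable def acc (P : Matrix V V ℝ) (M : ℕ → V → ℝ) (τ : ℝ) : ℕ → V → ℝ
  | 0 => fun _ => 0
  | s + 1 => fun y => (P *ᵥ acc P M τ s) y + τ ^ 2 * var P (M s) y

theorem acc_nonneg {P : Matrix V V ℝ} (hP : IsWalk P) (M : ℕ → V → ℝ) (τ : ℝ) (s : ℕ) (y : V) :
    0 ≤ acc P M τ s y := by
  induction s generalizing y with
  | zero => exact le_rfl
  | succ s ih =>
    exact add_nonneg (hP.nonneg' ih y) (mul_nonneg (sq_nonneg _) (var_nonneg hP _ _))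

theorem sum_acc {P : Matrix V V ℝ} (hP : IsWalk P) {M : ℕ → V → ℝ}
    (hM : ∀ s, P *ᵥ M s = M (s + 1)) (τ : ℝ) (s : ℕ) :
    ∑ y, acc P M τ s y = τ ^ 2 * (∑ y, M 0 y ^ 2 - ∑ y, M s y ^ 2) := by
  induction s with
  | zero => simp [acc]
  | succ s ih =>
    change ∑ y, ((P *ᵥ acc P M τ s) y + τ ^ 2 * var P (M s) y) = _
    rw [Finset.sum_add_distrib, hP.sum_mulVec, ih, ← Finset.mul_sum, sum_var hP, hM]
    ring

theorem Φ_le_cosh {P : Matrix V V ℝ} (hP : IsWalk P) {col : V → κ} {M : ℕ → V → ℝ} {a : ℕ → ℝ}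
    {τ : ℝ} (hM : ∀ s, P *ᵥ M s = M (s + 1))
    (hcol : ∀ s y b, col b = col y → M s b = M s y)
    (ha : ∀ s y b, P y b ≠ 0 → (M s b - M s y) ^ 2 ≤ a s) (ha0 : ∀ s, 0 ≤ a s)
    (hτ : ∀ s, 4 * τ ^ 2 * a s ≤ 1) (s : ℕ) (y : V) :
    Φ P (fun s => τ ^ 2 * a s) (rate P col) (fun y => Real.cosh (τ * M 0 y) - 1) s y ≤
      (Real.cosh (τ * M s y) - 1) + acc P M τ s y := by
  induction s generalizing y with
  | zero => simp [Φ, acc]
  | succ s ih =>
    have h1 := hP.mono ih y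
    have h2 := step_cosh hP (hcol s) (ha s) (hτ s) y
    rw [hM s] at h2
    have h3 : (P *ᵥ fun b => (Real.cosh (τ * M s b) - 1) + acc P M τ s b) y =
        (P *ᵥ fun b => Real.cosh (τ * M s b) - 1) y + (P *ᵥ acc P M τ s) y := by
      have : (fun b => (Real.cosh (τ * M s b) - 1) + acc P M τ s b) =
          (fun b => Real.cosh (τ * M s b) - 1) + acc P M τ s := rfl
      rw [this, mulVec_add]
      rfl
    rw [h3] at h1
    have h4 : 0 ≤ (P *ᵥ acc P M τ s) y := hP.nonneg' (acc_nonneg hP M τ s) y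
    have h5 : 0 ≤ τ ^ 2 * var P (M s) y := mul_nonneg (sq_nonneg _) (var_nonneg hP _ _)
    set E := Real.exp (-(τ ^ 2 * a s * rate P col y)) with hE
    have hE0 : 0 ≤ E := (Real.exp_pos _).le
    have hE1 : E ≤ 1 := by
      rw [hE]
      refine Real.exp_le_one_iff.2 (neg_nonpos.2 ?_)
      exact mul_nonneg (mul_nonneg (sq_nonneg _) (ha0 s)) (rate_nonneg hP col y)
    have hEE : E * Real.exp (τ ^ 2 * a s * rate P col y) = 1 := by
      rw [hE, ← Real.exp_add, neg_add_cancel, Real.exp_zero]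
    change E * (P *ᵥ Φ P (fun s => τ ^ 2 * a s) (rate P col)
      (fun y => Real.cosh (τ * M 0 y) - 1) s) y ≤
        (Real.cosh (τ * M (s + 1) y) - 1) +
          ((P *ᵥ acc P M τ s) y + τ ^ 2 * var P (M s) y)
    calc _ ≤ E * ((Real.exp (τ ^ 2 * a s * rate P col y) * (Real.cosh (τ * M (s + 1) y) - 1) +
          τ ^ 2 * var P (M s) y) + (P *ᵥ acc P M τ s) y) :=
          mul_le_mul_of_nonneg_left (h1.trans (by linarith)) hE0
      _ = (E * Real.exp (τ ^ 2 * a s * rate P col y)) * (Real.cosh (τ * M (s + 1) y) - 1) +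
          E * (τ ^ 2 * var P (M s) y + (P *ᵥ acc P M τ s) y) := by ring
      _ ≤ (Real.cosh (τ * M (s + 1) y) - 1) +
          1 * (τ ^ 2 * var P (M s) y + (P *ᵥ acc P M τ s) y) := by
          rw [hEE, one_mul]
          have := mul_le_mul_of_nonneg_right hE1 (add_nonneg h5 h4)
          linarith
      _ = _ := by ring

/-- **The exponential inequality with the second moment.** -/
theorem expo_cosh {P : Matrix V V ℝ} (hP : IsWalk P) {col : V → κ} {M : ℕ → V → ℝ} {a : ℕ → ℝ}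
    {τ A K : ℝ} (hK : 0 ≤ K) (hM : ∀ s, P *ᵥ M s = M (s + 1))
    (hcol : ∀ s y b, col b = col y → M s b = M s y)
    (ha : ∀ s y b, P y b ≠ 0 → (M s b - M s y) ^ 2 ≤ a s) (ha0 : ∀ s, 0 ≤ a s)
    (hanti : ∀ s, a (s + 1) ≤ a s) (hA : ∀ T, ∑ s ∈ range T, a s ≤ A)
    (hτ : 4 * τ ^ 2 * a 0 ≤ 1)
    (hlim : ∀ ε > 0, ∃ T, ∀ y, |M T y| ≤ ε) (Y : Finset V)
    (hY : ∀ y ∈ Y, ∀ k : ℕ, S P (P *ᵥ rate P col) k y ≤ k * K) :
    ∑ y ∈ Y, Real.exp (-(τ ^ 2 * A * K)) * (Real.cosh (τ * M 0 y) - 1) ≤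
      τ ^ 2 * ∑ y, M 0 y ^ 2 := by
  have hτs : ∀ s, 4 * τ ^ 2 * a s ≤ 1 := by
    intro s
    have : a s ≤ a 0 := by
      induction s with
      | zero => exact le_rfl
      | succ s ih => exact (hanti s).trans ih
    exact (mul_le_mul_of_nonneg_left this (by positivity)).trans hτ
  have hψ : ∀ y, 0 ≤ Real.cosh (τ * M 0 y) - 1 := fun y => by
    have := Real.one_le_cosh (τ * M 0 y)
    linarith
  -- the inequality with an error
  have h1 : ∀ ε > 0, ∑ y ∈ Y, Real.exp (-(τ ^ 2 * A * K)) * (Real.cosh (τ * M 0 y) - 1) ≤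
      Fintype.card V * (Real.cosh (τ * ε) - 1) + τ ^ 2 * ∑ y, M 0 y ^ 2 := by
    intro ε hε
    obtain ⟨T, hT⟩ := hlim ε hε
    set β : ℕ → ℝ := fun s => τ ^ 2 * a s with hβ
    have h2 := sum_Φ_ge (β := β) (η := rate P col) (f := fun y => Real.cosh (τ * M 0 y) - 1) hP
      hψ T 0
    have h3 : ∑ y, Real.exp (-((0 : V → ℝ) y)) *
        Φ P β (rate P col) (fun y => Real.cosh (τ * M 0 y) - 1) T y ≤
          Fintype.card V * (Real.cosh (τ * ε) - 1) + τ ^ 2 * ∑ y, M 0 y ^ 2 := by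
      have h4 : ∀ y ∈ univ, Real.exp (-((0 : V → ℝ) y)) *
          Φ P β (rate P col) (fun y => Real.cosh (τ * M 0 y) - 1) T y ≤
            (Real.cosh (τ * ε) - 1) + acc P M τ T y := by
        intro y _
        rw [Pi.zero_apply, neg_zero, Real.exp_zero, one_mul]
        refine (Φ_le_cosh hP hM hcol ha ha0 hτs T y).trans ?_
        have h5 : Real.cosh (τ * M T y) ≤ Real.cosh (τ * ε) := by
          rw [Real.cosh_le_cosh, abs_mul, abs_mul, abs_of_pos hε]
          exact mul_le_mul_of_nonneg_left (hT y) (abs_nonneg _)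
        linarith
      refine (Finset.sum_le_sum h4).trans ?_
      rw [Finset.sum_add_distrib, Finset.sum_const, nsmul_eq_mul, Finset.card_univ,
        sum_acc hP hM]
      have h6 : 0 ≤ τ ^ 2 * ∑ y, M T y ^ 2 :=
        mul_nonneg (sq_nonneg _) (Finset.sum_nonneg fun y _ => sq_nonneg _)
      linarith
    refine le_trans ?_ (h2.trans h3)
    refine le_trans ?_ (Finset.sum_le_sum_of_subset_of_nonneg (subset_univ Y) fun y _ _ =>
      mul_nonneg (Real.exp_pos _).le (hψ y))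
    refine Finset.sum_le_sum fun y hy => mul_le_mul_of_nonneg_right ?_ (hψ y)
    refine Real.exp_le_exp.2 ?_
    rw [mulVec_zero, Pi.zero_apply]
    have h4 : ∑ s ∈ range T, β s * (P ^ (s + 1) *ᵥ rate P col) y ≤
        K * ∑ s ∈ range T, β s := by
      refine abel (r := fun s => (P ^ (s + 1) *ᵥ rate P col) y) ?_ ?_ ?_ T
      · intro s
        exact mul_le_mul_of_nonneg_left (hanti s) (sq_nonneg τ)
      · intro s
        exact mul_nonneg (sq_nonneg τ) (ha0 s)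
      · intro k
        have := hY y hy k
        rw [S_eq] at this
        refine le_trans (le_of_eq ?_) this
        refine Finset.sum_congr rfl fun s _ => ?_
        rw [mulVec_mulVec, ← pow_succ]
    have h5 : ∑ s ∈ range T, β s ≤ τ ^ 2 * A := by
      rw [hβ, ← Finset.mul_sum]
      exact mul_le_mul_of_nonneg_left (hA T) (sq_nonneg τ)
    have h6 : K * ∑ s ∈ range T, β s ≤ K * (τ ^ 2 * A) := mul_le_mul_of_nonneg_left h5 hK
    linarith
  -- the limit
  have h7 : Tendsto (fun ε : ℝ => (Fintype.card V : ℝ) * (Real.cosh (τ * ε) - 1) +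
      τ ^ 2 * ∑ y, M 0 y ^ 2) (𝓝[>] 0)
      (𝓝 ((Fintype.card V : ℝ) * (Real.cosh (τ * 0) - 1) + τ ^ 2 * ∑ y, M 0 y ^ 2)) := by
    refine Tendsto.mono_left ?_ nhdsWithin_le_nhds
    exact ((continuous_const.mul ((Real.continuous_cosh.comp (continuous_const.mul
      continuous_id)).sub continuous_const)).add continuous_const).tendsto 0
  rw [mul_zero, Real.cosh_zero, sub_self, mul_zero, zero_add] at h7
  refine ge_of_tendsto h7 ?_
  filter_upwards [self_mem_nhdsWithin] with ε hε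
  exact h1 ε hε

/-- `sinh` against the exponential. -/
theorem sinh_ge {t : ℝ} (ht : 0 ≤ t) : t * Real.exp (3 * t) ≤ Real.sinh (4 * t) := by
  have h1 : Real.sinh (4 * t) = 4 * Real.sinh t * Real.cosh t * Real.cosh (2 * t) := by
    have e1 : 4 * t = 2 * (2 * t) := by ring
    rw [e1, Real.sinh_two_mul, Real.sinh_two_mul]
    ring
  have h2 : t ≤ Real.sinh t := Real.self_le_sinh_iff.2 ht
  have h3 : ∀ s : ℝ, Real.exp s / 2 ≤ Real.cosh s := by
    intro s
    rw [Real.cosh_eq]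
    have := Real.exp_pos (-s)
    linarith
  have h4 : Real.exp (3 * t) = Real.exp t * Real.exp (2 * t) := by
    rw [← Real.exp_add]; congr 1; ring
  rw [h1, h4]
  have e1 := Real.exp_pos t
  have e2 := Real.exp_pos (2 * t)
  have h5 : t * (Real.exp t / 2) ≤ Real.sinh t * Real.cosh t :=
    mul_le_mul h2 (h3 t) (by positivity) (ht.trans h2)
  have h6 : t * (Real.exp t / 2) * (Real.exp (2 * t) / 2) ≤
      Real.sinh t * Real.cosh t * Real.cosh (2 * t) :=
    mul_le_mul h5 (h3 (2 * t)) (by positivity)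
      (mul_nonneg (ht.trans h2) (Real.cosh_pos _).le)
  linarith

/-- `cosh - 1` against the exponential. -/
theorem cosh_sub_one_ge {x : ℝ} (hx : 0 ≤ x) :
    x ^ 2 * Real.exp (3 / 4 * x) ≤ 32 * (Real.cosh x - 1) := by
  have h1 : Real.cosh x - 1 = 2 * Real.sinh (x / 2) ^ 2 := by
    have e : x = 2 * (x / 2) := by ring
    conv_lhs => rw [e]
    rw [Real.cosh_two_mul, Real.cosh_sq]
    ring
  have h2 := sinh_ge (t := x / 8) (by linarith)
  have e3 : 4 * (x / 8) = x / 2 := by ring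
  rw [e3] at h2
  have h3 : (x / 8 * Real.exp (3 * (x / 8))) ^ 2 ≤ Real.sinh (x / 2) ^ 2 :=
    pow_le_pow_left₀ (mul_nonneg (by linarith) (Real.exp_pos _).le) h2 2
  have h4 : (x / 8 * Real.exp (3 * (x / 8))) ^ 2 = x ^ 2 / 64 * Real.exp (3 / 4 * x) := by
    rw [mul_pow, ← Real.exp_nat_mul]
    congr 1
    · ring
    · congr 1
      push_cast
      ring
  rw [h4] at h3
  rw [h1]
  linarith

end Pool.Agent.Lib.MP_7beb49_co.Walk
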