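import Pool.Agent.Lib.MP_7beb49_co.Hopf

/-!
# Traces of powers of lazy symmetric random walks against projections

For a symmetric stochastic matrix `W` with no nonconstant fixed vector, `P = (1 + W) / 2`, and a
symmetric idempotent `Q` that kills the constants, `tr (Q P^k) = ∑ q i * lam i ^ k` with
`0 ≤ lam i ≤ 1`, `q i ≥ 0`.
-/

set_option autoImplicit false
set_option linter.unusedSectionVars false

namespace Pool.Agent.Lib.MP_7beb49_co.Walk

open Finset Matrix Filter Topology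

variable {V : Type} [Fintype V] [DecidableEq V]

/-- The lazy walk. -/
noncomputable def lazy (W : Matrix V V ℝ) : Matrix V V ℝ := (1 / 2 : ℝ) • (1 + W)

theorem lazy_apply (W : Matrix V V ℝ) (x y : V) :
    lazy W x y = (1 / 2 : ℝ) * ((if x = y then 1 else 0) + W x y) := by
  simp [lazy, Matrix.one_apply]

theorem lazy_isWalk {W : Matrix V V ℝ} (hW : IsWalk W) : IsWalk (lazy W) where
  nonneg x y := by
    rw [lazy_apply]
    have := hW.nonneg x y
    split_ifs <;> linarith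
  symm x y := by
    rw [lazy_apply, lazy_apply, hW.symm x y]
    simp only [eq_comm]
  sum x := by
    simp only [lazy_apply]
    rw [← Finset.mul_sum, Finset.sum_add_distrib, hW.sum]
    simp
    norm_num

theorem lazy_mulVec (W : Matrix V V ℝ) (g : V → ℝ) (y : V) :
    (lazy W *ᵥ g) y = (1 / 2 : ℝ) * (g y + (W *ᵥ g) y) := by
  rw [lazy, Matrix.smul_mulVec, add_mulVec, one_mulVec]
  simp

/-- The Dirichlet forms. -/
theorem dirichlet {W : Matrix V V ℝ} (hW : IsWalk W) (g : V → ℝ) (σ : ℝ) (hσ : σ ^ 2 = 1) :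
    ∑ y, ∑ b, W y b * (g y + σ * g b) ^ 2 =
      2 * (∑ y, g y * g y + σ * ∑ y, g y * (W *ᵥ g) y) := by
  have e1 : ∀ y, ∑ b, W y b * (g y + σ * g b) ^ 2 =
      g y * g y + 2 * σ * (g y * (W *ᵥ g) y) + ∑ b, W y b * (g b * g b) := by
    intro y
    have e2 : (W *ᵥ g) y = ∑ b, W y b * g b := rfl
    have e3 : g y * g y = ∑ b, W y b * (g y * g y) := by rw [← Finset.sum_mul, hW.sum, one_mul]
    have e4 : ∀ b, W y b * (g y + σ * g b) ^ 2 =
        W y b * (g y * g y) + 2 * σ * (g y * (W y b * g b)) + W y b * (g b * g b) := by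
      intro b
      linear_combination (W y b * (g b * g b)) * hσ
    rw [Finset.sum_congr rfl fun b _ => e4 b, Finset.sum_add_distrib, Finset.sum_add_distrib,
      ← e3, ← Finset.mul_sum, ← Finset.mul_sum, ← e2]
  rw [Finset.sum_congr rfl fun y _ => e1 y, Finset.sum_add_distrib, Finset.sum_add_distrib]
  have e5 : ∑ y, ∑ b, W y b * (g b * g b) = ∑ y, g y * g y :=
    hW.sum_mulVec (fun b => g b * g b)
  rw [e5, ← Finset.mul_sum]
  ring

/-- Spectral representation. -/
theorem exists_spec {W Q : Matrix V V ℝ} (hW : IsWalk W) (hQs : Q.transpose = Q) (hQQ : Q * Q = Q)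
    (hfix : ∀ g : V → ℝ, (∀ y b, W y b ≠ 0 → g y = g b) → Q *ᵥ g = 0) :
    ∃ lam q : V → ℝ, (∀ i, 0 ≤ lam i) ∧ (∀ i, lam i ≤ 1) ∧ (∀ i, 0 ≤ q i) ∧
      (∀ i, lam i = 1 → q i = 0) ∧
      ∀ k : ℕ, (Q * lazy W ^ k).trace = ∑ i, q i * lam i ^ k := by
  set P := lazy W with hPdef
  have hP := lazy_isWalk hW
  have hH : P.IsHermitian := by
    ext x y
    rw [conjTranspose_apply, star_trivial]
    exact hP.symm y x
  set e : V → V → ℝ := fun i => ⇑(hH.eigenvectorBasis i) with he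
  set lam : V → ℝ := hH.eigenvalues with hlam
  have hPe : ∀ i, P *ᵥ e i = lam i • e i := fun i => hH.mulVec_eigenvectorBasis i
  have hunit : ∀ i, e i ⬝ᵥ e i = 1 := by
    intro i
    have h1 := hH.eigenvectorBasis.orthonormal.1 i
    have h2 : ‖hH.eigenvectorBasis i‖ ^ 2 = 1 := by rw [h1]; norm_num
    rw [EuclideanSpace.real_norm_sq_eq] at h2
    rw [dotProduct, ← h2]
    exact Finset.sum_congr rfl fun x _ => by simp only [he]; ring
  have hWe : ∀ i, W *ᵥ e i = (2 * lam i - 1) • e i := by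
    intro i
    ext y
    have h1 := congrFun (hPe i) y
    rw [hPdef, lazy_mulVec] at h1
    simp only [Pi.smul_apply, smul_eq_mul] at h1 ⊢
    linarith
  have hdW : ∀ i, ∑ y, e i y * (W *ᵥ e i) y = 2 * lam i - 1 := by
    intro i
    have h1 : ∀ y, e i y * (W *ᵥ e i) y = (2 * lam i - 1) * (e i y * e i y) := by
      intro y
      rw [hWe i]
      simp only [Pi.smul_apply, smul_eq_mul]
      ring
    rw [Finset.sum_congr rfl fun y _ => h1 y, ← Finset.mul_sum]
    have : ∑ y, e i y * e i y = 1 := hunit i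
    rw [this, mul_one]
  have hunit' : ∀ i, ∑ y, e i y * e i y = 1 := hunit
  have hlam0 : ∀ i, 0 ≤ lam i := by
    intro i
    have h1 := dirichlet hW (e i) 1 (by norm_num)
    rw [hdW i, hunit' i] at h1
    have h2 : 0 ≤ ∑ y, ∑ b, W y b * (e i y + 1 * e i b) ^ 2 :=
      Finset.sum_nonneg fun y _ => Finset.sum_nonneg fun b _ =>
        mul_nonneg (hW.nonneg y b) (sq_nonneg _)
    linarith
  have hlam1 : ∀ i, lam i ≤ 1 := by
    intro i
    have h1 := dirichlet hW (e i) (-1) (by norm_num)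
    rw [hdW i, hunit' i] at h1
    have h2 : 0 ≤ ∑ y, ∑ b, W y b * (e i y + -1 * e i b) ^ 2 :=
      Finset.sum_nonneg fun y _ => Finset.sum_nonneg fun b _ =>
        mul_nonneg (hW.nonneg y b) (sq_nonneg _)
    linarith
  have hpow : ∀ k i, P ^ k *ᵥ e i = lam i ^ k • e i := by
    intro k i
    induction k with
    | zero => simp
    | succ k ih =>
      rw [pow_succ, ← mulVec_mulVec, hPe, mulVec_smul, ih, smul_smul, pow_succ, mul_comm]
  -- the weights
  have hq : ∀ g : V → ℝ, g ⬝ᵥ (Q *ᵥ g) = (Q *ᵥ g) ⬝ᵥ (Q *ᵥ g) := by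
    intro g
    conv_lhs => rw [← hQQ, ← mulVec_mulVec]
    rw [dotProduct_mulVec g Q, ← mulVec_transpose, hQs]
  refine ⟨lam, fun i => e i ⬝ᵥ (Q *ᵥ e i), hlam0, hlam1, ?_, ?_, ?_⟩
  · intro i
    change 0 ≤ e i ⬝ᵥ (Q *ᵥ e i)
    rw [hq]
    exact Finset.sum_nonneg fun x _ => mul_self_nonneg _
  · intro i hi
    change e i ⬝ᵥ (Q *ᵥ e i) = 0
    rw [hfix (e i), dotProduct_zero]
    intro y b hyb
    have h1 := dirichlet hW (e i) (-1) (by norm_num)
    rw [hdW i, hunit' i, hi] at h1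
    have h0 : ∀ y' ∈ univ, 0 ≤ ∑ b, W y' b * (e i y' + -1 * e i b) ^ 2 := fun y' _ =>
      Finset.sum_nonneg fun b _ => mul_nonneg (hW.nonneg y' b) (sq_nonneg _)
    have h2 : ∑ y, ∑ b, W y b * (e i y + -1 * e i b) ^ 2 = 0 := by rw [h1]; ring
    have h3 := (Finset.sum_eq_zero_iff_of_nonneg h0).1 h2 y (mem_univ _)
    have h4 := (Finset.sum_eq_zero_iff_of_nonneg (fun b _ =>
      mul_nonneg (hW.nonneg y b) (sq_nonneg _))).1 h3 b (mem_univ _)
    have h5 := (mul_eq_zero.1 h4).resolve_left hyb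
    have h6 := pow_eq_zero_iff (two_ne_zero) |>.1 h5
    linarith
  · intro k
    -- trace in the basis of eigenvectors
    set U : Matrix V V ℝ := (hH.eigenvectorUnitary : Matrix V V ℝ) with hU
    have hUU : U * U.transpose = 1 := by
      have := (Unitary.mem_iff.1 hH.eigenvectorUnitary.2).2
      simpa [hU, star_eq_conjTranspose, conjTranspose_eq_transpose_of_trivial] using this
    have h1 : (Q * P ^ k).trace = (U.transpose * (Q * P ^ k) * U).trace := by
      rw [Matrix.trace_mul_comm (U.transpose * (Q * P ^ k)) U, ← Matrix.mul_assoc, hUU,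
        Matrix.one_mul]
    rw [h1, Matrix.trace]
    refine Finset.sum_congr rfl fun i _ => ?_
    rw [Matrix.diag_apply, Matrix.mul_assoc, Matrix.mul_apply]
    have h2 : ∀ x, ((Q * P ^ k) * U) x i = lam i ^ k * (Q *ᵥ e i) x := by
      intro x
      have h3 : ((Q * P ^ k) * U) x i = ((Q * P ^ k) *ᵥ e i) x := by
        rw [Matrix.mul_apply]
        rfl
      rw [h3, ← mulVec_mulVec, hpow, mulVec_smul]
      rfl
    change _ = (∑ x, e i x * (Q *ᵥ e i) x) * lam i ^ k
    rw [Finset.sum_mul]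
    refine Finset.sum_congr rfl fun x _ => ?_
    rw [h2, transpose_apply]
    have h4 : U x i = e i x := rfl
    rw [h4]
    ring

/-- The sequence of squared step sizes. -/
theorem seq_props {lam q : V → ℝ} (h0 : ∀ i, 0 ≤ lam i) (h1 : ∀ i, lam i ≤ 1) (hq : ∀ i, 0 ≤ q i)
    (hq1 : ∀ i, lam i = 1 → q i = 0) :
    (∀ s, 0 ≤ ∑ i, q i * lam i ^ (2 * s) - ∑ i, q i * lam i ^ (2 * s + 1)) ∧
    (∀ s, ∑ i, q i * lam i ^ (2 * (s + 1)) - ∑ i, q i * lam i ^ (2 * (s + 1) + 1) ≤
      ∑ i, q i * lam i ^ (2 * s) - ∑ i, q i * lam i ^ (2 * s + 1)) ∧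
    (∀ T, ∑ s ∈ range T, (∑ i, q i * lam i ^ (2 * s) - ∑ i, q i * lam i ^ (2 * s + 1)) ≤
      ∑ i, q i) ∧
    Tendsto (fun T : ℕ => ∑ i, q i * lam i ^ (2 * T)) atTop (𝓝 0) := by
  have e : ∀ s : ℕ, ∑ i, q i * lam i ^ (2 * s) - ∑ i, q i * lam i ^ (2 * s + 1) =
      ∑ i, q i * (lam i ^ (2 * s) * (1 - lam i)) := by
    intro s
    rw [← Finset.sum_sub_distrib]
    exact Finset.sum_congr rfl fun i _ => by ring
  refine ⟨?_, ?_, ?_, ?_⟩
  · intro s
    rw [e]
    exact Finset.sum_nonneg fun i _ => mul_nonneg (hq i)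
      (mul_nonneg (pow_nonneg (h0 i) _) (by linarith [h1 i]))
  · intro s
    rw [e, e]
    refine Finset.sum_le_sum fun i _ => mul_le_mul_of_nonneg_left ?_ (hq i)
    exact mul_le_mul_of_nonneg_right (pow_le_pow_of_le_one (h0 i) (h1 i) (by omega))
      (by linarith [h1 i])
  · intro T
    have e2 : ∑ s ∈ range T, (∑ i, q i * lam i ^ (2 * s) - ∑ i, q i * lam i ^ (2 * s + 1)) =
        ∑ i, q i * ∑ s ∈ range T, lam i ^ (2 * s) * (1 - lam i) := by
      simp only [e, Finset.mul_sum]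
      exact Finset.sum_comm
    rw [e2]
    refine Finset.sum_le_sum fun i _ => ?_
    have h3 : ∀ T : ℕ, ∑ s ∈ range T, lam i ^ (2 * s) * (1 - lam i) ≤ 1 - lam i ^ (2 * T) := by
      intro T
      induction T with
      | zero => simp
      | succ T ih =>
        rw [Finset.sum_range_succ]
        have h4 : lam i ^ (2 * T) * (1 - lam i) ≤ lam i ^ (2 * T) * (1 - lam i ^ 2) := by
          refine mul_le_mul_of_nonneg_left ?_ (pow_nonneg (h0 i) _)
          nlinarith [h0 i, h1 i]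
        have h5 : lam i ^ (2 * (T + 1)) = lam i ^ (2 * T) * lam i ^ 2 := by
          rw [← pow_add]; congr 1
        rw [h5]
        linarith
    have h6 := pow_nonneg (h0 i) (2 * T)
    calc q i * ∑ s ∈ range T, lam i ^ (2 * s) * (1 - lam i) ≤ q i * 1 :=
          mul_le_mul_of_nonneg_left ((h3 T).trans (by linarith)) (hq i)
      _ = q i := mul_one _
  · rw [show (0 : ℝ) = ∑ i : V, 0 by simp]
    refine tendsto_finsetSum _ fun i _ => ?_
    rcases (h1 i).lt_or_eq with h | h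
    · have h7 : Tendsto (fun T : ℕ => q i * (lam i ^ 2) ^ T) atTop (𝓝 (q i * 0)) :=
        (tendsto_pow_atTop_nhds_zero_of_lt_one (sq_nonneg _)
          (by nlinarith [h0 i])).const_mul _
      rw [mul_zero] at h7
      refine h7.congr fun T => ?_
      rw [pow_mul]
    · rw [hq1 i h]
      simp

end Pool.Agent.Lib.MP_7beb49_co.Walk
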