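import Pool.Agent.Lib.MP_7beb49_co.Expo
import Pool.Agent.Lib.MP_7beb49_co.Spec

/-!
# A power inequality for reversed martingales of symmetric random walks

As in `Expo`, but for martingales `M s ≤ 1` whose jumps are small near the value `1`:
`(M s b - M s y)² ≤ 4 a s (1 - M s y + δ)`. The exponential is replaced by the potential
`(1 - m + δ) ^ (-β)`, from which the linear part at `0` is subtracted; this gives the factor
`∑ (M 0)²` on the right.
-/

set_option autoImplicit false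
set_option linter.unusedSectionVars false

namespace Pool.Agent.Lib.MP_7beb49_co.Walk

open Finset Matrix Filter Topology

variable {V κ : Type} [Fintype V] [DecidableEq V]

/-! ### Scalar inequalities -/

theorem pow_upper {β x : ℝ} (hβ : 1 ≤ β) (hx : |β * x| ≤ 1 / 2) :
    (1 - x) ^ (-β) ≤ 1 + β * x + 6 * (β ^ 2 * x ^ 2) := by
  have hβ0 : 0 < β := by linarith
  have hx' : |x| ≤ 1 / 2 := by
    rw [abs_mul, abs_of_pos hβ0] at hx
    have := abs_nonneg x
    nlinarith
  obtain ⟨hx1, hx2⟩ := abs_le.1 hx'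
  have hpos : 0 < 1 - x := by linarith
  rw [Real.rpow_def_of_pos hpos]
  have h1 : -Real.log (1 - x) ≤ x + 2 * x ^ 2 := by
    have h2 := Real.one_sub_inv_le_log_of_pos hpos
    have h3 : (1 - x)⁻¹ - 1 ≤ x + 2 * x ^ 2 := by
      rw [sub_le_iff_le_add, inv_le_comm₀ hpos (by nlinarith [sq_nonneg x]), inv_le_iff_one_le_mul₀
        (by nlinarith [sq_nonneg x])]
      nlinarith [sq_nonneg x, mul_nonneg (sq_nonneg x) (by linarith : (0 : ℝ) ≤ 1 - 2 * x)]
    linarith
  set z : ℝ := β * x + 2 * (β * x ^ 2) with hz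
  have h4 : Real.log (1 - x) * -β ≤ z := by
    have := mul_le_mul_of_nonneg_left h1 hβ0.le
    rw [hz]
    nlinarith
  have hxx : β * x ^ 2 ≤ 1 / 4 := by
    have h5 : β * x ^ 2 = |β * x| * |x| := by
      rw [abs_mul, abs_of_pos hβ0, mul_assoc, ← sq, sq_abs]
    rw [h5]
    have := mul_le_mul hx hx' (abs_nonneg _) (by norm_num)
    linarith
  have hxx0 : 0 ≤ β * x ^ 2 := by positivity
  obtain ⟨hb1, hb2⟩ := abs_le.1 hx
  have hz1 : |z| ≤ 1 := by
    rw [abs_le]
    constructor <;> · rw [hz]; linarith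
  have h6 := (abs_le.1 (Real.abs_exp_sub_one_sub_id_le hz1)).2
  have h7 : z ^ 2 ≤ 4 * (β ^ 2 * x ^ 2) := by
    have h8 : z = β * x * (1 + 2 * x) := by rw [hz]; ring
    rw [h8, mul_pow, mul_pow]
    have h9 : (1 + 2 * x) ^ 2 ≤ 4 := by nlinarith
    have h10 : 0 ≤ β ^ 2 * x ^ 2 := by positivity
    nlinarith
  have h11 : β * x ^ 2 ≤ β ^ 2 * x ^ 2 := by
    have : 0 ≤ x ^ 2 := sq_nonneg x
    nlinarith
  calc Real.exp (Real.log (1 - x) * -β) ≤ Real.exp z := Real.exp_le_exp.2 h4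
    _ ≤ 1 + z + z ^ 2 := by linarith
    _ ≤ _ := by rw [hz] at h7 ⊢; linarith

theorem pow_lower {β x : ℝ} (hβ : 0 ≤ β) (hx : x < 1) : 1 + β * x ≤ (1 - x) ^ (-β) := by
  have hpos : 0 < 1 - x := by linarith
  rw [Real.rpow_def_of_pos hpos]
  have h1 := Real.log_le_sub_one_of_pos hpos
  have h2 : β * x ≤ Real.log (1 - x) * -β := by nlinarith
  have h3 := Real.add_one_le_exp (β * x)
  have h4 := Real.exp_le_exp.2 h2
  linarith

/-- The potential. -/
noncomputable def pot (δ β m : ℝ) : ℝ := ((1 - m + δ) / (1 + δ)) ^ (-β)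

theorem pot_pos {δ β m : ℝ} (hδ : 0 < δ) (h : 0 < 1 - m + δ) : 0 < pot δ β m :=
  Real.rpow_pos_of_pos (by positivity) _

theorem pot_add {δ β m x : ℝ} (hδ : 0 < δ) (h : 0 < 1 - m + δ) (hx : x / (1 - m + δ) ≤ 1) :
    pot δ β (m + x) = pot δ β m * (1 - x / (1 - m + δ)) ^ (-β) := by
  rw [pot, pot, ← Real.mul_rpow (by positivity) (by linarith)]
  congr 1
  field_simp
  ring

theorem pot_upper {δ β m m' : ℝ} (hδ : 0 < δ) (hβ : 1 ≤ β) (h : 0 < 1 - m + δ)
    (hx : |β * ((m' - m) / (1 - m + δ))| ≤ 1 / 2) :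
    pot δ β m' ≤ pot δ β m * (1 + β * ((m' - m) / (1 - m + δ)) +
      6 * (β ^ 2 * ((m' - m) / (1 - m + δ)) ^ 2)) := by
  have hβ0 : 0 < β := by linarith
  have h1 : (m' - m) / (1 - m + δ) ≤ 1 := by
    have h2 := (abs_le.1 hx).2
    by_contra h3
    rw [not_le] at h3
    nlinarith
  have h2 := pot_add (β := β) hδ h h1
  rw [add_sub_cancel] at h2
  rw [h2]
  exact mul_le_mul_of_nonneg_left (pow_upper hβ hx) (pot_pos hδ h).le

theorem pot_lower {δ β m m' : ℝ} (hδ : 0 < δ) (hβ : 0 ≤ β) (h : 0 < 1 - m + δ)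
    (hx : (m' - m) / (1 - m + δ) < 1) :
    pot δ β m * (1 + β * ((m' - m) / (1 - m + δ))) ≤ pot δ β m' := by
  have h2 := pot_add (β := β) hδ h hx.le
  rw [add_sub_cancel] at h2
  rw [h2]
  exact mul_le_mul_of_nonneg_left (pow_lower hβ hx) (pot_pos hδ h).le

theorem pot_zero {δ β : ℝ} (hδ : 0 < δ) : pot δ β 0 = 1 := by
  rw [pot, sub_zero, div_self (by linarith), Real.one_rpow]

/-- The potential without its linear part at `0`. -/
noncomputable def th (δ β m : ℝ) : ℝ := pot δ β m - (1 + β * (m / (1 + δ)))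

theorem th_nonneg {δ β m : ℝ} (hδ : 0 < δ) (hβ : 0 ≤ β) (hm : m ≤ 1) : 0 ≤ th δ β m := by
  have h := pot_lower (δ := δ) (β := β) (m := 0) (m' := m) hδ hβ (by linarith) (by
    rw [sub_zero, sub_zero, div_lt_one (by linarith)]; linarith)
  rw [sub_zero, sub_zero, pot_zero hδ, one_mul] at h
  rw [th]; linarith

theorem pot_le_th {δ β m : ℝ} (hδ : 0 < δ) (hβ : 0 ≤ β) (hm : m ≤ 1) :
    pot δ β m ≤ th δ β m + (1 + β) := by
  have h1 : m / (1 + δ) ≤ 1 := by rw [div_le_one (by linarith)]; linarith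
  have h2 : β * (m / (1 + δ)) ≤ β := by nlinarith
  rw [th]; linarith

theorem th_continuousAt {δ β : ℝ} (hδ : 0 < δ) : ContinuousAt (th δ β) 0 := by
  have h1 : ContinuousAt (fun m : ℝ => pot δ β m) 0 := by
    have h2 : ContinuousAt (fun m : ℝ => (1 - m + δ) / (1 + δ)) 0 := by fun_prop
    refine h2.rpow_const (Or.inl ?_)
    rw [sub_zero, div_self (by linarith)]
    exact one_ne_zero
  have h3 : ContinuousAt (fun m : ℝ => 1 + β * (m / (1 + δ))) 0 := by fun_prop
  exact h1.sub h3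

theorem th_zero {δ β : ℝ} (hδ : 0 < δ) : th δ β 0 = 0 := by
  rw [th, pot_zero hδ, zero_div, mul_zero]; ring

theorem big_pow {β w : ℝ} (hβ : 5 ≤ β) (hw : 0 < w) (hw1 : w ≤ 3 / 8) :
    4 * (1 + β) ≤ w ^ (-β) := by
  have h1 : (3 / 8 : ℝ) ^ (-β) ≤ w ^ (-β) :=
    Real.rpow_le_rpow_of_nonpos hw hw1 (by linarith)
  refine le_trans ?_ h1
  have h2 : (3 / 8 : ℝ) ^ (-β) = ((1 + 5 / 3 : ℝ) ^ (β / 2)) ^ 2 := by
    rw [← Real.rpow_natCast, ← Real.rpow_mul (by norm_num), Real.rpow_neg (by norm_num),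
      ← Real.inv_rpow (by norm_num)]
    norm_num
  rw [h2]
  have h3 := one_add_mul_self_le_rpow_one_add (s := 5 / 3) (by norm_num) (p := β / 2) (by linarith)
  have h4 : (1 + β / 2 * (5 / 3)) ^ 2 ≤ ((1 + 5 / 3 : ℝ) ^ (β / 2)) ^ 2 :=
    pow_le_pow_left₀ (by positivity) h3 2
  nlinarith

/-- The sum of the damping coefficients. -/
theorem damp_sum {a x : ℕ → ℝ} {δ : ℝ} (hδ : 0 < δ) (hx0 : 0 ≤ x 0) (hx1 : ∀ s, x s ≤ 1)
    (hmono : ∀ s, x s ≤ x (s + 1)) (hax : ∀ s, a s ≤ 4 * (x (s + 1) - x s))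
    (hxd : ∀ s, x (s + 1) - x s ≤ δ / 2) (T : ℕ) :
    ∑ s ∈ range T, a s / (x s + δ) ≤ 6 * Real.log ((1 + δ) / δ) := by
  have hnn : ∀ s, 0 ≤ x s := by
    intro s
    induction s with
    | zero => exact hx0
    | succ s ih => exact ih.trans (hmono s)
  have h1 : ∀ s, a s / (x s + δ) ≤ 6 * (Real.log (x (s + 1) + δ) - Real.log (x s + δ)) := by
    intro s
    have hp : 0 < x s + δ := by linarith [hnn s]
    have hp' : 0 < x (s + 1) + δ := by linarith [hnn (s + 1)]
    rw [← Real.log_div hp'.ne' hp.ne']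
    have h2 := Real.one_sub_inv_le_log_of_pos (div_pos hp' hp)
    rw [inv_div] at h2
    have h3 : (x (s + 1) - x s) / (x (s + 1) + δ) ≤
        Real.log ((x (s + 1) + δ) / (x s + δ)) := by
      refine le_trans (le_of_eq ?_) h2
      rw [eq_sub_iff_add_eq, ← add_div]
      rw [div_eq_one_iff_eq hp'.ne']
      ring
    have h4 : a s / (x s + δ) ≤ 6 * ((x (s + 1) - x s) / (x (s + 1) + δ)) := by
      rw [← mul_div_assoc, div_le_div_iff₀ hp hp']
      have h5 := hax s
      have h6 := hxd s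
      have h7 := hmono s
      have h8 : x (s + 1) + δ ≤ 3 / 2 * (x s + δ) := by linarith [hnn s]
      have h9 : 0 ≤ x (s + 1) - x s := by linarith
      calc a s * (x (s + 1) + δ) ≤ 4 * (x (s + 1) - x s) * (x (s + 1) + δ) :=
            mul_le_mul_of_nonneg_right h5 hp'.le
        _ ≤ 4 * (x (s + 1) - x s) * (3 / 2 * (x s + δ)) :=
            mul_le_mul_of_nonneg_left h8 (by linarith)
        _ = _ := by ring
    linarith
  have h2 : ∑ s ∈ range T, a s / (x s + δ) ≤
      6 * (Real.log (x T + δ) - Real.log (x 0 + δ)) := by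
    refine (Finset.sum_le_sum fun s _ => h1 s).trans (le_of_eq ?_)
    rw [← Finset.mul_sum, Finset.sum_range_sub (fun s => Real.log (x s + δ))]
  refine h2.trans ?_
  have h3 : Real.log (x T + δ) ≤ Real.log (1 + δ) :=
    Real.log_le_log (by linarith [hnn T]) (by linarith [hx1 T])
  have h4 : Real.log δ ≤ Real.log (x 0 + δ) := Real.log_le_log hδ (by linarith)
  rw [Real.log_div (by linarith) hδ.ne']
  linarith

/-! ### One step -/

/-- The conditional variance. -/
noncomputable def vr (P : Matrix V V ℝ) (M : V → ℝ) (y : V) : ℝ := ∑ b, P y b * (M b - M y) ^ 2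

theorem vr_nonneg {P : Matrix V V ℝ} (hP : IsWalk P) (M : V → ℝ) (y : V) : 0 ≤ vr P M y :=
  Finset.sum_nonneg fun b _ => mul_nonneg (hP.nonneg y b) (sq_nonneg _)

theorem step_pow {P : Matrix V V ℝ} (hP : IsWalk P) {col : V → κ} {M : V → ℝ} {a x δ β : ℝ}
    (hβ : 5 ≤ β) (hδ : 0 < δ) (ha0 : 0 ≤ a) (hx0 : 0 ≤ x)
    (hcol : ∀ y b, col b = col y → M b = M y)
    (ha : ∀ y b, P y b ≠ 0 → (M b - M y) ^ 2 ≤ 4 * a * (1 - M y + δ))
    (hM : ∀ y, M y ≤ 1 - x / 2) (hτ : 16 * β ^ 2 * a ≤ δ) (y : V) :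
    (P *ᵥ fun b => th δ β (M b)) y ≤
      Real.exp (192 * β ^ 2 * (a / (x + δ)) * rate P col y) * th δ β ((P *ᵥ M) y) +
        768 * (β ^ 2 * (1 + β)) * vr P M y := by
  classical
  have hβ0 : 0 < β := by linarith
  have hM1 : ∀ y, M y ≤ 1 := fun y => by linarith [hM y]
  set w : ℝ := 1 - M y + δ with hw
  have hw0 : 0 < w := by rw [hw]; linarith [hM1 y]
  have hwx : (x + δ) / 2 ≤ w := by rw [hw]; linarith [hM y]
  have hwδ : δ ≤ w := by rw [hw]; linarith [hM1 y]
  have hxδ : 0 < x + δ := by linarith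
  set μ : ℝ := (P *ᵥ M) y with hμ
  have hμ1 : μ ≤ 1 := by
    have h1 := hP.mono (f := M) (g := fun _ => 1) hM1 y
    rw [hP.const 1] at h1
    exact h1
  -- the size of one jump
  have hj : ∀ b, P y b ≠ 0 → |β * ((M b - M y) / w)| ≤ 1 / 2 := by
    intro b hb
    have h1 := ha y b hb
    rw [← abs_of_pos (show (0 : ℝ) < 1 / 2 by norm_num)]
    refine sq_le_sq.1 ?_
    rw [mul_pow, div_pow]
    have h2 : (M b - M y) ^ 2 / w ^ 2 ≤ 4 * a / w := by
      rw [div_le_div_iff₀ (by positivity) hw0]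
      calc (M b - M y) ^ 2 * w ≤ 4 * a * w * w := mul_le_mul_of_nonneg_right h1 hw0.le
        _ = _ := by ring
    have h3 : 4 * a / w ≤ 4 * a / δ := div_le_div_of_nonneg_left (by linarith) hδ hwδ
    have h4 : β ^ 2 * (4 * a / δ) ≤ 1 / 4 := by
      rw [← mul_div_assoc, div_le_iff₀ hδ]
      linarith
    calc β ^ 2 * ((M b - M y) ^ 2 / w ^ 2) ≤ β ^ 2 * (4 * a / δ) :=
          mul_le_mul_of_nonneg_left (h2.trans h3) (sq_nonneg β)
      _ ≤ 1 / 4 := h4
      _ = _ := by norm_num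
  -- the mean jump
  have hmean : μ - M y = ∑ b, P y b * (M b - M y) := by
    have e2 : ∑ b, P y b * M y = M y := by rw [← Finset.sum_mul, hP.sum, one_mul]
    have e3 : ∀ b, P y b * (M b - M y) = P y b * M b - P y b * M y := fun b => by ring
    rw [Finset.sum_congr rfl fun b _ => e3 b, Finset.sum_sub_distrib, e2]
    rfl
  set A : ℝ := β * ((μ - M y) / w) with hA
  have hA1 : |A| ≤ 1 / 2 := by
    have h1 : A = ∑ b, P y b * (β * ((M b - M y) / w)) := by
      rw [hA, hmean, Finset.sum_div, Finset.mul_sum]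
      exact Finset.sum_congr rfl fun b _ => by ring
    rw [h1]
    refine (Finset.abs_sum_le_sum_abs _ _).trans ?_
    have h2 : ∀ b ∈ univ, |P y b * (β * ((M b - M y) / w))| ≤ P y b * (1 / 2) := by
      intro b _
      rw [abs_mul, abs_of_nonneg (hP.nonneg y b)]
      by_cases hb : P y b = 0
      · rw [hb]; simp
      · exact mul_le_mul_of_nonneg_left (hj b hb) (hP.nonneg y b)
    refine (Finset.sum_le_sum h2).trans (le_of_eq ?_)
    rw [← Finset.sum_mul, hP.sum, one_mul]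
  obtain ⟨hA2, hA3⟩ := abs_le.1 hA1
  set B : ℝ := 6 * (β ^ 2 * (vr P M y / w ^ 2)) with hB
  have hv0 := vr_nonneg hP M y
  have hB0 : 0 ≤ B := by rw [hB]; positivity
  have hp0 : 0 < pot δ β (M y) := pot_pos hδ hw0
  -- the potential
  have h1 : (P *ᵥ fun b => pot δ β (M b)) y ≤ pot δ β (M y) * (1 + A + B) := by
    have h2 : ∀ b ∈ univ, P y b * pot δ β (M b) ≤ P y b * (pot δ β (M y) *
        (1 + β * ((M b - M y) / w) + 6 * (β ^ 2 * ((M b - M y) / w) ^ 2))) := by
      intro b _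
      by_cases hb : P y b = 0
      · rw [hb]; simp
      · exact mul_le_mul_of_nonneg_left (pot_upper hδ (by linarith) hw0 (hj b hb)) (hP.nonneg y b)
    refine (Finset.sum_le_sum h2).trans (le_of_eq ?_)
    have e3 : ∀ b, P y b * (pot δ β (M y) *
        (1 + β * ((M b - M y) / w) + 6 * (β ^ 2 * ((M b - M y) / w) ^ 2))) =
        pot δ β (M y) * (P y b + β / w * (P y b * (M b - M y)) +
          6 * β ^ 2 / w ^ 2 * (P y b * (M b - M y) ^ 2)) := by
      intro b; field_simp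
    rw [Finset.sum_congr rfl fun b _ => e3 b, ← Finset.mul_sum, Finset.sum_add_distrib,
      Finset.sum_add_distrib, ← Finset.mul_sum, ← Finset.mul_sum, hP.sum, ← hmean]
    congr 1
    rw [hA, hB, vr]
    field_simp
  have h2 : pot δ β (M y) * (1 + A) ≤ pot δ β μ := by
    refine pot_lower hδ hβ0.le hw0 ?_
    by_contra h3
    rw [not_lt] at h3
    have h4 : β * 1 ≤ A := mul_le_mul_of_nonneg_left h3 hβ0.le
    linarith
  have h3 : (P *ᵥ fun b => th δ β (M b)) y =
      (P *ᵥ fun b => pot δ β (M b)) y - (1 + β * (μ / (1 + δ))) := by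
    have e1 : ∀ b, P y b * th δ β (M b) = P y b * pot δ β (M b) -
        (P y b + β / (1 + δ) * (P y b * M b)) := by
      intro b
      rw [th]
      field_simp
    change ∑ b, P y b * th δ β (M b) = _
    rw [Finset.sum_congr rfl fun b _ => e1 b, Finset.sum_sub_distrib, Finset.sum_add_distrib,
      ← Finset.mul_sum, hP.sum]
    have e2 : ∑ b, P y b * M b = μ := rfl
    rw [e2]
    change (P *ᵥ fun b => pot δ β (M b)) y - _ = _
    ring
  have h4 : (P *ᵥ fun b => th δ β (M b)) y ≤ th δ β μ + pot δ β (M y) * B := by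
    rw [h3, th]
    nlinarith
  have h5 : pot δ β (M y) ≤ 2 * pot δ β μ := by nlinarith
  have hthμ : 0 ≤ th δ β μ := th_nonneg hδ hβ0.le hμ1
  have h6 := pot_le_th (δ := δ) (β := β) hδ hβ0.le hμ1
  -- the rate
  have h7 : vr P M y ≤ 4 * a * w * rate P col y := by
    rw [vr, rate, Finset.mul_sum]
    refine Finset.sum_le_sum fun b _ => ?_
    by_cases hb : P y b = 0
    · rw [hb]; simp
    by_cases hcb : col b = col y
    · rw [hcol y b hcb]; simp [hcb]
    · rw [if_neg hcb, mul_one]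
      calc P y b * (M b - M y) ^ 2 ≤ P y b * (4 * a * w) :=
            mul_le_mul_of_nonneg_left (ha y b hb) (hP.nonneg y b)
        _ = _ := by ring
  have hr0 := rate_nonneg hP col y
  have h8 : B ≤ 48 * β ^ 2 * (a / (x + δ)) * rate P col y := by
    have h9 : vr P M y / w ^ 2 ≤ 8 * (a / (x + δ)) * rate P col y := by
      rw [div_le_iff₀ (by positivity)]
      have h10 : a * rate P col y * w ≤ 2 * (a / (x + δ)) * rate P col y * w ^ 2 := by
        have h11 : a ≤ 2 * (a / (x + δ)) * w := by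
          have h12 : a = 2 * (a / (x + δ)) * ((x + δ) / 2) := by field_simp
          calc a = 2 * (a / (x + δ)) * ((x + δ) / 2) := h12
            _ ≤ _ := mul_le_mul_of_nonneg_left hwx (by positivity)
        calc a * rate P col y * w = a * (rate P col y * w) := by ring
          _ ≤ 2 * (a / (x + δ)) * w * (rate P col y * w) :=
              mul_le_mul_of_nonneg_right h11 (by positivity)
          _ = _ := by ring
      linarith
    rw [hB]
    have := mul_le_mul_of_nonneg_left h9 (show 0 ≤ 6 * β ^ 2 by positivity)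
    calc 6 * (β ^ 2 * (vr P M y / w ^ 2)) = 6 * β ^ 2 * (vr P M y / w ^ 2) := by ring
      _ ≤ _ := this
      _ = _ := by ring
  set ρ : ℝ := 192 * β ^ 2 * (a / (x + δ)) * rate P col y with hρ
  have hBρ : 4 * B ≤ ρ := by rw [hρ]; linarith
  have hexp : th δ β μ * (1 + 4 * B) ≤ Real.exp ρ * th δ β μ := by
    rw [mul_comm]
    refine mul_le_mul_of_nonneg_right ?_ hthμ
    have := Real.add_one_le_exp ρ
    linarith
  by_cases hcase : w ≤ 1 / 4 + 1 / 8
  · have h9 : 4 * (1 + β) ≤ pot δ β (M y) := by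
      rw [pot]
      refine big_pow hβ (by positivity) ?_
      rw [div_le_iff₀ (by linarith)]
      nlinarith
    have h10 : 1 + β ≤ th δ β μ := by linarith
    have h11 : pot δ β (M y) * B ≤ 4 * th δ β μ * B := by
      refine mul_le_mul_of_nonneg_right ?_ hB0
      linarith
    have h12 : 0 ≤ 768 * (β ^ 2 * (1 + β)) * vr P M y := by positivity
    nlinarith
  · rw [not_le] at hcase
    have hw4 : 1 / 4 ≤ w := by linarith
    have h9 : B ≤ 96 * β ^ 2 * vr P M y := by
      have h10 : vr P M y / w ^ 2 ≤ 16 * vr P M y := by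
        rw [div_le_iff₀ (by positivity)]
        have h11 : 1 ≤ 16 * w ^ 2 := by nlinarith
        nlinarith
      rw [hB]
      have := mul_le_mul_of_nonneg_left h10 (show 0 ≤ 6 * β ^ 2 by positivity)
      nlinarith
    have h10 : pot δ β (M y) * B ≤ 2 * (th δ β μ + (1 + β)) * B :=
      mul_le_mul_of_nonneg_right (by linarith) hB0
    have h11 : 2 * (1 + β) * B ≤ 768 * (β ^ 2 * (1 + β)) * vr P M y := by
      have := mul_le_mul_of_nonneg_left h9 (show 0 ≤ 2 * (1 + β) by linarith)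
      have h13 : 0 ≤ β ^ 2 * (1 + β) * vr P M y := by positivity
      nlinarith
    have h12 : 0 ≤ th δ β μ * B := mul_nonneg hthμ hB0
    nlinarith

/-! ### Iteration -/

/-- The additive errors. -/
noncomputable def err (P : Matrix V V ℝ) (C : ℝ) (M : ℕ → V → ℝ) : ℕ → V → ℝ
  | 0 => fun _ => 0
  | s + 1 => fun y => (P *ᵥ err P C M s) y + C * vr P (M s) y

theorem err_nonneg {P : Matrix V V ℝ} (hP : IsWalk P) {C : ℝ} (hC : 0 ≤ C) (M : ℕ → V → ℝ)
    (s : ℕ) (y : V) : 0 ≤ err P C M s y := by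
  induction s generalizing y with
  | zero => exact le_rfl
  | succ s ih => exact add_nonneg (hP.nonneg' ih y) (mul_nonneg hC (vr_nonneg hP _ _))

theorem sum_vr {P : Matrix V V ℝ} (hP : IsWalk P) (M : V → ℝ) :
    ∑ y, vr P M y = 2 * (∑ y, M y * M y - ∑ y, M y * (P *ᵥ M) y) := by
  have h := dirichlet hP M (-1) (by norm_num)
  have e : ∀ y, vr P M y = ∑ b, P y b * (M y + -1 * M b) ^ 2 := by
    intro y
    rw [vr]
    exact Finset.sum_congr rfl fun b _ => by ring
  rw [Finset.sum_congr rfl fun y _ => e y, h]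
  ring

theorem sum_err {P : Matrix V V ℝ} (hP : IsWalk P) {C : ℝ} (hC : 0 ≤ C) {M : ℕ → V → ℝ}
    (hM : ∀ s, P *ᵥ M s = M (s + 1))
    (hpsd : ∀ s, ∑ y, M (s + 1) y * M (s + 1) y ≤ ∑ y, M s y * M (s + 1) y) (T : ℕ) :
    ∑ y, err P C M T y ≤ 2 * C * ∑ y, M 0 y * M 0 y := by
  have h1 : ∀ T, ∑ y, err P C M T y ≤
      2 * C * (∑ y, M 0 y * M 0 y - ∑ y, M T y * M T y) := by
    intro T
    induction T with
    | zero => simp [err]
    | succ T ih =>
      have h2 : ∑ y, err P C M (T + 1) y = ∑ y, err P C M T y + C * ∑ y, vr P (M T) y := by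
        change ∑ y, ((P *ᵥ err P C M T) y + C * vr P (M T) y) = _
        rw [Finset.sum_add_distrib, hP.sum_mulVec, Finset.mul_sum]
      rw [h2, sum_vr hP, hM T]
      have h3 := hpsd T
      have h4 : C * (2 * (∑ y, M T y * M T y - ∑ y, M T y * M (T + 1) y)) ≤
          2 * C * (∑ y, M T y * M T y - ∑ y, M (T + 1) y * M (T + 1) y) := by
        have := mul_le_mul_of_nonneg_left h3 (show 0 ≤ 2 * C by linarith)
        linarith
      linarith
  refine (h1 T).trans ?_
  refine mul_le_mul_of_nonneg_left ?_ (by linarith)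
  have : 0 ≤ ∑ y, M T y * M T y := Finset.sum_nonneg fun y _ => mul_self_nonneg _
  linarith

theorem Φ_le_pow {P : Matrix V V ℝ} (hP : IsWalk P) {col : V → κ} {M : ℕ → V → ℝ} {a x : ℕ → ℝ}
    {δ β : ℝ} (hβ : 5 ≤ β) (hδ : 0 < δ) (ha0 : ∀ s, 0 ≤ a s)
    (hx0 : ∀ s, 0 ≤ x s) (hM : ∀ s, P *ᵥ M s = M (s + 1))
    (hcol : ∀ s y b, col b = col y → M s b = M s y)
    (ha : ∀ s y b, P y b ≠ 0 → (M s b - M s y) ^ 2 ≤ 4 * a s * (1 - M s y + δ))
    (hMx : ∀ s y, M s y ≤ 1 - x s / 2) (hτ : ∀ s, 16 * β ^ 2 * a s ≤ δ) (s : ℕ) (y : V) :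
    Φ P (fun s => 192 * β ^ 2 * (a s / (x s + δ))) (rate P col) (fun y => th δ β (M 0 y)) s y ≤
      th δ β (M s y) + err P (768 * (β ^ 2 * (1 + β))) M s y := by
  have hC : 0 ≤ 768 * (β ^ 2 * (1 + β)) := by
    have : 0 < 1 + β := by linarith
    positivity
  induction s generalizing y with
  | zero => simp [Φ, err]
  | succ s ih =>
    have h1 := hP.mono ih y
    have h2 := step_pow hP hβ hδ (ha0 s) (hx0 s) (hcol s) (ha s) (hMx s) (hτ s) y
    rw [hM s] at h2
    set ρ : ℝ := 192 * β ^ 2 * (a s / (x s + δ)) * rate P col y with hρ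
    have hρ0 : 0 ≤ ρ := by
      have := rate_nonneg hP col y
      have h3 := ha0 s
      have h4 : 0 < x s + δ := by linarith [hx0 s]
      positivity
    have h3 : (P *ᵥ fun y => th δ β (M s y) + err P (768 * (β ^ 2 * (1 + β))) M s y) y =
        (P *ᵥ fun b => th δ β (M s b)) y + (P *ᵥ err P (768 * (β ^ 2 * (1 + β))) M s) y := by
      have : (fun y => th δ β (M s y) + err P (768 * (β ^ 2 * (1 + β))) M s y) =
          (fun b => th δ β (M s b)) + err P (768 * (β ^ 2 * (1 + β))) M s := rfl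
      rw [this, mulVec_add]
      rfl
    rw [h3] at h1
    change Real.exp (-ρ) * (P *ᵥ _) y ≤ _ + ((P *ᵥ err P (768 * (β ^ 2 * (1 + β))) M s) y +
      768 * (β ^ 2 * (1 + β)) * vr P (M s) y)
    have he0 : 0 ≤ (P *ᵥ err P (768 * (β ^ 2 * (1 + β))) M s) y :=
      hP.nonneg' (fun b => err_nonneg hP hC M s b) y
    have hv0 : 0 ≤ 768 * (β ^ 2 * (1 + β)) * vr P (M s) y := mul_nonneg hC (vr_nonneg hP _ _)
    have he1 : Real.exp (-ρ) ≤ 1 := Real.exp_le_one_iff.2 (by linarith)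
    calc _ ≤ Real.exp (-ρ) * (Real.exp ρ * th δ β (M (s + 1) y) +
          768 * (β ^ 2 * (1 + β)) * vr P (M s) y +
            (P *ᵥ err P (768 * (β ^ 2 * (1 + β))) M s) y) :=
          mul_le_mul_of_nonneg_left (by linarith) (Real.exp_pos _).le
      _ = th δ β (M (s + 1) y) + Real.exp (-ρ) * (768 * (β ^ 2 * (1 + β)) * vr P (M s) y +
            (P *ᵥ err P (768 * (β ^ 2 * (1 + β))) M s) y) := by
          have : Real.exp (-ρ) * Real.exp ρ = 1 := by rw [← Real.exp_add]; simp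
          linear_combination (th δ β (M (s + 1) y)) * this
      _ ≤ th δ β (M (s + 1) y) + 1 * (768 * (β ^ 2 * (1 + β)) * vr P (M s) y +
            (P *ᵥ err P (768 * (β ^ 2 * (1 + β))) M s) y) := by
          have := mul_le_mul_of_nonneg_right he1 (add_nonneg hv0 he0)
          linarith
      _ = _ := by ring

/-- **The power inequality.** -/
theorem expoPow {P : Matrix V V ℝ} (hP : IsWalk P) {col : V → κ} {M : ℕ → V → ℝ} {a x : ℕ → ℝ}
    {δ β K L : ℝ} (hβ : 5 ≤ β) (hδ : 0 < δ) (hK : 0 ≤ K)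
    (hM : ∀ s, P *ᵥ M s = M (s + 1))
    (hcol : ∀ s y b, col b = col y → M s b = M s y)
    (ha : ∀ s y b, P y b ≠ 0 → (M s b - M s y) ^ 2 ≤ 4 * a s * (1 - M s y + δ))
    (ha0 : ∀ s, 0 ≤ a s) (hanti : ∀ s, a (s + 1) ≤ a s) (hx0 : ∀ s, 0 ≤ x s)
    (hmono : ∀ s, x s ≤ x (s + 1)) (hMx : ∀ s y, M s y ≤ 1 - x s / 2)
    (hτ : 16 * β ^ 2 * a 0 ≤ δ) (hL : ∀ T, ∑ s ∈ range T, a s / (x s + δ) ≤ L)
    (hpsd : ∀ s, ∑ y, M (s + 1) y * M (s + 1) y ≤ ∑ y, M s y * M (s + 1) y)
    (hlim : ∀ ε > 0, ∃ T, ∀ y, |M T y| ≤ ε) (Y : Finset V)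
    (hY : ∀ y ∈ Y, ∀ k : ℕ, S P (P *ᵥ rate P col) k y ≤ k * K) :
    (∑ y ∈ Y, th δ β (M 0 y)) * Real.exp (-(K * (192 * β ^ 2 * L))) ≤
      1536 * (β ^ 2 * (1 + β)) * ∑ y, M 0 y * M 0 y := by
  have hβ0 : 0 < β := by linarith
  have hC : 0 ≤ 768 * (β ^ 2 * (1 + β)) := by
    have : 0 < 1 + β := by linarith
    positivity
  have hτs : ∀ s, 16 * β ^ 2 * a s ≤ δ := by
    intro s
    have h1 : a s ≤ a 0 := by
      induction s with
      | zero => exact le_rfl
      | succ s ih => exact (hanti s).trans ih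
    exact (mul_le_mul_of_nonneg_left h1 (by positivity)).trans hτ
  have hM1 : ∀ s y, M s y ≤ 1 := fun s y => by linarith [hMx s y, hx0 s]
  have hth0 : ∀ s y, 0 ≤ th δ β (M s y) := fun s y => th_nonneg hδ hβ0.le (hM1 s y)
  set b : ℕ → ℝ := fun s => 192 * β ^ 2 * (a s / (x s + δ)) with hb
  have hb0 : ∀ s, 0 ≤ b s := by
    intro s
    have h3 := ha0 s
    have h4 : 0 < x s + δ := by linarith [hx0 s]
    simp only [hb]
    positivity
  have hbanti : ∀ s, b (s + 1) ≤ b s := by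
    intro s
    simp only [hb]
    refine mul_le_mul_of_nonneg_left ?_ (by positivity)
    exact div_le_div₀ (ha0 s) (hanti s) (by linarith [hx0 s]) (by linarith [hmono s])
  -- the inequality with an error
  have h1 : ∀ ε > 0, (∑ y ∈ Y, th δ β (M 0 y)) * Real.exp (-(K * (192 * β ^ 2 * L))) ≤
      Fintype.card V * ε + 1536 * (β ^ 2 * (1 + β)) * ∑ y, M 0 y * M 0 y := by
    intro ε hε
    obtain ⟨ε', hε', hball⟩ := Metric.continuousAt_iff.1 (th_continuousAt (β := β) hδ) ε hε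
    obtain ⟨T, hT⟩ := hlim (ε' / 2) (by linarith)
    have hTε : ∀ y, th δ β (M T y) ≤ ε := by
      intro y
      have h2 : dist (M T y) 0 < ε' := by
        rw [Real.dist_eq, sub_zero]
        have := hT y
        linarith
      have h3 := hball h2
      rw [th_zero hδ, Real.dist_eq, sub_zero] at h3
      exact (le_abs_self _).trans h3.le
    have h2 := sum_Φ_ge (β := b) (η := rate P col) (f := fun y => th δ β (M 0 y)) hP
      (fun y => hth0 0 y) T 0
    have h3 : ∑ y, Real.exp (-((0 : V → ℝ) y)) *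
        Φ P b (rate P col) (fun y => th δ β (M 0 y)) T y ≤
          Fintype.card V * ε + 1536 * (β ^ 2 * (1 + β)) * ∑ y, M 0 y * M 0 y := by
      have : ∀ y ∈ univ, Real.exp (-((0 : V → ℝ) y)) *
          Φ P b (rate P col) (fun y => th δ β (M 0 y)) T y ≤
            ε + err P (768 * (β ^ 2 * (1 + β))) M T y := by
        intro y _
        rw [Pi.zero_apply, neg_zero, Real.exp_zero, one_mul]
        refine (Φ_le_pow hP hβ hδ ha0 hx0 hM hcol ha hMx hτs T y).trans ?_
        linarith [hTε y]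
      refine (Finset.sum_le_sum this).trans ?_
      rw [Finset.sum_add_distrib, Finset.sum_const, nsmul_eq_mul, Finset.card_univ]
      have h4 := sum_err hP hC hM hpsd T
      linarith
    refine le_trans ?_ (h2.trans h3)
    refine le_trans ?_ (Finset.sum_le_sum_of_subset_of_nonneg (subset_univ Y) fun y _ _ =>
      mul_nonneg (Real.exp_pos _).le (hth0 0 y))
    rw [Finset.sum_mul]
    refine Finset.sum_le_sum fun y hy => ?_
    rw [mul_comm]
    refine mul_le_mul_of_nonneg_right (Real.exp_le_exp.2 ?_) (hth0 0 y)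
    rw [mulVec_zero, Pi.zero_apply]
    have h4 : ∑ s ∈ range T, b s * (P ^ (s + 1) *ᵥ rate P col) y ≤ K * ∑ s ∈ range T, b s := by
      refine abel (r := fun s => (P ^ (s + 1) *ᵥ rate P col) y) hbanti hb0 ?_ T
      intro k
      have := hY y hy k
      rw [S_eq] at this
      refine le_trans (le_of_eq ?_) this
      refine Finset.sum_congr rfl fun s _ => ?_
      rw [mulVec_mulVec, ← pow_succ]
    have h5 : ∑ s ∈ range T, b s ≤ 192 * β ^ 2 * L := by
      rw [hb, ← Finset.mul_sum]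
      exact mul_le_mul_of_nonneg_left (hL T) (by positivity)
    have h6 : K * ∑ s ∈ range T, b s ≤ K * (192 * β ^ 2 * L) := mul_le_mul_of_nonneg_left h5 hK
    linarith
  refine le_of_forall_pos_le_add fun ε hε => ?_
  by_cases hn : (Fintype.card V : ℝ) = 0
  · have := h1 1 one_pos
    rw [hn] at this
    linarith
  · have hn0 : 0 < (Fintype.card V : ℝ) := lt_of_le_of_ne (Nat.cast_nonneg _) (Ne.symm hn)
    have := h1 (ε / Fintype.card V) (by positivity)
    rw [mul_div_cancel₀ _ hn] at this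
    linarith

end Pool.Agent.Lib.MP_7beb49_co.Walk
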