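import Pool.Agent.Lib.MP_7beb49_co.Growth

/-!
# Spectral gap of every constituent in terms of its valency and `D_min`

For every primitive coherent configuration on at least three vertices and every edge colour `i`,
the spectral gap of the symmetrised constituent is at least
`d_i * min (1/4) ((d_i / (24 D_min)) ^ 2)`.
-/

set_option autoImplicit false

namespace Pool.Agent.Lib.MP_7beb49_co.GapFromValency

open Pool.Agent.Lib.MP_7beb49_co

/-- **Main theorem.** -/
theorem result : ∀ (V κ : Type) [Fintype V] (c : V → V → κ), IsPCC c → 3 ≤ Fintype.card V →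
    ∀ x y : V, x ≠ y → ∀ v : V,
      (deg (constituent c (c x y)) v : ℝ) *
          min (1 / 4) (((deg (constituent c (c x y)) v : ℝ) / (24 * (Dmin c : ℝ))) ^ 2)
        ≤ (deg (constituent c (c x y)) v : ℝ) - xi (constituent c (c x y)) := by
  classical
  intro V κ _ c hc hn x y hxy v
  set H := constituent c (c x y) with hH
  set d : ℝ := (deg H v : ℝ) with hd
  -- `D_min` is attained
  have hne : {d | ∃ a b, a ≠ b ∧ d = distinguishing c a b}.Nonempty := ⟨_, x, y, hxy, rfl⟩
  obtain ⟨a, b, hab, hD⟩ := Nat.sInf_mem hne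
  have hDmin : Dmin c = distinguishing c a b := hD
  -- the degree does not depend on the vertex
  have hdegc : ∀ u w, deg H u = deg H w := by
    intro u w
    refine ncard_eq hc (P := fun a b => H.Adj a b) ?_ u w
    intro u v u' v' h
    have h' := hc.conv _ _ _ _ h
    rw [hH, constituent, SimpleGraph.fromRel_adj, SimpleGraph.fromRel_adj, h, h']
    have : u ≠ v ↔ u' ≠ v' := by
      constructor
      · rintro h1 rfl
        exact hc.diag_ne _ _ _ h1 h.symm
      · rintro h1 rfl
        exact hc.diag_ne _ _ _ h1 h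
    rw [this]
  have hdpos : 0 < d := by
    have h1 : 0 < deg H x := by
      rw [deg, Set.ncard_pos (Set.toFinite _)]
      refine ⟨y, ?_⟩
      rw [SimpleGraph.mem_neighborSet, hH, constituent, SimpleGraph.fromRel_adj]
      exact ⟨hxy, Or.inl rfl⟩
    rw [hd, hdegc v x]
    exact_mod_cast h1
  set μ : ℝ := min (1 / 4) ((d / (24 * (Dmin c : ℝ))) ^ 2) with hμ
  have hμ0 : 0 ≤ μ := le_min (by norm_num) (sq_nonneg _)
  have hμ1 : μ ≤ 1 / 4 := min_le_left _ _
  have hxi : xi H ≤ d - d * μ := by
    apply Real.sSup_le _ (by nlinarith)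
    rintro t ⟨θ, f, hf, hf0, hev, rfl⟩
    by_contra hcon
    push Not at hcon
    obtain ⟨Q, hQ, hAQ⟩ := exists_proj_of_eigen hc (c x y) hf hf0 (by convert hev)
    have hpos := hQ.pos hc v
    have hfr := hQ.one_le_distinguishing hc hab v
    rw [← hDmin] at hfr
    have hDpos : (0 : ℝ) < (Dmin c : ℝ) := by
      by_contra h
      push Not at h
      nlinarith
    have hμpos : 0 < μ := lt_min (by norm_num) (by positivity)
    have hentry : d * Q x y = θ * Q v v := by
      have h1 := hQ.entry (x := x) (y := y) hAQ v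
      rw [← hH] at h1
      exact h1
    -- almost parallel
    have hpar : (1 - 2 * μ) * Q x x ^ 2 ≤ Q x y ^ 2 := by
      have h1 : d ^ 2 * Q x y ^ 2 = θ ^ 2 * Q v v ^ 2 := by
        rw [← mul_pow, hentry, mul_pow]
      have h2 : (d - d * μ) ^ 2 ≤ θ ^ 2 := by
        rw [← sq_abs θ]
        have : 0 ≤ d - d * μ := by nlinarith
        exact pow_le_pow_left₀ this hcon.le 2
      have h3 : (1 - 2 * μ) * d ^ 2 ≤ (d - d * μ) ^ 2 := by nlinarith [sq_nonneg (d * μ)]
      have h4 : 0 < Q v v ^ 2 := by positivity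
      have h5 : d ^ 2 * ((1 - 2 * μ) * Q v v ^ 2) ≤ d ^ 2 * Q x y ^ 2 := by
        rw [h1]
        nlinarith
      rw [hQ.diag hc x v]
      exact le_of_mul_le_mul_left h5 (by positivity)
    have hgr := hQ.growth hc hn hμpos hμ1 hxy hpar
    -- the almost parallel set contains the neighbours and the vertex itself
    have hsub : {w | w = x ∨ H.Adj x w} ⊆ {w | (1 - 2 * μ) * Q x x ^ 2 ≤ Q x w ^ 2} := by
      rintro w (h | h)
      · rw [h]
        change (1 - 2 * μ) * Q x x ^ 2 ≤ Q x x ^ 2
        nlinarith [sq_nonneg (Q x x)]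
      · change (1 - 2 * μ) * Q x x ^ 2 ≤ Q x w ^ 2
        rw [hH, constituent, SimpleGraph.fromRel_adj] at h
        rcases h.2 with h1 | h1
        · rw [hQ.mem x w x y h1]; exact hpar
        · rw [hQ.symm x w, hQ.mem w x x y h1]; exact hpar
    have hcard : deg H x + 1 ≤ {w | (1 - 2 * μ) * Q x x ^ 2 ≤ Q x w ^ 2}.ncard := by
      refine le_trans (le_of_eq ?_) (Set.ncard_le_ncard hsub (Set.toFinite _))
      have h1 : {w | w = x ∨ H.Adj x w} = insert x (H.neighborSet x) := by
        ext w
        simp [SimpleGraph.mem_neighborSet]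
      rw [h1, Set.ncard_insert_of_notMem (by simp) (Set.toFinite _)]
      rfl
    have hcard' : d + 1 ≤ ({w | (1 - 2 * μ) * Q x x ^ 2 ≤ Q x w ^ 2}.ncard : ℝ) := by
      rw [hd, hdegc v x]
      exact_mod_cast hcard
    rw [hQ.diag hc x v] at hgr hcard'
    have hsq : Real.sqrt μ ≤ d / (24 * (Dmin c : ℝ)) := by
      rw [Real.sqrt_le_left (by positivity)]
      exact min_le_right _ _
    have h1 : (d + 1) * Q v v ≤ d / (Dmin c : ℝ) := by
      have h2 : 24 * Real.sqrt μ ≤ d / (Dmin c : ℝ) := by
        have h3 : d / (Dmin c : ℝ) = 24 * (d / (24 * (Dmin c : ℝ))) := by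
          field_simp
        rw [h3]
        linarith
      have h4 : (d + 1) * Q v v ≤
          ({w | (1 - 2 * μ) * Q v v ^ 2 ≤ Q x w ^ 2}.ncard : ℝ) * Q v v :=
        mul_le_mul_of_nonneg_right hcard' hpos.le
      linarith
    rw [le_div_iff₀ hDpos] at h1
    nlinarith
  linarith

end Pool.Agent.Lib.MP_7beb49_co.GapFromValency
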