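import Mathlib

/-!
# Coherent configurations: projections and linear growth of almost parallel sets

Definitions of primitive coherent configurations, spectral projections in the coherent algebra
(the first part follows helper52, `GapFromDistinguishing`), and the growth lemma: for an
idempotent `Q` of rank `m` of the coherent algebra the set of vertices almost parallel to a given
one has at most `24 √δ n / m` elements.
-/

set_option autoImplicit false

namespace Pool.Agent.Lib.MP_7beb49_co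

open Polynomial Matrix

/-- The symmetrisation of the constituent of colour `i`. -/
def constituent {V κ : Type} (c : V → V → κ) (i : κ) : SimpleGraph V :=
  SimpleGraph.fromRel (fun u v => c u v = i)

/-- Primitive coherent configurations. -/
structure IsPCC {V κ : Type} [Fintype V] (c : V → V → κ) : Prop where
  /-- a colour of a pair `(v, v)` is not the colour of a pair of distinct vertices -/
  diag_ne : ∀ v u w, u ≠ w → c v v ≠ c u w
  /-- the colour of `(v, u)` depends only on the colour of `(u, v)` -/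
  conv : ∀ u v u' v', c u v = c u' v' → c v u = c v' u'
  /-- the intersection numbers depend only on the colour of `(u, v)` -/
  coherent : ∀ u v u' v', c u v = c u' v' → ∀ i j,
    {w | c u w = i ∧ c w v = j}.ncard = {w | c u' w = i ∧ c w v' = j}.ncard
  /-- all pairs `(v, v)` have one colour -/
  homogeneous : ∀ u v, c u u = c v v
  /-- all constituents of edge colours are connected -/
  primitive : ∀ x y, x ≠ y → (constituent c (c x y)).Connected

/-- The number `D(a, b)` of vertices distinguishing `a` and `b`. -/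
noncomputable def distinguishing {V κ : Type} (c : V → V → κ) (a b : V) : ℕ :=
  {w | c w a ≠ c w b}.ncard

/-- `D_min`. -/
noncomputable def Dmin {V κ : Type} (c : V → V → κ) : ℕ :=
  sInf {d | ∃ a b, a ≠ b ∧ d = distinguishing c a b}

/-- The degree of a vertex. -/
noncomputable def deg {V : Type} (X : SimpleGraph V) (v : V) : ℕ := (X.neighborSet v).ncard

open Classical in
/-- The largest absolute value of an eigenvalue of the adjacency matrix having an eigenvector
orthogonal to the constants. -/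
noncomputable def xi {V : Type} [Fintype V] (X : SimpleGraph V) : ℝ :=
  sSup {t | ∃ (θ : ℝ) (f : V → ℝ), f ≠ 0 ∧ ∑ v, f v = 0 ∧
    (X.adjMatrix ℝ).mulVec f = θ • f ∧ t = |θ|}

section projection

variable {V : Type} [Fintype V] [DecidableEq V]

/-- For a symmetric real matrix `N`, `N ^ (k + 1) * M = 0` implies `N * M = 0`. -/
theorem sym_pow_mul_eq_zero {N M : Matrix V V ℝ} (hN : N.transpose = N) :
    ∀ k : ℕ, N ^ (k + 1) * M = 0 → N * M = 0 := by
  have h2 : ∀ M : Matrix V V ℝ, N * (N * M) = 0 → N * M = 0 := by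
    intro M h
    have h1 : (N * M).transpose * (N * M) = 0 := by
      rw [transpose_mul, hN, Matrix.mul_assoc, h, Matrix.mul_zero]
    have := Matrix.conjTranspose_mul_self_eq_zero (A := N * M)
    rw [Matrix.conjTranspose_eq_transpose_of_trivial] at this
    exact this.1 h1
  intro k
  induction k generalizing M with
  | zero => intro h; simpa using h
  | succ k ih =>
    intro h
    rw [pow_succ, Matrix.mul_assoc] at h
    exact h2 M (ih h)

/-- Spectral projection of a symmetric matrix as a polynomial. -/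
theorem exists_proj {N : Matrix V V ℝ} (hN : N.transpose = N) :
    ∃ q : ℝ[X], N * aeval N q = 0 ∧ ∀ f : V → ℝ, N.mulVec f = 0 →
      (aeval N q : Matrix V V ℝ).mulVec f = f := by
  have hint : IsIntegral ℝ N := Algebra.IsIntegral.isIntegral N
  set m := minpoly ℝ N with hm
  have hm0 : m ≠ 0 := minpoly.ne_zero hint
  obtain ⟨g, hg, hgX⟩ := exists_eq_pow_rootMultiplicity_mul_and_not_dvd m hm0 0
  rw [C_0, sub_zero] at hg hgX
  set k := rootMultiplicity 0 m with hk
  have hg0 : g.coeff 0 ≠ 0 := by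
    intro h
    exact hgX (X_dvd_iff.2 h)
  have h1 : N ^ k * aeval N g = 0 := by
    have := minpoly.aeval ℝ N
    rw [← hm, hg, map_mul, map_pow, aeval_X] at this
    exact this
  have h2 : N * aeval N g = 0 := by
    apply sym_pow_mul_eq_zero hN k
    rw [pow_succ', Matrix.mul_assoc, h1, Matrix.mul_zero]
  refine ⟨C (g.coeff 0)⁻¹ * g, ?_, ?_⟩
  · rw [map_mul, aeval_C, Algebra.algebraMap_eq_smul_one, smul_mul_assoc, one_mul,
      Matrix.mul_smul, h2, smul_zero]
  · intro f hf
    have h3 : ∀ p : ℝ[X], (aeval N p : Matrix V V ℝ).mulVec f = p.coeff 0 • f := by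
      intro p
      conv_lhs => rw [← divX_mul_X_add p]
      rw [map_add, map_mul, aeval_X, aeval_C, add_mulVec, ← mulVec_mulVec, hf, mulVec_zero,
        zero_add, Algebra.algebraMap_eq_smul_one, smul_mulVec, one_mulVec]
    rw [h3, coeff_C_mul, inv_mul_cancel₀ hg0, one_smul]

theorem aeval_transpose {N : Matrix V V ℝ} (hN : N.transpose = N) (q : ℝ[X]) :
    (aeval N q).transpose = aeval N q := by
  induction q using Polynomial.induction_on' with
  | add p q hp hq => rw [map_add, transpose_add, hp, hq]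
  | monomial n a =>
    rw [aeval_monomial, Algebra.algebraMap_eq_smul_one, smul_mul_assoc, one_mul, transpose_smul,
      transpose_pow, hN]

end projection

section configuration

variable {V κ : Type} [Fintype V] {c : V → V → κ}

/-- Sums over a vertex depend only on the colour. -/
theorem sum_eq (hc : IsPCC c) {u v u' v' : V} (h : c u v = c u' v') (F : κ × κ → ℝ) :
    ∑ w, F (c u w, c w v) = ∑ w, F (c u' w, c w v') := by
  classical
  have h1 : (Finset.univ.val.map (fun w => (c u w, c w v)) : Multiset (κ × κ)) =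
      Finset.univ.val.map (fun w => (c u' w, c w v')) := by
    ext ⟨i, j⟩
    rw [Multiset.count_map, Multiset.count_map]
    have key := hc.coherent u v u' v' h i j
    rw [Set.ncard_eq_toFinset_card', Set.ncard_eq_toFinset_card'] at key
    have e : ∀ u v : V, (Multiset.filter (fun a => (i, j) = (c u a, c a v))
        (Finset.univ : Finset V).val).card = ({w | c u w = i ∧ c w v = j} : Set V).toFinset.card := by
      intro u v
      rw [← Finset.filter_val, ← Finset.card_def]
      congr 1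
      ext w
      simp only [Finset.mem_filter, Finset.mem_univ, true_and, Set.mem_toFinset,
        Set.mem_ofPred_eq, Prod.mk.injEq, eq_comm]
    rw [e, e, key]
  have h2 := congrArg (fun s => (s.map F).sum) h1
  simpa [Multiset.map_map, Function.comp_def] using h2

/-- The coherent algebra. -/
def alg (hc : IsPCC c) [DecidableEq V] : Subalgebra ℝ (Matrix V V ℝ) where
  carrier := {M | ∀ u v u' v', c u v = c u' v' → M u v = M u' v'}
  mul_mem' := by
    intro M N hM hN u v u' v' h
    classical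
    by_cases hV : Nonempty V
    · let m : κ → ℝ := fun i => if h : ∃ p : V × V, c p.1 p.2 = i then M h.choose.1 h.choose.2 else 0
      let n : κ → ℝ := fun i => if h : ∃ p : V × V, c p.1 p.2 = i then N h.choose.1 h.choose.2 else 0
      have hm : ∀ a b, M a b = m (c a b) := by
        intro a b
        have hex : ∃ p : V × V, c p.1 p.2 = c a b := ⟨(a, b), rfl⟩
        simp only [m, dif_pos hex]
        exact hM _ _ _ _ hex.choose_spec.symm
      have hn : ∀ a b, N a b = n (c a b) := by
        intro a b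
        have hex : ∃ p : V × V, c p.1 p.2 = c a b := ⟨(a, b), rfl⟩
        simp only [n, dif_pos hex]
        exact hN _ _ _ _ hex.choose_spec.symm
      rw [Matrix.mul_apply, Matrix.mul_apply]
      simp only [hm, hn]
      exact sum_eq hc h (fun p => m p.1 * n p.2)
    · exact absurd ⟨u⟩ hV
  add_mem' := by
    intro M N hM hN u v u' v' h
    rw [Matrix.add_apply, Matrix.add_apply, hM u v u' v' h, hN u v u' v' h]
  algebraMap_mem' := by
    intro r u v u' v' h
    rw [Algebra.algebraMap_eq_smul_one, Matrix.smul_apply, Matrix.smul_apply]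
    by_cases huv : u = v
    · subst huv
      by_cases huv' : u' = v'
      · subst huv'; simp
      · exact absurd h (hc.diag_ne _ _ _ huv')
    · by_cases huv' : u' = v'
      · subst huv'
        exact absurd h.symm (hc.diag_ne _ _ _ huv)
      · rw [Matrix.one_apply_ne huv, Matrix.one_apply_ne huv']

open Classical in
theorem adj_mem (hc : IsPCC c) (i : κ) : (constituent c i).adjMatrix ℝ ∈ alg hc := by
  intro u v u' v' h
  rw [SimpleGraph.adjMatrix_apply, SimpleGraph.adjMatrix_apply]
  have h' := hc.conv _ _ _ _ h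
  have h1 : (constituent c i).Adj u v ↔ (constituent c i).Adj u' v' := by
    rw [constituent, SimpleGraph.fromRel_adj, SimpleGraph.fromRel_adj, h, h']
    have : u ≠ v ↔ u' ≠ v' := by
      constructor
      · rintro h1 rfl
        exact hc.diag_ne _ _ _ h1 h.symm
      · rintro h1 rfl
        exact hc.diag_ne _ _ _ h1 h
    rw [this]
  simp only [h1]

/-- The number of vertices in a relation that depends only on the colour is the same for all
vertices. -/
theorem ncard_eq (hc : IsPCC c) {P : V → V → Prop}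
    (hP : ∀ u v u' v', c u v = c u' v' → (P u v ↔ P u' v')) (u v : V) :
    {w | P u w}.ncard = {w | P v w}.ncard := by
  classical
  let F : κ × κ → ℝ := fun p => if ∃ a b, c a b = p.1 ∧ P a b then 1 else 0
  have hF : ∀ a b, (∃ a' b', c a' b' = c a b ∧ P a' b') ↔ P a b := by
    intro a b
    constructor
    · rintro ⟨a', b', h, h'⟩
      exact (hP _ _ _ _ h).1 h'
    · intro h
      exact ⟨a, b, rfl, h⟩
  have h1 := sum_eq hc (hc.homogeneous u v) F
  simp only [F, hF] at h1
  rw [Finset.sum_boole, Finset.sum_boole] at h1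
  have h2 : ∀ a : V, {w | P a w}.ncard = (Finset.univ.filter (fun w => P a w)).card := by
    intro a
    rw [Set.ncard_eq_toFinset_card']
    congr 1
    ext w; simp
  rw [h2, h2]
  exact_mod_cast h1

/-- Symmetric idempotents of the coherent algebra that are not contained in the principal one. -/
structure Proj (c : V → V → κ) (Q : Matrix V V ℝ) : Prop where
  mem : ∀ u v u' v', c u v = c u' v' → Q u v = Q u' v'
  sym : Q.transpose = Q
  idem : Q * Q = Q
  nonconst : ∃ f : V → ℝ, f ≠ 0 ∧ ∑ v, f v = 0 ∧ Q.mulVec f = f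

namespace Proj

variable {Q : Matrix V V ℝ}

theorem symm (hQ : Proj c Q) (u v : V) : Q u v = Q v u := by
  conv_lhs => rw [← hQ.sym]
  rfl

theorem diag (hc : IsPCC c) (hQ : Proj c Q) (u v : V) : Q u u = Q v v :=
  hQ.mem _ _ _ _ (hc.homogeneous u v)

theorem norm (hQ : Proj c Q) (u w : V) : ∑ x, Q x u * Q x w = Q u w := by
  have h1 : (Q.transpose * Q) u w = Q u w := by rw [hQ.sym, hQ.idem]
  rw [Matrix.mul_apply] at h1
  exact h1

theorem norm' (hQ : Proj c Q) (u w : V) : ∑ x, Q u x * Q w x = Q u w := by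
  rw [← hQ.norm u w]
  exact Finset.sum_congr rfl (fun x _ => by rw [hQ.symm u x, hQ.symm w x])

theorem pos (hc : IsPCC c) (hQ : Proj c Q) (v : V) : 0 < Q v v := by
  have h0 : 0 ≤ Q v v := by
    rw [← hQ.norm v v]
    exact Finset.sum_nonneg (fun x _ => mul_self_nonneg _)
  rcases h0.lt_or_eq with h | h
  · exact h
  · exfalso
    obtain ⟨f, hf, -, hQf⟩ := hQ.nonconst
    apply hf
    ext u
    rw [← hQf, Pi.zero_apply]
    change ∑ x, Q u x * f x = 0
    refine Finset.sum_eq_zero (fun x _ => ?_)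
    have h1 : ∑ y, Q y x * Q y x = 0 := by rw [hQ.norm, hQ.diag hc x v, ← h]
    have h2 := (Finset.sum_eq_zero_iff_of_nonneg (fun y (_ : y ∈ Finset.univ) =>
      mul_self_nonneg (Q y x))).1 h1 u (Finset.mem_univ _)
    rw [mul_self_eq_zero.1 h2, zero_mul]

/-- Distinct vertices are represented by distinct vectors. -/
theorem inj (hc : IsPCC c) (hQ : Proj c Q) {a b : V} (hab : a ≠ b) (v : V) : Q a b ≠ Q v v := by
  intro hQab
  have hyy : ∀ a b, ∑ x, (Q x a - Q x b) ^ 2 = 2 * Q v v - 2 * Q a b := by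
    intro a b
    have h1 : ∑ x, (Q x a - Q x b) ^ 2
        = ∑ x, (Q x a * Q x a - 2 * (Q x a * Q x b) + Q x b * Q x b) :=
      Finset.sum_congr rfl (fun x _ => by ring)
    rw [h1, Finset.sum_add_distrib, Finset.sum_sub_distrib, ← Finset.mul_sum, hQ.norm, hQ.norm,
      hQ.norm, hQ.diag hc a v, hQ.diag hc b v]
    ring
  have hcol : ∀ u w, c u w = c a b → ∀ x, Q x u = Q x w := by
    intro u w huw x
    have h1 := hyy u w
    rw [hQ.mem u w a b huw, hQab, sub_self] at h1
    have h2 := (Finset.sum_eq_zero_iff_of_nonneg (fun x (_ : x ∈ Finset.univ) =>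
      sq_nonneg (Q x u - Q x w))).1 h1 x (Finset.mem_univ _)
    have h3 : Q x u - Q x w = 0 := by simpa using h2
    linarith
  have hconn := hc.primitive a b hab
  have hall : ∀ u w, ∀ x, Q x u = Q x w := by
    intro u w x
    obtain ⟨p⟩ := hconn.preconnected u w
    induction p with
    | nil => rfl
    | cons hadj _ ih =>
      rw [constituent, SimpleGraph.fromRel_adj] at hadj
      rcases hadj.2 with h1 | h1
      · rw [hcol _ _ h1 x]; exact ih
      · rw [← hcol _ _ h1 x]; exact ih
  obtain ⟨f, hf, hf0, hQf⟩ := hQ.nonconst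
  apply hf
  ext u
  have h1 := congrFun hQf u
  rw [← h1, Pi.zero_apply]
  change ∑ x, Q u x * f x = 0
  have h2 : ∑ x, Q u x * f x = ∑ x, Q u u * f x :=
    Finset.sum_congr rfl (fun x _ => by rw [hall x u u])
  rw [h2, ← Finset.mul_sum, hf0, mul_zero]

theorem sum_sq (hQ : Proj c Q) (v : V) : ∑ w, Q v w ^ 2 = Q v v := by
  rw [← hQ.norm' v v]
  exact Finset.sum_congr rfl (fun x _ => sq _)

/-- Volume bound. -/
theorem ncard_mul_le (hc : IsPCC c) (hQ : Proj c Q) (v : V) (s : ℝ) :
    ({w | s * Q v v ^ 2 ≤ Q v w ^ 2}.ncard : ℝ) * (s * Q v v) ≤ 1 := by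
  classical
  have hpos := hQ.pos hc v
  have h1 : ∑ w ∈ Finset.univ.filter (fun w => s * Q v v ^ 2 ≤ Q v w ^ 2), s * Q v v ^ 2
      ≤ ∑ w, Q v w ^ 2 := by
    rw [Finset.sum_filter]
    refine Finset.sum_le_sum (fun w _ => ?_)
    split_ifs with h
    · exact h
    · exact sq_nonneg _
  rw [Finset.sum_const, nsmul_eq_mul, hQ.sum_sq] at h1
  have h2 : {w | s * Q v v ^ 2 ≤ Q v w ^ 2}.ncard
      = (Finset.univ.filter (fun w => s * Q v v ^ 2 ≤ Q v w ^ 2)).card := by
    rw [Set.ncard_eq_toFinset_card']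
    congr 1
    ext w; simp
  rw [h2]
  have h3 : (((Finset.univ.filter (fun w => s * Q v v ^ 2 ≤ Q v w ^ 2)).card : ℝ) *
      (s * Q v v)) * Q v v ≤ 1 * Q v v := by
    nlinarith
  exact le_of_mul_le_mul_right h3 hpos

/-- The rank of the projection. -/
theorem exists_rank [DecidableEq V] (hQ : Proj c Q) :
    ((Module.finrank ℝ (LinearMap.range (Matrix.toLin' Q)) : ℕ) : ℝ)
      = ∑ v, Q v v := by
  have hproj : LinearMap.IsProj (LinearMap.range (Matrix.toLin' Q)) (Matrix.toLin' Q) := by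
    constructor
    · intro x
      exact LinearMap.mem_range_self _ x
    · rintro x ⟨y, rfl⟩
      rw [Matrix.toLin'_apply, Matrix.toLin'_apply, Matrix.mulVec_mulVec, hQ.idem]
  have h1 := hproj.trace
  rw [← h1, LinearMap.trace_eq_matrix_trace ℝ (Pi.basisFun ℝ V),
    ← Matrix.toLin_eq_toLin', LinearMap.toMatrix_toLin]
  rfl

/-- The rank is at least two if there are three vertices. -/
theorem two_le [DecidableEq V] (hc : IsPCC c) (hQ : Proj c Q) (hn : 3 ≤ Fintype.card V) (v : V) :
    2 ≤ (Fintype.card V : ℝ) * Q v v := by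
  have hrk := hQ.exists_rank
  have hsum : ∑ u, Q u u = (Fintype.card V : ℝ) * Q v v := by
    rw [Finset.sum_congr rfl (fun u _ => hQ.diag hc u v), Finset.sum_const, Finset.card_univ,
      nsmul_eq_mul]
  rw [hsum] at hrk
  set m := Module.finrank ℝ (LinearMap.range (Matrix.toLin' Q)) with hm
  have hpos := hQ.pos hc v
  have hcard : (0 : ℝ) < Fintype.card V := by
    have : 0 < Fintype.card V := by omega
    exact_mod_cast this
  have h0 : m ≠ 0 := by
    intro h
    rw [h] at hrk
    have : 0 < (Fintype.card V : ℝ) * Q v v := mul_pos hcard hpos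
    rw [← hrk] at this
    simp at this
  have h1 : m ≠ 1 := by
    intro h
    rw [h] at hrk
    -- all entries have the same absolute value
    have htot : ∑ u, ∑ w, (Q v v ^ 2 - Q u w ^ 2) = 0 := by
      have h2 : ∀ u, ∑ w, (Q v v ^ 2 - Q u w ^ 2) = (Fintype.card V : ℝ) * Q v v ^ 2 - Q v v := by
        intro u
        rw [Finset.sum_sub_distrib, hQ.sum_sq, hQ.diag hc u v, Finset.sum_const, Finset.card_univ,
          nsmul_eq_mul]
      rw [Finset.sum_congr rfl (fun u _ => h2 u), Finset.sum_const]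
      have : (Fintype.card V : ℝ) * Q v v ^ 2 - Q v v = 0 := by
        have : (Fintype.card V : ℝ) * Q v v ^ 2 = ((Fintype.card V : ℝ) * Q v v) * Q v v := by ring
        rw [this, ← hrk]
        push_cast
        ring
      rw [this, smul_zero]
    have hle : ∀ u w, Q u w ^ 2 ≤ Q v v ^ 2 := by
      intro u w
      have h2 : (∑ x, Q x u * Q x w) ^ 2 ≤ (∑ x, Q x u ^ 2) * ∑ x, Q x w ^ 2 :=
        Finset.sum_mul_sq_le_sq_mul_sq _ _ _
      have h3 : ∀ u, ∑ x, Q x u ^ 2 = Q v v := by
        intro u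
        rw [← hQ.diag hc u v, ← hQ.norm u u]
        exact Finset.sum_congr rfl (fun x _ => sq _)
      rw [hQ.norm, h3, h3] at h2
      nlinarith
    have heq : ∀ u w, Q u w ^ 2 = Q v v ^ 2 := by
      intro u w
      have h2 := (Finset.sum_eq_zero_iff_of_nonneg (fun u (_ : u ∈ Finset.univ) =>
        Finset.sum_nonneg (fun w (_ : w ∈ Finset.univ) => sub_nonneg.2 (hle u w)))).1 htot u
        (Finset.mem_univ _)
      have h3 := (Finset.sum_eq_zero_iff_of_nonneg (fun w (_ : w ∈ Finset.univ) =>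
        sub_nonneg.2 (hle u w))).1 h2 w (Finset.mem_univ _)
      linarith
    have hneg : ∀ u w, u ≠ w → Q u w = - Q v v := by
      intro u w huw
      rcases sq_eq_sq_iff_eq_or_eq_neg.1 (heq u w) with h2 | h2
      · exact absurd h2 (hQ.inj hc huw v)
      · exact h2
    obtain ⟨a, b, d, hab, had, hbd⟩ := Fintype.two_lt_card_iff.1 (show 2 < Fintype.card V by omega)
    have hsq : 0 ≤ ∑ x, (Q x a + Q x b + Q x d) ^ 2 :=
      Finset.sum_nonneg (fun x _ => sq_nonneg _)
    have hexp : ∑ x, (Q x a + Q x b + Q x d) ^ 2 = Q a a + Q b b + Q d d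
        + 2 * Q a b + 2 * Q a d + 2 * Q b d := by
      rw [← hQ.norm a a, ← hQ.norm b b, ← hQ.norm d d, ← hQ.norm a b, ← hQ.norm a d,
        ← hQ.norm b d, Finset.mul_sum, Finset.mul_sum, Finset.mul_sum, ← Finset.sum_add_distrib,
        ← Finset.sum_add_distrib, ← Finset.sum_add_distrib, ← Finset.sum_add_distrib,
        ← Finset.sum_add_distrib]
      exact Finset.sum_congr rfl (fun x _ => by ring)
    rw [hexp, hQ.diag hc a v, hQ.diag hc b v, hQ.diag hc d v, hneg a b hab, hneg a d had,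
      hneg b d hbd] at hsq
    linarith
  have h2 : 2 ≤ m := by omega
  rw [← hrk]
  exact_mod_cast h2

/-- The frame inequality of helper52: `n / m ≤ D(a, b)`. -/
theorem one_le_distinguishing (hc : IsPCC c) (hQ : Proj c Q) {a b : V} (hab : a ≠ b) (v : V) :
    1 ≤ (distinguishing c a b : ℝ) * Q v v := by
  classical
  set π₀ := Q v v with hπ₀
  have hdiag : ∀ u, Q u u = π₀ := fun u => hQ.diag hc u v
  let y : V → ℝ := fun x => Q x a - Q x b
  have hyy : ∑ x, y x ^ 2 = 2 * π₀ - 2 * Q a b := by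
    have h1 : ∑ x, y x ^ 2 = ∑ x, (Q x a * Q x a - 2 * (Q x a * Q x b) + Q x b * Q x b) :=
      Finset.sum_congr rfl (fun x _ => by simp only [y]; ring)
    rw [h1, Finset.sum_add_distrib, Finset.sum_sub_distrib, ← Finset.mul_sum, hQ.norm, hQ.norm,
      hQ.norm, hdiag, hdiag]
    ring
  have hyproj : ∀ w, ∑ x, Q x w * y x = y w := by
    intro w
    have h1 : ∑ x, Q x w * y x = ∑ x, (Q x w * Q x a - Q x w * Q x b) :=
      Finset.sum_congr rfl (fun x _ => by simp only [y]; ring)
    rw [h1, Finset.sum_sub_distrib, hQ.norm, hQ.norm]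
  have hCS : ∀ w, y w ^ 2 ≤ π₀ * ∑ x, y x ^ 2 := by
    intro w
    rw [← hyproj w]
    refine (Finset.sum_mul_sq_le_sq_mul_sq _ _ _).trans ?_
    have h1 : ∑ x, Q x w ^ 2 = π₀ := by
      rw [← hdiag w, ← hQ.norm w w]
      exact Finset.sum_congr rfl (fun x _ => sq _)
    rw [h1]
  have hsupp : ∀ w, c w a = c w b → y w = 0 := by
    intro w h
    simp only [y]
    rw [hQ.mem w a w b h, sub_self]
  have hpos : 0 < ∑ x, y x ^ 2 := by
    rcases (Finset.sum_nonneg (fun x (_ : x ∈ Finset.univ) => sq_nonneg (y x))).lt_or_eq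
      with h | h
    · exact h
    · exfalso
      rw [← h] at hyy
      exact hQ.inj hc hab v (by linarith)
  have h1 : ∑ x, y x ^ 2 ≤
      ∑ x ∈ Finset.univ.filter (fun w => c w a ≠ c w b), π₀ * ∑ x, y x ^ 2 := by
    rw [Finset.sum_filter]
    refine Finset.sum_le_sum (fun w _ => ?_)
    split_ifs with hw
    · exact hCS w
    · rw [hsupp w (not_not.1 hw)]; norm_num
  rw [Finset.sum_const, nsmul_eq_mul] at h1
  have h2 : (Finset.univ.filter (fun w => c w a ≠ c w b)).card = distinguishing c a b := by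
    rw [distinguishing, Set.ncard_eq_toFinset_card']
    congr 1
    ext w; simp
  rw [h2] at h1
  by_contra hlt
  push Not at hlt
  nlinarith

/-- The representation of the vertices by rank one matrices. -/
noncomputable def vec (Q : Matrix V V ℝ) (u : V) : EuclideanSpace ℝ (V × V) :=
  WithLp.toLp 2 (fun p => Q p.1 u * Q p.2 u / Q u u)

theorem norm_sub_sq (hc : IsPCC c) (hQ : Proj c Q) (u w : V) :
    ‖vec Q u - vec Q w‖ ^ 2 * Q u u ^ 2 = 2 * (Q u u ^ 2 - Q u w ^ 2) := by
  have hpos := hQ.pos hc u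
  rw [EuclideanSpace.norm_sq_eq]
  have h1 : ∀ p : V × V, ‖(vec Q u - vec Q w) p‖ ^ 2 * Q u u ^ 2 =
      (Q p.1 u * Q p.2 u - Q p.1 w * Q p.2 w) ^ 2 := by
    intro p
    rw [Real.norm_eq_abs, sq_abs]
    simp only [vec, PiLp.sub_apply]
    rw [hQ.diag hc w u]
    field_simp
  rw [Finset.sum_mul, Finset.sum_congr rfl (fun p _ => h1 p), Fintype.sum_prod_type]
  have h2 : ∀ x y : V, (Q x u * Q y u - Q x w * Q y w) ^ 2 =
      (Q x u * Q x u) * (Q y u * Q y u) - 2 * ((Q x u * Q x w) * (Q y u * Q y w))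
        + (Q x w * Q x w) * (Q y w * Q y w) := by
    intro x y; ring
  simp only [h2, Finset.sum_add_distrib, Finset.sum_sub_distrib, ← Finset.mul_sum,
    ← Finset.sum_mul, hQ.norm]
  rw [hQ.diag hc w u]
  ring


end Proj

end configuration

section growth

variable {V : Type} [Fintype V]

omit [Fintype V] in
/-- In a connected graph every value up to an attained distance is attained. -/
theorem exists_dist_eq {G : SimpleGraph V} (hG : G.Connected) (v : V) :
    ∀ (n : ℕ) (z : V), n ≤ G.dist v z → ∃ y, G.dist v y = n := by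
  intro n z hz
  obtain ⟨p⟩ := hG.preconnected z v
  induction p with
  | nil =>
    rw [SimpleGraph.dist_self] at hz
    exact ⟨_, by rw [SimpleGraph.dist_self]; omega⟩
  | @cons a b d hadj p ih =>
    rcases Nat.lt_or_ge (G.dist d b) n with h | h
    · refine ⟨a, ?_⟩
      have h1 : G.dist d a ≤ G.dist d b + G.dist b a := hG.dist_triangle
      have h2 : G.dist b a = 1 := SimpleGraph.dist_eq_one_iff_adj.2 hadj.symm
      omega
    · exact ih h

/-- Balls in a connected graph grow at least linearly. -/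
theorem ball_growth {G : SimpleGraph V} (hG : G.Connected) {s : ℕ}
    (hs : ∀ u, s ≤ {w | w = u ∨ G.Adj u w}.ncard) (v : V) (t : ℕ) {z : V}
    (hz : 3 * t ≤ G.dist v z) :
    (t + 1) * s ≤ {w | G.dist v w ≤ 3 * t + 1}.ncard := by
  classical
  have hex : ∀ a : ℕ, ∃ y, a ≤ t → G.dist v y = 3 * a := by
    intro a
    by_cases ha : a ≤ t
    · obtain ⟨y, hy⟩ := exists_dist_eq hG v (3 * a) z (by omega)
      exact ⟨y, fun _ => hy⟩
    · exact ⟨v, fun h => absurd h ha⟩
  choose y hy using hex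
  let B : ℕ → Finset V := fun a => Finset.univ.filter (fun w => w = y a ∨ G.Adj (y a) w)
  have hB : ∀ a, a ≤ t → ∀ w ∈ B a, 3 * a ≤ G.dist v w + 1 ∧ G.dist v w ≤ 3 * a + 1 := by
    intro a ha w hw
    have hw' := (Finset.mem_filter.1 hw).2
    have h1 : G.dist (y a) w ≤ 1 := by
      rcases hw' with h | h
      · rw [h, SimpleGraph.dist_self]; omega
      · rw [SimpleGraph.dist_eq_one_iff_adj.2 h]
    have h2 : G.dist v w ≤ G.dist v (y a) + G.dist (y a) w := hG.dist_triangle
    have h3 : G.dist v (y a) ≤ G.dist v w + G.dist w (y a) := hG.dist_triangle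
    rw [SimpleGraph.dist_comm (u := w)] at h3
    rw [hy a ha] at h2 h3
    omega
  have hdisj : (Finset.range (t + 1) : Set ℕ).PairwiseDisjoint B := by
    intro a ha b hb hab
    rw [Finset.mem_coe, Finset.mem_range] at ha hb
    rw [Function.onFun, Finset.disjoint_left]
    intro w hwa hwb
    have h1 := hB a (by omega) w hwa
    have h2 := hB b (by omega) w hwb
    omega
  have hcard : ∀ a ∈ Finset.range (t + 1), s ≤ (B a).card := by
    intro a _
    have h1 := hs (y a)
    rw [Set.ncard_eq_toFinset_card'] at h1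
    refine h1.trans (le_of_eq ?_)
    congr 1
    ext w; simp [B]
  have hsub : (Finset.range (t + 1)).biUnion B ⊆
      Finset.univ.filter (fun w => G.dist v w ≤ 3 * t + 1) := by
    intro w hw
    rw [Finset.mem_biUnion] at hw
    obtain ⟨a, ha, hwa⟩ := hw
    rw [Finset.mem_range] at ha
    have h1 := hB a (by omega) w hwa
    rw [Finset.mem_filter]
    exact ⟨Finset.mem_univ _, by omega⟩
  have h1 : (t + 1) * s ≤ ((Finset.range (t + 1)).biUnion B).card := by
    rw [Finset.card_biUnion hdisj]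
    calc (t + 1) * s = ∑ _a ∈ Finset.range (t + 1), s := by
          rw [Finset.sum_const, Finset.card_range, smul_eq_mul]
      _ ≤ _ := Finset.sum_le_sum hcard
  refine h1.trans ((Finset.card_le_card hsub).trans (le_of_eq ?_))
  rw [Set.ncard_eq_toFinset_card']
  congr 1
  ext w; simp

variable {κ : Type} {c : V → V → κ} {Q : Matrix V V ℝ}

namespace Proj

/-- Almost parallel sets, scaled version: for `t` with `(3t+1)² 2δ ≤ 1/4`. -/
theorem growth_aux [DecidableEq V] (hc : IsPCC c) (hQ : Proj c Q) (hn : 3 ≤ Fintype.card V)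
    {δ : ℝ} (hδ : 0 ≤ δ) (t : ℕ) (ht : (3 * t + 1 : ℝ) ^ 2 * (2 * δ) ≤ 1 / 4) {v w₀ : V}
    (hne : v ≠ w₀) (hw₀ : (1 - 2 * δ) * Q v v ^ 2 ≤ Q v w₀ ^ 2) :
    ((t : ℝ) + 1) * ({w | (1 - 2 * δ) * Q v v ^ 2 ≤ Q v w ^ 2}.ncard : ℝ) * Q v v ≤ 4 / 3 := by
  classical
  have hpos := hQ.pos hc v
  set ρ : ℝ := Real.sqrt (4 * δ) with hρ
  have hρ2 : ρ ^ 2 = 4 * δ := Real.sq_sqrt (by linarith)
  have hρ0 : 0 ≤ ρ := Real.sqrt_nonneg _
  -- the relation
  have hrel : ∀ u w, (1 - 2 * δ) * Q v v ^ 2 ≤ Q u w ^ 2 ↔ ‖vec Q u - vec Q w‖ ≤ ρ := by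
    intro u w
    have h1 := hQ.norm_sub_sq hc u w
    rw [hQ.diag hc u v] at h1
    have h2 : ‖vec Q u - vec Q w‖ ≤ ρ ↔ ‖vec Q u - vec Q w‖ ^ 2 ≤ ρ ^ 2 :=
      (sq_le_sq₀ (norm_nonneg _) hρ0).symm
    rw [h2, hρ2]
    have h3 : 0 < Q v v ^ 2 := by positivity
    constructor
    · intro h
      have : ‖vec Q u - vec Q w‖ ^ 2 * Q v v ^ 2 ≤ (4 * δ) * Q v v ^ 2 := by
        rw [h1]; nlinarith
      exact le_of_mul_le_mul_right this h3
    · intro h
      have : ‖vec Q u - vec Q w‖ ^ 2 * Q v v ^ 2 ≤ (4 * δ) * Q v v ^ 2 :=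
        mul_le_mul_of_nonneg_right h h3.le
      rw [h1] at this
      nlinarith
  let G : SimpleGraph V :=
    { Adj := fun u w => u ≠ w ∧ ‖vec Q u - vec Q w‖ ≤ ρ
      symm := ⟨fun u w h => ⟨h.1.symm, by rw [norm_sub_rev]; exact h.2⟩⟩
      loopless := ⟨fun u h => h.1 rfl⟩ }
  -- connectivity
  have hG : G.Connected := by
    refine (hc.primitive v w₀ hne).mono ?_
    intro a b hab
    rw [constituent, SimpleGraph.fromRel_adj] at hab
    refine ⟨hab.1, (hrel a b).1 ?_⟩
    rcases hab.2 with h | h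
    · rw [hQ.mem a b v w₀ h]; exact hw₀
    · rw [hQ.symm a b, hQ.mem b a v w₀ h]; exact hw₀
  -- distances
  have hdist : ∀ u w, ‖vec Q u - vec Q w‖ ≤ (G.dist u w : ℝ) * ρ := by
    intro u w
    obtain ⟨p, hp⟩ := hG.exists_walk_length_eq_dist u w
    rw [← hp]
    clear hp
    induction p with
    | nil => simp
    | @cons a b d hadj p ih =>
      rw [SimpleGraph.Walk.length_cons]
      have h1 : ‖vec Q a - vec Q d‖ ≤ ‖vec Q a - vec Q b‖ + ‖vec Q b - vec Q d‖ :=
        norm_sub_le_norm_sub_add_norm_sub _ _ _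
      have h2 : ‖vec Q a - vec Q b‖ ≤ ρ := hadj.2
      push_cast
      linarith
  -- the balls of radius `R`
  have hvol : ∀ R : ℝ, 0 ≤ R → R ^ 2 / 2 ≤ 1 / 4 →
      ({w | ‖vec Q v - vec Q w‖ ≤ R}.ncard : ℝ) * Q v v ≤ 4 / 3 := by
    intro R hR0 hR
    have h1 := hQ.ncard_mul_le hc v (3 / 4)
    have h2 : {w | ‖vec Q v - vec Q w‖ ≤ R} ⊆ {w | (3 / 4) * Q v v ^ 2 ≤ Q v w ^ 2} := by
      intro w hw
      have hw' : ‖vec Q v - vec Q w‖ ≤ R := hw
      have h3 := hQ.norm_sub_sq hc v w
      have h4 : ‖vec Q v - vec Q w‖ ^ 2 ≤ R ^ 2 := by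
        exact pow_le_pow_left₀ (norm_nonneg _) hw' 2
      have h5 : 0 < Q v v ^ 2 := by positivity
      change (3 / 4) * Q v v ^ 2 ≤ Q v w ^ 2
      nlinarith
    have h3 : {w | ‖vec Q v - vec Q w‖ ≤ R}.ncard ≤ {w | (3 / 4) * Q v v ^ 2 ≤ Q v w ^ 2}.ncard :=
      Set.ncard_le_ncard h2 (Set.toFinite _)
    have h4 : ({w | ‖vec Q v - vec Q w‖ ≤ R}.ncard : ℝ) ≤
        ({w | (3 / 4) * Q v v ^ 2 ≤ Q v w ^ 2}.ncard : ℝ) := by exact_mod_cast h3
    nlinarith
  -- a far vertex
  have hfar : ∃ z, 3 * t ≤ G.dist v z := by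
    by_contra hcon
    push Not at hcon
    have h1 := hvol ((3 * t + 1) * ρ) (by positivity) (by rw [mul_pow, hρ2]; linarith)
    have h2 : {w | ‖vec Q v - vec Q w‖ ≤ (3 * t + 1) * ρ} = Set.univ := by
      ext w
      simp only [Set.mem_ofPred_eq, Set.mem_univ, iff_true]
      refine (hdist v w).trans (mul_le_mul_of_nonneg_right ?_ hρ0)
      have h3 := (hcon w).le
      have h4 : (G.dist v w : ℝ) ≤ 3 * t := by exact_mod_cast h3
      linarith
    rw [h2, Set.ncard_univ, Nat.card_eq_fintype_card] at h1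
    have h3 := hQ.two_le hc hn v
    linarith
  obtain ⟨z, hz⟩ := hfar
  have hs : ∀ u, {w | (1 - 2 * δ) * Q v v ^ 2 ≤ Q v w ^ 2}.ncard ≤
      {w | w = u ∨ G.Adj u w}.ncard := by
    intro u
    have h1 := ncard_eq hc (P := fun a b => (1 - 2 * δ) * Q v v ^ 2 ≤ Q a b ^ 2)
      (fun a b a' b' h => by rw [hQ.mem a b a' b' h]) v u
    rw [h1]
    refine Set.ncard_le_ncard ?_ (Set.toFinite _)
    intro w hw
    by_cases hwu : w = u
    · exact Or.inl hwu
    · exact Or.inr ⟨fun h => hwu h.symm, (hrel u w).1 hw⟩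
  have hgrow := ball_growth hG hs v t hz
  have h1 := hvol ((3 * t + 1) * ρ) (by positivity) (by rw [mul_pow, hρ2]; linarith)
  have h2 : {w | G.dist v w ≤ 3 * t + 1}.ncard ≤
      {w | ‖vec Q v - vec Q w‖ ≤ (3 * t + 1) * ρ}.ncard := by
    refine Set.ncard_le_ncard ?_ (Set.toFinite _)
    intro w hw
    have hw' : G.dist v w ≤ 3 * t + 1 := hw
    refine (hdist v w).trans (mul_le_mul_of_nonneg_right ?_ hρ0)
    exact_mod_cast hw'
  have h3 : (((t + 1) * {w | (1 - 2 * δ) * Q v v ^ 2 ≤ Q v w ^ 2}.ncard : ℕ) : ℝ) ≤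
      ({w | ‖vec Q v - vec Q w‖ ≤ (3 * t + 1) * ρ}.ncard : ℝ) := by
    exact_mod_cast hgrow.trans h2
  push_cast at h3
  nlinarith

/-- Almost parallel sets have at most `24 √δ n / m` elements. -/
theorem growth [DecidableEq V] (hc : IsPCC c) (hQ : Proj c Q) (hn : 3 ≤ Fintype.card V)
    {δ : ℝ} (hδ : 0 < δ) (hδ1 : δ ≤ 1 / 4) {v w₀ : V}
    (hne : v ≠ w₀) (hw₀ : (1 - 2 * δ) * Q v v ^ 2 ≤ Q v w₀ ^ 2) :
    ({w | (1 - 2 * δ) * Q v v ^ 2 ≤ Q v w ^ 2}.ncard : ℝ) * Q v v ≤ 24 * Real.sqrt δ := by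
  have hpos := hQ.pos hc v
  set N : ℝ := ({w | (1 - 2 * δ) * Q v v ^ 2 ≤ Q v w ^ 2}.ncard : ℝ) with hN
  have hN0 : 0 ≤ N := Nat.cast_nonneg _
  set r := Real.sqrt δ with hr
  have hr2 : r ^ 2 = δ := Real.sq_sqrt hδ.le
  have hr0 : 0 < r := Real.sqrt_pos.2 hδ
  by_cases hbig : 1 / 36 ≤ δ
  · have h1 := hQ.ncard_mul_le hc v (1 - 2 * δ)
    have h2 : 1 / 6 ≤ r := by
      by_contra h
      push Not at h
      nlinarith
    have h3 : N * Q v v * (1 / 2) ≤ N * ((1 - 2 * δ) * Q v v) := by
      have h4 : 0 ≤ N * Q v v := by positivity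
      nlinarith
    linarith
  · push Not at hbig
    have hr6 : r < 1 / 6 := by
      by_contra h
      push Not at h
      nlinarith
    -- choose `t` with `3 t + 1 ≤ 1 / (3 r) < 3 t + 4`
    set t := ⌊(1 / (3 * r) - 1) / 3⌋₊ with ht
    have h0 : 0 ≤ (1 / (3 * r) - 1) / 3 := by
      have : 1 ≤ 1 / (3 * r) := by
        rw [le_div_iff₀ (by positivity)]; linarith
      linarith
    have h1 : (t : ℝ) ≤ (1 / (3 * r) - 1) / 3 := Nat.floor_le h0
    have h2 : (1 / (3 * r) - 1) / 3 < t + 1 := Nat.lt_floor_add_one _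
    have h3 : (3 * t + 1 : ℝ) ≤ 1 / (3 * r) := by linarith
    have h4 : (3 * t + 1 : ℝ) * (3 * r) ≤ 1 := by
      rw [le_div_iff₀ (by positivity)] at h3
      exact h3
    have h5 : (3 * t + 1 : ℝ) ^ 2 * (2 * δ) ≤ 1 / 4 := by
      have h6 : ((3 * t + 1 : ℝ) * (3 * r)) ^ 2 ≤ 1 := by
        have : 0 ≤ (3 * t + 1 : ℝ) * (3 * r) := by positivity
        nlinarith
      rw [← hr2]
      nlinarith
    have h6 := hQ.growth_aux hc hn hδ.le t h5 hne hw₀
    rw [← hN] at h6
    -- `t + 1 ≥ 1 / (18 r)`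
    have h7 : 1 / (18 * r) ≤ (t : ℝ) + 1 := by
      have h8 : 1 / (3 * r) = 6 * (1 / (18 * r)) := by
        field_simp
        norm_num
      have h9 : 3 ≤ 9 * (1 / (18 * r)) := by
        rw [mul_one_div, le_div_iff₀ (by positivity)]
        linarith
      rw [h8] at h2
      linarith
    have h8 : (1 / (18 * r)) * (N * Q v v) ≤ 4 / 3 := by
      have h9 : 0 ≤ N * Q v v := by positivity
      calc (1 / (18 * r)) * (N * Q v v) ≤ ((t : ℝ) + 1) * (N * Q v v) :=
            mul_le_mul_of_nonneg_right h7 h9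
        _ ≤ 4 / 3 := by linarith
    rw [one_div_mul_eq_div, div_le_iff₀ (by positivity)] at h8
    linarith

end Proj

end growth

section eigen

variable {V κ : Type} [Fintype V] {c : V → V → κ}

open Classical in
/-- Every eigenvector orthogonal to the constants gives a projection. -/
theorem exists_proj_of_eigen (hc : IsPCC c) (i : κ) {θ : ℝ} {f : V → ℝ}
    (hf : f ≠ 0) (hf0 : ∑ v, f v = 0)
    (hev : ((constituent c i).adjMatrix ℝ).mulVec f = θ • f) :
    ∃ Q : Matrix V V ℝ, Proj c Q ∧ (constituent c i).adjMatrix ℝ * Q = θ • Q := by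
  set A : Matrix V V ℝ := (constituent c i).adjMatrix ℝ with hA
  have hAsym : A.transpose = A := SimpleGraph.transpose_adjMatrix ..
  set N : Matrix V V ℝ := A - θ • 1 with hN
  have hNsym : N.transpose = N := by
    rw [hN, transpose_sub, hAsym, transpose_smul, transpose_one]
  obtain ⟨q, hq1, hq2⟩ := exists_proj hNsym
  set Q : Matrix V V ℝ := aeval N q with hQ
  have hQsym : Q.transpose = Q := aeval_transpose hNsym q
  have hNmem : N ∈ alg hc := (alg hc).sub_mem (adj_mem hc i) ((alg hc).smul_mem (one_mem _) θ)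
  have hQmem : Q ∈ alg hc :=
    Algebra.adjoin_le (Set.singleton_subset_iff.2 hNmem) (aeval_mem_adjoin_singleton ℝ N)
  have hAQ : A * Q = θ • Q := by
    have : N * Q = 0 := hq1
    rw [hN, sub_mul, smul_mul_assoc, one_mul, sub_eq_zero] at this
    exact this
  have hQQ : Q * Q = Q := by
    ext u w
    have h1 : N.mulVec (fun x => Q x w) = 0 := by
      have h2 : N.mulVec (fun x => Q x w) = fun x => (N * Q) x w := by
        ext x; rfl
      rw [h2, hq1]; rfl
    have h3 := congrFun (hq2 _ h1) u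
    rw [Matrix.mul_apply]
    exact h3
  have hQf : Q.mulVec f = f := by
    apply hq2
    rw [hN, sub_mulVec, hev, smul_mulVec, one_mulVec, sub_self]
  exact ⟨Q, ⟨fun u v u' v' h => hQmem u v u' v' h, hQsym, hQQ, ⟨f, hf, hf0, hQf⟩⟩, hAQ⟩

open Classical in
/-- The entries of the projection on the colour itself. -/
theorem Proj.entry {Q : Matrix V V ℝ} (hQ : Proj c Q) {x y : V} {θ : ℝ}
    (hAQ : (constituent c (c x y)).adjMatrix ℝ * Q = θ • Q) (v : V) :
    (deg (constituent c (c x y)) v : ℝ) * Q x y = θ * Q v v := by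
  have h1 : ((constituent c (c x y)).adjMatrix ℝ * Q) v v = θ * Q v v := by
    rw [hAQ]; rfl
  rw [← h1, Matrix.mul_apply]
  have h2 : ∀ w, (constituent c (c x y)).adjMatrix ℝ v w * Q w v
      = if (constituent c (c x y)).Adj v w then Q x y else 0 := by
    intro w
    rw [SimpleGraph.adjMatrix_apply]
    split_ifs with h
    · rw [one_mul]
      rw [constituent, SimpleGraph.fromRel_adj] at h
      rcases h.2 with h3 | h3
      · rw [hQ.symm w v]; exact hQ.mem _ _ _ _ h3
      · exact hQ.mem _ _ _ _ h3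
    · rw [zero_mul]
  rw [Finset.sum_congr rfl (fun w _ => h2 w), ← Finset.sum_filter, Finset.sum_const, nsmul_eq_mul]
  congr 2
  rw [deg, Set.ncard_eq_toFinset_card']
  congr 1
  ext w; simp

end eigen

end Pool.Agent.Lib.MP_7beb49_co
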