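import Mathlib

/-!
# The maximal inequality for symmetric random walks on a finite set

For a symmetric stochastic matrix `P` and `f ≥ 0`, the number of points `y` where some average
`(1/k) ∑_{s < k} (P^s f)(y)` is larger than `K` is at most `(∑ f) / K` (Hopf's maximal lemma).
-/

set_option autoImplicit false
set_option linter.unusedSectionVars false

namespace Pool.Agent.Lib.MP_7beb49_co.Walk

open Finset Matrix

variable {V : Type} [Fintype V] [DecidableEq V]

/-- Symmetric stochastic matrices. -/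
structure IsWalk (P : Matrix V V ℝ) : Prop where
  nonneg : ∀ x y, 0 ≤ P x y
  symm : ∀ x y, P x y = P y x
  sum : ∀ x, ∑ y, P x y = 1

namespace IsWalk

variable {P : Matrix V V ℝ}

theorem mono (hP : IsWalk P) {f g : V → ℝ} (h : ∀ y, f y ≤ g y) (y : V) :
    (P *ᵥ f) y ≤ (P *ᵥ g) y :=
  Finset.sum_le_sum fun b _ => mul_le_mul_of_nonneg_left (h b) (hP.nonneg y b)

theorem const (hP : IsWalk P) (k : ℝ) : P *ᵥ (fun _ => k) = fun _ => k := by
  ext y
  change ∑ b, P y b * k = k
  rw [← Finset.sum_mul, hP.sum, one_mul]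

theorem nonneg' (hP : IsWalk P) {f : V → ℝ} (h : ∀ y, 0 ≤ f y) (y : V) : 0 ≤ (P *ᵥ f) y :=
  Finset.sum_nonneg fun b _ => mul_nonneg (hP.nonneg y b) (h b)

theorem adj (hP : IsWalk P) (f g : V → ℝ) :
    ∑ y, f y * (P *ᵥ g) y = ∑ y, (P *ᵥ f) y * g y := by
  change ∑ y, f y * ∑ b, P y b * g b = ∑ y, (∑ b, P y b * f b) * g y
  simp only [Finset.mul_sum, Finset.sum_mul]
  rw [Finset.sum_comm]
  refine Finset.sum_congr rfl fun b _ => Finset.sum_congr rfl fun y _ => ?_
  rw [hP.symm y b]
  ring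

theorem sum_mulVec (hP : IsWalk P) (f : V → ℝ) : ∑ y, (P *ᵥ f) y = ∑ y, f y := by
  have h := hP.adj (fun _ => 1) f
  rw [hP.const 1] at h
  simpa using h

end IsWalk

/-- The partial sums of the orbit of `f`. -/
noncomputable def S (P : Matrix V V ℝ) (f : V → ℝ) : ℕ → V → ℝ
  | 0 => fun _ => 0
  | k + 1 => fun y => f y + (P *ᵥ S P f k) y

/-- The maximal function. -/
noncomputable def M (P : Matrix V V ℝ) (f : V → ℝ) (N : ℕ) (y : V) : ℝ :=
  (range (N + 1)).sup' nonempty_range_add_one fun k => S P f k y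

theorem S_le_M {P : Matrix V V ℝ} {f : V → ℝ} {N k : ℕ} (hk : k ≤ N) (y : V) :
    S P f k y ≤ M P f N y :=
  Finset.le_sup' (fun k => S P f k y) (mem_range.2 (Nat.lt_succ_of_le hk))

theorem M_nonneg {P : Matrix V V ℝ} {f : V → ℝ} {N : ℕ} (y : V) : 0 ≤ M P f N y :=
  S_le_M (k := 0) (Nat.zero_le _) y

/-- Hopf's maximal lemma. -/
theorem hopf {P : Matrix V V ℝ} (hP : IsWalk P) (f : V → ℝ) (N : ℕ) :
    0 ≤ ∑ y ∈ univ.filter (fun y => 0 < M P f N y), f y := by
  have h1 : ∀ y, 0 < M P f N y → M P f N y ≤ f y + (P *ᵥ M P f N) y := by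
    intro y hy
    obtain ⟨k, hk, hkM⟩ := Finset.exists_mem_eq_sup' (nonempty_range_add_one (n := N))
      (fun k => S P f k y)
    have hkM' : M P f N y = S P f k y := hkM
    rcases k with _ | k
    · rw [hkM'] at hy
      exact absurd hy (lt_irrefl _)
    · rw [hkM']
      have hk' : k ≤ N := by
        have := mem_range.1 hk
        omega
      change f y + (P *ᵥ S P f k) y ≤ _
      exact add_le_add_right (hP.mono (fun b => S_le_M hk' b) y) (f y)
  have h2 : ∑ y ∈ univ.filter (fun y => 0 < M P f N y), M P f N y = ∑ y, M P f N y := by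
    refine Finset.sum_subset (filter_subset _ _) fun y _ hy => ?_
    have : ¬ 0 < M P f N y := by simpa using hy
    exact le_antisymm (not_lt.1 this) (M_nonneg y)
  have h3 : ∑ y ∈ univ.filter (fun y => 0 < M P f N y), (P *ᵥ M P f N) y ≤
      ∑ y, (P *ᵥ M P f N) y :=
    Finset.sum_le_sum_of_subset_of_nonneg (filter_subset _ _)
      fun y _ _ => hP.nonneg' (fun b => M_nonneg b) y
  rw [hP.sum_mulVec] at h3
  have h4 : ∑ y ∈ univ.filter (fun y => 0 < M P f N y), M P f N y ≤
      ∑ y ∈ univ.filter (fun y => 0 < M P f N y), (f y + (P *ᵥ M P f N) y) :=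
    Finset.sum_le_sum fun y hy => h1 y (mem_filter.1 hy).2
  rw [Finset.sum_add_distrib, h2] at h4
  linarith

theorem S_sub_const {P : Matrix V V ℝ} (hP : IsWalk P) (f : V → ℝ) (K : ℝ) (k : ℕ) (y : V) :
    S P (fun y => f y - K) k y = S P f k y - k * K := by
  induction k generalizing y with
  | zero => simp [S]
  | succ k ih =>
    change f y - K + (P *ᵥ S P (fun y => f y - K) k) y = f y + (P *ᵥ S P f k) y - _
    have h1 : S P (fun y => f y - K) k = S P f k - fun _ => k * K := by
      ext b; exact ih b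
    rw [h1, Matrix.mulVec_sub, hP.const]
    simp only [Pi.sub_apply]
    push_cast
    ring

/-- **Maximal inequality.** -/
theorem maximal {P : Matrix V V ℝ} (hP : IsWalk P) {f : V → ℝ} (hf : ∀ y, 0 ≤ f y) (K : ℝ) :
    K * ({y | ∃ k : ℕ, k * K < S P f k y} : Set V).ncard ≤ ∑ y, f y := by
  classical
  -- one bound for all points
  obtain ⟨N, hN⟩ : ∃ N : ℕ, ∀ y, (∃ k : ℕ, k * K < S P f k y) →
      ∃ k : ℕ, k ≤ N ∧ k * K < S P f k y := by
    choose! g hg using fun (y : V) (h : ∃ k : ℕ, k * K < S P f k y) => h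
    refine ⟨univ.sup g, fun y hy => ⟨g y, Finset.le_sup (mem_univ y), hg y hy⟩⟩
  set F : V → ℝ := fun y => f y - K
  have h1 := hopf hP F N
  have h2 : ({y | ∃ k : ℕ, k * K < S P f k y} : Set V) =
      (univ.filter (fun y => 0 < M P F N y) : Finset V) := by
    ext y
    simp only [Set.mem_ofPred_eq, coe_filter, mem_univ, true_and]
    constructor
    · intro h
      obtain ⟨k, hk, hlt⟩ := hN y h
      refine lt_of_lt_of_le ?_ (S_le_M hk y)
      rw [S_sub_const hP]
      linarith
    · intro h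
      obtain ⟨k, hk, hkM⟩ := Finset.exists_mem_eq_sup' (nonempty_range_add_one (n := N))
        (fun k => S P F k y)
      have hkM' : M P F N y = S P F k y := hkM
      rw [hkM', S_sub_const hP] at h
      exact ⟨k, by linarith⟩
  rw [h2, Set.ncard_coe_finset]
  have h3 : ∑ y ∈ univ.filter (fun y => 0 < M P F N y), F y =
      ∑ y ∈ univ.filter (fun y => 0 < M P F N y), f y -
        K * (univ.filter (fun y => 0 < M P F N y)).card := by
    simp only [F]
    rw [Finset.sum_sub_distrib, Finset.sum_const, nsmul_eq_mul]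
    ring
  have h4 : ∑ y ∈ univ.filter (fun y => 0 < M P F N y), f y ≤ ∑ y, f y :=
    Finset.sum_le_sum_of_subset_of_nonneg (filter_subset _ _) fun y _ _ => hf y
  linarith

end Pool.Agent.Lib.MP_7beb49_co.Walk
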