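import Pool.Agent.Lib.MP_7beb49_co.Band

/-!
# One step of the walk on the band

Let `H` be the matrix of `Band.exists_band` for the level `t = α d`, `Q = H * H`, `π` the diagonal
entry of `Q`. If few vertices are adjacent to exactly one of `a`, `b` then the columns `a` and `b`
of `Q` are near: `2 (Q a a - Q a b) ≤ 600 K² (1 - α) / α² * π`.
-/

set_option autoImplicit false
set_option linter.unusedSectionVars false

namespace Pool.Agent.Lib.MP_7beb49_co.Band

open Finset Matrix Walk LogRank

variable {V κ : Type} [Fintype V] [DecidableEq V] {c : V → V → κ}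

/-- The value of `H` on the colour of the constituent. -/
theorem band_value (hc : IsPCC c) {H : Matrix V V ℝ} (hHm : H ∈ alg hc) (hHs : H.transpose = H)
    (hQ : Proj c (H * H)) {x y : V} (hxy : x ≠ y) {α : ℝ}
    (htr : α * deg (constituent c (c x y)) x * (H * H).trace ≤ (adjR c (c x y) * H).trace)
    {u z : V} (h : (constituent c (c x y)).Adj u z) :
    α * (H * H) u u ≤ H u z := by
  set d : ℝ := (deg (constituent c (c x y)) x : ℝ) with hd
  have hdpos : 0 < d := by
    have := deg_pos hc hxy x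
    rw [hd]; exact_mod_cast this
  set n : ℝ := (Fintype.card V : ℝ) with hn
  have hn0 : 0 < n := by
    have : 0 < Fintype.card V := Fintype.card_pos_iff.2 ⟨x⟩
    rw [hn]; exact_mod_cast this
  have h1 : (H * H).trace = n * (H * H) u u := by
    rw [Matrix.trace]
    have : ∀ w, (H * H).diag w = (H * H) u u := fun w => hQ.diag hc w u
    rw [Finset.sum_congr rfl fun w _ => this w, Finset.sum_const, nsmul_eq_mul, Finset.card_univ]
  have h2 : (adjR c (c x y) * H).trace = n * (d * H u z) := by
    rw [Matrix.trace]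
    have : ∀ w, (adjR c (c x y) * H).diag w = d * H u z := by
      intro w
      rw [Matrix.diag_apply, Matrix.mul_apply, edge_eq hc hHm hHs h, hd, deg_eq hc _ x w,
        ← adjR_sum, Finset.sum_mul]
      refine Finset.sum_congr rfl fun v _ => ?_
      by_cases hw : (constituent c (c x y)).Adj w v
      · have h3 : H v w = H w v := by
          conv_lhs => rw [← hHs]
          rfl
        rw [h3, edge_eq hc hHm hHs hw]
      · have h2 : adjR c (c x y) w v = 0 := by
          unfold adjR
          rw [if_neg hw]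
        rw [h2, zero_mul, zero_mul]
    rw [Finset.sum_congr rfl fun w _ => this w, Finset.sum_const, nsmul_eq_mul, Finset.card_univ]
  rw [h1, h2] at htr
  have h3 : n * d * (α * (H * H) u u) ≤ n * d * H u z := by
    calc n * d * (α * (H * H) u u) = α * d * (n * (H * H) u u) := by ring
      _ ≤ n * (d * H u z) := htr
      _ = _ := by ring
  exact le_of_mul_le_mul_left h3 (by positivity)

/-- **One step is short in the band.** -/
theorem jzero (hc : IsPCC c) {H : Matrix V V ℝ} (hHm : H ∈ alg hc) (hHs : H.transpose = H)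
    (hQ : Proj c (H * H)) (hHHH : H * H * H = H) {x y : V} (hxy : x ≠ y) {α K : ℝ}
    (hα : 0 < α) (hα1 : α < 1) (hK : 0 ≤ K) (hKα : 8 * K ≤ α)
    (hband : ∀ g : V → ℝ, α * deg (constituent c (c x y)) x * (g ⬝ᵥ ((H * H) *ᵥ g)) ≤
      g ⬝ᵥ ((adjR c (c x y) * H) *ᵥ g))
    (htr : α * deg (constituent c (c x y)) x * (H * H).trace ≤ (adjR c (c x y) * H).trace)
    (a b : V) (hdiff : diffN c (c x y) a b ≤ 8 * K * deg (constituent c (c x y)) x) :
    2 * ((H * H) a a - (H * H) a b) ≤ 600 * K ^ 2 * (1 - α) / α ^ 2 * (H * H) a a := by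
  set d : ℝ := (deg (constituent c (c x y)) x : ℝ) with hd
  have hdpos : 0 < d := by
    have := deg_pos hc hxy x
    rw [hd]; exact_mod_cast this
  set D := diffN c (c x y) a b with hD
  have hD0 : 0 ≤ D := Finset.sum_nonneg fun z _ => abs_nonneg _
  set π₀ := (H * H) a a with hπ
  have hpos : 0 < π₀ := hQ.pos hc a
  set F := 2 * (π₀ - (H * H) a b) with hF
  have hbb : (H * H) b b = π₀ := hQ.diag hc b a
  have hHsym : ∀ u v, H u v = H v u := by
    intro u v
    conv_lhs => rw [← hHs]
    rfl
  -- scalar products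
  have s1 : ∀ u v, ∑ w, H u w * H v w = (H * H) u v := by
    intro u v
    rw [Matrix.mul_apply]
    exact Finset.sum_congr rfl fun w _ => by rw [hHsym v w]
  have s2 : ∀ u v, ∑ w, H u w * (H * H) v w = H u v := by
    intro u v
    have h1 : (H * (H * H)) u v = H u v := by
      rw [← Matrix.mul_assoc, hHHH]
    rw [← h1, Matrix.mul_apply]
    exact Finset.sum_congr rfl fun w _ => by rw [hQ.symm v w]
  have s3 : ∀ u v, ∑ w, (H * H) u w * (H * H) v w = (H * H) u v := fun u v => hQ.norm' u v
  have hFsum : ∑ w, ((H * H) a w - (H * H) b w) ^ 2 = F := by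
    have h2 : ∑ w, ((H * H) a w - (H * H) b w) ^ 2 = (H * H) a a - 2 * (H * H) a b + (H * H) b b := by
      rw [← s3 a a, ← s3 a b, ← s3 b b, Finset.mul_sum,
        ← Finset.sum_sub_distrib, ← Finset.sum_add_distrib]
      exact Finset.sum_congr rfl fun w _ => by ring
    rw [h2, hbb]
    ring
  have hF0 : 0 ≤ F := by
    rw [← hFsum]
    exact Finset.sum_nonneg fun w _ => sq_nonneg _
  set m := Real.sqrt (2 * (1 - α) * π₀ * F) with hm
  have h1α : 0 < 1 - α := by linarith
  have hm0 : 0 ≤ m := Real.sqrt_nonneg _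
  have hm2 : m ^ 2 = 2 * (1 - α) * π₀ * F := Real.sq_sqrt (by positivity)
  -- neighbours
  have hnear : ∀ u z, (constituent c (c x y)).Adj u z →
      ∑ w, (H z w - (H * H) u w) ^ 2 ≤ 2 * (1 - α) * π₀ := by
    intro u z h
    have h2 : ∑ w, (H z w - (H * H) u w) ^ 2 = (H * H) z z - 2 * H z u + (H * H) u u := by
      rw [← s1 z z, ← s2 z u, ← s3 u u, Finset.mul_sum,
        ← Finset.sum_sub_distrib, ← Finset.sum_add_distrib]
      exact Finset.sum_congr rfl fun w _ => by ring
    have h3 := band_value hc hHm hHs hQ hxy htr h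
    have h4 : (H * H) z z = π₀ := hQ.diag hc z a
    have h5 : (H * H) u u = π₀ := hQ.diag hc u a
    rw [h5] at h3
    rw [h2, h4, h5, hHsym z u]
    linarith
  have hcs : ∀ u z, (constituent c (c x y)).Adj u z →
      abs (∑ w, (H z w - (H * H) u w) * ((H * H) a w - (H * H) b w)) ≤ m := by
    intro u z h
    refine abs_le_of_sq_le_sq ?_ hm0
    have h2 := Finset.sum_mul_sq_le_sq_mul_sq Finset.univ (fun w => H z w - (H * H) u w)
      (fun w => (H * H) a w - (H * H) b w)
    rw [hFsum] at h2
    rw [hm2]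
    exact h2.trans (mul_le_mul_of_nonneg_right (hnear u z h) hF0)
  have hexp : ∀ u z, ∑ w, (H z w - (H * H) u w) * ((H * H) a w - (H * H) b w) =
      H z a - H z b - ((H * H) u a - (H * H) u b) := by
    intro u z
    rw [← s2 z a, ← s2 z b, ← s3 u a, ← s3 u b, ← Finset.sum_sub_distrib,
      ← Finset.sum_sub_distrib, ← Finset.sum_sub_distrib]
    exact Finset.sum_congr rfl fun w _ => by ring
  -- the estimate of one term
  have hterm : ∀ z, (adjR c (c x y) a z - adjR c (c x y) b z) * (H z a - H z b) ≤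
      |adjR c (c x y) a z - adjR c (c x y) b z| * (m + F / 2) := by
    intro z
    by_cases ha : (constituent c (c x y)).Adj a z
    · have ha1 : adjR c (c x y) a z = 1 := by unfold adjR; rw [if_pos ha]
      by_cases hb : (constituent c (c x y)).Adj b z
      · have hb1 : adjR c (c x y) b z = 1 := by unfold adjR; rw [if_pos hb]
        rw [ha1, hb1]
        simp
      · have hb1 : adjR c (c x y) b z = 0 := by unfold adjR; rw [if_neg hb]
        rw [ha1, hb1, sub_zero, abs_one, one_mul, one_mul]
        have h1 := hcs a z ha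
        rw [hexp] at h1
        have h2 := (abs_le.1 h1).2
        rw [hF]
        linarith
    · have ha1 : adjR c (c x y) a z = 0 := by unfold adjR; rw [if_neg ha]
      by_cases hb : (constituent c (c x y)).Adj b z
      · have hb1 : adjR c (c x y) b z = 1 := by unfold adjR; rw [if_pos hb]
        rw [ha1, hb1, zero_sub, abs_neg, abs_one, one_mul]
        have h1 := hcs b z hb
        rw [hexp, hQ.symm b a, hbb] at h1
        have h2 := (abs_le.1 h1).1
        rw [hF]
        linarith
      · have hb1 : adjR c (c x y) b z = 0 := by unfold adjR; rw [if_neg hb]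
        rw [ha1, hb1]
        simp
  have hmain : α * d * F ≤ D * (m + F / 2) := by
    have h1 := hband (Pi.single a 1 - Pi.single b 1)
    have h2 : ∀ M : Matrix V V ℝ, (Pi.single a 1 - Pi.single b 1 : V → ℝ) ⬝ᵥ
        (M *ᵥ (Pi.single a 1 - Pi.single b 1)) = M a a - M a b - (M b a - M b b) := by
      intro M
      rw [mulVec_sub, sub_dotProduct, dotProduct_sub, dotProduct_sub]
      simp
    rw [h2, h2] at h1
    have h3 : (H * H) a a - (H * H) a b - ((H * H) b a - (H * H) b b) = F := by
      rw [hQ.symm b a, hbb, hF]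
      ring
    rw [h3] at h1
    refine h1.trans ?_
    have h4 : (adjR c (c x y) * H) a a - (adjR c (c x y) * H) a b -
        ((adjR c (c x y) * H) b a - (adjR c (c x y) * H) b b) =
        ∑ z, (adjR c (c x y) a z - adjR c (c x y) b z) * (H z a - H z b) := by
      rw [Matrix.mul_apply, Matrix.mul_apply, Matrix.mul_apply, Matrix.mul_apply,
        ← Finset.sum_sub_distrib, ← Finset.sum_sub_distrib, ← Finset.sum_sub_distrib]
      exact Finset.sum_congr rfl fun z _ => by ring
    rw [h4, hD, diffN, Finset.sum_mul]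
    exact Finset.sum_le_sum fun z _ => hterm z
  have hDα : D ≤ α * d := by
    refine hdiff.trans ?_
    exact mul_le_mul_of_nonneg_right hKα hdpos.le
  have h2 : α * d / 2 * F ≤ D * m := by
    nlinarith
  have h3 : (α * d / 2 * F) ^ 2 ≤ (D * m) ^ 2 := pow_le_pow_left₀ (by positivity) h2 2
  have h4 : α ^ 2 * d ^ 2 * F ≤ 8 * (1 - α) * π₀ * D ^ 2 := by
    rcases hF0.lt_or_eq with hFp | hFe
    · have h5 : α ^ 2 * d ^ 2 * F * F ≤ 8 * (1 - α) * π₀ * D ^ 2 * F := by
        rw [mul_pow D m, hm2] at h3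
        have h6 : (α * d / 2 * F) ^ 2 = α ^ 2 * d ^ 2 * F * F / 4 := by
          ring
        rw [h6] at h3
        linarith
      exact le_of_mul_le_mul_right h5 hFp
    · rw [← hFe, mul_zero]
      positivity
  have h5 : D ^ 2 ≤ (8 * K * d) ^ 2 := pow_le_pow_left₀ hD0 hdiff 2
  have h6 : α ^ 2 * d ^ 2 * F ≤ 8 * (1 - α) * π₀ * (8 * K * d) ^ 2 :=
    h4.trans (mul_le_mul_of_nonneg_left h5 (by positivity))
  have h7 : F * α ^ 2 ≤ 600 * K ^ 2 * (1 - α) * π₀ := by
    have h8 : d ^ 2 * (F * α ^ 2) ≤ d ^ 2 * (600 * K ^ 2 * (1 - α) * π₀) := by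
      have h9 : 0 ≤ d ^ 2 * (K ^ 2 * (1 - α) * π₀) := by positivity
      calc d ^ 2 * (F * α ^ 2) = α ^ 2 * d ^ 2 * F := by ring
        _ ≤ 8 * (1 - α) * π₀ * (8 * K * d) ^ 2 := h6
        _ = 512 * (d ^ 2 * (K ^ 2 * (1 - α) * π₀)) := by ring
        _ ≤ 600 * (d ^ 2 * (K ^ 2 * (1 - α) * π₀)) := by linarith
        _ = _ := by ring
    exact le_of_mul_le_mul_left h8 (by positivity)
  have h8 : 600 * K ^ 2 * (1 - α) / α ^ 2 * π₀ = 600 * K ^ 2 * (1 - α) * π₀ / α ^ 2 := by ring
  rw [h8, le_div_iff₀ (by positivity)]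
  exact h7

end Pool.Agent.Lib.MP_7beb49_co.Band
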