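import Pool.Agent.Lib.MP_7beb49_co.Growth

/-!
# Multipliers for configurations with two commuting transitive groups of automorphisms

Schur's theorem on multipliers, for primitive coherent configurations invariant under two
elementwise commuting transitive groups of automorphisms (for instance translation schemes).
-/

set_option autoImplicit false

namespace Pool.Agent.Lib.MP_7beb49_co

open Finset

variable {V κ : Type} [Fintype V] {c : V → V → κ}

/-- Pairs of the same colour see the configuration in the same way. -/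
theorem exists_equiv (hc : IsPCC c) {u v u' v' : V} (h : c u v = c u' v') :
    ∃ σ : V ≃ V, ∀ w, c u' (σ w) = c u w ∧ c (σ w) v' = c w v := by
  classical
  have h1 : ∀ p : κ × κ, Nonempty ({w // (c u w, c w v) = p} ≃ {w // (c u' w, c w v') = p}) := by
    rintro ⟨i, j⟩
    have key := hc.coherent u v u' v' h i j
    refine Finite.card_eq.1 ?_
    have h2 : ∀ a b : V, Nat.card {w // (c a w, c w b) = (i, j)} =
        {w | c a w = i ∧ c w b = j}.ncard := by
      intro a b
      rw [← Nat.card_coe_set_eq]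
      apply Nat.card_congr
      refine Equiv.subtypeEquivRight ?_
      intro w
      simp
    rw [h2, h2, key]
  let e : ∀ p : κ × κ, {w // (c u w, c w v) = p} ≃ {w // (c u' w, c w v') = p} :=
    fun p => (h1 p).some
  refine ⟨(Equiv.sigmaFiberEquiv (fun w => (c u w, c w v))).symm.trans
    ((Equiv.sigmaCongrRight e).trans (Equiv.sigmaFiberEquiv (fun w => (c u' w, c w v')))), ?_⟩
  intro w
  have h3 := (e (c u w, c w v) ⟨w, rfl⟩).2
  rw [Prod.mk.injEq] at h3
  exact h3

/-- Matrices whose entries depend only on the colour. -/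
def IsCol {K : Type} (c : V → V → κ) (F : Matrix V V K) : Prop :=
  ∀ x y x' y', c x y = c x' y' → F x y = F x' y'

theorem IsCol.mul {K : Type} [CommRing K] (hc : IsPCC c) {F H : Matrix V V K}
    (hF : IsCol c F) (hH : IsCol c H) : IsCol c (F * H) := by
  intro x y x' y' h
  obtain ⟨σ, hσ⟩ := exists_equiv hc h
  rw [Matrix.mul_apply, Matrix.mul_apply]
  refine Fintype.sum_equiv σ _ _ ?_
  intro w
  rw [hF x w x' (σ w) (hσ w).1.symm, hH w y (σ w) y' (hσ w).2.symm]

theorem IsCol.one {K : Type} [CommRing K] [DecidableEq V] (hc : IsPCC c) :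
    IsCol c (1 : Matrix V V K) := by
  intro x y x' y' h
  by_cases hxy : x = y
  · subst hxy
    by_cases hxy' : x' = y'
    · subst hxy'; simp
    · exact absurd h (hc.diag_ne _ _ _ hxy')
  · by_cases hxy' : x' = y'
    · subst hxy'
      exact absurd h.symm (hc.diag_ne _ _ _ hxy)
    · rw [Matrix.one_apply_ne hxy, Matrix.one_apply_ne hxy']

theorem IsCol.pow {K : Type} [CommRing K] [DecidableEq V] (hc : IsPCC c) {F : Matrix V V K}
    (hF : IsCol c F) (k : ℕ) : IsCol c (F ^ k) := by
  induction k with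
  | zero => rw [pow_zero]; exact IsCol.one hc
  | succ k ih => rw [pow_succ]; exact ih.mul hc hF

theorem IsCol.transpose {K : Type} (hc : IsPCC c) {F : Matrix V V K} (hF : IsCol c F) :
    IsCol c F.transpose := by
  intro x y x' y' h
  exact hF y x y' x' (hc.conv _ _ _ _ h)

/-- The configuration is invariant under two transitive groups of automorphisms commuting with
each other. -/
structure TwoSided (c : V → V → κ) (L R : Subgroup (Equiv.Perm V)) : Prop where
  autL : ∀ a ∈ L, ∀ x y, c (a x) (a y) = c x y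
  autR : ∀ b ∈ R, ∀ x y, c (b x) (b y) = c x y
  transL : ∀ x y, ∃ a ∈ L, a x = y
  transR : ∀ x y, ∃ b ∈ R, b x = y
  comm : ∀ a ∈ L, ∀ b ∈ R, a * b = b * a

namespace TwoSided

variable {L R : Subgroup (Equiv.Perm V)}

omit [Fintype V] in
theorem unif (h : TwoSided c L R) {b : Equiv.Perm V} (hb : b ∈ R) (x y : V) :
    c x (b x) = c y (b y) := by
  obtain ⟨a, ha, rfl⟩ := h.transL x y
  have h1 : b (a x) = a (b x) := by
    have := congrArg (fun g : Equiv.Perm V => g x) (h.comm a ha b hb)
    exact this.symm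
  rw [h1, h.autL a ha]

omit [Fintype V] in
theorem free (h : TwoSided c L R) {b : Equiv.Perm V} (hb : b ∈ R) {x : V} (hx : b x = x) :
    b = 1 := by
  ext y
  obtain ⟨a, ha, rfl⟩ := h.transL x y
  have h1 : b (a x) = a (b x) := by
    have := congrArg (fun g : Equiv.Perm V => g x) (h.comm a ha b hb)
    exact this.symm
  rw [h1, hx]; rfl

/-- The orbit map of a point. -/
noncomputable def orb (h : TwoSided c L R) (x : V) : R ≃ V :=
  Equiv.ofBijective (fun b => b.1 x) ⟨by
    intro b b' hbb
    have h1 : (b.1⁻¹ * b'.1) x = x := by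
      change b.1⁻¹ (b'.1 x) = x
      have h2 : b.1 x = b'.1 x := hbb
      rw [← h2]; simp
    have h3 := h.free (R.mul_mem (R.inv_mem b.2) b'.2) h1
    apply Subtype.ext
    exact (inv_mul_eq_one.1 h3), by
    intro y
    obtain ⟨b, hb, hy⟩ := h.transR x y
    exact ⟨⟨b, hb⟩, hy⟩⟩

omit [Fintype V] in
@[simp] theorem orb_apply (h : TwoSided c L R) (x : V) (b : R) : h.orb x b = b.1 x := rfl

theorem card (h : TwoSided c L R) [Nonempty V] : Nat.card R = Fintype.card V := by
  obtain ⟨x⟩ := ‹Nonempty V›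
  rw [← Nat.card_eq_fintype_card]
  exact Nat.card_congr (h.orb x)

theorem pow_card (h : TwoSided c L R) [Nonempty V] {b : Equiv.Perm V} (hb : b ∈ R) :
    b ^ Fintype.card V = 1 := by
  have h1 : (⟨b, hb⟩ : R) ^ Nat.card R = 1 := pow_card_eq_one'
  rw [h.card] at h1
  have := congrArg (Subtype.val) h1
  simpa using this

/-- The sum over the vertices as a sum over the group. -/
theorem sum_orb (h : TwoSided c L R) {K : Type} [AddCommMonoid K] [Fintype R] (x : V)
    (F : V → K) : ∑ b : R, F (b.1 x) = ∑ y, F y :=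
  Fintype.sum_equiv (h.orb x) _ _ (fun _ => rfl)

/-- The algebra is commutative. -/
theorem comm_mul (h : TwoSided c L R) {K : Type} [CommRing K] {F H : Matrix V V K}
    (hF : IsCol c F) (hH : IsCol c H) : F * H = H * F := by
  classical
  ext x y
  obtain ⟨b, hb, rfl⟩ := h.transR x y
  rw [Matrix.mul_apply, Matrix.mul_apply, ← h.sum_orb x, ← h.sum_orb x]
  have key : ∀ a : R, F x (a.1 x) * H (a.1 x) (b x) =
      F x (a.1 x) * H x ((b * a.1⁻¹) x) := by
    intro a
    congr 1
    apply hH
    have h1 := h.unif (R.mul_mem hb (R.inv_mem a.2)) (a.1 x) x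
    rw [← h1]
    congr 1
    simp
  rw [Finset.sum_congr rfl (fun a _ => key a)]
  let φ : R ≃ R := (Equiv.inv R).trans (Equiv.mulLeft ⟨b, hb⟩)
  refine Fintype.sum_equiv φ _ _ ?_
  intro a
  have h2 : (φ a).1 = b * a.1⁻¹ := rfl
  rw [h2, mul_comm]
  congr 1
  apply hF
  have h3 := h.autR _ (R.mul_mem hb (R.inv_mem a.2)) x (a.1 x)
  rw [← h3]
  congr 1
  simp

/-- Powers of a permuted matrix. -/
theorem submatrix_pow (h : TwoSided c L R) {K : Type} [CommRing K] [DecidableEq V]
    (hc : IsPCC c) {F : Matrix V V K}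
    (hF : IsCol c F) {b : Equiv.Perm V} (hb : b ∈ R) (k : ℕ) :
    (F.submatrix (b⁻¹ : Equiv.Perm V) id) ^ k = (F ^ k).submatrix ((b ^ k)⁻¹ : Equiv.Perm V) id := by
  induction k with
  | zero => simp
  | succ k ih =>
    rw [pow_succ, ih, pow_succ F]
    ext x y
    rw [Matrix.mul_apply, Matrix.submatrix_apply, Matrix.mul_apply]
    refine (Fintype.sum_equiv b _ _ ?_).symm
    intro z
    rw [Matrix.submatrix_apply, Matrix.submatrix_apply]
    have h1 : (b⁻¹ : Equiv.Perm V) (b z) = z := by simp
    rw [h1]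
    congr 1
    apply hF.pow hc k
    have h2 := h.autR b hb (((b ^ (k + 1))⁻¹ : Equiv.Perm V) x) z
    rw [← h2]
    congr 1
    have h3 : b * (b ^ (k + 1))⁻¹ = (b ^ k)⁻¹ := by
      rw [pow_succ]; group
    rw [← h3]; rfl

/-- The Frobenius map on the adjacency algebra. -/
theorem frobenius (h : TwoSided c L R) (hc : IsPCC c) {p : ℕ} [Fact p.Prime]
    (hp : ¬ p ∣ Fintype.card V) [DecidableEq V] {F : Matrix V V (ZMod p)}
    (hF : IsCol c F) {b : Equiv.Perm V} (hb : b ∈ R) (x : V) :
    (F ^ p) x ((b ^ p) x) = F x (b x) := by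
  have htr : ∀ (G : Matrix V V (ZMod p)), IsCol c G → ∀ g ∈ R,
      Matrix.trace (G.submatrix (g⁻¹ : Equiv.Perm V) id) = (Fintype.card V : ZMod p) * G x (g x) := by
    intro G hG g hg
    rw [Matrix.trace]
    have h1 : ∀ y, (G.submatrix (g⁻¹ : Equiv.Perm V) id).diag y = G x (g x) := by
      intro y
      rw [Matrix.diag_apply, Matrix.submatrix_apply]
      apply hG
      have h2 := h.unif hg (((g⁻¹ : Equiv.Perm V)) y) x
      rw [← h2]
      congr 1
      simp
    rw [Finset.sum_congr rfl (fun y _ => h1 y), Finset.sum_const, nsmul_eq_mul, Finset.card_univ]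
  have hn : (Fintype.card V : ZMod p) ≠ 0 := by
    rw [Ne, ZMod.natCast_eq_zero_iff]; exact hp
  have h3 := ZMod.trace_pow_card (F.submatrix (b⁻¹ : Equiv.Perm V) id)
  rw [h.submatrix_pow hc hF hb, htr _ (hF.pow hc p) _ (R.pow_mem hb p), htr _ hF _ hb,
    ZMod.pow_card] at h3
  exact mul_left_cancel₀ hn h3

/-- The colour of the `p`-th power determines the colour. -/
theorem colour_of_pow (h : TwoSided c L R) (hc : IsPCC c) {p : ℕ} (hpp : p.Prime)
    (hp : ¬ p ∣ Fintype.card V) {b b' : Equiv.Perm V} (hb : b ∈ R) (hb' : b' ∈ R) (x : V)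
    (hcol : c x ((b ^ p) x) = c x ((b' ^ p) x)) : c x (b x) = c x (b' x) := by
  classical
  have : Fact p.Prime := ⟨hpp⟩
  let A : Matrix V V (ZMod p) := fun y z => if c y z = c x (b x) then 1 else 0
  have hA : IsCol c A := by
    intro y z y' z' hh
    simp only [A, hh]
  have h1 := h.frobenius hc hp hA hb x
  have h2 := h.frobenius hc hp hA hb' x
  have h3 : (A ^ p) x ((b ^ p) x) = (A ^ p) x ((b' ^ p) x) := hA.pow hc p _ _ _ _ hcol
  rw [h1, h2] at h3
  have h4 : A x (b x) = 1 := by simp [A]
  rw [h4] at h3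
  by_contra hne
  have h5 : A x (b' x) = 0 := by
    simp only [A]
    rw [if_neg (fun hh => hne hh.symm)]
  rw [h5] at h3
  exact one_ne_zero h3

/-- Powers as a permutation of the vertices. -/
theorem exists_powMap (h : TwoSided c L R) [Nonempty V] {k : ℕ}
    (hk : Nat.Coprime (Fintype.card V) k) (x : V) :
    ∃ ψ : V ≃ V, ∀ b ∈ R, ψ (b x) = (b ^ k) x := by
  have hk' : (Nat.card R).Coprime k := by rw [h.card]; exact hk
  refine ⟨(h.orb x).symm.trans ((powCoprime hk').trans (h.orb x)), ?_⟩
  intro b hb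
  have h1 : (h.orb x).symm (b x) = ⟨b, hb⟩ := by
    rw [Equiv.symm_apply_eq]; rfl
  rw [Equiv.trans_apply, Equiv.trans_apply, h1]
  rfl

/-- **Schur's theorem on multipliers.** -/
theorem colour_pow (h : TwoSided c L R) (hc : IsPCC c) {p : ℕ} (hpp : p.Prime)
    (hp : ¬ p ∣ Fintype.card V) {b b' : Equiv.Perm V} (hb : b ∈ R) (hb' : b' ∈ R) (x : V) :
    c x ((b ^ p) x) = c x ((b' ^ p) x) ↔ c x (b x) = c x (b' x) := by
  classical
  constructor
  · exact h.colour_of_pow hc hpp hp hb hb' x
  have : Nonempty V := ⟨x⟩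
  have hk : Nat.Coprime (Fintype.card V) p := ((Nat.Prime.coprime_iff_not_dvd hpp).2 hp).symm
  obtain ⟨ψ, hψ⟩ := h.exists_powMap hk x
  set S : Finset (V × V) := univ.filter (fun q => c x q.1 = c x q.2) with hS
  set T : Finset (V × V) := univ.filter (fun q => c x (ψ q.1) = c x (ψ q.2)) with hT
  have hTS : T ⊆ S := by
    rintro ⟨y, z⟩ hq
    rw [hT, Finset.mem_filter] at hq
    rw [hS, Finset.mem_filter]
    refine ⟨Finset.mem_univ _, ?_⟩
    obtain ⟨g, hg, rfl⟩ := h.transR x y
    obtain ⟨g', hg', rfl⟩ := h.transR x z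
    have h1 := hq.2
    simp only [hψ g hg, hψ g' hg'] at h1
    exact h.colour_of_pow hc hpp hp hg hg' x h1
  have hcard : T.card = S.card := by
    refine Finset.card_bij (fun q _ => (ψ q.1, ψ q.2)) ?_ ?_ ?_
    · rintro ⟨y, z⟩ hq
      rw [hT, Finset.mem_filter] at hq
      rw [hS, Finset.mem_filter]
      exact ⟨Finset.mem_univ _, hq.2⟩
    · rintro ⟨y, z⟩ _ ⟨y', z'⟩ _ he
      simpa using he
    · rintro ⟨y, z⟩ hq
      refine ⟨(ψ.symm y, ψ.symm z), ?_, by simp⟩
      rw [hS, Finset.mem_filter] at hq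
      rw [hT, Finset.mem_filter]
      refine ⟨Finset.mem_univ _, ?_⟩
      simpa using hq.2
  have hTS' : T = S := Finset.eq_of_subset_of_card_le hTS hcard.ge
  intro hcol
  have h2 : (b x, b' x) ∈ S := by
    rw [hS, Finset.mem_filter]; exact ⟨Finset.mem_univ _, hcol⟩
  rw [← hTS', hT, Finset.mem_filter] at h2
  simpa only [hψ b hb, hψ b' hb'] using h2.2

/-- The number of vertices that do not distinguish a pair. -/
noncomputable def agree (c : V → V → κ) (x y : V) : ℕ := {w | c w x = c w y}.ncard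

/-- Powers preserve the number of distinguishing vertices. -/
theorem agree_pow (h : TwoSided c L R) (hc : IsPCC c) {p : ℕ} (hpp : p.Prime)
    (hp : Fintype.card V < p) {b : Equiv.Perm V} (hb : b ∈ R) (x : V) :
    agree c x ((b ^ p) x) = agree c x (b x) := by
  classical
  have : Fact p.Prime := ⟨hpp⟩
  have : Nonempty V := ⟨x⟩
  have hcardpos : 0 < Fintype.card V := Fintype.card_pos
  have hpd : ¬ p ∣ Fintype.card V := fun hd => absurd (Nat.le_of_dvd hcardpos hd) (by omega)
  -- adjacency matrices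
  let A : κ → Matrix V V (ZMod p) := fun i y z => if c y z = i then 1 else 0
  have hA : ∀ i, IsCol c (A i) := by
    intro i y z y' z' hh
    simp only [A, hh]
  have hAp : ∀ i, IsCol c (A i ^ p) := fun i => (hA i).pow hc p
  set I : Finset κ := univ.image (fun y => c x y) with hI
  have hcI : ∀ y z, c y z ∈ I := by
    intro y z
    obtain ⟨g, hg, rfl⟩ := h.transR y z
    rw [h.unif hg y x, hI, Finset.mem_image]
    exact ⟨g x, Finset.mem_univ _, rfl⟩
  -- entries of the `p`-th powers
  have hent : ∀ i, ∀ y, ∀ g ∈ R, (A i ^ p) y ((g ^ p) y) = if c y (g y) = i then 1 else 0 := by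
    intro i y g hg
    exact h.frobenius hc hpd (hA i) hg y
  -- sums over colours
  have hsum1 : ∀ w y z, ∑ i ∈ I, A i w y * A i w z = if c w y = c w z then 1 else 0 := by
    intro w y z
    simp only [A]
    have h1 : ∀ i ∈ I, ((if c w y = i then (1 : ZMod p) else 0) * if c w z = i then 1 else 0) =
        if i = c w y then (if c w z = c w y then 1 else 0) else 0 := by
      intro i _
      by_cases h2 : i = c w y
      · subst h2; simp
      · rw [if_neg (fun hh => h2 hh.symm), if_neg h2, zero_mul]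
    rw [Finset.sum_congr rfl h1, Finset.sum_ite_eq', if_pos (hcI w y)]
    simp only [eq_comm]
  have hroot : ∀ w y, ∃ g ∈ R, (g ^ p) w = y := by
    intro w y
    have hk : Nat.Coprime (Fintype.card V) p := ((Nat.Prime.coprime_iff_not_dvd hpp).2 hpd).symm
    obtain ⟨ψ, hψ⟩ := h.exists_powMap hk w
    obtain ⟨g, hg, hgy⟩ := h.transR w (ψ.symm y)
    refine ⟨g, hg, ?_⟩
    rw [← hψ g hg, hgy, Equiv.apply_symm_apply]
  have hsum2 : ∀ w y z, ∑ i ∈ I, (A i ^ p) w y * (A i ^ p) w z =
      if c w y = c w z then 1 else 0 := by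
    intro w y z
    obtain ⟨g, hg, rfl⟩ := hroot w y
    obtain ⟨g', hg', rfl⟩ := hroot w z
    rw [Finset.sum_congr rfl (fun i _ => by rw [hent i w g hg, hent i w g' hg'])]
    have h3 := hsum1 w (g w) (g' w)
    simp only [A] at h3
    rw [h3]
    simp only [h.colour_pow hc hpp hpd hg hg' w]
  have hagree : ∀ y z, ((agree c y z : ℕ) : ZMod p) = ∑ w, if c w y = c w z then 1 else 0 := by
    intro y z
    rw [agree, Finset.sum_boole, Set.ncard_eq_toFinset_card']
    congr 2
    ext w; simp
  have h4 : ∀ i, (((A i).transpose * A i) ^ p) x ((b ^ p) x) = ((A i).transpose * A i) x (b x) :=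
    fun i => h.frobenius hc hpd (((hA i).transpose hc).mul hc (hA i)) hb x
  have h5 : ∀ i, ((A i).transpose * A i) ^ p = (A i ^ p).transpose * A i ^ p := by
    intro i
    rw [(show Commute (A i).transpose (A i) from
      h.comm_mul ((hA i).transpose hc) (hA i)).mul_pow, Matrix.transpose_pow]
  have h6 : ((agree c x ((b ^ p) x) : ℕ) : ZMod p) = ((agree c x (b x) : ℕ) : ZMod p) := by
    rw [hagree, hagree]
    rw [Finset.sum_congr rfl (fun w _ => (hsum2 w x ((b ^ p) x)).symm),
      Finset.sum_congr rfl (fun w _ => (hsum1 w x (b x)).symm), Finset.sum_comm,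
      Finset.sum_comm (s := univ) (t := I)]
    apply Finset.sum_congr rfl
    intro i _
    have h7 := h4 i
    rw [h5 i, Matrix.mul_apply, Matrix.mul_apply] at h7
    exact h7
  have hle : ∀ y z, agree c y z < p := by
    intro y z
    refine lt_of_le_of_lt ?_ hp
    rw [agree, ← Nat.card_eq_fintype_card, ← Set.ncard_univ]
    exact Set.ncard_le_ncard (Set.subset_univ _) (Set.toFinite _)
  have h8 := (ZMod.natCast_eq_natCast_iff' _ _ _).1 h6
  rwa [Nat.mod_eq_of_lt (hle _ _), Nat.mod_eq_of_lt (hle _ _)] at h8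

end TwoSided

end Pool.Agent.Lib.MP_7beb49_co
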