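import Pool.Agent.Lib.MP_7beb49_co.Steps
import Pool.Agent.Lib.MP_7beb49_co.Multiplier

/-!
# Slow constituents of large valency are rare

The main inequality: if `D` is the minimal number of distinguishing vertices, then for all
`α, κ > 0` all but `κ n` vertices `w` have a colour `c (v, w)` whose constituent satisfies
`ξ ≤ α deg` or has valency at most `n exp (-κ α² n / (12 D))`.
-/

set_option autoImplicit false
set_option linter.unusedSectionVars false

namespace Pool.Agent.Lib.MP_7beb49_co.LogRank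

open Finset Matrix Walk Filter Topology

variable {V κ : Type} [Fintype V] [DecidableEq V] {c : V → V → κ}

open Classical in
/-- Adjacency in a constituent, as a real number. -/
noncomputable def adjR (c : V → V → κ) (i : κ) : Matrix V V ℝ := fun x y =>
  if (constituent c i).Adj x y then 1 else 0

theorem adjR_nonneg (i : κ) (x y : V) : 0 ≤ adjR c i x y := by
  rw [adjR]; split_ifs <;> norm_num

theorem adjR_le (i : κ) (x y : V) : adjR c i x y ≤ 1 := by
  rw [adjR]; split_ifs <;> norm_num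

theorem adjR_sym (i : κ) (x y : V) : adjR c i x y = adjR c i y x := by
  by_cases h : (constituent c i).Adj x y
  · rw [adjR, adjR, if_pos h, if_pos h.symm]
  · rw [adjR, adjR, if_neg h, if_neg fun h' => h h'.symm]

theorem adjR_sum (i : κ) (x : V) : ∑ y, adjR c i x y = deg (constituent c i) x := by
  classical
  simp only [adjR]
  exact deg_sum _ _

theorem W_apply (i : κ) (x y : V) :
    W c i x y = (deg (constituent c i) x : ℝ)⁻¹ * adjR c i x y := by
  rw [W, adjR]; split_ifs <;> simp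

/-- The number of vertices adjacent to exactly one of `a` and `b`. -/
noncomputable def diffN (c : V → V → κ) (i : κ) (a b : V) : ℝ :=
  ∑ z, |adjR c i a z - adjR c i b z|

theorem entry_abs (hc : IsPCC c) {Q : Matrix V V ℝ} (hQ : Proj c Q) (x z : V) :
    |Q z x| ≤ Q x x := by
  have h1 : Q z x ^ 2 ≤ Q x x ^ 2 := by
    have h2 : Q z x = ∑ w, Q z w * Q x w := (hQ.norm' z x).symm
    have h3 : Q z x ^ 2 ≤ (∑ w, Q z w ^ 2) * ∑ w, Q x w ^ 2 := by
      conv_lhs => rw [h2]
      exact Finset.sum_mul_sq_le_sq_mul_sq _ _ _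
    rw [hQ.sum_sq, hQ.sum_sq, hQ.diag hc z x] at h3
    rwa [sq (Q x x)]
  exact abs_le_of_sq_le_sq h1 (hQ.pos hc x).le

/-- The Lipschitz property, used twice. -/
theorem lip (hc : IsPCC c) {Q : Matrix V V ℝ} (hQ : Proj c Q) {i : κ} {θ : ℝ}
    (hAQ : adjR c i * Q = θ • Q) (a b : V) :
    θ ^ 2 * (2 * (Q a a - Q a b)) ≤ Q a a * diffN c i a b ^ 2 := by
  have hpos := hQ.pos hc a
  have hD0 : 0 ≤ diffN c i a b := Finset.sum_nonneg fun z _ => abs_nonneg _
  have e : ∀ x y, θ * Q x y = ∑ z, adjR c i x z * Q z y := by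
    intro x y
    have : (adjR c i * Q) x y = θ * Q x y := by rw [hAQ]; rfl
    rw [← this, Matrix.mul_apply]
  have h1 : ∀ x, |θ| * |Q a x - Q b x| ≤ diffN c i a b * Q a a := by
    intro x
    have h2 : θ * (Q a x - Q b x) = ∑ z, (adjR c i a z - adjR c i b z) * Q z x := by
      rw [mul_sub, e, e, ← Finset.sum_sub_distrib]
      exact Finset.sum_congr rfl fun z _ => by ring
    rw [← abs_mul, h2, diffN, Finset.sum_mul]
    refine (Finset.abs_sum_le_sum_abs _ _).trans (Finset.sum_le_sum fun z _ => ?_)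
    rw [abs_mul]
    refine mul_le_mul_of_nonneg_left ?_ (abs_nonneg _)
    rw [← hQ.diag hc x a]
    exact entry_abs hc hQ x z
  have h3 : θ * (2 * (Q a a - Q a b)) =
      ∑ z, (adjR c i a z - adjR c i b z) * (Q z a - Q z b) := by
    have h4 : ∑ z, (adjR c i a z - adjR c i b z) * (Q z a - Q z b) =
        (θ * Q a a - θ * Q a b) - (θ * Q b a - θ * Q b b) := by
      rw [e, e, e, e, ← Finset.sum_sub_distrib, ← Finset.sum_sub_distrib,
        ← Finset.sum_sub_distrib]
      exact Finset.sum_congr rfl fun z _ => by ring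
    rw [h4, hQ.symm b a, hQ.diag hc b a]
    ring
  have h5 : |θ| * |θ * (2 * (Q a a - Q a b))| ≤ diffN c i a b * (diffN c i a b * Q a a) := by
    rw [h3]
    calc |θ| * |∑ z, (adjR c i a z - adjR c i b z) * (Q z a - Q z b)|
        ≤ |θ| * ∑ z, |(adjR c i a z - adjR c i b z) * (Q z a - Q z b)| :=
          mul_le_mul_of_nonneg_left (Finset.abs_sum_le_sum_abs _ _) (abs_nonneg _)
      _ = ∑ z, |adjR c i a z - adjR c i b z| * (|θ| * |Q z a - Q z b|) := by
          rw [Finset.mul_sum]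
          exact Finset.sum_congr rfl fun z _ => by rw [abs_mul]; ring
      _ ≤ ∑ z, |adjR c i a z - adjR c i b z| * (diffN c i a b * Q a a) := by
          refine Finset.sum_le_sum fun z _ => mul_le_mul_of_nonneg_left ?_ (abs_nonneg _)
          rw [hQ.symm z a, hQ.symm z b]
          exact h1 z
      _ = _ := by rw [← Finset.sum_mul]; rfl
  have h6 : θ ^ 2 * (2 * (Q a a - Q a b)) ≤ |θ| * |θ * (2 * (Q a a - Q a b))| := by
    have h7 : |θ| * |θ * (2 * (Q a a - Q a b))| = θ ^ 2 * |2 * (Q a a - Q a b)| := by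
      rw [abs_mul, ← sq_abs θ]
      ring
    rw [h7]
    exact mul_le_mul_of_nonneg_left (le_abs_self _) (sq_nonneg _)
  calc _ ≤ _ := h6
    _ ≤ _ := h5
    _ = _ := by ring

/-- The projection kills the constants. -/
theorem kill_const (hc : IsPCC c) {Q : Matrix V V ℝ} (hQ : Proj c Q) {x y : V} (hxy : x ≠ y)
    {θ : ℝ} {f : V → ℝ} (hf : f ≠ 0) (hf0 : ∑ v, f v = 0)
    (hev : (adjR c (c x y)).mulVec f = θ • f) (hAQ : adjR c (c x y) * Q = θ • Q) :
    Q *ᵥ (fun _ => (1 : ℝ)) = 0 := by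
  set A := adjR c (c x y) with hA
  set d : ℝ := (deg (constituent c (c x y)) x : ℝ) with hd
  have hdpos : 0 < d := by
    have := deg_pos hc hxy x
    rw [hd]; exact_mod_cast this
  have hWA : ∀ u v, W c (c x y) u v = d⁻¹ * A u v := by
    intro u v
    rw [W_apply, deg_eq hc _ u x]
  have hAs : A.transpose = A := by
    ext u v
    exact adjR_sym _ _ _
  have hA1 : A *ᵥ (fun _ => (1 : ℝ)) = d • fun _ => (1 : ℝ) := by
    ext u
    change ∑ v, A u v * 1 = d * 1
    simp only [mul_one]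
    rw [hA, adjR_sum, deg_eq hc _ u x]
  -- the eigenvalue is not the degree
  have hne : d ≠ θ := by
    intro hdθ
    have hW := W_isWalk hc hxy
    have hWf : W c (c x y) *ᵥ f = f := by
      ext u
      have h1 := congrFun hev u
      have h2 : (W c (c x y) *ᵥ f) u = d⁻¹ * (A *ᵥ f) u := by
        change ∑ v, W c (c x y) u v * f v = d⁻¹ * ∑ v, A u v * f v
        rw [Finset.mul_sum]
        exact Finset.sum_congr rfl fun v _ => by rw [hWA]; ring
      rw [h2, h1, Pi.smul_apply, smul_eq_mul, ← hdθ, ← mul_assoc, inv_mul_cancel₀ hdpos.ne',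
        one_mul]
    have h1 := dirichlet hW f (-1) (by norm_num)
    rw [hWf] at h1
    have h0 : ∀ y' ∈ univ, 0 ≤ ∑ b, W c (c x y) y' b * (f y' + -1 * f b) ^ 2 := fun y' _ =>
      Finset.sum_nonneg fun b _ => mul_nonneg (hW.nonneg y' b) (sq_nonneg _)
    have h2 : ∑ y', ∑ b, W c (c x y) y' b * (f y' + -1 * f b) ^ 2 = 0 := by rw [h1]; ring
    have h3 : ∀ u v, (constituent c (c x y)).Adj u v → f u = f v := by
      intro u v huv
      have h4 := (Finset.sum_eq_zero_iff_of_nonneg h0).1 h2 u (mem_univ _)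
      have h5 := (Finset.sum_eq_zero_iff_of_nonneg (fun b _ =>
        mul_nonneg (hW.nonneg u b) (sq_nonneg _))).1 h4 v (mem_univ _)
      have h6 : W c (c x y) u v ≠ 0 := by
        rw [W_eq hc huv x]
        exact inv_ne_zero hdpos.ne'
      have h7 := (mul_eq_zero.1 h5).resolve_left h6
      have h8 := pow_eq_zero_iff (two_ne_zero) |>.1 h7
      linarith
    have h4 := const_of_adj (hc.primitive x y hxy) h3
    apply hf
    ext u
    have h5 : ∑ v, f v = Fintype.card V * f u := by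
      rw [Finset.sum_congr rfl fun v _ => h4 v u, Finset.sum_const, nsmul_eq_mul,
        Finset.card_univ]
    rw [hf0] at h5
    have hn : (Fintype.card V : ℝ) ≠ 0 := by
      have : 0 < Fintype.card V := Fintype.card_pos_iff.2 ⟨x⟩
      positivity
    exact (mul_eq_zero.1 h5.symm).resolve_left hn
  have hQA : Q * A = θ • Q := by
    have h1 := congrArg Matrix.transpose hAQ
    rw [transpose_mul, transpose_smul, hQ.sym, hAs] at h1
    exact h1
  have h1 : Q *ᵥ (A *ᵥ fun _ => (1 : ℝ)) = θ • (Q *ᵥ fun _ => (1 : ℝ)) := by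
    rw [mulVec_mulVec, hQA, smul_mulVec]
  rw [hA1, mulVec_smul] at h1
  ext u
  have h2 := congrFun h1 u
  simp only [Pi.smul_apply, smul_eq_mul] at h2
  have h3 : (d - θ) * (Q *ᵥ fun _ => (1 : ℝ)) u = 0 := by linarith
  exact (mul_eq_zero.1 h3).resolve_left (sub_ne_zero.2 hne)

/-- Vertices of one slow colour satisfying the maximal inequality: an upper bound for their
number. -/
theorem card_le (hc : IsPCC c) {Q : Matrix V V ℝ} (hQ : Proj c Q) {x y : V} (hxy : x ≠ y)
    {θ : ℝ} {f : V → ℝ} (hf : f ≠ 0) (hf0 : ∑ v, f v = 0)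
    (hev : (adjR c (c x y)).mulVec f = θ • f) (hAQ : adjR c (c x y) * Q = θ • Q)
    {a b : V} (hab : a ≠ b) {α K : ℝ} (hα : 0 < α) (hK : 0 < K)
    (hθ : α * deg (constituent c (c x y)) x < |θ|)
    (hdiff : diffN c (c x y) a b ≤ 8 * K * deg (constituent c (c x y)) x) (v : V) (Y : Finset V)
    (hYc : ∀ w ∈ Y, c v w = c x y)
    (hY : ∀ w ∈ Y, ∀ k : ℕ,
      S (lazy (W c (c a b))) (lazy (W c (c a b)) *ᵥ rate (lazy (W c (c a b))) (c v)) k w ≤ k * K) :
    (Y.card : ℝ) ≤ Fintype.card V * Real.exp (-(α ^ 2 / (16 * K))) := by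
  classical
  set P := lazy (W c (c a b)) with hP
  have hW := W_isWalk hc hab
  have hPw : IsWalk P := lazy_isWalk hW
  set n : ℝ := (Fintype.card V : ℝ) with hn
  have hn0 : 0 < n := by
    have : 0 < Fintype.card V := Fintype.card_pos_iff.2 ⟨x⟩
    rw [hn]; exact_mod_cast this
  set d : ℝ := (deg (constituent c (c x y)) x : ℝ) with hd
  have hdpos : 0 < d := by
    have := deg_pos hc hxy x
    rw [hd]; exact_mod_cast this
  set π₀ := Q v v with hπ
  have hπpos : 0 < π₀ := hQ.pos hc v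
  have hQ1 := kill_const hc hQ hxy hf hf0 hev hAQ
  obtain ⟨lam, q, hl0, hl1, hq0, hq1, htr⟩ := exists_spec hW hQ.sym hQ.idem (by
    intro g hg
    have h1 : ∀ u v, g u = g v := by
      refine const_of_adj (hc.primitive a b hab) fun u v huv => hg u v ?_
      rw [W_eq hc huv a]
      have := deg_pos hc hab a
      positivity
    have h2 : g = g a • fun _ => (1 : ℝ) := by
      ext u
      simp [h1 u a]
    rw [h2, mulVec_smul, hQ1, smul_zero])
  obtain ⟨hs0, hs1, hs2, hs3⟩ := seq_props hl0 hl1 hq0 hq1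
  simp only [← htr] at hs0 hs1 hs2 hs3
  have hsum : ∑ i, q i = n * π₀ := by
    have h1 := htr 0
    simp only [pow_zero, mul_one] at h1
    rw [← h1, Matrix.trace]
    have : ∀ w, Q.diag w = π₀ := fun w => hQ.diag hc w v
    rw [Finset.sum_congr rfl fun w _ => this w, Finset.sum_const, nsmul_eq_mul, Finset.card_univ]
  set t : ℕ → ℝ := fun s => (Q * P ^ (2 * s)).trace - (Q * P ^ (2 * s + 1)).trace with ht
  set as : ℕ → ℝ := fun s => 4 / (n * π₀) * t s with has
  set M : ℕ → V → ℝ := fun s w => (Q * P ^ s) v w / π₀ with hM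
  have hc0 : 0 < 4 / (n * π₀) := by positivity
  have hpow : ∀ s, P ^ s ∈ alg hc := fun s => (alg hc).pow_mem (lazy_mem hc _) s
  have hQm : Q ∈ alg hc := fun u v u' v' h => hQ.mem u v u' v' h
  -- the hypotheses of the exponential inequality
  have e1 : ∀ s, P *ᵥ M s = M (s + 1) := by
    intro s
    ext w
    change ∑ z, P w z * ((Q * P ^ s) v z / π₀) = (Q * P ^ (s + 1)) v w / π₀
    rw [pow_succ, ← Matrix.mul_assoc, Matrix.mul_apply, Finset.sum_div]
    refine Finset.sum_congr rfl fun z _ => ?_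
    rw [hPw.symm w z]
    ring
  have e2 : ∀ s w z, c v z = c v w → M s z = M s w := by
    intro s w z h
    simp only [hM]
    rw [(alg hc).mul_mem hQm (hpow s) v z v w h]
  have e3 : ∀ s w z, P w z ≠ 0 → (M s z - M s w) ^ 2 ≤ as s := by
    intro s w z h
    by_cases hwz : w = z
    · rw [hwz, sub_self]
      have := mul_nonneg hc0.le (hs0 s)
      simpa [has, ht] using this
    · have hadj : (constituent c (c a b)).Adj w z := by
        by_contra hno
        apply h
        rw [hP, lazy_apply, if_neg hwz, W_of_not hno]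
        norm_num
      have h1 := jump hc hQ hab s v hadj
      simp only [hM]
      rw [← sub_div, div_pow, div_le_iff₀ (by positivity)]
      refine h1.trans (le_of_eq ?_)
      simp only [has, ht]
      rw [← hπ, ← hn, ← hP]
      field_simp
  have e4 : ∀ s, 0 ≤ as s := fun s => mul_nonneg hc0.le (hs0 s)
  have e5 : ∀ s, as (s + 1) ≤ as s := fun s => mul_le_mul_of_nonneg_left (hs1 s) hc0.le
  have e6 : ∀ T, ∑ s ∈ range T, as s ≤ 4 := by
    intro T
    simp only [has]
    rw [← Finset.mul_sum]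
    have h1 := mul_le_mul_of_nonneg_left (hs2 T) hc0.le
    refine h1.trans (le_of_eq ?_)
    rw [hsum]
    field_simp
  have e7 : as 0 ≤ 64 * K ^ 2 / α ^ 2 := by
    have h1 := lip hc hQ hAQ a b
    have h2 := trace_rel hc hQm hQ.sym hab
    have h3 : as 0 = 2 * (Q a a - Q a b) / π₀ := by
      simp only [has, ht, mul_zero, pow_zero, mul_one, zero_add, pow_one]
      rw [h2]
      rw [← hn]
      field_simp
      ring
    have h4 : Q a a = π₀ := hQ.diag hc a v
    have h5 : θ ^ 2 * as 0 ≤ (8 * K * d) ^ 2 := by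
      have h6 : θ ^ 2 * as 0 = θ ^ 2 * (2 * (Q a a - Q a b)) / π₀ := by rw [h3]; ring
      rw [h6, div_le_iff₀ hπpos]
      refine h1.trans ?_
      rw [h4, mul_comm]
      refine mul_le_mul_of_nonneg_right ?_ hπpos.le
      have h7 : 0 ≤ diffN c (c x y) a b := Finset.sum_nonneg fun z _ => abs_nonneg _
      exact pow_le_pow_left₀ h7 hdiff 2
    have h8 : (α * d) ^ 2 ≤ θ ^ 2 := by
      rw [← sq_abs θ]
      exact pow_le_pow_left₀ (by positivity) hθ.le 2
    have h9 : (α * d) ^ 2 * as 0 ≤ (8 * K * d) ^ 2 :=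
      (mul_le_mul_of_nonneg_right h8 (e4 0)).trans h5
    rw [le_div_iff₀ (by positivity)]
    have h10 : as 0 * α ^ 2 * d ^ 2 ≤ 64 * K ^ 2 * d ^ 2 := by
      calc as 0 * α ^ 2 * d ^ 2 = (α * d) ^ 2 * as 0 := by ring
        _ ≤ (8 * K * d) ^ 2 := h9
        _ = _ := by ring
    exact le_of_mul_le_mul_right h10 (by positivity)
  have e8 : ∀ ε > 0, ∃ T, ∀ w, |M T w| ≤ ε := by
    intro ε hε
    have h1 : Tendsto (fun T : ℕ => 1 / (n * π₀) * (Q * P ^ (2 * T)).trace) atTop (𝓝 (1 / (n * π₀) * 0)) :=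
      hs3.const_mul _
    rw [mul_zero] at h1
    obtain ⟨T, hT⟩ := ((tendsto_order.1 h1).2 (ε ^ 2) (by positivity)).exists
    refine ⟨T, fun w => ?_⟩
    have h2 := entry_le hc hQ hab T v w
    refine abs_le_of_sq_le_sq ?_ hε.le
    refine le_trans ?_ hT.le
    simp only [hM]
    rw [div_pow, div_le_iff₀ (by positivity)]
    refine h2.trans (le_of_eq ?_)
    rw [← hπ, ← hn, ← hP]
    field_simp
  -- the value of `M 0` on `Y`
  have e9 : ∀ w ∈ Y, M 0 w = θ / d := by
    intro w hw
    have h1 : d * Q v w = θ * π₀ := by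
      have h2 : (adjR c (c x y) * Q) v v = θ * Q v v := by rw [hAQ]; rfl
      rw [← hπ] at h2
      rw [← h2, Matrix.mul_apply]
      have h3 : ∀ z, adjR c (c x y) v z * Q z v = adjR c (c x y) v z * Q v w := by
        intro z
        by_cases h4 : (constituent c (c x y)).Adj v z
        · rw [hQ.symm z v]
          have h5 : Q v z = Q x y := edge_eq hc hQm hQ.sym h4
          have h6 : Q v w = Q x y := hQ.mem _ _ _ _ (hYc w hw)
          rw [h5, h6]
        · rw [adjR, if_neg h4]; simp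
      rw [Finset.sum_congr rfl fun z _ => h3 z, ← Finset.sum_mul, adjR_sum, deg_eq hc _ v x]
    simp only [hM, pow_zero, mul_one]
    rw [div_eq_div_iff hπpos.ne' hdpos.ne']
    linarith
  -- conclusion
  set σ : ℝ := if 0 ≤ θ then 1 else -1 with hσ
  have hσθ : σ * θ = |θ| := by
    rw [hσ]
    split_ifs with h
    · rw [abs_of_nonneg h, one_mul]
    · rw [abs_of_neg (not_le.1 h)]; ring
  have hσ2 : σ ^ 2 = 1 := by
    rw [hσ]; split_ifs <;> norm_num
  set τ : ℝ := σ * (α / (8 * K)) with hτ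
  have hτ2 : τ ^ 2 = α ^ 2 / (64 * K ^ 2) := by
    rw [hτ, mul_pow, hσ2]
    field_simp
    norm_num
  have hτ1 : τ ^ 2 * as 0 ≤ 1 := by
    rw [hτ2]
    calc α ^ 2 / (64 * K ^ 2) * as 0 ≤ α ^ 2 / (64 * K ^ 2) * (64 * K ^ 2 / α ^ 2) :=
          mul_le_mul_of_nonneg_left e7 (by positivity)
      _ = 1 := by field_simp
  have key := expo (P := P) (col := c v) (M := M) (a := as) (τ := τ) (A := 4) (K := K) hPw hK.le e1 e2
    e3 e4 e5 e6 hτ1 e8 Y hY
  have h1 : ∀ w ∈ Y, Real.exp (α ^ 2 / (16 * K)) ≤ Real.exp (τ * M 0 w - τ ^ 2 * 4 * K) := by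
    intro w hw
    refine Real.exp_le_exp.2 ?_
    rw [e9 w hw, hτ2]
    have h2 : τ * (θ / d) = α / (8 * K) * (|θ| / d) := by
      rw [hτ, ← hσθ]; ring
    rw [h2]
    have h3 : α ≤ |θ| / d := by
      rw [le_div_iff₀ hdpos]; exact hθ.le
    have h4 : α / (8 * K) * α ≤ α / (8 * K) * (|θ| / d) :=
      mul_le_mul_of_nonneg_left h3 (by positivity)
    have h5 : α / (8 * K) * α - α ^ 2 / (64 * K ^ 2) * 4 * K = α ^ 2 / (16 * K) := by
      field_simp
      ring
    linarith
  have h2 : (Y.card : ℝ) * Real.exp (α ^ 2 / (16 * K)) ≤ n := by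
    refine le_trans ?_ key
    rw [← nsmul_eq_mul, ← Finset.sum_const]
    exact Finset.sum_le_sum h1
  rw [Real.exp_neg, ← div_eq_mul_inv, le_div_iff₀ (Real.exp_pos _)]
  exact h2

end Pool.Agent.Lib.MP_7beb49_co.LogRank
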