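import Pool.Agent.Lib.MP_7beb49_co.LogRank

/-!
# Slow constituents of large valency are rare: counting
-/

set_option autoImplicit false
set_option linter.unusedSectionVars false

namespace Pool.Agent.Lib.MP_7beb49_co.LogRank

open Finset Matrix Walk Filter Topology

variable {V κ : Type} [Fintype V] [DecidableEq V] {c : V → V → κ}

theorem constituent_eq (hc : IsPCC c) {i : κ} {u v : V} (h : (constituent c i).Adj u v) :
    constituent c i = constituent c (c u v) := by
  have h1 := h
  rw [constituent, SimpleGraph.fromRel_adj] at h1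
  rcases h1.2 with h2 | h2
  · rw [← h2]
  · rw [← h2]
    ext x y
    rw [constituent, constituent, SimpleGraph.fromRel_adj, SimpleGraph.fromRel_adj]
    constructor
    · rintro ⟨h3, h4 | h4⟩
      · exact ⟨h3, Or.inr (hc.conv _ _ _ _ h4)⟩
      · exact ⟨h3, Or.inl (hc.conv _ _ _ _ h4)⟩
    · rintro ⟨h3, h4 | h4⟩
      · exact ⟨h3, Or.inr (hc.conv _ _ _ _ h4)⟩
      · exact ⟨h3, Or.inl (hc.conv _ _ _ _ h4)⟩

theorem dist_comm (y z : V) : distinguishing c y z = distinguishing c z y := by
  rw [distinguishing, distinguishing]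
  simp only [ne_comm]

theorem dist_colour (hc : IsPCC c) {y z a b : V} (h : c y z = c a b) :
    distinguishing c y z = distinguishing c a b := by
  obtain ⟨σ, hσ⟩ := exists_equiv hc h
  have h1 : σ '' {w | c w y ≠ c w z} = {w | c w a ≠ c w b} := by
    ext w
    constructor
    · rintro ⟨w', hw', rfl⟩
      have h2 := hc.conv _ _ _ _ (hσ w').1
      have h3 := (hσ w').2
      change c (σ w') a ≠ c (σ w') b
      rw [h2, h3]
      exact hw'
    · intro hw
      refine ⟨σ.symm w, ?_, by simp⟩
      have h2 := hc.conv _ _ _ _ (hσ (σ.symm w)).1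
      have h3 := (hσ (σ.symm w)).2
      rw [Equiv.apply_symm_apply] at h2 h3
      change c (σ.symm w) y ≠ c (σ.symm w) z
      rw [← h2, ← h3]
      exact hw
  rw [distinguishing, distinguishing, ← h1, Set.ncard_image_of_injective _ σ.injective]

theorem dist_edge (hc : IsPCC c) {a b y z : V} (h : (constituent c (c a b)).Adj y z) :
    distinguishing c y z = distinguishing c a b := by
  rw [constituent, SimpleGraph.fromRel_adj] at h
  rcases h.2 with h1 | h1
  · exact dist_colour hc h1
  · rw [dist_comm]; exact dist_colour hc h1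

theorem dist_sum (c : V → V → κ) [DecidableEq κ] (y z : V) :
    ∑ x, (if c x z = c x y then (0 : ℝ) else 1) = distinguishing c y z := by
  have h1 : ∀ x, (if c x z = c x y then (0 : ℝ) else 1) = if c x y ≠ c x z then 1 else 0 := by
    intro x
    by_cases h : c x z = c x y
    · simp [h]
    · rw [if_neg h, if_pos (fun h' => h h'.symm)]
  rw [Finset.sum_congr rfl fun x _ => h1 x, Finset.sum_boole, distinguishing,
    Set.ncard_eq_toFinset_card']
  congr 2
  ext w; simp

/-- The mean rate of colour changes. -/
theorem sum_rate (hc : IsPCC c) {a b : V} (hab : a ≠ b) :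
    ∑ x, ∑ y, rate (lazy (W c (c a b))) (c x) y =
      Fintype.card V * ((distinguishing c a b : ℝ) / 2) := by
  classical
  have hW := W_isWalk hc hab
  have h1 : ∀ y z, lazy (W c (c a b)) y z * (distinguishing c y z : ℝ) =
      W c (c a b) y z * ((distinguishing c a b : ℝ) / 2) := by
    intro y z
    rw [lazy_apply]
    by_cases hyz : y = z
    · subst hyz
      have h2 : distinguishing c y y = 0 := by simp [distinguishing]
      have h3 : W c (c a b) y y = 0 := W_of_not (SimpleGraph.irrefl _)
      rw [h2, h3]; simp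
    · rw [if_neg hyz]
      by_cases hadj : (constituent c (c a b)).Adj y z
      · rw [dist_edge hc hadj]; ring
      · rw [W_of_not hadj]; ring
  calc ∑ x, ∑ y, rate (lazy (W c (c a b))) (c x) y
      = ∑ x, ∑ y, ∑ z, lazy (W c (c a b)) y z * (if c x z = c x y then 0 else 1) := rfl
    _ = ∑ y, ∑ z, ∑ x, lazy (W c (c a b)) y z * (if c x z = c x y then 0 else 1) := by
        rw [Finset.sum_comm]
        refine Finset.sum_congr rfl fun y _ => ?_
        rw [Finset.sum_comm]
    _ = ∑ y, ∑ z, W c (c a b) y z * ((distinguishing c a b : ℝ) / 2) := by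
        refine Finset.sum_congr rfl fun y _ => Finset.sum_congr rfl fun z _ => ?_
        rw [← Finset.mul_sum, dist_sum, h1]
    _ = ∑ y : V, ((distinguishing c a b : ℝ) / 2) := by
        refine Finset.sum_congr rfl fun y _ => ?_
        rw [← Finset.sum_mul, hW.sum, one_mul]
    _ = _ := by rw [Finset.sum_const, nsmul_eq_mul, Finset.card_univ]

/-- The rate of colour changes depends only on the colour. -/
theorem rate_mem (hc : IsPCC c) (i : κ) :
    (Matrix.of fun x y => rate (lazy (W c i)) (c x) y) ∈ alg hc := by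
  classical
  intro u v u' v' h
  have hP := lazy_mem hc i
  have hR : (Matrix.of fun x b => if c x b = c u v then (0 : ℝ) else 1) ∈ alg hc := by
    intro x y x' y' h1
    simp only [Matrix.of_apply, h1]
  have hm := (alg hc).mul_mem hR hP
  have e : ∀ x y, c x y = c u v → rate (lazy (W c i)) (c x) y =
      ((Matrix.of fun x b => if c x b = c u v then (0 : ℝ) else 1) * lazy (W c i)) x y := by
    intro x y hxy
    rw [rate, Matrix.mul_apply]
    refine Finset.sum_congr rfl fun b _ => ?_
    rw [Matrix.of_apply, hxy]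
    have hs : lazy (W c i) y b = lazy (W c i) b y := by
      rw [lazy_apply, lazy_apply]
      congr 2
      · simp only [eq_comm]
      · by_cases h2 : (constituent c i).Adj y b
        · rw [W_eq hc h2 y, W_eq hc h2.symm y]
        · rw [W_of_not h2, W_of_not fun h3 => h2 h3.symm]
    rw [hs, mul_comm]
  rw [Matrix.of_apply, Matrix.of_apply, e u v rfl, e u' v' h.symm]
  exact hm u v u' v' h

/-- The failure of the maximal inequality. -/
def Bad (c : V → V → κ) (i : κ) (K : ℝ) (x y : V) : Prop :=
  ∃ k : ℕ, k * K < S (lazy (W c i)) (lazy (W c i) *ᵥ rate (lazy (W c i)) (c x)) k y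

theorem bad_iff (hc : IsPCC c) {a b : V} (hab : a ≠ b) (K : ℝ) {x y x' y' : V}
    (h : c x y = c x' y') : Bad c (c a b) K x y ↔ Bad c (c a b) K x' y' := by
  set P := lazy (W c (c a b)) with hP
  set N : Matrix V V ℝ := Matrix.of fun x y => rate P (c x) y with hN
  have hNm : N ∈ alg hc := rate_mem hc _
  have hPm : P ∈ alg hc := lazy_mem hc _
  have hPs : P.transpose = P := lazy_sym hc hab
  have e : ∀ (k : ℕ) (x y : V), S P (P *ᵥ rate P (c x)) k y =
      (N * P * ∑ s ∈ range k, P ^ s) x y := by
    intro k x y
    have h0 : ∀ (G : Matrix V V ℝ), G.transpose = G → ∀ g : V → ℝ, G *ᵥ g = g ᵥ* G := by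
      intro G hG g
      rw [← mulVec_transpose, hG]
    rw [S_eq, Matrix.mul_sum, Matrix.sum_apply]
    refine Finset.sum_congr rfl fun s _ => ?_
    rw [mulVec_mulVec, ← pow_succ, h0 _ (pow_sym hPs _), Matrix.mul_assoc, ← pow_succ']
    rfl
  have hm : ∀ k, (N * P * ∑ s ∈ range k, P ^ s) ∈ alg hc := fun k =>
    (alg hc).mul_mem ((alg hc).mul_mem hNm hPm)
      ((alg hc).sum_mem fun s _ => (alg hc).pow_mem hPm s)
  rw [Bad, Bad, ← hP]
  simp only [e]
  refine exists_congr fun k => ?_
  rw [hm k x y x' y' h]

theorem bad_count (hc : IsPCC c) {a b : V} (hab : a ≠ b) {K : ℝ} (v : V) :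
    K * ({y | Bad c (c a b) K v y}.ncard : ℝ) ≤ (distinguishing c a b : ℝ) / 2 := by
  have hP := lazy_isWalk (W_isWalk hc hab)
  have h1 : ∀ x, K * ({y | Bad c (c a b) K x y}.ncard : ℝ) ≤
      ∑ y, rate (lazy (W c (c a b))) (c x) y := by
    intro x
    have h2 := maximal hP (f := lazy (W c (c a b)) *ᵥ rate (lazy (W c (c a b))) (c x))
      (hP.nonneg' (rate_nonneg hP (c x))) K
    rw [hP.sum_mulVec] at h2
    exact h2
  have h3 : ∀ x, {y | Bad c (c a b) K x y}.ncard = {y | Bad c (c a b) K v y}.ncard := fun x =>
    ncard_eq hc (fun _ _ _ _ h => bad_iff hc hab K h) x v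
  have h4 : ∑ x : V, K * ({y | Bad c (c a b) K v y}.ncard : ℝ) ≤
      Fintype.card V * ((distinguishing c a b : ℝ) / 2) := by
    rw [← sum_rate hc hab]
    refine Finset.sum_le_sum fun x _ => ?_
    rw [← h3 x]
    exact h1 x
  rw [Finset.sum_const, nsmul_eq_mul, Finset.card_univ] at h4
  have hn : (0 : ℝ) < Fintype.card V := by
    have : 0 < Fintype.card V := Fintype.card_pos_iff.2 ⟨v⟩
    exact_mod_cast this
  exact le_of_mul_le_mul_left h4 hn

/-- The colours where the neighbourhoods of `a` and `b` differ a lot are rare. -/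
theorem diff_sum (hc : IsPCC c) (a b v : V) :
    ∑ w ∈ univ.filter (fun w => w ≠ v),
      diffN c (c v w) a b / deg (constituent c (c v w)) v ≤ 2 * (distinguishing c a b : ℝ) := by
  classical
  have h1 : ∀ a z : V, ∑ w ∈ univ.filter (fun w => w ≠ v),
      adjR c (c v w) a z / deg (constituent c (c v w)) v ≤ 1 := by
    intro a z
    by_cases haz : a = z
    · subst haz
      have : ∀ w ∈ univ.filter (fun w => w ≠ v),
          adjR c (c v w) a a / deg (constituent c (c v w)) v = 0 := by
        intro w _
        rw [adjR, if_neg (SimpleGraph.irrefl _), zero_div]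
      rw [Finset.sum_congr rfl this]
      simp
    · have hd := deg_pos hc haz v
      have hd' : (0 : ℝ) < deg (constituent c (c a z)) v := by exact_mod_cast hd
      have h2 : ∀ w ∈ univ.filter (fun w => w ≠ v),
          adjR c (c v w) a z / deg (constituent c (c v w)) v =
            adjR c (c a z) v w / deg (constituent c (c a z)) v := by
        intro w hw
        have hwv : v ≠ w := fun h => (mem_filter.1 hw).2 h.symm
        by_cases h3 : (constituent c (c v w)).Adj a z
        · have h4 := constituent_eq hc h3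
          have h5 : (constituent c (c a z)).Adj v w := by
            rw [← h4]; exact adj_self hwv
          rw [adjR, if_pos h3, adjR, if_pos h5, h4]
        · have h5 : ¬ (constituent c (c a z)).Adj v w := by
            intro h6
            apply h3
            rw [← constituent_eq hc h6]
            exact adj_self haz
          rw [adjR, if_neg h3, adjR, if_neg h5, zero_div, zero_div]
      rw [Finset.sum_congr rfl h2]
      refine (Finset.sum_le_sum_of_subset_of_nonneg (filter_subset _ _) fun w _ _ =>
        div_nonneg (adjR_nonneg _ _ _) hd'.le).trans (le_of_eq ?_)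
      rw [← Finset.sum_div, adjR_sum, div_self hd'.ne']
  have h2 : ∀ z : V, ∑ w ∈ univ.filter (fun w => w ≠ v),
      |adjR c (c v w) a z - adjR c (c v w) b z| / deg (constituent c (c v w)) v ≤
        2 * (if c z b = c z a then (0 : ℝ) else 1) := by
    intro z
    split_ifs with h
    · rw [mul_zero]
      refine le_of_eq (Finset.sum_eq_zero fun w _ => ?_)
      have h3 : (constituent c (c v w)).Adj a z ↔ (constituent c (c v w)).Adj b z := by
        rw [SimpleGraph.adj_comm, adj_iff hc _ h.symm, SimpleGraph.adj_comm]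
      have h4 : adjR c (c v w) a z = adjR c (c v w) b z := by
        rw [adjR, adjR]; simp only [h3]
      rw [h4, sub_self, abs_zero, zero_div]
    · calc _ ≤ ∑ w ∈ univ.filter (fun w => w ≠ v),
            (adjR c (c v w) a z / deg (constituent c (c v w)) v +
              adjR c (c v w) b z / deg (constituent c (c v w)) v) := by
            refine Finset.sum_le_sum fun w _ => ?_
            rw [← add_div]
            refine div_le_div_of_nonneg_right ?_ (Nat.cast_nonneg _)
            have e1 := adjR_nonneg (c := c) (c v w) a z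
            have e2 := adjR_nonneg (c := c) (c v w) b z
            rw [abs_le]
            constructor <;> linarith
        _ ≤ 1 + 1 := by
            rw [Finset.sum_add_distrib]
            exact add_le_add (h1 a z) (h1 b z)
        _ = _ := by norm_num
  calc ∑ w ∈ univ.filter (fun w => w ≠ v),
      diffN c (c v w) a b / deg (constituent c (c v w)) v
      = ∑ w ∈ univ.filter (fun w => w ≠ v), ∑ z,
          |adjR c (c v w) a z - adjR c (c v w) b z| / deg (constituent c (c v w)) v := by
        refine Finset.sum_congr rfl fun w _ => ?_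
        rw [diffN, Finset.sum_div]
    _ = ∑ z, ∑ w ∈ univ.filter (fun w => w ≠ v),
          |adjR c (c v w) a z - adjR c (c v w) b z| / deg (constituent c (c v w)) v :=
        Finset.sum_comm
    _ ≤ ∑ z, 2 * (if c z b = c z a then (0 : ℝ) else 1) := Finset.sum_le_sum fun z _ => h2 z
    _ = _ := by rw [← Finset.mul_sum, dist_sum]

theorem diff_count (hc : IsPCC c) (a b : V) (K : ℝ) (v : V) :
    8 * K * ({w | w ≠ v ∧ 8 * K * deg (constituent c (c v w)) v <
      diffN c (c v w) a b}.ncard : ℝ) ≤ 2 * (distinguishing c a b : ℝ) := by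
  classical
  have h1 : {w | w ≠ v ∧ 8 * K * deg (constituent c (c v w)) v < diffN c (c v w) a b}.ncard =
      (univ.filter (fun w => w ≠ v ∧
        8 * K * deg (constituent c (c v w)) v < diffN c (c v w) a b)).card := by
    rw [Set.ncard_eq_toFinset_card']
    congr 1
    ext w; simp
  rw [h1]
  refine le_trans ?_ (diff_sum hc a b v)
  rw [mul_comm, ← nsmul_eq_mul, ← Finset.sum_const]
  have h2 : ∀ w ∈ univ.filter (fun w => w ≠ v ∧
      8 * K * deg (constituent c (c v w)) v < diffN c (c v w) a b),
      8 * K ≤ diffN c (c v w) a b / deg (constituent c (c v w)) v := by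
    intro w hw
    obtain ⟨h3, h4⟩ := (mem_filter.1 hw).2
    have hd := deg_pos hc (Ne.symm h3) v
    have hd' : (0 : ℝ) < deg (constituent c (c v w)) v := by exact_mod_cast hd
    rw [le_div_iff₀ hd']
    exact h4.le
  refine (Finset.sum_le_sum h2).trans ?_
  refine Finset.sum_le_sum_of_subset_of_nonneg ?_ ?_
  · intro w hw
    exact mem_filter.2 ⟨mem_univ _, ((mem_filter.1 hw).2).1⟩
  · intro w _ _
    exact div_nonneg (Finset.sum_nonneg fun z _ => abs_nonneg _) (Nat.cast_nonneg _)

/-- **Slow constituents of large valency are rare.** -/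
theorem main (hc : IsPCC c) (v : V) {α μ : ℝ} (hα : 0 < α) (hμ : 0 < μ) :
    ({w | w ≠ v ∧ α * deg (constituent c (c v w)) v < xi (constituent c (c v w)) ∧
      Fintype.card V * Real.exp (-(μ * α ^ 2 * Fintype.card V / (12 * Dmin c))) <
        {z | c v z = c v w}.ncard}.ncard : ℝ) ≤ μ * Fintype.card V := by
  classical
  set n : ℝ := (Fintype.card V : ℝ) with hn
  have hn0 : 0 < n := by
    have : 0 < Fintype.card V := Fintype.card_pos_iff.2 ⟨v⟩
    rw [hn]; exact_mod_cast this
  by_cases hex : ∃ w, w ≠ v
  swap
  · push Not at hex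
    have : {w | w ≠ v ∧ α * deg (constituent c (c v w)) v < xi (constituent c (c v w)) ∧
        n * Real.exp (-(μ * α ^ 2 * n / (12 * Dmin c))) <
        {z | c v z = c v w}.ncard} = ∅ := by
      ext w
      simp only [Set.mem_ofPred_eq, Set.mem_empty_iff_false, iff_false]
      intro h
      exact h.1 (hex w)
    rw [this]
    simp only [Set.ncard_empty, Nat.cast_zero]
    positivity
  obtain ⟨w₀, hw₀⟩ := hex
  have hne : {d | ∃ a b, a ≠ b ∧ d = distinguishing c a b}.Nonempty := ⟨_, w₀, v, hw₀, rfl⟩
  obtain ⟨a, b, hab, hD⟩ := Nat.sInf_mem hne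
  have hDD : Dmin c = distinguishing c a b := hD
  rw [hDD]
  set D : ℝ := (distinguishing c a b : ℝ) with hDdef
  have hD0 : 0 < D := by
    have : 0 < distinguishing c a b := by
      rw [distinguishing, Set.ncard_pos]
      exact ⟨a, hc.diag_ne a a b hab⟩
    rw [hDdef]; exact_mod_cast this
  set K : ℝ := 3 * D / (4 * n * μ) with hK
  have hK0 : 0 < K := by positivity
  have hKe : α ^ 2 / (16 * K) = μ * α ^ 2 * n / (12 * D) := by
    rw [hK]; field_simp; norm_num
  -- the two exceptional sets
  have hB := bad_count hc hab (K := K) v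
  have hF := diff_count hc a b K v
  rw [← hDdef] at hB hF
  have hB' : ({y | Bad c (c a b) K v y}.ncard : ℝ) ≤ 2 / 3 * (μ * n) := by
    have : K * (2 / 3 * (μ * n)) = D / 2 := by rw [hK]; field_simp; norm_num
    rw [← this] at hB
    exact le_of_mul_le_mul_left hB hK0
  have hF' : ({w | w ≠ v ∧ 8 * K * deg (constituent c (c v w)) v <
      diffN c (c v w) a b}.ncard : ℝ) ≤ 1 / 3 * (μ * n) := by
    have : 8 * K * (1 / 3 * (μ * n)) = 2 * D := by rw [hK]; field_simp; norm_num
    rw [← this] at hF
    exact le_of_mul_le_mul_left hF (by positivity)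
  have hsub : {w | w ≠ v ∧ α * deg (constituent c (c v w)) v < xi (constituent c (c v w)) ∧
      n * Real.exp (-(μ * α ^ 2 * n / (12 * D))) < {z | c v z = c v w}.ncard} ⊆
      {y | Bad c (c a b) K v y} ∪ {w | w ≠ v ∧ 8 * K * deg (constituent c (c v w)) v <
        diffN c (c v w) a b} := by
    rintro w ⟨hwv, hslow, hval⟩
    by_contra hno
    simp only [Set.mem_union, Set.mem_ofPred_eq, not_or] at hno
    obtain ⟨hnb, hnd⟩ := hno
    have hnd' : diffN c (c v w) a b ≤ 8 * K * deg (constituent c (c v w)) v := by
      by_contra h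
      exact hnd ⟨hwv, not_le.1 h⟩
    -- an eigenvalue
    have hxine : α * deg (constituent c (c v w)) v < sSup {t | ∃ (θ : ℝ) (f : V → ℝ), f ≠ 0 ∧
        ∑ v, f v = 0 ∧ ((constituent c (c v w)).adjMatrix ℝ).mulVec f = θ • f ∧ t = |θ|} := hslow
    have hnonempty : {t | ∃ (θ : ℝ) (f : V → ℝ), f ≠ 0 ∧
        ∑ v, f v = 0 ∧ ((constituent c (c v w)).adjMatrix ℝ).mulVec f = θ • f ∧
          t = |θ|}.Nonempty := by
      by_contra h
      rw [Set.not_nonempty_iff_eq_empty] at h
      rw [h, Real.sSup_empty] at hxine
      have : (0 : ℝ) ≤ α * deg (constituent c (c v w)) v := by positivity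
      linarith
    obtain ⟨t, ⟨θ, f, hf, hf0, hev, rfl⟩, ht⟩ := exists_lt_of_lt_csSup hnonempty hxine
    obtain ⟨Q, hQ, hAQ⟩ := exists_proj_of_eigen hc (c v w) hf hf0 (by convert hev)
    have hAeq : (constituent c (c v w)).adjMatrix ℝ = adjR c (c v w) := by
      ext x y
      rw [SimpleGraph.adjMatrix_apply, adjR]
    rw [hAeq] at hev
    have hAQ' : adjR c (c v w) * Q = θ • Q := by
      rw [← hAeq]; convert hAQ
    have hcard := card_le hc hQ (Ne.symm hwv) hf hf0 hev hAQ' hab hα hK0 ht hnd' v
      (univ.filter (fun z => c v z = c v w)) (fun z hz => (mem_filter.1 hz).2) (by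
        intro z hz k
        by_contra h
        apply hnb
        rw [bad_iff hc hab K (mem_filter.1 hz).2.symm]
        exact ⟨k, not_le.1 h⟩)
    rw [hKe] at hcard
    have hval' : {z | c v z = c v w}.ncard = (univ.filter (fun z => c v z = c v w)).card := by
      rw [Set.ncard_eq_toFinset_card']
      congr 1
      ext z; simp
    rw [hval'] at hval
    linarith
  have h1 := Set.ncard_le_ncard hsub (Set.toFinite _)
  have h2 := Set.ncard_union_le {y | Bad c (c a b) K v y}
    {w | w ≠ v ∧ 8 * K * deg (constituent c (c v w)) v < diffN c (c v w) a b}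
  have h3 : (({w | w ≠ v ∧ α * deg (constituent c (c v w)) v < xi (constituent c (c v w)) ∧
      n * Real.exp (-(μ * α ^ 2 * n / (12 * D))) < {z | c v z = c v w}.ncard}.ncard : ℕ) : ℝ) ≤
      ({y | Bad c (c a b) K v y}.ncard : ℝ) + ({w | w ≠ v ∧
        8 * K * deg (constituent c (c v w)) v < diffN c (c v w) a b}.ncard : ℝ) := by
    exact_mod_cast h1.trans h2
  linarith

end Pool.Agent.Lib.MP_7beb49_co.LogRank
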