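import Pool.Agent.Lib.MP_7beb49_co.CardPow
import Pool.Agent.Lib.MP_7beb49_co.LogRankMain

/-!
# Slow constituents of large valency and large multiplicity are rare: counting
-/

set_option autoImplicit false
set_option linter.unusedSectionVars false

namespace Pool.Agent.Lib.MP_7beb49_co.CardPow

open Finset Matrix Walk LogRank Filter Topology

variable {V κ : Type} [Fintype V] [DecidableEq V] {c : V → V → κ}

/-- The exponent. -/
theorem exponent {α : ℝ} (hα : 0 < α) (hα1 : α < 1) :
    α ^ 2 * (1 - Real.log (1 - α)) / 11 ≤ Real.log ((1 + (1 - α)) / (2 * (1 - α))) ^ 2 /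
      Real.log ((1 + (1 - α)) / (1 - α)) := by
  set δ : ℝ := 1 - α with hδ
  have hδ0 : 0 < δ := by linarith
  have hδ1 : δ < 1 := by linarith
  set L : ℝ := Real.log ((1 + δ) / (2 * δ)) with hL
  have h1 : α / 2 ≤ L := by
    have h2 := Real.one_sub_inv_le_log_of_pos (x := (1 + δ) / (2 * δ)) (by positivity)
    rw [← hL, inv_div] at h2
    refine le_trans ?_ h2
    have h3 : 1 - 2 * δ / (1 + δ) = (1 - δ) / (1 + δ) := by field_simp; ring
    rw [h3]
    have h4 : α = 1 - δ := by rw [hδ]; ring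
    rw [h4]
    exact div_le_div_of_nonneg_left (by linarith) (by linarith) (by linarith)
  have hL0 : 0 < L := by linarith
  have h2 : Real.log ((1 + δ) / δ) = Real.log 2 + L := by
    have : (1 + δ) / δ = 2 * ((1 + δ) / (2 * δ)) := by field_simp
    rw [this, Real.log_mul (by norm_num) (by positivity), ← hL]
  have h3 : -Real.log δ ≤ Real.log 2 + L := by
    rw [← h2, Real.log_div (by positivity) hδ0.ne']
    have : 0 ≤ Real.log (1 + δ) := Real.log_nonneg (by linarith)
    linarith
  have hl2 : Real.log 2 < 0.7 := lt_of_lt_of_le Real.log_two_lt_d9 (by norm_num)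
  have hl20 : 0 < Real.log 2 := Real.log_pos (by norm_num)
  rw [h2, div_le_div_iff₀ (by norm_num) (by positivity)]
  have e1 : α * (1 - Real.log δ) ≤ 4.4 * L := by
    have e2 : α * (1 - Real.log δ) ≤ α * (1.7 + L) :=
      mul_le_mul_of_nonneg_left (by linarith) hα.le
    have e3 : α * L ≤ L := by nlinarith
    nlinarith
  have e2 : α * (Real.log 2 + L) ≤ 2.4 * L := by
    have e3 : α * L ≤ L := by nlinarith
    nlinarith
  have e3 : 0 ≤ α * (Real.log 2 + L) := by positivity
  calc α ^ 2 * (1 - Real.log δ) * (Real.log 2 + L)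
      = (α * (1 - Real.log δ)) * (α * (Real.log 2 + L)) := by ring
    _ ≤ (4.4 * L) * (2.4 * L) := mul_le_mul e1 e2 e3 (by positivity)
    _ ≤ L ^ 2 * 11 := by nlinarith

theorem main_pow (hc : IsPCC c) (v : V) {α μ : ℝ} (hα : 0 < α) (hα1 : α < 1) (hμ : 0 < μ)
    (hDμ : 10 ^ 5 * (Dmin c : ℝ) ≤ μ * Fintype.card V) :
    ({w | w ≠ v ∧ α * deg (constituent c (c v w)) v < xi (constituent c (c v w)) ∧
      Fintype.card V * (10 ^ 5 / α ^ 3 * Real.exp (-(μ * α ^ 2 * (1 - Real.log (1 - α)) *
        Fintype.card V / (10 ^ 6 * Dmin c)))) < {z | c v z = c v w}.ncard *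
          eigCount (constituent c (c v w)) (α * deg (constituent c (c v w)) v)}.ncard : ℝ) ≤
      μ * Fintype.card V := by
  classical
  set n : ℝ := (Fintype.card V : ℝ) with hn
  have hn0 : 0 < n := by
    have : 0 < Fintype.card V := Fintype.card_pos_iff.2 ⟨v⟩
    rw [hn]; exact_mod_cast this
  by_cases hex : ∃ w, w ≠ v
  swap
  · push Not at hex
    have : {w | w ≠ v ∧ α * deg (constituent c (c v w)) v < xi (constituent c (c v w)) ∧
      n * (10 ^ 5 / α ^ 3 * Real.exp (-(μ * α ^ 2 * (1 - Real.log (1 - α)) *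
        n / (10 ^ 6 * Dmin c)))) < {z | c v z = c v w}.ncard *
          eigCount (constituent c (c v w)) (α * deg (constituent c (c v w)) v)} = ∅ := by
      ext w
      simp only [Set.mem_ofPred_eq, Set.mem_empty_iff_false, iff_false]
      intro h
      exact h.1 (hex w)
    rw [this]
    simp only [Set.ncard_empty, Nat.cast_zero]
    positivity
  obtain ⟨w₀, hw₀⟩ := hex
  have hne : {d | ∃ a b, a ≠ b ∧ d = distinguishing c a b}.Nonempty := ⟨_, w₀, v, hw₀, rfl⟩
  obtain ⟨a, b, hab, hD⟩ := Nat.sInf_mem hne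
  have hDD : Dmin c = distinguishing c a b := hD
  rw [hDD] at hDμ ⊢
  set D : ℝ := (distinguishing c a b : ℝ) with hDdef
  have hD0 : 0 < D := by
    have : 0 < distinguishing c a b := by
      rw [distinguishing, Set.ncard_pos]
      exact ⟨a, hc.diag_ne a a b hab⟩
    rw [hDdef]; exact_mod_cast this
  set K : ℝ := 3 * D / (4 * n * μ) with hK
  have hK0 : 0 < K := by positivity
  have hK1 : K ≤ 1 / 65536 := by
    rw [hK, div_le_div_iff₀ (by positivity) (by norm_num)]
    linarith
  -- the exponent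
  have hδ0 : 0 < 1 - α := by linarith
  have hlog0 : 0 < 1 - Real.log (1 - α) := by
    have := Real.log_nonpos hδ0.le (by linarith)
    linarith
  have hlog1 : 0 < Real.log ((1 + (1 - α)) / (1 - α)) := by
    refine Real.log_pos ?_
    rw [lt_div_iff₀ hδ0]
    linarith
  have hKe : μ * α ^ 2 * (1 - Real.log (1 - α)) * n / (10 ^ 6 * D) ≤
      Real.log ((1 + (1 - α)) / (2 * (1 - α))) ^ 2 /
        (73728 * K * Real.log ((1 + (1 - α)) / (1 - α))) := by
    have h1 := exponent hα hα1
    set E1 := Real.log ((1 + (1 - α)) / (2 * (1 - α))) ^ 2 with hE1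
    set E2 := Real.log ((1 + (1 - α)) / (1 - α)) with hE2
    have h2 : E1 / (73728 * K * E2) = μ * n / (55296 * D) * (E1 / E2) := by
      rw [hK]; field_simp; ring
    rw [h2]
    have h3 : μ * n / (55296 * D) * (α ^ 2 * (1 - Real.log (1 - α)) / 11) ≤
        μ * n / (55296 * D) * (E1 / E2) := mul_le_mul_of_nonneg_left h1 (by positivity)
    refine le_trans ?_ h3
    have h4 : μ * n / (55296 * D) * (α ^ 2 * (1 - Real.log (1 - α)) / 11) =
        μ * α ^ 2 * (1 - Real.log (1 - α)) * n / (608256 * D) := by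
      field_simp; norm_num
    rw [h4]
    exact div_le_div_of_nonneg_left (by positivity) (by positivity) (by linarith)
  -- the two exceptional sets
  have hB := bad_count hc hab (K := K) v
  have hF := diff_count hc a b K v
  rw [← hDdef] at hB hF
  have hB' : ({y | Bad c (c a b) K v y}.ncard : ℝ) ≤ 2 / 3 * (μ * n) := by
    have : K * (2 / 3 * (μ * n)) = D / 2 := by rw [hK]; field_simp; norm_num
    rw [← this] at hB
    exact le_of_mul_le_mul_left hB hK0
  have hF' : ({w | w ≠ v ∧ 8 * K * deg (constituent c (c v w)) v <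
      diffN c (c v w) a b}.ncard : ℝ) ≤ 1 / 3 * (μ * n) := by
    have : 8 * K * (1 / 3 * (μ * n)) = 2 * D := by rw [hK]; field_simp; norm_num
    rw [← this] at hF
    exact le_of_mul_le_mul_left hF (by positivity)
  have hsub : {w | w ≠ v ∧ α * deg (constituent c (c v w)) v < xi (constituent c (c v w)) ∧
      n * (10 ^ 5 / α ^ 3 * Real.exp (-(μ * α ^ 2 * (1 - Real.log (1 - α)) *
        n / (10 ^ 6 * D)))) < {z | c v z = c v w}.ncard *
          eigCount (constituent c (c v w)) (α * deg (constituent c (c v w)) v)} ⊆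
      {y | Bad c (c a b) K v y} ∪ {w | w ≠ v ∧ 8 * K * deg (constituent c (c v w)) v <
        diffN c (c v w) a b} := by
    rintro w ⟨hwv, hslow, hval⟩
    by_contra hno
    simp only [Set.mem_union, Set.mem_ofPred_eq, not_or] at hno
    obtain ⟨hnb, hnd⟩ := hno
    have hnd' : diffN c (c v w) a b ≤ 8 * K * deg (constituent c (c v w)) v := by
      by_contra h
      exact hnd ⟨hwv, not_le.1 h⟩
    -- an eigenvalue
    have hxine : α * deg (constituent c (c v w)) v < sSup {t | ∃ (θ : ℝ) (f : V → ℝ), f ≠ 0 ∧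
        ∑ v, f v = 0 ∧ ((constituent c (c v w)).adjMatrix ℝ).mulVec f = θ • f ∧ t = |θ|} := hslow
    have hnonempty : {t | ∃ (θ : ℝ) (f : V → ℝ), f ≠ 0 ∧
        ∑ v, f v = 0 ∧ ((constituent c (c v w)).adjMatrix ℝ).mulVec f = θ • f ∧
          t = |θ|}.Nonempty := by
      by_contra h
      rw [Set.not_nonempty_iff_eq_empty] at h
      rw [h, Real.sSup_empty] at hxine
      have : (0 : ℝ) ≤ α * deg (constituent c (c v w)) v := by positivity
      linarith
    obtain ⟨t, ⟨θ, f, hf, hf0, hev, rfl⟩, ht⟩ := exists_lt_of_lt_csSup hnonempty hxine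
    rw [Band.adjR_eq] at hev
    have hcard := card_le_pow hc (Ne.symm hwv) hf hf0 hev hab hα hα1 hK0 hK1 ht hnd' v
      (univ.filter (fun z => c v z = c v w)) (fun z hz => (mem_filter.1 hz).2) (by
        intro z hz k
        by_contra h
        apply hnb
        rw [bad_iff hc hab K (mem_filter.1 hz).2.symm]
        exact ⟨k, not_le.1 h⟩)
    have hval' : {z | c v z = c v w}.ncard = (univ.filter (fun z => c v z = c v w)).card := by
      rw [Set.ncard_eq_toFinset_card']
      congr 1
      ext z; simp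
    rw [hval'] at hval
    have hexp := Real.exp_le_exp.2 (neg_le_neg hKe)
    have h1 : n * (100000 / α ^ 3 * Real.exp (-(Real.log ((1 + (1 - α)) / (2 * (1 - α))) ^ 2 /
        (73728 * K * Real.log ((1 + (1 - α)) / (1 - α)))))) ≤
        n * (10 ^ 5 / α ^ 3 * Real.exp (-(μ * α ^ 2 * (1 - Real.log (1 - α)) *
        n / (10 ^ 6 * D)))) := by
      refine mul_le_mul_of_nonneg_left ?_ hn0.le
      have h2 : (100000 : ℝ) / α ^ 3 = 10 ^ 5 / α ^ 3 := by norm_num
      rw [h2]
      exact mul_le_mul_of_nonneg_left hexp (by positivity)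
    linarith
  have h1 := Set.ncard_le_ncard hsub (Set.toFinite _)
  have h2 := Set.ncard_union_le {y | Bad c (c a b) K v y}
    {w | w ≠ v ∧ 8 * K * deg (constituent c (c v w)) v < diffN c (c v w) a b}
  have h3 : (({w | w ≠ v ∧ α * deg (constituent c (c v w)) v < xi (constituent c (c v w)) ∧
      n * (10 ^ 5 / α ^ 3 * Real.exp (-(μ * α ^ 2 * (1 - Real.log (1 - α)) *
        n / (10 ^ 6 * D)))) < {z | c v z = c v w}.ncard *
          eigCount (constituent c (c v w)) (α * deg (constituent c (c v w)) v)}.ncard : ℕ) : ℝ) ≤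
      ({y | Bad c (c a b) K v y}.ncard : ℝ) + ({w | w ≠ v ∧
        8 * K * deg (constituent c (c v w)) v < diffN c (c v w) a b}.ncard : ℝ) := by
    exact_mod_cast h1.trans h2
  linarith

/-- Slow colours have at least one eigenvalue. -/
theorem eigCount_pos (X : SimpleGraph V) {t : ℝ} (ht : 0 ≤ t) (h : t < xi X) :
    0 < eigCount X t := by
  classical
  have hxine : t < sSup {t | ∃ (θ : ℝ) (f : V → ℝ), f ≠ 0 ∧
      ∑ v, f v = 0 ∧ (X.adjMatrix ℝ).mulVec f = θ • f ∧ t = |θ|} := h
  have hnonempty : {t | ∃ (θ : ℝ) (f : V → ℝ), f ≠ 0 ∧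
      ∑ v, f v = 0 ∧ (X.adjMatrix ℝ).mulVec f = θ • f ∧ t = |θ|}.Nonempty := by
    by_contra h
    rw [Set.not_nonempty_iff_eq_empty] at h
    rw [h, Real.sSup_empty] at hxine
    linarith
  obtain ⟨t', ⟨θ, f, hf, hf0, hev, rfl⟩, ht'⟩ := exists_lt_of_lt_csSup hnonempty hxine
  rw [eigCount, Module.finrank_pos_iff_exists_ne_zero]
  refine ⟨⟨f, Submodule.subset_span ⟨hf0, θ, ht', hev⟩⟩, fun h0 => hf ?_⟩
  exact congrArg Subtype.val h0

end Pool.Agent.Lib.MP_7beb49_co.CardPow
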