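import Pool.Agent.Lib.MP_7beb49_co.Growth

/-!
# Metric coherent configurations

The configuration of a distance-regular graph of valency at least three: every idempotent of rank
`m` satisfies `diameter ≤ 3 m` (Godsil's diameter bound, proved here for all idempotents of the
coherent algebra).
-/

set_option autoImplicit false

namespace Pool.Agent.Lib.MP_7beb49_co

open Matrix

section metric

variable {V κ : Type} [Fintype V] {c : V → V → κ}

/-- Numbers of common neighbours of class relations depend only on the colour. -/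
theorem ncard_inter_eq (hc : IsPCC c) {P R : V → V → Prop}
    (hP : ∀ u v u' v', c u v = c u' v' → (P u v ↔ P u' v'))
    (hR : ∀ u v u' v', c u v = c u' v' → (R u v ↔ R u' v')) {u v u' v' : V}
    (h : c u v = c u' v') :
    {w | P u w ∧ R w v}.ncard = {w | P u' w ∧ R w v'}.ncard := by
  classical
  let F : κ × κ → ℝ := fun p => if (∃ a b, c a b = p.1 ∧ P a b) ∧ (∃ a b, c a b = p.2 ∧ R a b)
    then 1 else 0
  have hFP : ∀ a b, (∃ a' b', c a' b' = c a b ∧ P a' b') ↔ P a b := by
    intro a b
    constructor
    · rintro ⟨a', b', h, h'⟩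
      exact (hP _ _ _ _ h).1 h'
    · intro h
      exact ⟨a, b, rfl, h⟩
  have hFR : ∀ a b, (∃ a' b', c a' b' = c a b ∧ R a' b') ↔ R a b := by
    intro a b
    constructor
    · rintro ⟨a', b', h, h'⟩
      exact (hR _ _ _ _ h).1 h'
    · intro h
      exact ⟨a, b, rfl, h⟩
  have h1 := sum_eq hc h F
  simp only [F, hFP, hFR] at h1
  rw [Finset.sum_boole, Finset.sum_boole] at h1
  have h2 : ∀ a b : V, {w | P a w ∧ R w b}.ncard
      = (Finset.univ.filter (fun w => P a w ∧ R w b)).card := by
    intro a b
    rw [Set.ncard_eq_toFinset_card']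
    congr 1
    ext w; simp
  rw [h2, h2]
  exact_mod_cast h1

/-- The distance in a constituent is determined by the colour. -/
theorem dist_eq_of_color (hc : IsPCC c) {i : κ} (hconn : (constituent c i).Connected)
    {u v u' v' : V} (h : c u v = c u' v') :
    (constituent c i).dist u v = (constituent c i).dist u' v' := by
  classical
  have key : ∀ {u v u' v' : V}, c u v = c u' v' →
      (constituent c i).dist u' v' ≤ (constituent c i).dist u v := by
    intro u v u' v' h
    obtain ⟨p, hp⟩ := hconn.exists_walk_length_eq_dist u v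
    have hmem : ∀ n : ℕ, ((constituent c i).adjMatrix ℝ) ^ n ∈ alg hc :=
      fun n => (alg hc).pow_mem (adj_mem hc i) n
    have h1 := hmem p.length u v u' v' h
    rw [SimpleGraph.adjMatrix_pow_apply_eq_card_walk,
      SimpleGraph.adjMatrix_pow_apply_eq_card_walk] at h1
    have h2 : Fintype.card {q : (constituent c i).Walk u v | q.length = p.length} =
        Fintype.card {q : (constituent c i).Walk u' v' | q.length = p.length} := by
      exact_mod_cast h1
    have h3 : 0 < Fintype.card {q : (constituent c i).Walk u v | q.length = p.length} :=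
      Fintype.card_pos_iff.2 ⟨⟨p, rfl⟩⟩
    rw [h2] at h3
    obtain ⟨⟨q, hq⟩⟩ := Fintype.card_pos_iff.1 h3
    rw [← hp, ← hq]
    exact SimpleGraph.dist_le q
  exact le_antisymm (key h.symm) (key h)

/-- A configuration is metric with respect to the constituent `G` if the colour of a pair is
determined by its distance in `G`. -/
structure Metric (c : V → V → κ) (G : SimpleGraph V) : Prop where
  conn : G.Connected
  color : ∀ u v u' v', G.dist u v = G.dist u' v' → c u v = c u' v'
  dist : ∀ u v u' v', c u v = c u' v' → G.dist u v = G.dist u' v'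

namespace Metric

variable {G : SimpleGraph V}

omit [Fintype V] in
theorem adj_iff (hG : Metric c G) {u v u' v' : V} (h : c u v = c u' v') :
    G.Adj u v ↔ G.Adj u' v' := by
  rw [← SimpleGraph.dist_eq_one_iff_adj, ← SimpleGraph.dist_eq_one_iff_adj, hG.dist _ _ _ _ h]

/-- distance-regularity -/
theorem ncard_layer (hc : IsPCC c) (hG : Metric c G) (a : ℕ) {u v u' v' : V}
    (h : G.dist u v = G.dist u' v') :
    {w | G.dist u w = a ∧ G.Adj w v}.ncard = {w | G.dist u' w = a ∧ G.Adj w v'}.ncard := by
  refine ncard_inter_eq hc (P := fun u w => G.dist u w = a) (R := fun w v => G.Adj w v) ?_ ?_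
    (hG.color _ _ _ _ h)
  · intro u v u' v' h
    rw [hG.dist _ _ _ _ h]
  · intro u v u' v' h
    exact hG.adj_iff h

omit [Fintype V] in
/-- A geodesic of length `d`. -/
theorem exists_geodesic (hG : G.Connected) (u v : V) :
    ∃ x : ℕ → V, x 0 = u ∧ x (G.dist u v) = v ∧
      (∀ a < G.dist u v, G.Adj (x a) (x (a + 1))) ∧
      ∀ a b, a ≤ b → b ≤ G.dist u v → G.dist (x a) (x b) = b - a := by
  obtain ⟨p, hp⟩ := hG.exists_walk_length_eq_dist u v
  refine ⟨p.getVert, p.getVert_zero, ?_, ?_, ?_⟩
  · rw [← hp]; exact p.getVert_length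
  · intro a ha
    rw [← hp] at ha
    exact p.adj_getVert_succ ha
  · have hup : ∀ a k, a + k ≤ G.dist u v → G.dist (p.getVert a) (p.getVert (a + k)) ≤ k := by
      intro a k
      induction k with
      | zero => intro _; simp
      | succ k ih =>
        intro hk
        have h1 := ih (by omega)
        have h2 : G.Adj (p.getVert (a + k)) (p.getVert (a + k + 1)) :=
          p.adj_getVert_succ (by rw [hp]; omega)
        have h3 : G.dist (p.getVert a) (p.getVert (a + (k + 1))) ≤
            G.dist (p.getVert a) (p.getVert (a + k)) +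
              G.dist (p.getVert (a + k)) (p.getVert (a + (k + 1))) := hG.dist_triangle
        have h4 : G.dist (p.getVert (a + k)) (p.getVert (a + (k + 1))) = 1 :=
          SimpleGraph.dist_eq_one_iff_adj.2 h2
        omega
    intro a b hab hb
    have h1 := hup a (b - a) (by omega)
    rw [Nat.add_sub_cancel' hab] at h1
    have h2 := hup 0 a (by omega)
    have h3 := hup b (G.dist u v - b) (by omega)
    rw [Nat.zero_add, p.getVert_zero] at h2
    rw [Nat.add_sub_cancel' hb] at h3
    have h4 : p.getVert (G.dist u v) = v := by rw [← hp]; exact p.getVert_length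
    rw [h4] at h3
    have h5 : G.dist u v ≤ G.dist u (p.getVert b) + G.dist (p.getVert b) v := hG.dist_triangle
    have h6 : G.dist u (p.getVert b) ≤ G.dist u (p.getVert a) +
      G.dist (p.getVert a) (p.getVert b) := hG.dist_triangle
    omega

/-- If `b_s = 1` for some `s` with `3 s ≤ d`, the valency is at most two. -/
theorem no_long (hc : IsPCC c) (hG : Metric c G) (hk : ∀ v, 3 ≤ (G.neighborSet v).ncard)
    {s : ℕ} (hs : 1 ≤ s) {u v : V} (hd : 3 * s ≤ G.dist u v)
    (hb : ∀ a b : V, G.dist a b = s → {w | G.dist a w = s + 1 ∧ G.Adj w b}.ncard ≤ 1) : False := by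
  classical
  obtain ⟨x, hx0, hxd, hxadj, hxdist⟩ := exists_geodesic hG.conn u v
  set d := G.dist u v with hdd
  have htri : ∀ a b e : V, G.dist a e ≤ G.dist a b + G.dist b e := fun a b e =>
    hG.conn.dist_triangle
  have hadj1 : ∀ a b : V, G.Adj a b → G.dist a b = 1 := fun a b h =>
    SimpleGraph.dist_eq_one_iff_adj.2 h
  -- `c_j ≤ 1` for `1 ≤ j ≤ d - s`
  have hcj : ∀ j, 1 ≤ j → s + j ≤ d → ∀ a b : V, G.dist a b = j →
      {w | G.dist a w = j - 1 ∧ G.Adj w b}.ncard ≤ 1 := by
    intro j hj hjd a b hab
    have h1 : G.dist (x (s + j)) (x s) = j := by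
      rw [SimpleGraph.dist_comm, hxdist s (s + j) (by omega) hjd]; omega
    rw [hG.ncard_layer hc (j - 1) (hab.trans h1.symm)]
    have h2 : G.dist (x 0) (x s) = s := by
      rw [hxdist 0 s (by omega) (by omega)]; omega
    refine le_trans (Set.ncard_le_ncard ?_ (Set.toFinite _)) (hb (x 0) (x s) h2)
    rintro w ⟨hw1, hw2⟩
    refine ⟨?_, hw2⟩
    have h3 : G.dist (x 0) (x (s + j)) = s + j := by
      rw [hxdist 0 (s + j) (by omega) hjd]; omega
    have h4 := htri (x 0) w (x (s + j))
    rw [SimpleGraph.dist_comm (u := w), hw1] at h4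
    have h5 := htri (x 0) (x s) w
    rw [h2, hadj1 _ _ hw2.symm] at h5
    omega
  have huniq : ∀ {S : Set V}, S.ncard ≤ 1 → ∀ a b, a ∈ S → b ∈ S → a = b := by
    intro S hS a b ha hb
    exact (Set.ncard_le_one (Set.toFinite _)).1 hS a ha b hb
  -- a third neighbour of `x s`
  obtain ⟨z, hz, hz1, hz2⟩ : ∃ z, G.Adj (x s) z ∧ z ≠ x (s - 1) ∧ z ≠ x (s + 1) := by
    by_contra hcon
    push Not at hcon
    have h1 : G.neighborSet (x s) ⊆ {x (s - 1), x (s + 1)} := by
      intro z hz
      by_cases h : z = x (s - 1)
      · exact Or.inl h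
      · exact Or.inr (hcon z hz h)
    have h2 := Set.ncard_le_ncard h1 (Set.toFinite _)
    have h3 := Set.ncard_insert_le (x (s - 1)) {x (s + 1)}
    rw [Set.ncard_singleton] at h3
    have h4 := hk (x s)
    omega
  have hdx : ∀ a b, a ≤ b → b ≤ d → G.dist (x a) (x b) = b - a := hxdist
  have hzd : G.dist (x 0) z = s := by
    have h0 : G.dist (x 0) (x s) = s := by rw [hdx 0 s (by omega) (by omega)]; omega
    have h1 := htri (x 0) (x s) z
    rw [hadj1 _ _ hz, h0] at h1
    have h2 := htri (x 0) z (x s)
    rw [hadj1 _ _ hz.symm, h0] at h2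
    have h3 : G.dist (x 0) z ≠ s + 1 := by
      intro h
      apply hz2
      refine huniq (hb (x 0) (x s) h0) z (x (s + 1)) ⟨h, hz.symm⟩ ⟨?_, (hxadj s (by omega)).symm⟩
      rw [hdx 0 (s + 1) (by omega) (by omega)]; omega
    have h4 : G.dist (x 0) z ≠ s - 1 := by
      intro h
      apply hz1
      refine huniq (hcj s hs (by omega) (x 0) (x s) h0) z (x (s - 1)) ⟨h, hz.symm⟩ ⟨?_, ?_⟩
      · rw [hdx 0 (s - 1) (by omega) (by omega)]; omega
      · have := hxadj (s - 1) (by omega)
        rwa [Nat.sub_add_cancel hs] at this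
    omega
  have hzd' : G.dist (x (2 * s)) z = s := by
    have h0 : G.dist (x (2 * s)) (x s) = s := by
      rw [SimpleGraph.dist_comm, hdx s (2 * s) (by omega) (by omega)]; omega
    have h1 := htri (x (2 * s)) (x s) z
    rw [hadj1 _ _ hz, h0] at h1
    have h2 := htri (x (2 * s)) z (x s)
    rw [hadj1 _ _ hz.symm, h0] at h2
    have h3 : G.dist (x (2 * s)) z ≠ s + 1 := by
      intro h
      apply hz1
      refine huniq (hb (x (2 * s)) (x s) h0) z (x (s - 1)) ⟨h, hz.symm⟩ ⟨?_, ?_⟩
      · rw [SimpleGraph.dist_comm, hdx (s - 1) (2 * s) (by omega) (by omega)]; omega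
      · have := hxadj (s - 1) (by omega)
        rwa [Nat.sub_add_cancel hs] at this
    have h4 : G.dist (x (2 * s)) z ≠ s - 1 := by
      intro h
      apply hz2
      refine huniq (hcj s hs (by omega) (x (2 * s)) (x s) h0) z (x (s + 1)) ⟨h, hz.symm⟩
        ⟨?_, (hxadj s (by omega)).symm⟩
      rw [SimpleGraph.dist_comm, hdx (s + 1) (2 * s) (by omega) (by omega)]; omega
    omega
  -- uniqueness of the points of a geodesic
  have hline : ∀ j, j ≤ s → ∀ w, G.dist (x 0) w = 2 * s - j → G.dist w (x (2 * s)) = j →
      w = x (2 * s - j) := by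
    intro j
    induction j with
    | zero =>
      intro _ w _ hw2
      rw [Nat.sub_zero]
      exact (hG.conn.dist_eq_zero_iff).1 hw2
    | succ j ih =>
      intro hj w hw1 hw2
      -- a neighbour closer to `x (2 s)`
      obtain ⟨y, hy0, hyd, hyadj, hydist⟩ := exists_geodesic hG.conn w (x (2 * s))
      rw [hw2] at hyd hyadj hydist
      have hadj : G.Adj w (y 1) := by
        have := hyadj 0 (by omega)
        rwa [hy0] at this
      have h1 : G.dist (y 1) (x (2 * s)) = j := by
        have := hydist 1 (j + 1) (by omega) le_rfl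
        rw [hyd] at this
        omega
      have h2 : G.dist (x 0) (y 1) = 2 * s - j := by
        have h3 := htri (x 0) w (y 1)
        rw [hadj1 _ _ hadj, hw1] at h3
        have h4 := htri (x 0) (y 1) (x (2 * s))
        rw [h1, hdx 0 (2 * s) (by omega) (by omega)] at h4
        omega
      have h3 := ih (by omega) (y 1) h2 h1
      rw [h3] at hadj
      have h4 : G.dist (x 0) (x (2 * s - j)) = 2 * s - j := by
        rw [hdx 0 (2 * s - j) (by omega) (by omega)]; omega
      refine huniq (hcj (2 * s - j) (by omega) (by omega) (x 0) (x (2 * s - j)) h4) w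
        (x (2 * s - (j + 1))) ⟨by rw [hw1]; omega, hadj⟩ ⟨?_, ?_⟩
      · rw [hdx 0 (2 * s - (j + 1)) (by omega) (by omega)]; omega
      · have := hxadj (2 * s - (j + 1)) (by omega)
        have h5 : 2 * s - (j + 1) + 1 = 2 * s - j := by omega
        rwa [h5] at this
  have h1 := hline s le_rfl z (by rw [hzd]; omega) (by rw [SimpleGraph.dist_comm, hzd'])
  have h2 : 2 * s - s = s := by omega
  rw [h2] at h1
  rw [h1] at hz
  exact G.loopless.irrefl _ hz

/-- Godsil's diameter bound for idempotents. -/
theorem dist_le [DecidableEq V] (hc : IsPCC c) (hG : Metric c G)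
    (hk : ∀ v, 3 ≤ (G.neighborSet v).ncard) {Q : Matrix V V ℝ} (hQ : Proj c Q) (u v : V) :
    (G.dist u v : ℝ) ≤ 3 * ∑ w, Q w w := by
  have hrk := hQ.exists_rank
  set m := Module.finrank ℝ (LinearMap.range (Matrix.toLin' Q)) with hm
  rw [← hrk]
  by_contra hcon
  push Not at hcon
  have hcon' : 3 * m < G.dist u v := by exact_mod_cast hcon
  obtain ⟨x, hx0, hxd, hxadj, hxdist⟩ := exists_geodesic hG.conn u v
  set d := G.dist u v with hdd
  -- the columns
  let q : ℕ → V → ℝ := fun a y => Q y (x a)
  have hqmem : ∀ a, q a ∈ LinearMap.range (Matrix.toLin' Q) := by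
    intro a
    refine ⟨Pi.single (x a) 1, ?_⟩
    rw [Matrix.toLin'_apply]
    ext y
    simp [q]
  -- a dependent column
  obtain ⟨r, hrm, hr⟩ : ∃ r ≤ m, q r ∈ Submodule.span ℝ (q '' {a | a < r}) := by
    by_contra hcon2
    push Not at hcon2
    have hind : ∀ k, k ≤ m + 1 → LinearIndependent ℝ (fun a : Fin k => q a) := by
      intro k
      induction k with
      | zero => intro _; exact linearIndependent_empty_type
      | succ k ih =>
        intro hk1
        rw [linearIndependent_finSucc']
        refine ⟨ih (by omega), ?_⟩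
        have h1 := hcon2 k (by omega)
        have h2 : q '' {a | a < k} = Set.range (Fin.init (fun a : Fin (k + 1) => q a)) := by
          ext f
          constructor
          · rintro ⟨a, ha, rfl⟩
            exact ⟨⟨a, ha⟩, rfl⟩
          · rintro ⟨a, rfl⟩
            exact ⟨a, a.2, rfl⟩
        rw [h2] at h1
        exact h1
    have h1 := hind (m + 1) le_rfl
    let q' : Fin (m + 1) → LinearMap.range (Matrix.toLin' Q) := fun a => ⟨q a, hqmem a⟩
    have h2 : LinearIndependent ℝ q' := by
      have h3 : (fun a : Fin (m + 1) => q a) =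
          (LinearMap.range (Matrix.toLin' Q)).subtype ∘ q' := rfl
      rw [h3] at h1
      exact h1.of_comp _
    have h3 := h2.fintype_card_le_finrank
    rw [Fintype.card_fin, ← hm] at h3
    omega
  have hpos : ∀ w, 0 < Q w w := fun w => hQ.pos hc w
  -- `r ≥ 1`
  have hr1 : 1 ≤ r := by
    rcases Nat.eq_zero_or_pos r with h | h
    · exfalso
      rw [h] at hr
      have h1 : q '' {a | a < 0} = ∅ := by
        rw [Set.image_eq_empty]
        ext a; simp
      rw [h1, Submodule.span_empty, Submodule.mem_bot] at hr
      have h2 := congrFun hr (x 0)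
      have h3 := hpos (x 0)
      simp only [q, Pi.zero_apply] at h2
      linarith
    · exact h
  -- the next vertex of the geodesic is unique
  have hnext : ∀ y, G.dist (x 0) y = r → G.Adj (x (r - 1)) y → y = x r := by
    intro y hy hadj
    by_contra hne
    let L : (V → ℝ) →ₗ[ℝ] ℝ :=
      LinearMap.proj (R := ℝ) (φ := fun _ : V => ℝ) (x r) -
        LinearMap.proj (R := ℝ) (φ := fun _ : V => ℝ) y
    have hL : Submodule.span ℝ (q '' {a | a < r}) ≤ LinearMap.ker L := by
      rw [Submodule.span_le]
      rintro f ⟨a, ha, rfl⟩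
      have ha' : a < r := ha
      rw [SetLike.mem_coe, LinearMap.mem_ker]
      change Q (x r) (x a) - Q y (x a) = 0
      have h1 : G.dist (x a) y = r - a := by
        have h2 : G.dist (x a) y ≤ G.dist (x a) (x (r - 1)) + G.dist (x (r - 1)) y :=
          hG.conn.dist_triangle
        rw [SimpleGraph.dist_eq_one_iff_adj.2 hadj, hxdist a (r - 1) (by omega) (by omega)] at h2
        have h3 : G.dist (x 0) y ≤ G.dist (x 0) (x a) + G.dist (x a) y := hG.conn.dist_triangle
        rw [hy, hxdist 0 a (by omega) (by omega)] at h3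
        omega
      have h2 : G.dist (x a) (x r) = r - a := hxdist a r (by omega) (by omega)
      rw [hQ.symm, hQ.symm y, hQ.mem _ _ _ _ (hG.color _ _ _ _ (h2.trans h1.symm)), sub_self]
    have h1 := hL hr
    rw [LinearMap.mem_ker] at h1
    have h2 : Q (x r) (x r) - Q y (x r) = 0 := h1
    exact hQ.inj hc hne (x r) (by linarith)
  set s := r - 1 with hs
  have hsr : s + 1 = r := by omega
  -- `b_s = 1`
  have hb : ∀ a b : V, G.dist a b = s → {w | G.dist a w = s + 1 ∧ G.Adj w b}.ncard ≤ 1 := by
    intro a b hab
    have h1 : G.dist (x 0) (x s) = s := by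
      rw [hxdist 0 s (by omega) (by omega)]; omega
    rw [hG.ncard_layer hc (s + 1) (hab.trans h1.symm), Set.ncard_le_one (Set.toFinite _)]
    rintro w ⟨hw1, hw2⟩ w' ⟨hw1', hw2'⟩
    rw [hnext w (by rw [hw1, hsr]) hw2.symm, hnext w' (by rw [hw1', hsr]) hw2'.symm]
  rcases Nat.eq_zero_or_pos s with h0 | h0
  · -- the valency would be one
    have h1 := hb u u (by rw [h0, SimpleGraph.dist_self])
    have h2 : {w | G.dist u w = s + 1 ∧ G.Adj w u} = G.neighborSet u := by
      ext w
      rw [SimpleGraph.mem_neighborSet, h0]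
      constructor
      · rintro ⟨_, h⟩; exact h.symm
      · intro h; exact ⟨SimpleGraph.dist_eq_one_iff_adj.2 h, h.symm⟩
    rw [h2] at h1
    have h3 := hk u
    omega
  · exact hG.no_long hc hk h0 (u := u) (v := v) (by omega) hb

/-- The spheres of a connected graph of maximum degree two have at most two elements. -/
theorem sphere_le_two (hG : G.Connected) (h2 : ∀ v, (G.neighborSet v).ncard ≤ 2) (u : V) :
    ∀ j : ℕ, {w | G.dist u w = j}.ncard ≤ 2 := by
  classical
  have hstep : ∀ j, 1 ≤ j → {w | G.dist u w = j + 1}.ncard ≤ {w | G.dist u w = j}.ncard := by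
    intro j hj
    have hex : ∀ w, G.dist u w = j + 1 → ∃ y, G.dist u y = j ∧ G.Adj y w := by
      intro w hw
      obtain ⟨x, hx0, hxd, hxadj, hxdist⟩ := exists_geodesic hG u w
      rw [hw] at hxd hxadj hxdist
      refine ⟨x j, ?_, ?_⟩
      · have := hxdist 0 j (by omega) (by omega)
        rw [hx0] at this
        omega
      · have := hxadj j (by omega)
        rwa [hxd] at this
    let f : V → V := fun w => if h : G.dist u w = j + 1 then (hex w h).choose else w
    have hf : ∀ w, G.dist u w = j + 1 → G.dist u (f w) = j ∧ G.Adj (f w) w := by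
      intro w hw
      simp only [f, dif_pos hw]
      exact (hex w hw).choose_spec
    refine Set.ncard_le_ncard_of_injOn f (fun w hw => (hf w hw).1) ?_ (Set.toFinite _)
    intro w hw w' hw' hww
    by_contra hne
    have h3 := hf w hw
    have h4 := hf w' hw'
    rw [← hww] at h4
    -- a neighbour one step closer
    obtain ⟨x, hx0, hxd, hxadj, hxdist⟩ := exists_geodesic hG u (f w)
    rw [h3.1] at hxd hxadj hxdist
    have h5 : G.Adj (f w) (x (j - 1)) := by
      have := hxadj (j - 1) (by omega)
      rw [Nat.sub_add_cancel hj, hxd] at this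
      exact this.symm
    have h6 : G.dist u (x (j - 1)) = j - 1 := by
      have := hxdist 0 (j - 1) (by omega) (by omega)
      rw [hx0] at this
      omega
    have hw1 : G.dist u w = j + 1 := hw
    have hw2 : G.dist u w' = j + 1 := hw'
    have h7 : ({x (j - 1), w, w'} : Set V) ⊆ G.neighborSet (f w) := by
      rintro y (h | h | h)
      · rw [h]; exact h5
      · rw [h]; exact h3.2
      · rw [Set.mem_singleton_iff.1 h]; exact h4.2
    have h8 : ({x (j - 1), w, w'} : Set V).ncard = 3 := by
      rw [Set.ncard_eq_three]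
      refine ⟨x (j - 1), w, w', ?_, ?_, hne, rfl⟩
      · intro h; rw [h] at h6; omega
      · intro h; rw [h] at h6; omega
    have h9 := Set.ncard_le_ncard h7 (Set.toFinite _)
    have h10 := h2 (f w)
    omega
  intro j
  induction j with
  | zero =>
    have h1 : {w | G.dist u w = 0} = {u} := by
      ext w
      rw [Set.mem_ofPred_eq, hG.dist_eq_zero_iff, Set.mem_singleton_iff, eq_comm]
    rw [h1, Set.ncard_singleton]
    omega
  | succ j ih =>
    rcases Nat.eq_zero_or_pos j with h | h
    · rw [h]
      have h1 : {w | G.dist u w = 0 + 1} = G.neighborSet u := by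
        ext w
        rw [Set.mem_ofPred_eq, zero_add, SimpleGraph.dist_eq_one_iff_adj]
        rfl
      rw [h1]
      exact h2 u
    · exact (hstep j h).trans ih

/-- For valency at most two the distinguishing numbers are large. -/
theorem card_le_two_mul (hc : IsPCC c) (hG : Metric c G) (hn : 3 ≤ Fintype.card V)
    (h2 : ∀ v, (G.neighborSet v).ncard ≤ 2) {a b : V} (hab : a ≠ b) :
    Fintype.card V ≤ 2 * distinguishing c a b := by
  classical
  have hsym : ∀ u w, c u w = c w u := fun u w =>
    hG.color _ _ _ _ SimpleGraph.dist_comm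
  -- a second vertex with the same colour
  obtain ⟨b', hb', hbb⟩ : ∃ b', c a b' = c a b ∧ b' ≠ b := by
    by_contra hcon
    push Not at hcon
    have h1 : {w | c a w = c a b} = {b} := by
      ext w
      constructor
      · intro h; exact hcon w h
      · intro h; rw [Set.mem_singleton_iff.1 h]; rfl
    have h3 : {w | c b w = c a b}.ncard = 1 := by
      have := ncard_eq hc (P := fun u w => c u w = c a b)
        (fun u v u' v' h => by rw [h]) b a
      rw [this, h1, Set.ncard_singleton]
    obtain ⟨a', ha'⟩ := Set.ncard_eq_one.1 h3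
    have h4 : a = a' := by
      have : a ∈ {w | c b w = c a b} := hsym b a
      rw [ha'] at this
      exact this
    have hwalk : ∀ u w, (constituent c (c a b)).Walk u w → (u = a ∨ u = b) → (w = a ∨ w = b) := by
      intro u w p
      induction p with
      | nil => exact fun h => h
      | @cons u' v' w' hadj p ih =>
        intro hu
        apply ih
        rw [constituent, SimpleGraph.fromRel_adj] at hadj
        have h5 : c u' v' = c a b := by
          rcases hadj.2 with h | h
          · exact h
          · rw [hsym]; exact h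
        rcases hu with h | h
        · right
          rw [h] at h5
          exact hcon v' h5
        · left
          rw [h] at h5
          have h6 : v' ∈ {w | c b w = c a b} := h5
          rw [ha', ← h4] at h6
          exact h6
    obtain ⟨e, he⟩ : ∃ e, e ≠ a ∧ e ≠ b := by
      by_contra hcon2
      push Not at hcon2
      have h5 : (Finset.univ : Finset V) ⊆ {a, b} := by
        intro e _
        by_cases h : e = a
        · rw [h]; simp
        · rw [hcon2 e h]; simp
      have h6 := Finset.card_le_card h5
      rw [Finset.card_univ] at h6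
      have h7 := Finset.card_le_two (a := a) (b := b)
      omega
    obtain ⟨p⟩ := (hc.primitive a b hab).preconnected a e
    rcases hwalk a e p (Or.inl rfl) with h | h
    · exact he.1 h
    · exact he.2 h
  have hne' : a ≠ b' := by
    intro h
    rw [← h] at hb'
    exact hc.diag_ne a a b hab hb'
  -- the sets of equidistant vertices
  have hE : {w | c w a = c w b}.ncard = {w | c w a = c w b'}.ncard := by
    let F : κ × κ → ℝ := fun p => if p.1 = p.2 then 1 else 0
    have h1 := sum_eq hc hb'.symm F
    simp only [F] at h1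
    rw [Finset.sum_boole, Finset.sum_boole] at h1
    have h3 : ∀ b : V, {w | c w a = c w b}.ncard
        = (Finset.univ.filter (fun w => c a w = c w b)).card := by
      intro b
      rw [Set.ncard_eq_toFinset_card']
      congr 1
      ext w
      simp [hsym a w]
    rw [h3, h3]
    exact_mod_cast h1
  have hdisj : Disjoint {w | c w a = c w b} {w | c w a = c w b'} := by
    rw [Set.disjoint_left]
    intro w hw hw'
    have h1 : c w a = c w b := hw
    have h3 : c w a = c w b' := hw'
    have h4 := sphere_le_two hG.conn h2 w (G.dist w a)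
    have h5 : ({a, b, b'} : Set V) ⊆ {e | G.dist w e = G.dist w a} := by
      rintro y (h | h | h)
      · rw [h]; rfl
      · rw [h]; exact (hG.dist _ _ _ _ h1).symm
      · rw [Set.mem_singleton_iff.1 h]; exact (hG.dist _ _ _ _ h3).symm
    have h6 : ({a, b, b'} : Set V).ncard = 3 := by
      rw [Set.ncard_eq_three]
      exact ⟨a, b, b', hab, hne', hbb.symm, rfl⟩
    have h7 := Set.ncard_le_ncard h5 (Set.toFinite _)
    omega
  have h1 := Set.ncard_union_eq hdisj (Set.toFinite _) (Set.toFinite _)
  have h3 : ({w | c w a = c w b} ∪ {w | c w a = c w b'}).ncard ≤ Fintype.card V := by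
    rw [← Nat.card_eq_fintype_card, ← Set.ncard_univ]
    exact Set.ncard_le_ncard (Set.subset_univ _) (Set.toFinite _)
  have h4 : {w | c w a = c w b}.ncard + distinguishing c a b = Fintype.card V := by
    rw [distinguishing, ← Nat.card_eq_fintype_card, ← Set.ncard_univ]
    have h5 : {w | c w a ≠ c w b} = {w | c w a = c w b}ᶜ := rfl
    rw [h5, Set.ncard_add_ncard_compl, Set.ncard_univ]
  omega

end Metric

end metric

end Pool.Agent.Lib.MP_7beb49_co
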