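import Pool.Agent.Lib.MP_7beb49_co.ExpoPow

/-!
# The number of points where a reversed martingale starts high

The scalar optimisation in the power inequality of `ExpoPow`.
-/

set_option autoImplicit false
set_option linter.unusedSectionVars false

namespace Pool.Agent.Lib.MP_7beb49_co.Walk

open Finset Matrix Filter Topology

variable {V κ : Type} [Fintype V] [DecidableEq V]

/-- Walks are contractions. -/
theorem walk_contr {W : Matrix V V ℝ} (hW : IsWalk W) (f : V → ℝ) :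
    ∑ y, (W *ᵥ f) y * (W *ᵥ f) y ≤ ∑ y, f y * f y := by
  have h1 : ∀ y, (W *ᵥ f) y * (W *ᵥ f) y ≤ (W *ᵥ fun b => f b * f b) y := by
    intro y
    set m := (W *ᵥ f) y with hm
    have h2 : 0 ≤ ∑ b, W y b * (f b - m) ^ 2 :=
      Finset.sum_nonneg fun b _ => mul_nonneg (hW.nonneg y b) (sq_nonneg _)
    have e1 : ∀ b, W y b * (f b - m) ^ 2 =
        W y b * (f b * f b) - 2 * m * (W y b * f b) + m * m * W y b := fun b => by ring
    have e2 : ∑ b, W y b * f b = m := rfl
    have e3 : ∑ b, W y b * (f b * f b) = (W *ᵥ fun b => f b * f b) y := rfl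
    rw [Finset.sum_congr rfl fun b _ => e1 b, Finset.sum_add_distrib, Finset.sum_sub_distrib,
      ← Finset.mul_sum, ← Finset.mul_sum, hW.sum, e2, e3] at h2
    linarith
  refine (Finset.sum_le_sum fun y _ => h1 y).trans (le_of_eq ?_)
  exact hW.sum_mulVec _

/-- Lazy walks are positive semidefinite contractions. -/
theorem lazy_psd {W : Matrix V V ℝ} (hW : IsWalk W) (f : V → ℝ) :
    ∑ y, (lazy W *ᵥ f) y * (lazy W *ᵥ f) y ≤ ∑ y, f y * (lazy W *ᵥ f) y := by
  have h1 := walk_contr hW f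
  have e1 : ∀ y, f y * (lazy W *ᵥ f) y - (lazy W *ᵥ f) y * (lazy W *ᵥ f) y =
      1 / 4 * (f y * f y) - 1 / 4 * ((W *ᵥ f) y * (W *ᵥ f) y) := by
    intro y
    rw [lazy_mulVec]
    ring
  have h2 : ∑ y, f y * (lazy W *ᵥ f) y - ∑ y, (lazy W *ᵥ f) y * (lazy W *ᵥ f) y =
      1 / 4 * ∑ y, f y * f y - 1 / 4 * ∑ y, (W *ᵥ f) y * (W *ᵥ f) y := by
    rw [← Finset.sum_sub_distrib, Finset.sum_congr rfl fun y _ => e1 y, Finset.sum_sub_distrib,
      ← Finset.mul_sum, ← Finset.mul_sum]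
  linarith

theorem exp_sub_ge {z : ℝ} (hz : 0 ≤ z) : z ^ 2 / 4 * Real.exp (z / 2) ≤ Real.exp z - 1 - z := by
  have h1 : Real.exp (z / 2) ^ 2 = Real.exp z := by
    rw [← Real.exp_nat_mul]; congr 1; push_cast; ring
  have h2 : Real.exp (z / 4) ^ 2 = Real.exp (z / 2) := by
    rw [← Real.exp_nat_mul]; congr 1; push_cast; ring
  have h3 := Real.add_one_le_exp (z / 2)
  -- `exp (z/2) - 1 ≥ (z/2) exp (z/4)`
  have h4 : z / 2 * Real.exp (z / 4) ≤ Real.exp (z / 2) - 1 := by
    have h5 : z / 4 ≤ Real.sinh (z / 4) := Real.self_le_sinh_iff.2 (by linarith)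
    rw [Real.sinh_eq] at h5
    have h6 : Real.exp (-(z / 4)) * Real.exp (z / 4) = 1 := by rw [← Real.exp_add]; simp
    have h7 := mul_le_mul_of_nonneg_right h5 (Real.exp_pos (z / 4)).le
    nlinarith
  have h5 : 0 ≤ z / 2 * Real.exp (z / 4) := by positivity
  have h6 : (z / 2 * Real.exp (z / 4)) ^ 2 ≤ (Real.exp (z / 2) - 1) ^ 2 :=
    pow_le_pow_left₀ h5 h4 2
  have h7 : (z / 2 * Real.exp (z / 4)) ^ 2 = z ^ 2 / 4 * Real.exp (z / 2) := by
    rw [mul_pow, h2]; ring
  rw [h7] at h6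
  nlinarith

theorem th_ge {δ β m t : ℝ} (hδ : 0 < δ) (hβ : 0 ≤ β) (hm : m ≤ 1) (ht : 0 ≤ t)
    (hmt : t ≤ -Real.log ((1 - m + δ) / (1 + δ))) :
    (β * t) ^ 2 / 4 * Real.exp (β * t / 2) ≤ th δ β m := by
  have hp : 0 < (1 - m + δ) / (1 + δ) := by
    have : 0 < 1 - m + δ := by linarith
    positivity
  set u := -Real.log ((1 - m + δ) / (1 + δ)) with hu
  have h1 : pot δ β m = Real.exp (β * u) := by
    rw [pot, Real.rpow_def_of_pos hp, hu]
    congr 1; ring
  have h2 : m / (1 + δ) ≤ u := by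
    have h3 := Real.log_le_sub_one_of_pos hp
    have h4 : (1 - m + δ) / (1 + δ) - 1 = -(m / (1 + δ)) := by field_simp; ring
    rw [h4] at h3
    rw [hu]; linarith
  have h3 : β * (m / (1 + δ)) ≤ β * u := mul_le_mul_of_nonneg_left h2 hβ
  have h4 : β * t ≤ β * u := mul_le_mul_of_nonneg_left hmt hβ
  have h5 : 0 ≤ β * t := mul_nonneg hβ ht
  have h6 := exp_sub_ge (h5.trans h4)
  have h7 : (β * t) ^ 2 / 4 * Real.exp (β * t / 2) ≤ (β * u) ^ 2 / 4 * Real.exp (β * u / 2) := by
    refine mul_le_mul ?_ (Real.exp_le_exp.2 (by linarith)) (Real.exp_pos _).le (by positivity)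
    have := pow_le_pow_left₀ h5 h4 2
    linarith
  rw [th, h1]
  linarith

/-- **The number of high starting points.** -/
theorem card_pow {P : Matrix V V ℝ} (hP : IsWalk P) {col : V → κ} {M : ℕ → V → ℝ} {a x : ℕ → ℝ}
    {α K : ℝ} (hα : 0 < α) (hα1 : α < 1) (hK : 0 < K) (hK1 : K ≤ 1 / 65536)
    (hM : ∀ s, P *ᵥ M s = M (s + 1))
    (hcol : ∀ s y b, col b = col y → M s b = M s y)
    (ha : a 0 ≤ 1 - α → ∀ s y b, P y b ≠ 0 →
      (M s b - M s y) ^ 2 ≤ 4 * a s * (1 - M s y + (1 - α)))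
    (ha0 : ∀ s, 0 ≤ a s) (hanti : ∀ s, a (s + 1) ≤ a s) (hx0 : 0 ≤ x 0) (hx1 : ∀ s, x s ≤ 1)
    (hmono : ∀ s, x s ≤ x (s + 1)) (hax : ∀ s, a s ≤ 4 * (x (s + 1) - x s))
    (hxa : ∀ s, x (s + 1) - x s ≤ a s / 2) (hMx : ∀ s y, M s y ≤ 1 - x s / 2)
    (haK : 8 * K ≤ α → a 0 ≤ 600 * K ^ 2 * (1 - α) / α ^ 2)
    (hpsd : ∀ s, ∑ y, M (s + 1) y * M (s + 1) y ≤ ∑ y, M s y * M (s + 1) y)
    (hlim : ∀ ε > 0, ∃ T, ∀ y, |M T y| ≤ ε) (Y : Finset V) (hYM : ∀ y ∈ Y, α ≤ M 0 y)
    (hY : ∀ y ∈ Y, ∀ k : ℕ, S P (P *ᵥ rate P col) k y ≤ k * K) :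
    (Y.card : ℝ) ≤ 100000 / α ^ 3 *
      Real.exp (-(Real.log ((1 + (1 - α)) / (2 * (1 - α))) ^ 2 /
        (73728 * K * Real.log ((1 + (1 - α)) / (1 - α))))) * ∑ y, M 0 y * M 0 y := by
  set δ : ℝ := 1 - α with hδdef
  have hδ : 0 < δ := by rw [hδdef]; linarith
  have hδ1 : δ < 1 := by rw [hδdef]; linarith
  have hαδ : α = 1 - δ := by rw [hδdef]; ring
  set t : ℝ := Real.log ((1 + δ) / (2 * δ)) with ht
  set ℓ : ℝ := Real.log ((1 + δ) / δ) with hℓ
  set S2 : ℝ := ∑ y, M 0 y * M 0 y with hS2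
  have hS20 : 0 ≤ S2 := Finset.sum_nonneg fun y _ => mul_self_nonneg _
  have hα3 : 0 < α ^ 3 := by positivity
  -- facts on `t`, `ℓ`
  have ht1 : α / 2 ≤ t := by
    have h1 := Real.one_sub_inv_le_log_of_pos (show 0 < (1 + δ) / (2 * δ) by positivity)
    rw [inv_div] at h1
    have h2 : α / 2 ≤ 1 - 2 * δ / (1 + δ) := by
      have h3 : 1 - 2 * δ / (1 + δ) = α / (1 + δ) := by rw [hαδ]; field_simp; ring
      rw [h3]
      exact div_le_div_of_nonneg_left hα.le (by linarith) (by linarith)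
    linarith
  have ht0 : 0 < t := by linarith
  have htℓ : t = ℓ - Real.log 2 := by
    rw [ht, hℓ, ← Real.log_div (by positivity) (by norm_num)]
    congr 1
    field_simp
  have hlog2 : 0 < Real.log 2 := Real.log_pos (by norm_num)
  have hℓ0 : 0 < ℓ := by linarith
  have htα : t ≤ α * ℓ := by
    have h1 := rpow_one_add_le_one_add_mul_self (s := 1 / δ) (by
      have : 0 < 1 / δ := by positivity
      linarith) (p := δ) hδ.le hδ1.le
    have h2 : 1 + δ * (1 / δ) = 2 := by field_simp; norm_num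
    rw [h2] at h1
    have h3 : δ * ℓ ≤ Real.log 2 := by
      have h4 : (1 + δ) / δ = 1 + 1 / δ := by field_simp; ring
      rw [hℓ, h4, ← Real.log_rpow (by positivity)]
      exact Real.log_le_log (by positivity) h1
    rw [htℓ, hαδ]
    linarith
  -- the exponent
  set β : ℝ := t / (9216 * K * ℓ) with hβ
  have hβ0 : 0 < β := by positivity
  have hβK : β * (9216 * K * ℓ) = t := by rw [hβ]; field_simp
  set z : ℝ := β * t with hz
  have hz0 : 0 < z := by positivity
  have hzexp : t ^ 2 / (73728 * K * ℓ) = z / 8 := by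
    rw [hz, hβ]; field_simp; norm_num
  rw [hzexp]
  have hYle : (Y.card : ℝ) * α ^ 2 ≤ S2 := by
    have h1 : ∀ y ∈ Y, α ^ 2 ≤ M 0 y * M 0 y := by
      intro y hy
      have := hYM y hy
      nlinarith
    calc (Y.card : ℝ) * α ^ 2 = ∑ _y ∈ Y, α ^ 2 := by rw [Finset.sum_const, nsmul_eq_mul]
      _ ≤ ∑ y ∈ Y, M 0 y * M 0 y := Finset.sum_le_sum h1
      _ ≤ S2 := Finset.sum_le_sum_of_subset_of_nonneg (subset_univ _)
        fun y _ _ => mul_self_nonneg _
  by_cases hβ5 : 5 ≤ β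
  · -- the main case
    have hKα : 46080 * K * ℓ ≤ t := by
      have : 5 * (9216 * K * ℓ) ≤ β * (9216 * K * ℓ) :=
        mul_le_mul_of_nonneg_right hβ5 (by positivity)
      rw [hβK] at this
      linarith
    have h8 : 8 * K ≤ α := by
      have h1 : 46080 * K * ℓ ≤ α * ℓ := hKα.trans htα
      have h2 : 46080 * K ≤ α := le_of_mul_le_mul_right h1 hℓ0
      linarith
    have haK' := haK h8
    have hτ : 16 * β ^ 2 * a 0 ≤ δ := by
      have h1 : 16 * β ^ 2 * a 0 ≤ 16 * β ^ 2 * (600 * K ^ 2 * δ / α ^ 2) :=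
        mul_le_mul_of_nonneg_left haK' (by positivity)
      refine h1.trans ?_
      have h2 : 16 * β ^ 2 * (600 * K ^ 2 * δ / α ^ 2) =
          δ * (9600 / 84934656 * (t ^ 2 / (α * ℓ) ^ 2)) := by
        rw [hβ]; field_simp; norm_num
      rw [h2]
      have h3 : t ^ 2 / (α * ℓ) ^ 2 ≤ 1 := by
        rw [div_le_one (by positivity)]
        exact pow_le_pow_left₀ ht0.le htα 2
      have h4 : 9600 / 84934656 * (t ^ 2 / (α * ℓ) ^ 2) ≤ 1 := by
        have : 0 ≤ t ^ 2 / (α * ℓ) ^ 2 := by positivity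
        nlinarith
      calc δ * (9600 / 84934656 * (t ^ 2 / (α * ℓ) ^ 2)) ≤ δ * 1 :=
            mul_le_mul_of_nonneg_left h4 hδ.le
        _ = δ := mul_one δ
    have haδ : a 0 ≤ δ := by
      have h1 : 25 ≤ β ^ 2 := by nlinarith
      have h2 := mul_le_mul_of_nonneg_right h1 (ha0 0)
      have h3 := ha0 0
      nlinarith
    have hale : ∀ s, a s ≤ a 0 := by
      intro s
      induction s with
      | zero => exact le_rfl
      | succ s ih => exact (hanti s).trans ih
    have hxnn : ∀ s, 0 ≤ x s := by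
      intro s
      induction s with
      | zero => exact hx0
      | succ s ih => exact ih.trans (hmono s)
    have hL := damp_sum (a := a) (x := x) hδ hx0 hx1 hmono hax
      (fun s => (hxa s).trans (by linarith [hale s]))
    have key := expoPow (K := K) (L := 6 * ℓ) hP hβ5 hδ hK.le hM hcol (ha haδ) ha0 hanti hxnn
      hmono hMx hτ hL hpsd hlim Y hY
    rw [← hS2] at key
    have hdamp : K * (192 * β ^ 2 * (6 * ℓ)) = z / 8 := by
      have : K * (192 * β ^ 2 * (6 * ℓ)) = β / 8 * (β * (9216 * K * ℓ)) := by ring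
      rw [this, hβK, hz]; ring
    rw [hdamp] at key
    have hthge : ∀ y ∈ Y, z ^ 2 / 4 * Real.exp (z / 2) ≤ th δ β (M 0 y) := by
      intro y hy
      have hm1 : M 0 y ≤ 1 := by linarith [hMx 0 y, hxnn 0]
      refine th_ge hδ hβ0.le hm1 ht0.le ?_
      have h1 : 0 < (1 - M 0 y + δ) / (1 + δ) := by
        have : 0 < 1 - M 0 y + δ := by linarith
        positivity
      rw [← Real.log_inv, inv_div, ht]
      refine Real.log_le_log (by positivity) ?_
      have h2 : 1 - M 0 y + δ ≤ 2 * δ := by linarith [hYM y hy]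
      exact div_le_div_of_nonneg_left (by linarith) (by linarith) h2
    have h1 : (Y.card : ℝ) * (z ^ 2 / 4 * Real.exp (z / 2)) * Real.exp (-(z / 8)) ≤
        1536 * (β ^ 2 * (1 + β)) * S2 := by
      refine le_trans ?_ key
      refine mul_le_mul_of_nonneg_right ?_ (Real.exp_pos _).le
      rw [← nsmul_eq_mul, ← Finset.sum_const]
      exact Finset.sum_le_sum hthge
    -- clean up
    have hexp1 : Real.exp (z / 2) * Real.exp (-(z / 8)) * Real.exp (-(z / 4)) =
        Real.exp (z / 8) := by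
      rw [← Real.exp_add, ← Real.exp_add]; congr 1; ring
    have hze : z * Real.exp (-(z / 4)) ≤ 4 * (37 / 100) := by
      have h2 := Real.add_one_le_exp (z / 4 - 1)
      have h3 : z / 4 ≤ Real.exp (z / 4 - 1) := by linarith
      have h4 : z / 4 * Real.exp (-(z / 4)) ≤ Real.exp (z / 4 - 1) * Real.exp (-(z / 4)) :=
        mul_le_mul_of_nonneg_right h3 (Real.exp_pos _).le
      rw [← Real.exp_add, show z / 4 - 1 + -(z / 4) = -1 by ring] at h4
      have h5 := Real.exp_neg_one_lt_d9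
      have h6 : Real.exp (-1) ≤ 37 / 100 := by
        refine h5.le.trans ?_
        norm_num
      linarith
    -- `β² (1 + β) ≤ (48/5) z³ / α³`, more precisely in terms of `z` and `t`
    have hβt : β = z / t := by rw [hz]; field_simp
    have h2 : β ^ 2 * (1 + β) ≤ z ^ 2 * (4 / α ^ 2) * (12 / 5 * (z / α)) := by
      have h3 : β ≤ 2 * (z / α) := by
        rw [hβt, ← mul_div_assoc, div_le_div_iff₀ ht0 hα]
        nlinarith
      have h4 : β ^ 2 ≤ z ^ 2 * (4 / α ^ 2) := by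
        have h5 := pow_le_pow_left₀ hβ0.le h3 2
        refine h5.trans (le_of_eq ?_)
        field_simp
        norm_num
      have h5 : 1 + β ≤ 12 / 5 * (z / α) := by
        have : 1 + β ≤ 6 / 5 * β := by linarith
        linarith
      exact mul_le_mul h4 h5 (by linarith) (by positivity)
    have h3 : (Y.card : ℝ) * (z ^ 2 / 4) * Real.exp (z / 8) ≤
        1536 * (z ^ 2 * (4 / α ^ 2) * (12 / 5 * (1 / α))) * (4 * (37 / 100)) * S2 := by
      have h4 : (Y.card : ℝ) * (z ^ 2 / 4) * Real.exp (z / 8) =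
          (Y.card : ℝ) * (z ^ 2 / 4 * Real.exp (z / 2)) * Real.exp (-(z / 8)) *
            Real.exp (-(z / 4)) := by rw [← hexp1]; ring
      rw [h4]
      have h5 : 1536 * (β ^ 2 * (1 + β)) * S2 ≤
          1536 * (z ^ 2 * (4 / α ^ 2) * (12 / 5 * (z / α))) * S2 :=
        mul_le_mul_of_nonneg_right (by linarith) hS20
      calc _ ≤ 1536 * (z ^ 2 * (4 / α ^ 2) * (12 / 5 * (z / α))) * S2 *
            Real.exp (-(z / 4)) :=
            mul_le_mul_of_nonneg_right (h1.trans h5) (Real.exp_pos _).le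
        _ = 1536 * (z ^ 2 * (4 / α ^ 2) * (12 / 5 * (1 / α))) * S2 *
            (z * Real.exp (-(z / 4))) := by ring
        _ ≤ 1536 * (z ^ 2 * (4 / α ^ 2) * (12 / 5 * (1 / α))) * S2 * (4 * (37 / 100)) :=
            mul_le_mul_of_nonneg_left hze (by positivity)
        _ = _ := by ring
    have h4 : (Y.card : ℝ) * Real.exp (z / 8) ≤ 100000 / α ^ 3 * S2 := by
      have h5 : (Y.card : ℝ) * Real.exp (z / 8) * (z ^ 2 / 4) ≤
          100000 / α ^ 3 * S2 * (z ^ 2 / 4) := by
        refine le_trans (le_of_eq (by ring)) (h3.trans ?_)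
        have h6 : 1536 * (z ^ 2 * (4 / α ^ 2) * (12 / 5 * (1 / α))) * (4 * (37 / 100)) * S2 =
            (1536 * 4 * 4 * (12 / 5) * 4 * (37 / 100)) / α ^ 3 * S2 * (z ^ 2 / 4) := by
          field_simp
        rw [h6]
        refine mul_le_mul_of_nonneg_right ?_ (by positivity)
        refine mul_le_mul_of_nonneg_right ?_ hS20
        exact div_le_div_of_nonneg_right (by norm_num) hα3.le
      exact le_of_mul_le_mul_right h5 (by positivity)
    have h5 : Real.exp (z / 8) * Real.exp (-(z / 8)) = 1 := by rw [← Real.exp_add]; simp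
    calc (Y.card : ℝ) = (Y.card : ℝ) * Real.exp (z / 8) * Real.exp (-(z / 8)) := by
          rw [mul_assoc, h5, mul_one]
      _ ≤ 100000 / α ^ 3 * S2 * Real.exp (-(z / 8)) :=
          mul_le_mul_of_nonneg_right h4 (Real.exp_pos _).le
      _ = _ := by ring
  · -- the trivial case
    rw [not_le] at hβ5
    have hδ16 : 1 / 16 < δ := by
      by_contra h
      rw [not_lt] at h
      have h1 : 4 * Real.log 2 ≤ ℓ := by
        have h2 : 4 * Real.log 2 = Real.log (2 ^ 4) := by rw [Real.log_pow]; norm_num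
        rw [h2, hℓ]
        refine Real.log_le_log (by norm_num) ?_
        rw [le_div_iff₀ hδ]
        norm_num
        linarith
      have h2 : 3 / 4 * ℓ ≤ t := by linarith
      have h3 : t < 5 * (9216 * K * ℓ) := by
        rw [← hβK]
        exact mul_lt_mul_of_pos_right hβ5 (by positivity)
      have h4 : K * ℓ ≤ 1 / 65536 * ℓ := mul_le_mul_of_nonneg_right hK1 hℓ0.le
      nlinarith
    have hexp : 1 / 9 ≤ Real.exp (-(z / 8)) := by
      have h1 : z / 8 ≤ Real.log 9 := by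
        have h2 : z ≤ 5 * t := mul_le_mul_of_nonneg_right hβ5.le ht0.le
        have h3 : t ≤ Real.log 9 := by
          refine Real.log_le_log (by positivity) ?_
          rw [div_le_iff₀ (by positivity)]
          linarith
        linarith
      have h2 : Real.exp (-(Real.log 9)) = 1 / 9 := by
        rw [Real.exp_neg, Real.exp_log (by norm_num)]; norm_num
      rw [← h2]
      exact Real.exp_le_exp.2 (by linarith)
    have h1 : (Y.card : ℝ) ≤ S2 / α ^ 2 := by
      rw [le_div_iff₀ (by positivity)]; exact hYle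
    have h2 : S2 / α ^ 2 ≤ 1 / α ^ 3 * S2 := by
      rw [div_le_iff₀ (by positivity)]
      have : 1 / α ^ 3 * S2 * α ^ 2 = S2 / α := by field_simp
      rw [this, le_div_iff₀ hα]
      nlinarith
    have h3 : 1 ≤ 100000 * Real.exp (-(z / 8)) := by linarith
    calc (Y.card : ℝ) ≤ 1 / α ^ 3 * S2 := h1.trans h2
      _ = 1 / α ^ 3 * S2 * 1 := (mul_one _).symm
      _ ≤ 1 / α ^ 3 * S2 * (100000 * Real.exp (-(z / 8))) :=
          mul_le_mul_of_nonneg_left h3 (by positivity)
      _ = _ := by ring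

end Pool.Agent.Lib.MP_7beb49_co.Walk
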