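import Pool.Agent.Lib.MP_7beb49_co.Diff

/-!
# The Rayleigh quotient of a regular graph on functions of sum zero
-/

set_option autoImplicit false

namespace Pool.Agent.Lib.MP_7beb49_co

open Finset Matrix

open Classical in
/-- The largest eigenvalue of the adjacency matrix having an eigenvector orthogonal to the
constants. -/
noncomputable def lam2 {V : Type} [Fintype V] (X : SimpleGraph V) : ℝ :=
  sSup {θ | ∃ f : V → ℝ, f ≠ 0 ∧ ∑ v, f v = 0 ∧ (X.adjMatrix ℝ).mulVec f = θ • f}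

variable {V : Type} [Fintype V]

/-- the functions of sum zero -/
private def WW (V : Type) [Fintype V] : Submodule ℝ (EuclideanSpace ℝ V) where
  carrier := {f | ∑ v, f v = 0}
  add_mem' := by
    intro a b ha hb
    change ∑ v, (a + b) v = 0
    simp only [PiLp.add_apply, Finset.sum_add_distrib]
    rw [show ∑ v, a v = 0 from ha, show ∑ v, b v = 0 from hb, add_zero]
  zero_mem' := by
    change ∑ v : V, (0 : EuclideanSpace ℝ V) v = 0
    simp
  smul_mem' := by
    intro r a ha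
    change ∑ v, (r • a) v = 0
    simp only [PiLp.smul_apply, smul_eq_mul, ← Finset.mul_sum]
    rw [show ∑ v, a v = 0 from ha, mul_zero]

theorem ray [DecidableEq V] {A : Matrix V V ℝ} (hA : A.transpose = A)
    (hA0 : ∀ f : V → ℝ, ∑ v, f v = 0 → ∑ v, (A *ᵥ f) v = 0) {L : ℝ}
    (hL : ∀ (θ : ℝ) (g : V → ℝ), g ≠ 0 → ∑ v, g v = 0 → A *ᵥ g = θ • g → θ ≤ L) {f : V → ℝ}
    (hf0 : ∑ v, f v = 0) : ∑ v, f v * (A *ᵥ f) v ≤ L * ∑ v, f v ^ 2 := by
  by_cases hf : f = 0
  · subst hf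
    simp
  set T := Matrix.toEuclideanLin A with hTdef
  have hT : T.IsSymmetric := by
    rw [hTdef, Matrix.isSymmetric_toEuclideanLin_iff]
    rw [Matrix.IsHermitian, conjTranspose_eq_transpose_of_trivial]
    exact hA
  have hmap : ∀ x ∈ WW V, T x ∈ WW V := by
    intro x hx
    change ∑ v, (T x) v = 0
    have h1 : ∀ v, (T x) v = (A *ᵥ (WithLp.ofLp x)) v := fun v => rfl
    simp only [h1]
    exact hA0 _ hx
  have hT' := hT.restrict_invariant hmap
  set T' := T.restrict hmap with hT'def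
  let f' : WW V := ⟨WithLp.toLp 2 f, hf0⟩
  have hf' : f' ≠ 0 := by
    intro h
    apply hf
    have h1 : WithLp.toLp 2 f = (0 : EuclideanSpace ℝ V) := congrArg Subtype.val h
    funext v
    have h2 := congrArg (fun g : EuclideanSpace ℝ V => g v) h1
    exact h2
  have : Nontrivial (WW V) := ⟨⟨f', 0, hf'⟩⟩
  have hev := hT'.hasEigenvalue_iSup_of_finiteDimensional
  obtain ⟨g, hg⟩ := hev.exists_hasEigenvector
  have hgT := hg.apply_eq_smul
  have hg0 := hg.2
  set S : ℝ := (⨆ x : { x : WW V // x ≠ 0 }, RCLike.re (inner ℝ (T' x) (x : WW V)) / ‖(x : WW V)‖ ^ 2 : ℝ) with hS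
  have hSL : S ≤ L := by
    apply hL S (WithLp.ofLp (g : EuclideanSpace ℝ V))
    · intro h
      apply hg0
      apply Subtype.ext
      ext v
      exact congrFun h v
    · exact g.2
    · have h1 : ((T' g : WW V) : EuclideanSpace ℝ V) = ((S • g : WW V) : EuclideanSpace ℝ V) :=
        congrArg Subtype.val hgT
      have h2 := congrArg WithLp.ofLp h1
      exact h2
  have hbdd : BddAbove (Set.range fun x : { x : WW V // x ≠ 0 } =>
      (RCLike.re (inner ℝ (T' x) (x : WW V)) / ‖(x : WW V)‖ ^ 2 : ℝ)) := by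
    refine ⟨‖LinearMap.toContinuousLinearMap T'‖, ?_⟩
    rintro _ ⟨x, rfl⟩
    have hx : 0 < ‖(x : WW V)‖ := norm_pos_iff.mpr x.2
    change (RCLike.re (inner ℝ (T' x) (x : WW V)) / ‖(x : WW V)‖ ^ 2 : ℝ) ≤ _
    rw [div_le_iff₀ (by positivity)]
    have h1 : (RCLike.re (inner ℝ (T' x) (x : WW V)) : ℝ) ≤ ‖T' x‖ * ‖(x : WW V)‖ :=
      real_inner_le_norm (T' x) (x : WW V)
    have h2 : ‖T' x‖ ≤ ‖LinearMap.toContinuousLinearMap T'‖ * ‖(x : WW V)‖ :=
      (LinearMap.toContinuousLinearMap T').le_opNorm x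
    calc (RCLike.re (inner ℝ (T' x) (x : WW V)) : ℝ) ≤ ‖T' x‖ * ‖(x : WW V)‖ := h1
      _ ≤ (‖LinearMap.toContinuousLinearMap T'‖ * ‖(x : WW V)‖) * ‖(x : WW V)‖ :=
          mul_le_mul_of_nonneg_right h2 (norm_nonneg _)
      _ = _ := by ring
  have hle := le_ciSup hbdd ⟨f', hf'⟩
  have hfn : 0 < ‖f'‖ := norm_pos_iff.mpr hf'
  have h3 : (RCLike.re (inner ℝ (T' f') f') : ℝ) ≤ S * ‖f'‖ ^ 2 := by
    rw [← div_le_iff₀ (by positivity)]
    exact hle
  have h4 : (RCLike.re (inner ℝ (T' f') f') : ℝ) = ∑ v, f v * (A *ᵥ f) v := by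
    change (inner ℝ ((T (WithLp.toLp 2 f)) : EuclideanSpace ℝ V) (WithLp.toLp 2 f) : ℝ) = _
    rw [PiLp.inner_apply]
    refine Finset.sum_congr rfl fun v _ => ?_
    change inner ℝ ((A *ᵥ f) v) (f v) = _
    simp
  have h5 : ‖f'‖ ^ 2 = ∑ v, f v ^ 2 := by
    change ‖(WithLp.toLp 2 f : EuclideanSpace ℝ V)‖ ^ 2 = _
    rw [EuclideanSpace.real_norm_sq_eq]
  rw [h4, h5] at h3
  exact h3.trans (mul_le_mul_of_nonneg_right hSL (Finset.sum_nonneg fun v _ => sq_nonneg _))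

end Pool.Agent.Lib.MP_7beb49_co
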