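import Pool.Agent.Lib.MP_7beb49_co.Growth
import Pool.Agent.Lib.MP_7beb49_co.Expo
import Pool.Agent.Lib.MP_7beb49_co.Spec

/-!
# The walk on a constituent and the step sizes of a projection along it
-/

set_option autoImplicit false
set_option linter.unusedSectionVars false

namespace Pool.Agent.Lib.MP_7beb49_co.LogRank

open Finset Matrix Walk Filter Topology

variable {V κ : Type} [Fintype V] [DecidableEq V] {c : V → V → κ}

theorem adj_iff (hc : IsPCC c) (i : κ) {u v u' v' : V} (h : c u v = c u' v') :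
    (constituent c i).Adj u v ↔ (constituent c i).Adj u' v' := by
  have h' := hc.conv _ _ _ _ h
  rw [constituent, SimpleGraph.fromRel_adj, SimpleGraph.fromRel_adj, h, h']
  have : u ≠ v ↔ u' ≠ v' := by
    constructor
    · rintro h1 rfl
      exact hc.diag_ne _ _ _ h1 h.symm
    · rintro h1 rfl
      exact hc.diag_ne _ _ _ h1 h
  rw [this]

theorem deg_eq (hc : IsPCC c) (i : κ) (u v : V) :
    deg (constituent c i) u = deg (constituent c i) v :=
  ncard_eq hc (P := fun u w => (constituent c i).Adj u w)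
    (fun _ _ _ _ h => adj_iff hc i h) u v

theorem adj_self {a b : V} (hab : a ≠ b) : (constituent c (c a b)).Adj a b := by
  rw [constituent, SimpleGraph.fromRel_adj]
  exact ⟨hab, Or.inl rfl⟩

theorem deg_pos (hc : IsPCC c) {a b : V} (hab : a ≠ b) (v : V) :
    0 < deg (constituent c (c a b)) v := by
  rw [deg_eq hc _ v a, deg, Set.ncard_pos]
  exact ⟨b, adj_self hab⟩

open Classical in
/-- The transition matrix of the random walk on a constituent. -/
noncomputable def W (c : V → V → κ) (i : κ) : Matrix V V ℝ := fun x y =>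
  if (constituent c i).Adj x y then (deg (constituent c i) x : ℝ)⁻¹ else 0

theorem W_eq (hc : IsPCC c) {i : κ} {x y : V} (h : (constituent c i).Adj x y) (v : V) :
    W c i x y = (deg (constituent c i) v : ℝ)⁻¹ := by
  rw [W, if_pos h, deg_eq hc i x v]

theorem W_of_not {i : κ} {x y : V} (h : ¬ (constituent c i).Adj x y) : W c i x y = 0 := by
  rw [W, if_neg h]

theorem deg_sum (G : SimpleGraph V) (v : V) [DecidableRel G.Adj] :
    ∑ y, (if G.Adj v y then (1 : ℝ) else 0) = deg G v := by
  rw [Finset.sum_boole, deg, Set.ncard_eq_toFinset_card']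
  congr 2
  ext w; simp

theorem W_isWalk (hc : IsPCC c) {a b : V} (hab : a ≠ b) : IsWalk (W c (c a b)) where
  nonneg x y := by
    rw [W]
    split_ifs
    · positivity
    · exact le_rfl
  symm x y := by
    by_cases h : (constituent c (c a b)).Adj x y
    · rw [W_eq hc h a, W_eq hc h.symm a]
    · rw [W_of_not h, W_of_not fun h' => h h'.symm]
  sum x := by
    classical
    have h1 : ∀ y, W c (c a b) x y = (deg (constituent c (c a b)) x : ℝ)⁻¹ *
        (if (constituent c (c a b)).Adj x y then (1 : ℝ) else 0) := by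
      intro y
      rw [W]
      split_ifs <;> simp
    rw [Finset.sum_congr rfl fun y _ => h1 y, ← Finset.mul_sum, deg_sum]
    have := deg_pos hc hab x
    have : (deg (constituent c (c a b)) x : ℝ) ≠ 0 := by positivity
    exact inv_mul_cancel₀ this

theorem W_mem (hc : IsPCC c) (i : κ) : W c i ∈ alg hc := by
  intro u v u' v' h
  by_cases h1 : (constituent c i).Adj u v
  · rw [W_eq hc h1 u, W_eq hc ((adj_iff hc i h).1 h1) u]
  · rw [W_of_not h1, W_of_not fun h2 => h1 ((adj_iff hc i h).2 h2)]

theorem lazy_mem (hc : IsPCC c) (i : κ) : lazy (W c i) ∈ alg hc :=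
  (alg hc).smul_mem ((alg hc).add_mem (one_mem _) (W_mem hc i)) _

theorem const_of_adj {G : SimpleGraph V} (hG : G.Connected) {g : V → ℝ}
    (h : ∀ u v, G.Adj u v → g u = g v) (u v : V) : g u = g v := by
  obtain ⟨p⟩ := hG.preconnected u v
  induction p with
  | nil => rfl
  | cons hadj _ ih => rw [h _ _ hadj]; exact ih

theorem edge_eq {G : Matrix V V ℝ} (hc : IsPCC c) (hG : G ∈ alg hc) (hGs : G.transpose = G)
    {a b y z : V} (h : (constituent c (c a b)).Adj y z) : G y z = G a b := by
  rw [constituent, SimpleGraph.fromRel_adj] at h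
  rcases h.2 with h1 | h1
  · exact hG _ _ _ _ h1
  · have : G y z = G z y := by
      conv_lhs => rw [← hGs]
      rfl
    rw [this]
    exact hG _ _ _ _ h1

theorem trace_rel {G : Matrix V V ℝ} (hc : IsPCC c) (hG : G ∈ alg hc) (hGs : G.transpose = G)
    {a b : V} (hab : a ≠ b) :
    G.trace - (G * lazy (W c (c a b))).trace =
      (Fintype.card V : ℝ) / 2 * (G a a - G a b) := by
  have hW := W_isWalk hc hab
  have h1 : ∀ y, G y y = G a a := fun y => hG _ _ _ _ (hc.homogeneous y a)
  have h2 : G.trace = Fintype.card V * G a a := by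
    rw [Matrix.trace]
    simp only [Matrix.diag_apply, h1]
    rw [Finset.sum_const, nsmul_eq_mul, Finset.card_univ]
  have h3 : ∀ y, (G * lazy (W c (c a b))) y y = (1 / 2 : ℝ) * (G a a + G a b) := by
    intro y
    rw [Matrix.mul_apply]
    have h4 : ∀ z, G y z * lazy (W c (c a b)) z y =
        (1 / 2 : ℝ) * (G y z * (if z = y then 1 else 0)) +
          (1 / 2 : ℝ) * (G a b * W c (c a b) y z) := by
      intro z
      rw [lazy_apply]
      by_cases h5 : (constituent c (c a b)).Adj y z
      · rw [edge_eq hc hG hGs h5, hW.symm z y]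
        ring
      · rw [W_of_not h5, W_of_not fun h6 => h5 h6.symm]
        ring
    rw [Finset.sum_congr rfl fun z _ => h4 z, Finset.sum_add_distrib, ← Finset.mul_sum,
      ← Finset.mul_sum, ← Finset.mul_sum, hW.sum]
    simp only [mul_ite, mul_one, mul_zero, Finset.sum_ite_eq', Finset.mem_univ, if_true]
    rw [h1 y]
    ring
  have h6 : (G * lazy (W c (c a b))).trace = Fintype.card V * ((1 / 2 : ℝ) * (G a a + G a b)) := by
    rw [Matrix.trace]
    simp only [Matrix.diag_apply, h3]
    rw [Finset.sum_const, nsmul_eq_mul, Finset.card_univ]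
  rw [h2, h6]
  ring

section steps

variable {Q : Matrix V V ℝ}

theorem lazy_sym (hc : IsPCC c) {a b : V} (hab : a ≠ b) :
    (lazy (W c (c a b))).transpose = lazy (W c (c a b)) := by
  ext x y
  exact (lazy_isWalk (W_isWalk hc hab)).symm y x

theorem pow_sym {P : Matrix V V ℝ} (h : P.transpose = P) (s : ℕ) : (P ^ s).transpose = P ^ s := by
  rw [transpose_pow, h]

/-- The difference of two columns. -/
theorem jump (hc : IsPCC c) (hQ : Proj c Q) {a b : V} (hab : a ≠ b) (s : ℕ) (x : V) {y z : V}
    (h : (constituent c (c a b)).Adj y z) :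
    ((Q * lazy (W c (c a b)) ^ s) x z - (Q * lazy (W c (c a b)) ^ s) x y) ^ 2 ≤
      Q x x * (4 / Fintype.card V * ((Q * lazy (W c (c a b)) ^ (2 * s)).trace -
        (Q * lazy (W c (c a b)) ^ (2 * s + 1)).trace)) := by
  set P := lazy (W c (c a b)) with hP
  have hPs : P.transpose = P := lazy_sym hc hab
  set H := Q * P ^ s with hH
  set G := H.transpose * H with hG
  have hPm : P ∈ alg hc := lazy_mem hc _
  have hQm : Q ∈ alg hc := fun u v u' v' h => hQ.mem u v u' v' h
  have hG' : G = P ^ s * Q * P ^ s := by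
    rw [hG, hH, transpose_mul, pow_sym hPs, hQ.sym, ← Matrix.mul_assoc, Matrix.mul_assoc (P ^ s) Q Q,
      hQ.idem]
  have hGm : G ∈ alg hc := by
    rw [hG']
    exact (alg hc).mul_mem ((alg hc).mul_mem ((alg hc).pow_mem hPm s) hQm) ((alg hc).pow_mem hPm s)
  have hGs : G.transpose = G := by rw [hG, transpose_mul, transpose_transpose]
  have hQH : Q * H = H := by rw [hH, ← Matrix.mul_assoc, hQ.idem]
  have h1 : H x z - H x y = ∑ w, Q x w * (H w z - H w y) := by
    have e : ∀ z, H x z = ∑ w, Q x w * H w z := by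
      intro z
      conv_lhs => rw [← hQH]
      rw [Matrix.mul_apply]
    rw [e z, e y, ← Finset.sum_sub_distrib]
    exact Finset.sum_congr rfl fun w _ => by ring
  have h2 : ∑ w, (H w z - H w y) ^ 2 = 2 * (G a a - G a b) := by
    have e : ∀ y z, G y z = ∑ w, H w y * H w z := by
      intro y z
      rw [hG, Matrix.mul_apply]
      rfl
    have e1 : ∑ w, (H w z - H w y) ^ 2 = G z z - 2 * G y z + G y y := by
      rw [e, e, e, Finset.mul_sum, ← Finset.sum_sub_distrib, ← Finset.sum_add_distrib]
      exact Finset.sum_congr rfl fun w _ => by ring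
    rw [e1, edge_eq hc hGm hGs h, hGm z z a a (hc.homogeneous z a),
      hGm y y a a (hc.homogeneous y a)]
    ring
  have h3 : (H x z - H x y) ^ 2 ≤ Q x x * (2 * (G a a - G a b)) := by
    rw [h1, ← h2]
    refine (Finset.sum_mul_sq_le_sq_mul_sq _ _ _).trans (le_of_eq ?_)
    rw [hQ.sum_sq]
  refine h3.trans (le_of_eq ?_)
  have h4 := trace_rel hc hGm hGs hab
  have h5 : G.trace = (Q * P ^ (2 * s)).trace := by
    rw [hG', Matrix.mul_assoc, Matrix.trace_mul_comm, Matrix.mul_assoc, ← pow_add, two_mul]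
  have h6 : (G * P).trace = (Q * P ^ (2 * s + 1)).trace := by
    rw [hG', Matrix.mul_assoc, Matrix.mul_assoc, Matrix.trace_mul_comm, Matrix.mul_assoc,
      ← pow_succ, ← pow_add]
    congr 3
    ring
  rw [← hP] at h4
  rw [← h5, ← h6, h4]
  have hn : (Fintype.card V : ℝ) ≠ 0 := by
    have : 0 < Fintype.card V := Fintype.card_pos_iff.2 ⟨a⟩
    positivity
  field_simp
  ring

/-- The size of the entries. -/
theorem entry_le (hc : IsPCC c) (hQ : Proj c Q) {a b : V} (hab : a ≠ b) (s : ℕ) (x y : V) :
    ((Q * lazy (W c (c a b)) ^ s) x y) ^ 2 ≤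
      Q x x * (1 / Fintype.card V * (Q * lazy (W c (c a b)) ^ (2 * s)).trace) := by
  set P := lazy (W c (c a b)) with hP
  have hPs : P.transpose = P := lazy_sym hc hab
  set H := Q * P ^ s with hH
  set G := H.transpose * H with hG
  have hPm : P ∈ alg hc := lazy_mem hc _
  have hQm : Q ∈ alg hc := fun u v u' v' h => hQ.mem u v u' v' h
  have hG' : G = P ^ s * Q * P ^ s := by
    rw [hG, hH, transpose_mul, pow_sym hPs, hQ.sym, ← Matrix.mul_assoc, Matrix.mul_assoc (P ^ s) Q Q,
      hQ.idem]
  have hGm : G ∈ alg hc := by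
    rw [hG']
    exact (alg hc).mul_mem ((alg hc).mul_mem ((alg hc).pow_mem hPm s) hQm) ((alg hc).pow_mem hPm s)
  have hQH : Q * H = H := by rw [hH, ← Matrix.mul_assoc, hQ.idem]
  have h1 : H x y = ∑ w, Q x w * H w y := by
    conv_lhs => rw [← hQH]
    rw [Matrix.mul_apply]
  have h2 : ∑ w, H w y ^ 2 = G y y := by
    rw [hG, Matrix.mul_apply]
    exact Finset.sum_congr rfl fun w _ => by rw [transpose_apply]; ring
  have h3 : H x y ^ 2 ≤ Q x x * G y y := by
    rw [h1, ← h2]
    refine (Finset.sum_mul_sq_le_sq_mul_sq _ _ _).trans (le_of_eq ?_)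
    rw [hQ.sum_sq]
  refine h3.trans (le_of_eq ?_)
  have h4 : G.trace = Fintype.card V * G y y := by
    rw [Matrix.trace]
    have : ∀ w, G.diag w = G y y := fun w => hGm _ _ _ _ (hc.homogeneous w y)
    rw [Finset.sum_congr rfl fun w _ => this w, Finset.sum_const, nsmul_eq_mul, Finset.card_univ]
  have h5 : G.trace = (Q * P ^ (2 * s)).trace := by
    rw [hG', Matrix.mul_assoc, Matrix.trace_mul_comm, Matrix.mul_assoc, ← pow_add, two_mul]
  rw [← h5, h4]
  have hn : (Fintype.card V : ℝ) ≠ 0 := by
    have : 0 < Fintype.card V := Fintype.card_pos_iff.2 ⟨a⟩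
    positivity
  field_simp

end steps

end Pool.Agent.Lib.MP_7beb49_co.LogRank
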