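import Pool.Agent.Lib.MP_7beb49_co.Ray

/-!
# The transfer of the gap of one constituent to the others

`θ` an eigenvalue of the constituent `X_j`, `φ` an eigenfunction of sum zero. For the edges `(v, w)` of
`X_i` the difference `θ (φ v - φ w)` is a sum of `± φ u` over the `N` vertices `u` of the symmetric
difference of the neighbourhoods in `X_j`; `N` depends only on `i`, `j`, and every `u` belongs to
`d_i N` of these sets.
-/

set_option autoImplicit false
set_option linter.unusedSectionVars false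

namespace Pool.Agent.Lib.MP_7beb49_co

open Finset Matrix Diff

variable {V κ : Type} [Fintype V] {c : V → V → κ}

open Classical in
/-- adjacency as a number -/
private noncomputable def aj (X : SimpleGraph V) (v w : V) : ℝ := if X.Adj v w then 1 else 0

private theorem aj_symm (X : SimpleGraph V) (v w : V) : aj X v w = aj X w v := by
  unfold aj
  rw [SimpleGraph.adj_comm]

private theorem aj_nonneg (X : SimpleGraph V) (v w : V) : 0 ≤ aj X v w := by
  unfold aj
  split_ifs <;> norm_num

private theorem aj_sum (X : SimpleGraph V) (v : V) : ∑ w, aj X v w = deg X v := by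
  classical
  unfold aj
  rw [Finset.sum_boole, deg_eq]

private theorem aj_mulVec (X : SimpleGraph V) (f : V → ℝ) (v : V) :
    (by classical exact ((X.adjMatrix ℝ).mulVec f) v) = ∑ w, aj X v w * f w := by
  classical
  rw [Matrix.mulVec, dotProduct]
  refine Finset.sum_congr rfl fun w _ => ?_
  rw [SimpleGraph.adjMatrix_apply]
  unfold aj
  congr 1

private theorem dirichlet (X : SimpleGraph V) {d : ℝ} (hd : ∀ v, (deg X v : ℝ) = d) (f : V → ℝ) :
    ∑ v, ∑ w, aj X v w * (f v - f w) ^ 2 =
      2 * (d * ∑ v, f v ^ 2 - ∑ v, f v * ∑ w, aj X v w * f w) := by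
  have h1 : ∀ v w, aj X v w * (f v - f w) ^ 2 =
      aj X v w * f v ^ 2 + aj X v w * f w ^ 2 - 2 * (f v * (aj X v w * f w)) := by
    intro v w; ring
  simp only [h1, Finset.sum_sub_distrib, Finset.sum_add_distrib]
  have h2 : ∑ v, ∑ w, aj X v w * f v ^ 2 = d * ∑ v, f v ^ 2 := by
    rw [Finset.mul_sum]
    refine Finset.sum_congr rfl fun v _ => ?_
    rw [← Finset.sum_mul, aj_sum, hd]
  have h3 : ∑ v, ∑ w, aj X v w * f w ^ 2 = d * ∑ v, f v ^ 2 := by
    rw [Finset.sum_comm, ← h2]
    refine Finset.sum_congr rfl fun v _ => Finset.sum_congr rfl fun w _ => ?_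
    rw [aj_symm]
  have h4 : ∑ v, ∑ w, 2 * (f v * (aj X v w * f w)) = 2 * ∑ v, f v * ∑ w, aj X v w * f w := by
    rw [Finset.mul_sum]
    refine Finset.sum_congr rfl fun v _ => ?_
    rw [← Finset.mul_sum, ← Finset.mul_sum]
  rw [h2, h3, h4]
  ring

/-- The second eigenvalue bounds the quadratic form on the functions of sum zero. -/
private theorem form_le (X : SimpleGraph V) {d : ℝ} (hd : ∀ v, (deg X v : ℝ) = d) {f : V → ℝ}
    (hf0 : ∑ v, f v = 0) : ∑ v, f v * ∑ w, aj X v w * f w ≤ lam2 X * ∑ v, f v ^ 2 := by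
  classical
  have hb : ∀ (θ : ℝ) (g : V → ℝ), g ≠ 0 → ∑ v, g v = 0 → (X.adjMatrix ℝ).mulVec g = θ • g → θ ≤ d := by
    intro θ g hg _ he
    have h1 := dirichlet X hd g
    have h2 : 0 ≤ ∑ v, ∑ w, aj X v w * (g v - g w) ^ 2 :=
      Finset.sum_nonneg fun v _ => Finset.sum_nonneg fun w _ =>
        mul_nonneg (aj_nonneg X v w) (sq_nonneg _)
    have h3 : ∑ v, g v * ∑ w, aj X v w * g w = θ * ∑ v, g v ^ 2 := by
      rw [Finset.mul_sum]
      refine Finset.sum_congr rfl fun v _ => ?_
      have h4 := aj_mulVec X g v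
      rw [← h4]
      have h5 := congrFun he v
      rw [Pi.smul_apply, smul_eq_mul] at h5
      have h6 : ((X.adjMatrix ℝ).mulVec g) v = θ * g v := h5
      have h7 : g v * ((X.adjMatrix ℝ).mulVec g) v = θ * g v ^ 2 := by rw [h6]; ring
      exact h7
    rw [h3] at h1
    have hpos : 0 < ∑ v, g v ^ 2 := by
      obtain ⟨x, hx⟩ : ∃ x, g x ≠ 0 := by
        by_contra hcon
        push Not at hcon
        exact hg (funext hcon)
      exact Finset.sum_pos' (fun v _ => sq_nonneg _) ⟨x, Finset.mem_univ _, by positivity⟩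
    have h4 : θ * ∑ v, g v ^ 2 ≤ d * ∑ v, g v ^ 2 := by linarith
    exact le_of_mul_le_mul_right h4 hpos
  have hbdd : BddAbove {θ : ℝ | ∃ f : V → ℝ, f ≠ 0 ∧ ∑ v, f v = 0 ∧
      (X.adjMatrix ℝ).mulVec f = θ • f} := by
    refine ⟨d, ?_⟩
    rintro θ ⟨g, hg, hg0, he⟩
    exact hb θ g hg hg0 he
  have hA : (X.adjMatrix ℝ).transpose = X.adjMatrix ℝ := SimpleGraph.transpose_adjMatrix ..
  have hA0 : ∀ f : V → ℝ, ∑ v, f v = 0 → ∑ v, ((X.adjMatrix ℝ) *ᵥ f) v = 0 := by
    intro g hg0
    have h1 : ∀ v, ((X.adjMatrix ℝ) *ᵥ g) v = ∑ w, aj X v w * g w := fun v => aj_mulVec X g v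
    simp only [h1]
    rw [Finset.sum_comm]
    have h2 : ∀ w, ∑ v, aj X v w * g w = d * g w := by
      intro w
      rw [← Finset.sum_mul, ← hd w, ← aj_sum]
      congr 1
      exact Finset.sum_congr rfl fun v _ => aj_symm X v w
    simp only [h2]
    rw [← Finset.mul_sum, hg0, mul_zero]
  have hL : ∀ (θ : ℝ) (g : V → ℝ), g ≠ 0 → ∑ v, g v = 0 → (X.adjMatrix ℝ) *ᵥ g = θ • g → θ ≤ lam2 X := by
    intro θ g hg hg0 he
    refine le_csSup hbdd ?_
    exact ⟨g, hg, hg0, he⟩
  have h1 := ray hA hA0 hL hf0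
  have h2 : ∀ v, ((X.adjMatrix ℝ) *ᵥ f) v = ∑ w, aj X v w * f w := fun v => aj_mulVec X f v
  simp only [h2] at h1
  exact h1

open Classical in
/-- `u` belongs to one of the neighbourhoods of `v` and `w` only -/
private noncomputable def tt (c : V → V → κ) (j : κ) (u v w : V) : ℝ :=
  if ((constituent c j).Adj v u ↔ (constituent c j).Adj w u) then 0 else 1

private theorem tt_sum (j : κ) (v w : V) : ∑ u, tt c j u v w = diff c j v w := by
  classical
  rw [diff, Finset.card_filter]
  push_cast
  refine Finset.sum_congr rfl fun u _ => ?_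
  unfold tt
  by_cases h : ((constituent c j).Adj v u ↔ (constituent c j).Adj w u)
  · rw [if_pos h, if_neg (not_not.mpr h)]
  · rw [if_neg h, if_pos h]

private theorem diff_symm (j : κ) (v w : V) : diff c j v w = diff c j w v := by
  classical
  unfold diff
  congr 1
  ext z
  simp only [Finset.mem_filter, Finset.mem_univ, true_and]
  tauto

private theorem diff_edge (hc : IsPCC c) (j : κ) {x y v w : V} (h : (constituent c (c x y)).Adj v w) :
    diff c j v w = diff c j x y := by
  rw [constituent, SimpleGraph.fromRel_adj] at h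
  rcases h.2 with h1 | h1
  · exact diff_colour hc j h1
  · rw [diff_symm]
    exact diff_colour hc j h1

/-- every vertex belongs to the same number of symmetric differences -/
private theorem col_sum (hc : IsPCC c) (i j : κ) (u u' : V) :
    ∑ v, ∑ w, aj (constituent c i) v w * tt c j u v w =
      ∑ v, ∑ w, aj (constituent c i) v w * tt c j u' v w := by
  classical
  have hcol : ∀ u v u' v', c u v = c u' v' → ∑ w, aj (constituent c i) v w * tt c j u v w =
      ∑ w, aj (constituent c i) v' w * tt c j u' v' w := by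
    intro u v u' v' h
    obtain ⟨τ, hτ⟩ := exists_equiv hc h
    refine Fintype.sum_equiv τ _ _ fun w => ?_
    have h1 : (constituent c i).Adj v w ↔ (constituent c i).Adj v' (τ w) := by
      rw [SimpleGraph.adj_comm, SimpleGraph.adj_comm _ v' (τ w)]
      exact adj_iff hc i (hτ w).2.symm
    have h2 : (constituent c j).Adj v u ↔ (constituent c j).Adj v' u' :=
      adj_iff hc j (hc.conv _ _ _ _ h)
    have h3 : (constituent c j).Adj w u ↔ (constituent c j).Adj (τ w) u' :=
      adj_iff hc j (hc.conv _ _ _ _ (hτ w).1.symm)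
    unfold aj tt
    rw [h2, h3]
    by_cases h4 : (constituent c i).Adj v w
    · rw [if_pos h4, if_pos (h1.mp h4)]
    · rw [if_neg h4, if_neg (fun h5 => h4 (h1.mpr h5))]
  obtain ⟨σ, hσ⟩ := exists_equiv hc (hc.homogeneous u u')
  refine Fintype.sum_equiv σ _ _ fun v => ?_
  exact hcol u v u' (σ v) (hσ v).1.symm

/-- The inequality for one eigenvalue. -/
theorem eig_le (hc : IsPCC c) (j : κ) {x y : V} {d : ℝ}
    (hd : ∀ v, (deg (constituent c (c x y)) v : ℝ) = d) {θ : ℝ} {φ : V → ℝ} (hφ : φ ≠ 0)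
    (hφ0 : ∑ v, φ v = 0)
    (hev : (by classical exact ((constituent c j).adjMatrix ℝ).mulVec φ = θ • φ)) :
    θ ^ 2 * (2 * (d - lam2 (constituent c (c x y)))) ≤ (diff c j x y : ℝ) ^ 2 * d := by
  classical
  set H := constituent c (c x y) with hH
  set G := constituent c j with hG
  set N : ℝ := (diff c j x y : ℝ) with hN
  have hN0 : 0 ≤ N := Nat.cast_nonneg _
  have hpos : 0 < ∑ v, φ v ^ 2 := by
    obtain ⟨x, hx⟩ : ∃ x, φ x ≠ 0 := by
      by_contra hcon
      push Not at hcon
      exact hφ (funext hcon)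
    exact Finset.sum_pos' (fun v _ => sq_nonneg _) ⟨x, Finset.mem_univ _, by positivity⟩
  have hev' : ∀ v, ∑ u, aj G v u * φ u = θ * φ v := by
    intro v
    have h1 := aj_mulVec G φ v
    rw [← h1]
    have h2 := congrFun hev v
    rw [Pi.smul_apply, smul_eq_mul] at h2
    exact h2
  -- one edge
  have hedge : ∀ v w, aj H v w * (θ * (φ v - φ w)) ^ 2 ≤
      N * ∑ u, φ u ^ 2 * (aj H v w * tt c j u v w) := by
    intro v w
    by_cases hvw : H.Adj v w
    · have ha : aj H v w = 1 := by unfold aj; rw [if_pos hvw]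
      have h1 : θ * (φ v - φ w) = ∑ u, (aj G v u - aj G w u) * (tt c j u v w * φ u) := by
        have h2 : θ * (φ v - φ w) = ∑ u, (aj G v u - aj G w u) * φ u := by
          rw [mul_sub, ← hev' v, ← hev' w, ← Finset.sum_sub_distrib]
          exact Finset.sum_congr rfl fun u _ => by ring
        rw [h2]
        refine Finset.sum_congr rfl fun u _ => ?_
        unfold aj tt
        rw [← hG]
        by_cases h3 : G.Adj v u
        · by_cases h4 : G.Adj w u
          · simp [h3, h4]
          · simp [h3, h4]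
        · by_cases h4 : G.Adj w u
          · simp [h3, h4]
          · simp [h3, h4]
      have h5 : ∀ u, (aj G v u - aj G w u) ^ 2 = tt c j u v w := by
        intro u
        unfold aj tt
        rw [← hG]
        by_cases h3 : G.Adj v u
        · by_cases h4 : G.Adj w u
          · simp [h3, h4]
          · simp [h3, h4]
        · by_cases h4 : G.Adj w u
          · simp [h3, h4]
          · simp [h3, h4]
      have h6 : ∀ u, (tt c j u v w * φ u) ^ 2 = φ u ^ 2 * tt c j u v w := by
        intro u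
        unfold tt
        split_ifs <;> ring
      have h7 := Finset.sum_mul_sq_le_sq_mul_sq (univ : Finset V) (fun u => aj G v u - aj G w u)
        (fun u => tt c j u v w * φ u)
      rw [← h1] at h7
      simp only [h5, h6, tt_sum] at h7
      rw [diff_edge hc j hvw] at h7
      rw [ha, one_mul]
      simp only [one_mul]
      exact h7
    · have ha : aj H v w = 0 := by unfold aj; rw [if_neg hvw]
      rw [ha, zero_mul]
      simp
  -- the column sums
  have hcol : ∀ u, ∑ v, ∑ w, aj H v w * tt c j u v w = d * N := by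
    intro u
    have hn : (0 : ℝ) < Fintype.card V := by
      have : Nonempty V := ⟨u⟩
      exact_mod_cast Fintype.card_pos
    have h1 : ∑ u', ∑ v, ∑ w, aj H v w * tt c j u' v w = Fintype.card V * (d * N) := by
      have h2 : ∑ u', ∑ v, ∑ w, aj H v w * tt c j u' v w = ∑ v, ∑ w, aj H v w * N := by
        rw [Finset.sum_comm]
        refine Finset.sum_congr rfl fun v _ => ?_
        rw [Finset.sum_comm]
        refine Finset.sum_congr rfl fun w _ => ?_
        rw [← Finset.mul_sum, tt_sum]
        by_cases hvw : H.Adj v w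
        · rw [diff_edge hc j hvw]
        · have ha : aj H v w = 0 := by unfold aj; rw [if_neg hvw]
          rw [ha, zero_mul, zero_mul]
      rw [h2]
      have h3 : ∀ v, ∑ w, aj H v w * N = d * N := by
        intro v
        rw [← Finset.sum_mul, aj_sum, hd]
      simp only [h3, Finset.sum_const, Finset.card_univ, nsmul_eq_mul]
    have h4 : ∑ u', ∑ v, ∑ w, aj H v w * tt c j u' v w =
        Fintype.card V * ∑ v, ∑ w, aj H v w * tt c j u v w := by
      rw [Finset.sum_congr rfl fun u' _ => col_sum hc (c x y) j u' u, Finset.sum_const,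
        Finset.card_univ, nsmul_eq_mul]
    rw [h4] at h1
    exact mul_left_cancel₀ hn.ne' h1
  -- the sum over the edges
  have hsum : θ ^ 2 * ∑ v, ∑ w, aj H v w * (φ v - φ w) ^ 2 ≤ N * (d * N * ∑ u, φ u ^ 2) := by
    have h1 : θ ^ 2 * ∑ v, ∑ w, aj H v w * (φ v - φ w) ^ 2 =
        ∑ v, ∑ w, aj H v w * (θ * (φ v - φ w)) ^ 2 := by
      rw [Finset.mul_sum]
      refine Finset.sum_congr rfl fun v _ => ?_
      rw [Finset.mul_sum]
      exact Finset.sum_congr rfl fun w _ => by ring
    rw [h1]
    refine (Finset.sum_le_sum fun v _ => Finset.sum_le_sum fun w _ => hedge v w).trans ?_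
    have h2 : ∑ v, ∑ w, N * ∑ u, φ u ^ 2 * (aj H v w * tt c j u v w) =
        N * ∑ u, φ u ^ 2 * ∑ v, ∑ w, aj H v w * tt c j u v w := by
      simp only [← Finset.mul_sum]
      congr 1
      have h3 : ∀ v, ∑ w, ∑ u, φ u ^ 2 * (aj H v w * tt c j u v w) =
          ∑ u, ∑ w, φ u ^ 2 * (aj H v w * tt c j u v w) := fun v => Finset.sum_comm
      simp only [h3]
      rw [Finset.sum_comm]
      refine Finset.sum_congr rfl fun u _ => ?_
      rw [Finset.mul_sum]
      exact Finset.sum_congr rfl fun v _ => by rw [Finset.mul_sum]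
    rw [h2]
    refine mul_le_mul_of_nonneg_left (le_of_eq ?_) hN0
    rw [Finset.mul_sum]
    refine Finset.sum_congr rfl fun u _ => ?_
    rw [hcol u]
    ring
  have hdir := dirichlet H hd φ
  have hform := form_le H hd hφ0
  have h1 : 2 * ((d - lam2 H) * ∑ v, φ v ^ 2) ≤ ∑ v, ∑ w, aj H v w * (φ v - φ w) ^ 2 := by
    rw [hdir]
    linarith
  have h2 : θ ^ 2 * (2 * ((d - lam2 H) * ∑ v, φ v ^ 2)) ≤ N * (d * N * ∑ u, φ u ^ 2) :=
    (mul_le_mul_of_nonneg_left h1 (sq_nonneg θ)).trans hsum
  have h3 : (θ ^ 2 * (2 * (d - lam2 H))) * ∑ v, φ v ^ 2 ≤ (N ^ 2 * d) * ∑ v, φ v ^ 2 := by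
    calc (θ ^ 2 * (2 * (d - lam2 H))) * ∑ v, φ v ^ 2 =
        θ ^ 2 * (2 * ((d - lam2 H) * ∑ v, φ v ^ 2)) := by ring
      _ ≤ N * (d * N * ∑ u, φ u ^ 2) := h2
      _ = _ := by ring
  exact le_of_mul_le_mul_right h3 hpos

/-- The inequality for one constituent. -/
theorem xi_transfer (hc : IsPCC c) (j : κ) {x y : V} (hxy : x ≠ y) (v : V) :
    xi (constituent c j) *
        Real.sqrt (2 * (1 - lam2 (constituent c (c x y)) / (deg (constituent c (c x y)) v : ℝ))) ≤
      (diff c j x y : ℝ) := by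
  classical
  set H := constituent c (c x y) with hH
  set d : ℝ := (deg H v : ℝ) with hd
  have hdc : ∀ w, (deg H w : ℝ) = d := by
    intro w
    rw [hd, deg_const hc (c x y) w v]
  have hdpos : 0 < d := by
    have h1 : 0 < deg H x := by
      rw [deg_eq]
      refine Finset.card_pos.2 ⟨y, ?_⟩
      rw [Finset.mem_filter, hH, constituent, SimpleGraph.fromRel_adj]
      exact ⟨Finset.mem_univ _, hxy, Or.inl rfl⟩
    rw [← hdc x]
    exact_mod_cast h1
  set s := Real.sqrt (2 * (1 - lam2 H / d)) with hs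
  have hN0 : (0 : ℝ) ≤ (diff c j x y : ℝ) := Nat.cast_nonneg _
  rcases (Real.sqrt_nonneg (2 * (1 - lam2 H / d))).eq_or_lt with h0 | h0
  · rw [hs, ← h0, mul_zero]
    exact hN0
  · have hpos : 0 < 2 * (1 - lam2 H / d) := Real.sqrt_pos.1 h0
    rw [← le_div_iff₀ h0]
    apply Real.sSup_le
    swap
    · positivity
    rintro t ⟨θ, f, hf, hf0, hev, rfl⟩
    rw [le_div_iff₀ h0]
    have h1 := eig_le hc j hdc hf hf0 hev
    have h2 : (|θ| * s) ^ 2 ≤ (diff c j x y : ℝ) ^ 2 := by
      rw [mul_pow, sq_abs, hs, Real.sq_sqrt hpos.le]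
      have h3 : θ ^ 2 * (2 * (1 - lam2 H / d)) * d ≤ (diff c j x y : ℝ) ^ 2 * d := by
        calc θ ^ 2 * (2 * (1 - lam2 H / d)) * d = θ ^ 2 * (2 * (d - lam2 H)) := by
              field_simp
          _ ≤ _ := h1
      exact le_of_mul_le_mul_right h3 hdpos
    exact (pow_le_pow_iff_left₀ (by positivity) hN0 two_ne_zero).1 h2

open Classical in
/-- **The transfer inequality.** -/
theorem transfer (hc : IsPCC c) {x y : V} (hxy : x ≠ y) (v : V) :
    (∑ w ∈ univ.erase v, xi (constituent c (c v w)) / (deg (constituent c (c v w)) v : ℝ)) *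
        Real.sqrt (2 * (1 - lam2 (constituent c (c x y)) / (deg (constituent c (c x y)) v : ℝ))) ≤
      2 * ((distinguishing c x y : ℝ) - 1) := by
  obtain ⟨σ, hσ⟩ := exists_equiv hc (hc.homogeneous x v)
  have h1 : c v (σ y) = c x y := (hσ y).1
  have hvy : v ≠ σ y := by
    intro h
    rw [← h] at h1
    exact hc.diag_ne _ _ _ hxy h1
  have h2 := sum_diff_le hc hvy
  rw [distinguishing_colour hc h1] at h2
  refine le_trans ?_ (h2.trans (le_of_eq (by ring)))
  rw [Finset.sum_mul]
  refine Finset.sum_le_sum fun w _ => ?_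
  rw [div_mul_eq_mul_div, diff_colour hc (c v w) h1]
  exact div_le_div_of_nonneg_right (xi_transfer hc (c v w) hxy v) (Nat.cast_nonneg _)

end Pool.Agent.Lib.MP_7beb49_co
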