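import Mathlib

/-!
# Eigenfunctions twisted by an automorphism of finite order

If an automorphism `s` of a graph moves some eigenfunction, then the same eigenspace contains a
complex eigenfunction `F` with `F ∘ s = ζ F`, `ζ ≠ 1`.
-/

set_option autoImplicit false

namespace Pool.Agent.Lib.MP_7beb49_co

open Finset

variable {V : Type} [Fintype V]

open Classical in
/-- The space of eigenfunctions of a graph all of whose sums along the orbits of `s` vanish. -/
noncomputable def twistedSpace (H : SimpleGraph V) (s : Equiv.Perm V) (n : ℕ) (θ : ℝ) :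
    Submodule ℂ (V → ℂ) where
  carrier := {F | (∀ x, ∑ y, (if H.Adj x y then F y else 0) = (θ : ℂ) * F x) ∧
    ∀ x, ∑ k ∈ range n, F ((s ^ k) x) = 0}
  add_mem' := by
    rintro F G ⟨hF, hF'⟩ ⟨hG, hG'⟩
    refine ⟨?_, ?_⟩
    · intro x
      have h1 : ∀ y, (if H.Adj x y then (F + G) y else 0) =
          (if H.Adj x y then F y else 0) + (if H.Adj x y then G y else 0) := by
        intro y
        by_cases h : H.Adj x y
        · rw [if_pos h, if_pos h, if_pos h, Pi.add_apply]
        · rw [if_neg h, if_neg h, if_neg h, add_zero]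
      rw [Finset.sum_congr rfl (fun y _ => h1 y), Finset.sum_add_distrib, hF x, hG x,
        Pi.add_apply]
      ring
    · intro x
      simp only [Pi.add_apply]
      rw [Finset.sum_add_distrib, hF' x, hG' x, add_zero]
  zero_mem' := by
    refine ⟨?_, ?_⟩
    · intro x; simp
    · intro x; simp
  smul_mem' := by
    rintro a F ⟨hF, hF'⟩
    refine ⟨?_, ?_⟩
    · intro x
      have h1 : ∀ y, (if H.Adj x y then (a • F) y else 0) =
          a * (if H.Adj x y then F y else 0) := by
        intro y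
        by_cases h : H.Adj x y
        · rw [if_pos h, if_pos h, Pi.smul_apply, smul_eq_mul]
        · rw [if_neg h, if_neg h, mul_zero]
      rw [Finset.sum_congr rfl (fun y _ => h1 y), ← Finset.mul_sum, hF x, Pi.smul_apply,
        smul_eq_mul]
      ring
    · intro x
      simp only [Pi.smul_apply, smul_eq_mul]
      rw [← Finset.mul_sum, hF' x, mul_zero]

omit [Fintype V] in
theorem orbit_sum_invariant {s : Equiv.Perm V} {n : ℕ} (hs : s ^ n = 1) {K : Type} [AddCommGroup K]
    (f : V → K) (x : V) :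
    ∑ k ∈ range n, f ((s ^ k) (s x)) = ∑ k ∈ range n, f ((s ^ k) x) := by
  have h1 : ∀ k, f ((s ^ k) (s x)) = f ((s ^ (k + 1)) x) := by
    intro k
    rw [pow_succ]; rfl
  rw [Finset.sum_congr rfl (fun k _ => h1 k)]
  have h2 := Finset.sum_range_succ' (fun k => f ((s ^ k) x)) n
  have h3 := Finset.sum_range_succ (fun k => f ((s ^ k) x)) n
  rw [h3] at h2
  simp only [hs, pow_zero] at h2
  exact (add_right_cancel h2).symm

open Classical in
theorem exists_twisted (H : SimpleGraph V) (s : Equiv.Perm V) {n : ℕ} (hn : 0 < n)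
    (hs : s ^ n = 1) (hH : ∀ x y, H.Adj (s x) (s y) ↔ H.Adj x y) (θ : ℝ) (f : V → ℝ)
    (hf : ∀ x, ∑ y, (if H.Adj x y then f y else 0) = θ * f x) (hfs : ∃ x, f (s x) ≠ f x) :
    ∃ (ζ : ℂ) (F : V → ℂ), ζ ^ n = 1 ∧ ζ ≠ 1 ∧ F ≠ 0 ∧
      (∀ x, ∑ y, (if H.Adj x y then F y else 0) = (θ : ℂ) * F x) ∧ ∀ x, F (s x) = ζ * F x := by
  have hHk : ∀ k x y, H.Adj ((s ^ k) x) ((s ^ k) y) ↔ H.Adj x y := by
    intro k
    induction k with
    | zero => intro x y; simp
    | succ k ih =>
      intro x y
      have h1 : ∀ z, (s ^ (k + 1)) z = (s ^ k) (s z) := by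
        intro z; rw [pow_succ]; rfl
      rw [h1, h1, ih, hH]
  -- invariance of the eigenvalue equation
  have hinv : ∀ (F : V → ℂ), (∀ x, ∑ y, (if H.Adj x y then F y else 0) = (θ : ℂ) * F x) →
      ∀ k x, ∑ y, (if H.Adj x y then F ((s ^ k) y) else 0) = (θ : ℂ) * F ((s ^ k) x) := by
    intro F hF k x
    rw [← hF ((s ^ k) x)]
    refine Fintype.sum_equiv (s ^ k) _ _ ?_
    intro y
    simp only [hHk]
  set W := twistedSpace H s n θ with hW
  have hmap : ∀ F ∈ W, (LinearMap.funLeft ℂ ℂ s) F ∈ W := by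
    rintro F ⟨hF, hF'⟩
    refine ⟨?_, ?_⟩
    · intro x
      have := hinv F hF 1 x
      simpa [LinearMap.funLeft_apply] using this
    · intro x
      have h1 := orbit_sum_invariant hs F x
      rw [hF' x] at h1
      rw [← h1]
      apply Finset.sum_congr rfl
      intro k _
      rw [LinearMap.funLeft_apply]
      have h2 : s * s ^ k = s ^ k * s := by rw [← pow_succ, ← pow_succ']
      have h3 := congrArg (fun g : Equiv.Perm V => g x) h2
      exact congrArg F h3
  -- a nonzero element
  let G : V → ℂ := fun x => ∑ k ∈ range n, (f ((s ^ k) x) : ℂ)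
  have hG : ∀ x, G (s x) = G x := fun x => orbit_sum_invariant hs (fun x => (f x : ℂ)) x
  have hGk : ∀ k x, G ((s ^ k) x) = G x := by
    intro k
    induction k with
    | zero => intro x; simp
    | succ k ih =>
      intro x
      have h1 : (s ^ (k + 1)) x = (s ^ k) (s x) := by rw [pow_succ]; rfl
      rw [h1, ih, hG]
  have hn' : (n : ℂ) ≠ 0 := by exact_mod_cast hn.ne'
  let F₀ : V → ℂ := fun x => (f x : ℂ) - (n : ℂ)⁻¹ * G x
  have hfC : ∀ x, ∑ y, (if H.Adj x y then ((f y : ℝ) : ℂ) else 0) = (θ : ℂ) * f x := by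
    intro x
    have h1 := congrArg (fun t : ℝ => (t : ℂ)) (hf x)
    simp only [Complex.ofReal_sum, Complex.ofReal_mul] at h1
    rw [← h1]
    apply Finset.sum_congr rfl
    intro y _
    by_cases h : H.Adj x y
    · rw [if_pos h, if_pos h]
    · rw [if_neg h, if_neg h, Complex.ofReal_zero]
  have hGeq : ∀ x, ∑ y, (if H.Adj x y then G y else 0) = (θ : ℂ) * G x := by
    intro x
    have h1 : ∀ y, (if H.Adj x y then G y else 0) =
        ∑ k ∈ range n, (if H.Adj x y then (f ((s ^ k) y) : ℂ) else 0) := by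
      intro y
      by_cases h : H.Adj x y
      · simp only [if_pos h]; rfl
      · simp only [if_neg h, Finset.sum_const_zero]
    rw [Finset.sum_congr rfl (fun y _ => h1 y), Finset.sum_comm,
      Finset.sum_congr rfl (fun k _ => hinv (fun y => (f y : ℂ)) hfC k x), ← Finset.mul_sum]
  have hF₀ : F₀ ∈ W := by
    refine ⟨?_, ?_⟩
    · intro x
      have h1 : ∀ y, (if H.Adj x y then F₀ y else 0) =
          (if H.Adj x y then (f y : ℂ) else 0) - (n : ℂ)⁻¹ * (if H.Adj x y then G y else 0) := by
        intro y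
        by_cases h : H.Adj x y
        · rw [if_pos h, if_pos h, if_pos h]
        · rw [if_neg h, if_neg h, if_neg h]; ring
      rw [Finset.sum_congr rfl (fun y _ => h1 y), Finset.sum_sub_distrib, ← Finset.mul_sum,
        hfC x, hGeq x]
      simp only [F₀]
      ring
    · intro x
      simp only [F₀, hGk]
      rw [Finset.sum_sub_distrib, Finset.sum_const, card_range, nsmul_eq_mul, ← mul_assoc,
        mul_inv_cancel₀ hn', one_mul]
      exact sub_self _
  have hF₀0 : F₀ ≠ 0 := by
    intro h0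
    obtain ⟨x, hx⟩ := hfs
    have h1 : ∀ y, (f y : ℂ) = (n : ℂ)⁻¹ * G y := by
      intro y
      have := congrFun h0 y
      exact sub_eq_zero.1 this
    have h2 : (f (s x) : ℂ) = f x := by rw [h1, h1, hG]
    exact hx (by exact_mod_cast h2)
  let T : Module.End ℂ W := (LinearMap.funLeft ℂ ℂ s).restrict hmap
  have hnt : Nontrivial W := ⟨⟨⟨F₀, hF₀⟩, 0, by
    intro h; exact hF₀0 (congrArg Subtype.val h)⟩⟩
  obtain ⟨ζ, hζ⟩ := Module.End.exists_eigenvalue T
  obtain ⟨F, hF⟩ := hζ.exists_hasEigenvector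
  have hFne : F.1 ≠ 0 := by
    intro h
    exact hF.2 (Subtype.ext h)
  have hFs : ∀ x, F.1 (s x) = ζ * F.1 x := by
    intro x
    have h1 := hF.apply_eq_smul
    have h2 := congrArg Subtype.val h1
    have h3 := congrFun h2 x
    simpa [T, LinearMap.funLeft_apply] using h3
  have hFsk : ∀ k x, F.1 ((s ^ k) x) = ζ ^ k * F.1 x := by
    intro k
    induction k with
    | zero => intro x; simp
    | succ k ih =>
      intro x
      have h1 : (s ^ (k + 1)) x = (s ^ k) (s x) := by rw [pow_succ]; rfl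
      rw [h1, ih, hFs]; ring
  obtain ⟨x, hx⟩ : ∃ x, F.1 x ≠ 0 := by
    by_contra hcon
    push Not at hcon
    exact hFne (funext hcon)
  have hζn : ζ ^ n = 1 := by
    have h1 := hFsk n x
    rw [hs] at h1
    have h2 : F.1 x = ζ ^ n * F.1 x := h1
    have h3 : (ζ ^ n - 1) * F.1 x = 0 := by linear_combination -h2
    rcases mul_eq_zero.1 h3 with h | h
    · exact sub_eq_zero.1 h
    · exact absurd h hx
  refine ⟨ζ, F.1, hζn, ?_, hFne, F.2.1, hFs⟩
  rintro rfl
  have h1 := F.2.2 x
  simp only [hFsk, one_pow, one_mul, Finset.sum_const, card_range, nsmul_eq_mul] at h1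
  rcases mul_eq_zero.1 h1 with h | h
  · exact hn' h
  · exact hx h

end Pool.Agent.Lib.MP_7beb49_co
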