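import Mathlib

/-!
# Averages of roots of unity over the units

The average of `ζ ^ u` over the units `u` modulo `n`, where `ζ ^ n = 1` and `ζ ≠ 1`, has real part
at most `1 / 2`.
-/

set_option autoImplicit false

namespace Pool.Agent.Lib.MP_7beb49_co

open Finset


/-- The nonunits in an arithmetic progression with step the prime-to-`q` part. -/
theorem three_mul_card_le {n q m : ℕ} [NeZero n] (hq : q.Prime) (hq2 : q ≠ 2) (hqn : q ∣ n)
    (hqm : ¬ q ∣ m) :
    3 * (univ.filter (fun x : ZMod n => ZMod.castHom hqn (ZMod q) (1 + m * x) = 0)).card ≤ n := by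
  classical
  have : Fact q.Prime := ⟨hq⟩
  set π := ZMod.castHom hqn (ZMod q) with hπ
  set Z : Finset (ZMod n) := univ.filter (fun x : ZMod n => π (1 + m * x) = 0) with hZ
  have hm0 : (m : ZMod q) ≠ 0 := by
    rw [Ne, ZMod.natCast_eq_zero_iff]; exact hqm
  have h20 : (2 : ZMod q) ≠ 0 := by
    intro h
    have h1 : ((2 : ℕ) : ZMod q) = 0 := by exact_mod_cast h
    rw [ZMod.natCast_eq_zero_iff] at h1
    exact hq2 ((Nat.prime_dvd_prime_iff_eq hq Nat.prime_two).1 h1)
  have key : ∀ t : ℕ, t < 3 → ∀ s : ℕ, s < 3 → s ≠ t →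
      Disjoint (Z.image (fun x => x + (s : ZMod n))) (Z.image (fun x => x + (t : ZMod n))) := by
    intro t ht s hs hst
    rw [Finset.disjoint_left]
    rintro y hy hy'
    rw [Finset.mem_image] at hy hy'
    obtain ⟨x, hx, rfl⟩ := hy
    obtain ⟨x', hx', he⟩ := hy'
    rw [hZ, Finset.mem_filter] at hx hx'
    have h1 := hx.2
    have h2 := hx'.2
    rw [map_add, map_mul, map_one, map_natCast] at h1 h2
    have h3 := congrArg π he
    rw [map_add, map_add, map_natCast, map_natCast] at h3
    have h4 : (m : ZMod q) * ((s : ZMod q) - t) = 0 := by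
      have : (m : ZMod q) * ((s : ZMod q) - t) = m * π x' - m * π x := by
        rw [← mul_sub]; congr 1; linear_combination -h3
      rw [this]; linear_combination h2 - h1
    rcases mul_eq_zero.1 h4 with h | h
    · exact hm0 h
    · have h5 : (s : ZMod q) = t := sub_eq_zero.1 h
      have h6 : (s : ZMod q) - t = 0 := h
      interval_cases s <;> interval_cases t <;> simp_all
      all_goals first
        | exact h20 (by linear_combination h5)
        | exact h20 (by linear_combination -h5)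
        | exact one_ne_zero (by linear_combination h5)
        | exact one_ne_zero (by linear_combination -h5)
  have hU : (Z.image (fun x => x + ((0 : ℕ) : ZMod n)) ∪ Z.image (fun x => x + ((1 : ℕ) : ZMod n)) ∪
      Z.image (fun x => x + ((2 : ℕ) : ZMod n))).card = 3 * Z.card := by
    rw [Finset.card_union_of_disjoint, Finset.card_union_of_disjoint]
    · rw [Finset.card_image_of_injective _ (add_left_injective _),
        Finset.card_image_of_injective _ (add_left_injective _),
        Finset.card_image_of_injective _ (add_left_injective _)]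
      ring
    · exact key 1 (by norm_num) 0 (by norm_num) (by norm_num)
    · rw [Finset.disjoint_union_left]
      exact ⟨key 2 (by norm_num) 0 (by norm_num) (by norm_num),
        key 2 (by norm_num) 1 (by norm_num) (by norm_num)⟩
  rw [← hU]
  refine le_trans (Finset.card_le_univ _) ?_
  rw [ZMod.card]


/-- Units are multiples of units: values of a character. -/
theorem char_unit_mul {n : ℕ} [NeZero n] (χ : AddChar (ZMod n) ℂ) (x y : ZMod n) :
    χ (x * y) = χ y ^ x.val := by
  have h : x * y = x.val • y := by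
    rw [nsmul_eq_mul, ZMod.natCast_val, ZMod.cast_id']; rfl
  rw [h, AddChar.map_nsmul_eq_pow]

theorem sum_units_mul {n : ℕ} [NeZero n] (χ : AddChar (ZMod n) ℂ) {h : ZMod n} (hh : IsUnit h) :
    ∑ u : (ZMod n)ˣ, χ ((u : ZMod n) * h) = ∑ u : (ZMod n)ˣ, χ (u : ZMod n) := by
  obtain ⟨w, rfl⟩ := hh
  refine Fintype.sum_equiv (Equiv.mulRight w) _ _ ?_
  intro u
  rfl

theorem norm_sum_units_le {n q m e : ℕ} [NeZero n] {ζ : ℂ} (hζ : ζ ^ n = 1)
    (hq : q.Prime) (hq2 : q ≠ 2) (hqm : ¬ q ∣ m) (hn : n = q ^ e * m) (he : e ≠ 0)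
    (hm : ζ ^ m ≠ 1) :
    ‖∑ u : (ZMod n)ˣ, AddChar.zmodChar n hζ (u : ZMod n)‖ ≤ (Fintype.card (ZMod n)ˣ : ℝ) / 2 := by
  classical
  set χ := AddChar.zmodChar n hζ with hχ
  set S := ∑ u : (ZMod n)ˣ, χ (u : ZMod n) with hS
  have hqn : q ∣ n := by rw [hn]; exact Dvd.dvd.mul_right (dvd_pow_self q he) m
  have hχm : χ (m : ZMod n) = ζ ^ m := AddChar.zmodChar_apply' hζ m
  have hcop : ∀ k : ℕ, ¬ q ∣ 1 + m * k → Nat.Coprime (1 + m * k) n := by
    intro k hk
    rw [hn]
    apply Nat.Coprime.mul_right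
    · exact Nat.Coprime.pow_right _ ((Nat.Prime.coprime_iff_not_dvd hq).2 hk).symm
    · simp
  have hzero : ∀ v : (ZMod n)ˣ, ∑ x : ZMod n, χ ((v : ZMod n) * (1 + m * x)) = 0 := by
    intro v
    have h1 : ∀ x : ZMod n, χ ((v : ZMod n) * (1 + m * x)) =
        χ (v : ZMod n) * (AddChar.mulShift χ ((v : ZMod n) * m)) x := by
      intro x
      rw [AddChar.mulShift_apply, ← AddChar.map_add_eq_mul]
      congr 1; ring
    rw [Finset.sum_congr rfl (fun x _ => h1 x), ← Finset.mul_sum, AddChar.sum_eq_zero_of_ne_one,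
      mul_zero]
    intro h2
    have h3 : χ ((v : ZMod n) * m) = 1 := by
      have := congrArg (fun ψ : AddChar (ZMod n) ℂ => ψ 1) h2
      simpa [AddChar.mulShift_apply] using this
    apply hm
    rw [← hχm]
    have h4 : (m : ZMod n) = ((v⁻¹ : (ZMod n)ˣ) : ZMod n) * ((v : ZMod n) * m) := by
      rw [← mul_assoc, Units.inv_mul, one_mul]
    rw [h4, char_unit_mul, h3, one_pow]
  set T : Finset (ZMod n) := univ.filter (fun x => IsUnit (1 + (m : ZMod n) * x)) with hT
  have hTc : 3 * Tᶜ.card ≤ n := by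
    refine le_trans (Nat.mul_le_mul_left 3 (Finset.card_le_card ?_))
      (three_mul_card_le hq hq2 hqn hqm)
    intro x hx
    rw [Finset.mem_compl, hT, Finset.mem_filter] at hx
    rw [Finset.mem_filter]
    refine ⟨Finset.mem_univ _, ?_⟩
    by_contra h5
    apply hx
    refine ⟨Finset.mem_univ _, ?_⟩
    have h6 : (1 : ZMod n) + m * x = ((1 + m * x.val : ℕ) : ZMod n) := by
      push_cast
      rw [ZMod.natCast_val, ZMod.cast_id']; rfl
    rw [h6, ZMod.isUnit_iff_coprime]
    rw [h6, map_natCast, ZMod.natCast_eq_zero_iff] at h5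
    exact hcop _ h5
  have hcardT : T.card + Tᶜ.card = n := by
    rw [Finset.card_add_card_compl, ZMod.card]
  have h7 : (T.card : ℂ) * S = - ∑ v : (ZMod n)ˣ, ∑ x ∈ Tᶜ, χ ((v : ZMod n) * (1 + m * x)) := by
    have h8 : (T.card : ℂ) * S = ∑ x ∈ T, ∑ v : (ZMod n)ˣ, χ ((v : ZMod n) * (1 + m * x)) := by
      rw [Finset.sum_congr rfl (fun x hx => sum_units_mul χ (Finset.mem_filter.1 hx).2),
        Finset.sum_const, nsmul_eq_mul]
    rw [h8, Finset.sum_comm, ← Finset.sum_neg_distrib]
    apply Finset.sum_congr rfl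
    intro v _
    rw [eq_neg_iff_add_eq_zero, Finset.sum_add_sum_compl]
    exact hzero v
  have h9 : (T.card : ℝ) * ‖S‖ ≤ (Fintype.card (ZMod n)ˣ : ℝ) * Tᶜ.card := by
    have h10 : ‖(T.card : ℂ) * S‖ = (T.card : ℝ) * ‖S‖ := by
      rw [norm_mul, Complex.norm_natCast]
    rw [← h10, h7, norm_neg]
    refine le_trans (norm_sum_le _ _) ?_
    have h11 : ∀ v : (ZMod n)ˣ, ‖∑ x ∈ Tᶜ, χ ((v : ZMod n) * (1 + m * x))‖ ≤ Tᶜ.card := by
      intro v
      refine le_trans (norm_sum_le _ _) ?_
      rw [Finset.sum_congr rfl (fun x _ => AddChar.norm_apply χ _)]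
      simp
    refine le_trans (Finset.sum_le_sum (fun v _ => h11 v)) ?_
    rw [Finset.sum_const, nsmul_eq_mul, Finset.card_univ]
  have h12 : 2 * (Tᶜ.card : ℝ) ≤ T.card := by
    have : 2 * Tᶜ.card ≤ T.card := by omega
    exact_mod_cast this
  have h13 : (0 : ℝ) < T.card := by
    have h14 : 0 < n := Nat.pos_of_ne_zero (NeZero.ne n)
    have : 0 < T.card := by omega
    exact_mod_cast this
  have h15 : (0 : ℝ) ≤ (Fintype.card (ZMod n)ˣ : ℝ) := Nat.cast_nonneg _
  have h16 : (T.card : ℝ) * ‖S‖ ≤ T.card * ((Fintype.card (ZMod n)ˣ : ℝ) / 2) := by nlinarith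
  exact le_of_mul_le_mul_left h16 h13

/-- The average of a nontrivial root of unity over the units has real part at most `1/2`. -/
theorem re_sum_units_le {n : ℕ} [NeZero n] {ζ : ℂ} (hζ : ζ ^ n = 1) (h1 : ζ ≠ 1) :
    (∑ u : (ZMod n)ˣ, AddChar.zmodChar n hζ (u : ZMod n)).re
      ≤ (Fintype.card (ZMod n)ˣ : ℝ) / 2 := by
  classical
  have hn0 : n ≠ 0 := NeZero.ne n
  have hMn : orderOf ζ ∣ n := orderOf_dvd_of_pow_eq_one hζ
  have hM1 : orderOf ζ ≠ 1 := by rw [Ne, orderOf_eq_one_iff]; exact h1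
  have hφ : (0 : ℝ) ≤ (Fintype.card (ZMod n)ˣ : ℝ) := Nat.cast_nonneg _
  rcases Nat.eq_two_pow_or_exists_odd_prime_and_dvd (orderOf ζ) with ⟨k, hk⟩ | ⟨q, hq, hqM, hodd⟩
  · -- the order is a power of two
    have hk0 : k ≠ 0 := by
      rintro rfl
      exact hM1 (by simpa using hk)
    have h2n : 2 ∣ n := by
      refine dvd_trans ?_ hMn
      rw [hk]; exact dvd_pow_self 2 hk0
    have hodd : ∀ v : (ZMod n)ˣ, Odd ((v : ZMod n).val) := by
      intro v
      have h3 := ZMod.val_coe_unit_coprime v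
      rw [← Nat.not_even_iff_odd, even_iff_two_dvd]
      intro h4
      have := Nat.dvd_gcd h4 h2n
      rw [h3] at this
      omega
    set χ := AddChar.zmodChar n hζ with hχ
    obtain ⟨k', rfl⟩ := Nat.exists_eq_succ_of_ne_zero hk0
    have hneg : ζ ^ (2 ^ k') = -1 := by
      have h5 : (ζ ^ (2 ^ k')) ^ 2 = 1 := by
        rw [← pow_mul, ← pow_succ]
        exact (by rw [← hk]; exact pow_orderOf_eq_one ζ)
      have h5' : (ζ ^ (2 ^ k') - 1) * (ζ ^ (2 ^ k') + 1) = 0 := by linear_combination h5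
      rcases mul_eq_zero.1 h5' with h | h
      · have h := sub_eq_zero.1 h
        exfalso
        have h6 := orderOf_dvd_of_pow_eq_one h
        rw [hk] at h6
        have h7 := Nat.le_of_dvd (by positivity) h6
        have h8 : 2 ^ k' < 2 ^ (k' + 1) := Nat.pow_lt_pow_right (by norm_num) (by omega)
        omega
      · exact eq_neg_of_add_eq_zero_left h
    rcases Nat.eq_zero_or_pos k' with rfl | hk'
    · have hz : ζ = -1 := by simpa using hneg
      have h9 : ∑ u : (ZMod n)ˣ, χ (u : ZMod n) = - (Fintype.card (ZMod n)ˣ : ℂ) := by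
        have h10 : ∀ u : (ZMod n)ˣ, χ (u : ZMod n) = -1 := by
          intro u
          rw [hχ, AddChar.zmodChar_apply, hz]
          exact (hodd u).neg_one_pow
        rw [Finset.sum_congr rfl (fun u _ => h10 u)]
        simp
      rw [h9, Complex.neg_re, Complex.natCast_re]
      linarith
    · obtain ⟨e, m, hm, hnm⟩ := Nat.exists_eq_pow_mul_and_not_dvd hn0 2 (by norm_num)
      have hmodd : Odd m := by
        rw [← Nat.not_even_iff_odd, even_iff_two_dvd]; exact hm
      have hcop : Nat.Coprime (1 + 2 ^ k' * m) n := by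
        rw [hnm]
        apply Nat.Coprime.mul_right
        · apply Nat.Coprime.pow_right
          rw [Nat.coprime_two_right]
          have : Even (2 ^ k' * m) := by
            apply Even.mul_right
            exact (Nat.even_pow.2 ⟨even_two, by omega⟩)
          exact Even.one_add this
        · simp
      have hunit : IsUnit (((1 + 2 ^ k' * m : ℕ)) : ZMod n) :=
        (ZMod.isUnit_iff_coprime _ _).2 hcop
      have h11 : ∀ u : (ZMod n)ˣ, χ ((u : ZMod n) * ((1 + 2 ^ k' * m : ℕ) : ZMod n)) =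
          - χ (u : ZMod n) := by
        intro u
        have h12 : (u : ZMod n) * ((1 + 2 ^ k' * m : ℕ) : ZMod n) =
            (u : ZMod n) + (u : ZMod n) * ((2 ^ k' * m : ℕ) : ZMod n) := by
          push_cast; ring
        rw [h12, AddChar.map_add_eq_mul, char_unit_mul χ (u : ZMod n) ((2 ^ k' * m : ℕ) : ZMod n),
          hχ, AddChar.zmodChar_apply' hζ, pow_mul, hneg, hmodd.neg_one_pow,
          (hodd u).neg_one_pow]
        ring
      have h13 := sum_units_mul χ hunit
      rw [Finset.sum_congr rfl (fun u _ => h11 u), Finset.sum_neg_distrib] at h13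
      have h14 : ∑ u : (ZMod n)ˣ, χ (u : ZMod n) = 0 := by
        linear_combination (-1 / 2 : ℂ) * h13
      rw [h14, Complex.zero_re]
      linarith
  · obtain ⟨e, m, hm, hnm⟩ := Nat.exists_eq_pow_mul_and_not_dvd hn0 q hq.one_lt.ne'
    have hq2 : q ≠ 2 := by
      rintro rfl
      exact absurd hodd (by decide)
    have he : e ≠ 0 := by
      rintro rfl
      rw [pow_zero, one_mul] at hnm
      exact hm (hnm ▸ dvd_trans hqM hMn)
    have hζm : ζ ^ m ≠ 1 := by
      intro h
      exact hm (dvd_trans hqM (orderOf_dvd_of_pow_eq_one h))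
    exact le_trans (Complex.re_le_norm _) (norm_sum_units_le hζ hq hq2 hm hnm he hζm)

end Pool.Agent.Lib.MP_7beb49_co
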