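import Mathlib

/-!
# Averages of `|ω ^ m - 1|` over the units modulo `n`

The average over `m` in the unit group modulo `n` of `|ω ^ m - 1|` is at least one for every
`n`-th root of unity `ω ≠ 1`.
-/

set_option autoImplicit false

namespace Pool.Agent.Lib.MP_7beb49_co

open Polynomial

/-- The product of `ω ^ m - 1` over the units modulo the order has absolute value at least one. -/
theorem one_le_prod_units {d : ℕ} [NeZero d] {ω : ℂ} (hω : IsPrimitiveRoot ω d) (hd : 1 < d) :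
    1 ≤ ∏ u : (ZMod d)ˣ, ‖ω ^ (u : ZMod d).val - 1‖ := by
  classical
  have hprim : ∀ u : (ZMod d)ˣ, IsPrimitiveRoot (ω ^ (u : ZMod d).val) d := by
    intro u
    exact hω.pow_of_coprime _ (ZMod.val_coe_unit_coprime u)
  have hprod : ∏ u : (ZMod d)ˣ, (1 - ω ^ (u : ZMod d).val) = eval 1 (cyclotomic d ℂ) := by
    rw [cyclotomic_eq_prod_X_sub_primitiveRoots hω, eval_prod]
    refine Finset.prod_bij (fun u _ => ω ^ (u : ZMod d).val) ?_ ?_ ?_ ?_
    · intro u _
      exact (mem_primitiveRoots (NeZero.pos d)).2 (hprim u)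
    · intro u _ v _ huv
      have h1 := hω.pow_inj (ZMod.val_lt _) (ZMod.val_lt _) huv
      exact Units.ext (ZMod.val_injective d h1)
    · intro ζ hζ
      rw [mem_primitiveRoots (NeZero.pos d)] at hζ
      obtain ⟨i, hi, hcop, rfl⟩ := (hω.isPrimitiveRoot_iff).1 hζ
      refine ⟨ZMod.unitOfCoprime i hcop, Finset.mem_univ _, ?_⟩
      rw [ZMod.coe_unitOfCoprime, ZMod.val_natCast, Nat.mod_eq_of_lt hi]
    · intro u _
      simp
  have hne : eval 1 (cyclotomic d ℂ) ≠ 0 := by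
    rw [← hprod, Finset.prod_ne_zero_iff]
    intro u _ h
    have h1 := hprim u
    rw [sub_eq_zero] at h
    rw [← h] at h1
    have h2 := h1.eq_orderOf
    rw [orderOf_one] at h2
    omega
  have hint : eval 1 (cyclotomic d ℂ) = ((eval 1 (cyclotomic d ℤ) : ℤ) : ℂ) := by
    rw [← map_cyclotomic_int d ℂ, eval_one_map]
    simp
  rw [hint] at hne hprod
  have hz : eval 1 (cyclotomic d ℤ) ≠ 0 := by
    intro h
    rw [h] at hne
    simp at hne
  have h1 : (1 : ℝ) ≤ ‖((eval 1 (cyclotomic d ℤ) : ℤ) : ℂ)‖ := by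
    rw [Complex.norm_intCast]
    exact_mod_cast Int.one_le_abs hz
  rw [← hprod, norm_prod] at h1
  refine h1.trans (le_of_eq ?_)
  refine Finset.prod_congr rfl fun u _ => ?_
  rw [norm_sub_rev]

/-- The average of `|ω ^ m - 1|` over the units `m` modulo `n` is at least one, for every root of
unity `ω ≠ 1` with `ω ^ n = 1`. -/
theorem card_le_sum_units {n : ℕ} [NeZero n] {ω : ℂ} (hn : ω ^ n = 1) (h1 : ω ≠ 1) :
    (Fintype.card (ZMod n)ˣ : ℝ) ≤ ∑ m : (ZMod n)ˣ, ‖ω ^ (m : ZMod n).val - 1‖ := by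
  classical
  set d := orderOf ω with hd
  have hdn : d ∣ n := orderOf_dvd_of_pow_eq_one hn
  have hdpos : 0 < d := Nat.pos_of_dvd_of_pos hdn (NeZero.pos n)
  have : NeZero d := ⟨hdpos.ne'⟩
  have hω : IsPrimitiveRoot ω d := IsPrimitiveRoot.orderOf ω
  have hd1 : 1 < d := by
    rcases Nat.lt_or_ge 1 d with h | h
    · exact h
    · exfalso
      have h2 : orderOf ω = 1 := by omega
      exact h1 (orderOf_eq_one_iff.1 h2)
  have hpos : ∀ u : (ZMod d)ˣ, 0 < ‖ω ^ (u : ZMod d).val - 1‖ := by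
    intro u
    rw [norm_pos_iff, sub_ne_zero]
    intro h
    have h2 := hω.pow_of_coprime _ (ZMod.val_coe_unit_coprime u)
    rw [h] at h2
    have h3 := h2.eq_orderOf
    rw [orderOf_one] at h3
    omega
  -- the reduction map
  let π : (ZMod n)ˣ →* (ZMod d)ˣ := ZMod.unitsMap hdn
  have hπ : Function.Surjective π := ZMod.unitsMap_surjective hdn
  have hval : ∀ m : (ZMod n)ˣ, ω ^ (m : ZMod n).val = ω ^ (π m : ZMod d).val := by
    intro m
    have h2 : ((π m : (ZMod d)ˣ) : ZMod d).val = (m : ZMod n).val % d := by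
      change (ZMod.castHom hdn (ZMod d) (m : ZMod n)).val = _
      rw [ZMod.castHom_apply, ZMod.cast_eq_val, ZMod.val_natCast]
    rw [h2, ← pow_mod_orderOf]
  have hfib : ∀ F : (ZMod d)ˣ → ℝ, ∃ k : ℕ, (∑ m : (ZMod n)ˣ, F (π m)) = k * ∑ u, F u := by
    intro F
    refine ⟨(Finset.univ.filter (fun m : (ZMod n)ˣ => π m = 1)).card, ?_⟩
    have hcard : ∀ u : (ZMod d)ˣ, (Finset.univ.filter (fun m : (ZMod n)ˣ => π m = u)).card =
        (Finset.univ.filter (fun m : (ZMod n)ˣ => π m = 1)).card := by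
      intro u
      exact MonoidHom.card_fiber_eq_of_mem_range π (hπ u) ⟨1, map_one π⟩
    rw [← Finset.sum_fiberwise_of_maps_to (g := π) (t := Finset.univ)
      (fun m _ => Finset.mem_univ (π m)), Finset.mul_sum]
    refine Finset.sum_congr rfl fun u _ => ?_
    rw [← hcard u]
    rw [Finset.sum_congr rfl (g := fun _ => F u) (fun m hm => by
      rw [(Finset.mem_filter.1 hm).2])]
    rw [Finset.sum_const, nsmul_eq_mul]
  obtain ⟨k, hk⟩ := hfib (fun u => Real.log ‖ω ^ (u : ZMod d).val - 1‖)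
  have hlog : 0 ≤ ∑ u : (ZMod d)ˣ, Real.log ‖ω ^ (u : ZMod d).val - 1‖ := by
    rw [← Real.log_prod (fun u _ => (hpos u).ne')]
    exact Real.log_nonneg (one_le_prod_units hω hd1)
  have h2 : 0 ≤ ∑ m : (ZMod n)ˣ, Real.log ‖ω ^ (π m : ZMod d).val - 1‖ := by
    rw [hk]
    positivity
  have h3 : ∑ m : (ZMod n)ˣ, (1 + Real.log ‖ω ^ (π m : ZMod d).val - 1‖) ≤
      ∑ m : (ZMod n)ˣ, ‖ω ^ (m : ZMod n).val - 1‖ := by
    refine Finset.sum_le_sum fun m _ => ?_
    rw [hval m]
    have := Real.log_le_sub_one_of_pos (hpos (π m))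
    linarith
  rw [Finset.sum_add_distrib] at h3
  simp only [Finset.sum_const, Finset.card_univ, nsmul_eq_mul, mul_one] at h3
  linarith

end Pool.Agent.Lib.MP_7beb49_co
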